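import Pool.Agent.DBR.Stmts

/-!
# MP_910507_an, squad DBR: module ACC, preimages of a segment leaving the image reach the unit circle
-/

set_option autoImplicit false

namespace Pool.Agent.DBR

open Complex Metric Set Filter MeasureTheory
open scoped Topology ComplexConjugate
open Pool.Agent.PSB (InS coeff psum Lam SelfU)

namespace ACC_

theorem open_image (h : ℂ → ℂ) (hd : DifferentiableOn ℂ h (ball 0 1)) (hi : InjOn h (ball 0 1))
    (s : Set ℂ) (hs : s ⊆ ball 0 1) (ho : IsOpen s) : IsOpen (h '' s) := by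
  have han : AnalyticOnNhd ℂ h (ball 0 1) := hd.analyticOnNhd isOpen_ball
  have hpc : IsPreconnected (ball (0 : ℂ) 1) := (convex_ball (0 : ℂ) 1).isPreconnected
  rcases han.is_constant_or_isOpen hpc with hc | hc
  · obtain ⟨w, hw⟩ := hc
    have h0 : (0 : ℂ) ∈ ball (0 : ℂ) 1 := by simp
    have h1 : (1 / 2 : ℂ) ∈ ball (0 : ℂ) 1 := by
      rw [mem_ball_zero_iff]
      norm_num
    have h2 : (0 : ℂ) = 1 / 2 := hi h0 h1 (by rw [hw 0 h0, hw (1 / 2) h1])
    norm_num at h2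
  · exact hc s hs ho

/-- the inverse function of `h` on the image of the ball -/
noncomputable def inv (h : ℂ → ℂ) : ℂ → ℂ := Function.invFunOn h (ball 0 1)

theorem inv_mem (h : ℂ → ℂ) {w : ℂ} (hw : w ∈ h '' ball 0 1) : inv h w ∈ ball (0 : ℂ) 1 :=
  Function.invFunOn_mem hw

theorem inv_eq (h : ℂ → ℂ) {w : ℂ} (hw : w ∈ h '' ball 0 1) : h (inv h w) = w :=
  Function.invFunOn_eq hw

theorem inv_cont (h : ℂ → ℂ) (hd : DifferentiableOn ℂ h (ball 0 1)) (hi : InjOn h (ball 0 1)) :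
    ContinuousOn (inv h) (h '' ball 0 1) := by
  intro w hw
  refine ContinuousAt.continuousWithinAt ?_
  rw [ContinuousAt, tendsto_def]
  intro U hU
  obtain ⟨U', hU', hUo, hwU⟩ := _root_.mem_nhds_iff.mp hU
  have ho : IsOpen (h '' (U' ∩ ball 0 1)) :=
    open_image h hd hi _ inter_subset_right (hUo.inter isOpen_ball)
  have hm : w ∈ h '' (U' ∩ ball 0 1) := ⟨inv h w, ⟨hwU, inv_mem h hw⟩, inv_eq h hw⟩
  filter_upwards [ho.mem_nhds hm] with w' hw'
  obtain ⟨z, ⟨hz1, hz2⟩, rfl⟩ := hw'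
  have hw2 : h z ∈ h '' ball 0 1 := ⟨z, hz2, rfl⟩
  have : inv h (h z) = z := hi (inv_mem h hw2) hz2 (inv_eq h hw2)
  rw [mem_preimage, this]
  exact hU' hz1

end ACC_

open ACC_ in
theorem acc_proof : Stmt_ACC := by
  intro h q v hd hi hq hv
  set γ : ℝ → ℂ := fun t => q + t • (v - q) with hγ
  have hγc : Continuous γ := by
    rw [hγ]
    fun_prop
  have hVo : IsOpen (h '' ball 0 1) := open_image h hd hi _ subset_rfl isOpen_ball
  set S : Set ℝ := Icc 0 1 ∩ γ ⁻¹' (h '' ball 0 1)ᶜ with hS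
  have hSc : IsClosed S := isClosed_Icc.inter (hVo.isClosed_compl.preimage hγc)
  have h1S : (1 : ℝ) ∈ S := by
    refine ⟨⟨zero_le_one, le_rfl⟩, ?_⟩
    have : γ 1 = v := by simp [hγ]
    rw [mem_preimage, this]
    exact hv
  have hbb : BddBelow S := ⟨0, fun t ht => ht.1.1⟩
  set T : ℝ := sInf S with hT
  have hTS : T ∈ S := hSc.csInf_mem ⟨1, h1S⟩ hbb
  have hT0 : 0 < T := by
    rcases lt_or_eq_of_le hTS.1.1 with h0 | h0
    · exact h0
    · exfalso
      apply hTS.2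
      have : γ T = q := by rw [← h0]; simp [hγ]
      rw [this]
      exact hq
  have hT1 : T ≤ 1 := hTS.1.2
  have hlt : ∀ t : ℝ, 0 ≤ t → t < T → γ t ∈ h '' ball 0 1 := by
    intro t ht0 htT
    by_contra hc
    have : t ∈ S := ⟨⟨ht0, by linarith⟩, hc⟩
    exact absurd (csInf_le hbb this) (not_le.mpr htT)
  set β : ℝ → ℂ := fun t => inv h (γ t) with hβ
  have hβm : ∀ t : ℝ, 0 ≤ t → t < T → β t ∈ ball (0 : ℂ) 1 := fun t h0 h1 => inv_mem h (hlt t h0 h1)
  have hβe : ∀ t : ℝ, 0 ≤ t → t < T → h (β t) = γ t := fun t h0 h1 => inv_eq h (hlt t h0 h1)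
  have hβc : ContinuousOn β (Ico 0 T) := by
    refine (inv_cont h hd hi).comp hγc.continuousOn ?_
    intro t ht
    exact hlt t ht.1 ht.2
  -- the sequence
  set τ : ℕ → ℝ := fun j => T * (1 - 1 / ((j : ℝ) + 1)) with hτ
  have hτ0 : ∀ j, 0 ≤ τ j := by
    intro j
    have h1 : (1 : ℝ) / ((j : ℝ) + 1) ≤ 1 := by
      rw [div_le_one (by positivity)]
      have : (0 : ℝ) ≤ j := Nat.cast_nonneg j
      linarith
    exact mul_nonneg hT0.le (by linarith)
  have hτT : ∀ j, τ j < T := by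
    intro j
    have h1 : (0 : ℝ) < 1 / ((j : ℝ) + 1) := by positivity
    have : T * (1 - 1 / ((j : ℝ) + 1)) = T - T * (1 / ((j : ℝ) + 1)) := by ring
    have h3 := mul_pos hT0 h1
    show T * (1 - 1 / ((j : ℝ) + 1)) < T
    linarith
  have hτl : Tendsto τ atTop (𝓝 T) := by
    have h1 : Tendsto (fun j : ℕ => 1 / ((j : ℝ) + 1)) atTop (𝓝 0) := tendsto_one_div_add_atTop_nhds_zero_nat
    have h2 : Tendsto (fun j : ℕ => T * (1 - 1 / ((j : ℝ) + 1))) atTop (𝓝 (T * (1 - 0))) :=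
      tendsto_const_nhds.mul (tendsto_const_nhds.sub h1)
    rw [sub_zero, mul_one] at h2
    exact h2
  have hcb : ∀ j, β (τ j) ∈ closedBall (0 : ℂ) 1 := fun j =>
    ball_subset_closedBall (hβm _ (hτ0 j) (hτT j))
  obtain ⟨ζ, hζc, φ, hφ, hζ⟩ := (isCompact_closedBall (0 : ℂ) 1).tendsto_subseq hcb
  have hζ1 : ‖ζ‖ = 1 := by
    have hle : ‖ζ‖ ≤ 1 := by simpa using hζc
    rcases lt_or_eq_of_le hle with hl | hl
    · exfalso
      have hζb : ζ ∈ ball (0 : ℂ) 1 := by simpa using hl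
      have hca : ContinuousAt h ζ :=
        (hd.continuousOn).continuousAt (isOpen_ball.mem_nhds hζb)
      have h1 : Tendsto (fun j => h (β (τ (φ j)))) atTop (𝓝 (h ζ)) := hca.tendsto.comp hζ
      have h2 : Tendsto (fun j => γ (τ (φ j))) atTop (𝓝 (γ T)) :=
        (hγc.tendsto T).comp (hτl.comp hφ.tendsto_atTop)
      have h3 : (fun j => h (β (τ (φ j)))) = fun j => γ (τ (φ j)) := by
        funext j
        exact hβe _ (hτ0 _) (hτT _)
      rw [h3] at h1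
      have h4 : h ζ = γ T := tendsto_nhds_unique h1 h2
      exact hTS.2 ⟨ζ, hζb, h4⟩
    · exact hl
  have hβ0 : ‖β 0‖ < 1 := by simpa using hβm 0 le_rfl hT0
  have hη0 : 0 < ‖β 0 - ζ‖ := by
    rw [norm_pos_iff, sub_ne_zero]
    intro he
    rw [he, hζ1] at hβ0
    exact lt_irrefl _ hβ0
  refine ⟨ζ, ‖β 0 - ζ‖, hζ1, hη0, ?_⟩
  intro η hη hη'
  have hnear : ∀ᶠ j in atTop, ‖β (τ (φ j)) - ζ‖ < η := by
    have h1 : Tendsto (fun j => ‖β (τ (φ j)) - ζ‖) atTop (𝓝 ‖ζ - ζ‖) := (hζ.sub_const ζ).norm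
    rw [sub_self, norm_zero] at h1
    exact h1.eventually (gt_mem_nhds hη)
  obtain ⟨j, hj⟩ := hnear.exists
  have hsub : Icc 0 (τ (φ j)) ⊆ Ico 0 T := fun t ht => ⟨ht.1, lt_of_le_of_lt ht.2 (hτT _)⟩
  have hcont : ContinuousOn (fun t => ‖β t - ζ‖) (Icc 0 (τ (φ j))) :=
    ((hβc.mono hsub).sub continuousOn_const).norm
  obtain ⟨t, ht, hte⟩ := intermediate_value_Icc' (hτ0 (φ j)) hcont (show η ∈ Icc _ _ from ⟨hj.le, hη'.le⟩)
  have htI := hsub ht
  refine ⟨β t, hβm t htI.1 htI.2, hte, ?_⟩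
  rw [hβe t htI.1 htI.2, segment_eq_image']
  exact ⟨t, ⟨htI.1, by linarith [htI.2]⟩, rfl⟩

end Pool.Agent.DBR
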