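import Pool.Agent.DBR.Stmts
import Pool.Agent.PSB.ARE

/-!
DBR, module ARA: the area of the image of an injective holomorphic function.
-/

set_option autoImplicit false

namespace Pool.Agent.DBR

open Complex Metric Set Filter MeasureTheory

open scoped Topology ComplexConjugate

open Pool.Agent.PSB (InS coeff psum Lam SelfU)

theorem ara_proof : Stmt_ARA := by
  intro h R hh hinj hb
  have hR : 0 ≤ R := (norm_nonneg _).trans (hb 0 (mem_ball_self one_pos))
  have hder : ∀ z ∈ ball (0 : ℂ) 1, HasFDerivWithinAt h
      ((ContinuousLinearMap.toSpanSingleton ℂ (deriv h z)).restrictScalars ℝ : ℂ →L[ℝ] ℂ)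
      (ball 0 1) z := by
    intro z hz
    have h1 : HasDerivAt h (deriv h z) z :=
      (hh.differentiableAt (isOpen_ball.mem_nhds hz)).hasDerivAt
    exact (h1.hasFDerivAt.restrictScalars ℝ).hasFDerivWithinAt
  have key := lintegral_image_eq_lintegral_abs_det_fderiv_mul volume measurableSet_ball hder hinj
    (fun _ => (1 : ENNReal))
  simp only [Pool.Agent.PSB.ARE_.det_holo, mul_one, lintegral_one, abs_pow, abs_norm,
    Measure.restrict_apply_univ] at key
  rw [← key]
  calc volume (h '' ball 0 1) ≤ volume (closedBall (0 : ℂ) R) := by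
        refine measure_mono ?_
        rintro _ ⟨z, hz, rfl⟩
        rw [mem_closedBall_zero_iff]
        exact hb z hz
    _ = ENNReal.ofReal (Real.pi * R ^ 2) := by
        rw [Complex.volume_closedBall, mul_comm, ENNReal.ofReal_mul Real.pi_pos.le,
          ENNReal.ofReal_pow hR]
        congr 1
        rw [ENNReal.ofReal_coe_nnreal.symm]
        rfl

end Pool.Agent.DBR
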