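import Pool.Agent.DBR.Stmts

set_option autoImplicit false

namespace Pool.Agent.DBR

open Complex Metric Set Filter MeasureTheory

open scoped Topology ComplexConjugate

open Pool.Agent.PSB (InS coeff psum Lam SelfU)

namespace ARI_

theorem mul_bd {a b c d : ℝ} (h1 : |a| ≤ c) (h2 : |b| ≤ d) : a * b ≤ c * d := by
  have h3 : |a * b| ≤ c * d := by
    rw [abs_mul]
    exact mul_le_mul h1 h2 (abs_nonneg _) ((abs_nonneg _).trans h1)
  exact (le_abs_self _).trans h3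

end ARI_

open ARI_ in
theorem ARI_proof : Stmt_ARI := by
  intro n b E t A X Y X' Y' hn hb hnb hE hE4 ht hXY hX hY hX' hY' hA
  set N : ℝ := (n : ℝ) with hNdef
  have hN : (2 : ℝ) ≤ N := by rw [hNdef]; exact_mod_cast hn
  have hN0 : 0 < N := by linarith
  have hs : Real.sqrt E * Real.sqrt E = E := Real.mul_self_sqrt hE
  -- the powers
  set B : ℝ := N ^ 16 * b with hB
  have hB0 : 0 < B := by positivity
  have hB1 : B ≤ 1 / 10 ^ 5 := by
    rw [le_div_iff₀ (by norm_num)]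
    calc B * 10 ^ 5 = 10 ^ 5 * N ^ 16 * b := by rw [hB]; ring
      _ ≤ 1 := hnb
  have h15 : N ^ 15 * b ≤ B / 2 := by
    have h1 : 0 ≤ N ^ 15 * b := by positivity
    have h2 : B = N * (N ^ 15 * b) := by rw [hB]; ring
    rw [h2]
    nlinarith
  have h13 : N ^ 13 * b ≤ B / 8 := by
    have h1 : 0 ≤ N ^ 13 * b := by positivity
    have h2 : B = N ^ 3 * (N ^ 13 * b) := by rw [hB]; ring
    have h3 : (8 : ℝ) ≤ N ^ 3 := by
      calc (8 : ℝ) = 2 ^ 3 := by norm_num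
        _ ≤ N ^ 3 := pow_le_pow_left₀ (by norm_num) hN 3
    rw [h2]
    nlinarith
  have h5 : N ^ 5 * b ≤ B / 2048 := by
    have h1 : 0 ≤ N ^ 5 * b := by positivity
    have h2 : B = N ^ 11 * (N ^ 5 * b) := by rw [hB]; ring
    have h3 : (2048 : ℝ) ≤ N ^ 11 := by
      calc (2048 : ℝ) = 2 ^ 11 := by norm_num
        _ ≤ N ^ 11 := pow_le_pow_left₀ (by norm_num) hN 11
    rw [h2]
    nlinarith
  have h2b : N ^ 2 * b ≤ 1 := by
    have h1 : 0 ≤ N ^ 2 * b := by positivity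
    have h2 : B = N ^ 14 * (N ^ 2 * b) := by rw [hB]; ring
    have h3 : (1 : ℝ) ≤ N ^ 14 := one_le_pow₀ (by linarith)
    have h4 : N ^ 2 * b ≤ B := by rw [h2]; nlinarith
    refine h4.trans (hB1.trans (by norm_num))
  have hBE : 0 ≤ B * E := mul_nonneg hB0.le hE
  -- t
  have ht3 : 3 ≤ t := by rw [ht]; nlinarith
  have htN : t ≤ 3 / 4 * N ^ 2 := by rw [ht]; nlinarith
  have hA1 := abs_le.1 hA
  have h12 : 12 * N ^ 5 * b ≤ 1 := by
    have : 12 * N ^ 5 * b = 12 * (N ^ 5 * b) := by ring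
    rw [this]
    have h6 : B ≤ 1 := hB1.trans (by norm_num)
    nlinarith
  have hA0 : 0 ≤ A := by linarith [hA1.1]
  have hAN : |A| ≤ N ^ 2 := by
    rw [abs_of_nonneg hA0]
    have h6 : (4 : ℝ) ≤ N ^ 2 := by nlinarith
    linarith [hA1.2]
  have hXt : |X| ≤ 3 / 2 * N ^ 2 := by
    have h6 : (t + X) ^ 2 ≤ (t - E / 3) ^ 2 := by
      have h60 := sq_nonneg Y
      linarith
    have h7 : |t + X| ≤ |t - E / 3| := sq_le_sq.1 h6
    have h8 : |t - E / 3| = t - E / 3 := abs_of_nonneg (by linarith)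
    rw [h8] at h7
    have h9 := abs_le.1 h7
    rw [abs_le]
    constructor
    · linarith [h9.1]
    · linarith [h9.2]
  refine ⟨hA0, ?_⟩
  -- the terms
  have hbr : 2 * t * X + X ^ 2 + Y ^ 2 ≤ -(14 / 9) * E := by
    have h6 : 2 * t * X + X ^ 2 + Y ^ 2 ≤ -(2 / 3) * (t * E) + E ^ 2 / 9 := by
      have e1 : (t + X) ^ 2 + Y ^ 2 = t ^ 2 + (2 * t * X + X ^ 2 + Y ^ 2) := by ring
      have e2 : (t - E / 3) ^ 2 = t ^ 2 + (-(2 / 3) * (t * E) + E ^ 2 / 9) := by ring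
      rw [e1, e2] at hXY
      linarith
    have h7 : E ^ 2 ≤ 4 * E := by
      rw [sq]
      exact mul_le_mul_of_nonneg_right hE4 hE
    have h8 : 3 * E ≤ t * E := mul_le_mul_of_nonneg_right ht3 hE
    linarith
  have T1 : (A - t) * X ≤ 5616 * (B * E) := by
    refine (mul_bd hA hX).trans (le_of_eq ?_)
    rw [hB]; ring
  have T2 : A * X' ≤ 1800 * (B * E) := by
    refine (mul_bd hAN hX').trans ?_
    have h6 : N ^ 2 * (3600 * N ^ 13 * b * E) = 3600 * ((N ^ 15 * b) * E) := by ring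
    rw [h6]
    have h7 : (N ^ 15 * b) * E ≤ (B / 2) * E := mul_le_mul_of_nonneg_right h15 hE
    linarith
  have T3 : X * X' ≤ 2700 * (B * E) := by
    refine (mul_bd hXt hX').trans ?_
    have h6 : 3 / 2 * N ^ 2 * (3600 * N ^ 13 * b * E) = 5400 * ((N ^ 15 * b) * E) := by ring
    rw [h6]
    have h7 : (N ^ 15 * b) * E ≤ (B / 2) * E := mul_le_mul_of_nonneg_right h15 hE
    linarith
  have hX1 : |X'| ≤ 1 := by
    refine hX'.trans ?_
    have h6 : 3600 * N ^ 13 * b * E = 3600 * ((N ^ 13 * b) * E) := by ring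
    rw [h6]
    have h7 : (N ^ 13 * b) * E ≤ (B / 8) * 4 := mul_le_mul h13 hE4 hE (by positivity)
    linarith
  have T4 : X' * X' ≤ 450 * (B * E) := by
    refine (mul_bd hX' hX1).trans ?_
    have h6 : 3600 * N ^ 13 * b * E * 1 = 3600 * ((N ^ 13 * b) * E) := by ring
    rw [h6]
    have h7 : (N ^ 13 * b) * E ≤ (B / 8) * E := mul_le_mul_of_nonneg_right h13 hE
    linarith
  have T5 : Y * Y' ≤ 1792 * (B * E) := by
    refine (mul_bd hY hY').trans (le_of_eq ?_)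
    have h6 : 16 * N ^ 7 * Real.sqrt E * (112 * N ^ 9 * b * Real.sqrt E) =
      1792 * (N ^ 16 * b * (Real.sqrt E * Real.sqrt E)) := by ring
    rw [h6, hs]
  have T6 : Y' * Y' ≤ 12544 * (B * E) := by
    refine (mul_bd hY' hY').trans ?_
    have h6 : 112 * N ^ 9 * b * Real.sqrt E * (112 * N ^ 9 * b * Real.sqrt E) =
      12544 * ((B * (Real.sqrt E * Real.sqrt E)) * (N ^ 2 * b)) := by rw [hB]; ring
    rw [h6, hs]
    have h7 : (B * E) * (N ^ 2 * b) ≤ (B * E) * 1 := mul_le_mul_of_nonneg_left h2b hBE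
    linarith
  have hBE2 : B * E ≤ 1 / 10 ^ 5 * E := mul_le_mul_of_nonneg_right hB1 hE
  have key : (A + X + X') ^ 2 + (Y + Y') ^ 2 - A ^ 2 = (2 * t * X + X ^ 2 + Y ^ 2) +
      2 * ((A - t) * X) + 2 * (A * X') + 2 * (X * X') + X' * X' + 2 * (Y * Y') + Y' * Y' := by
    ring
  have h10 : (A + X + X') ^ 2 + (Y + Y') ^ 2 - A ^ 2 ≤
      -(14 / 9) * E + 36810 * (B * E) := by
    rw [key]
    linarith
  have h11 : -(14 / 9) * E + 36810 * (B * E) ≤ 0 := by
    have h12 : 36810 * (B * E) ≤ 36810 * (1 / 10 ^ 5 * E) := by linarith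
    have h13 : (36810 : ℝ) * (1 / 10 ^ 5 * E) ≤ 14 / 9 * E := by
      have : (36810 : ℝ) * (1 / 10 ^ 5 * E) = (36810 / 10 ^ 5) * E := by ring
      rw [this]
      exact mul_le_mul_of_nonneg_right (by norm_num) hE
    linarith
  linarith

end Pool.Agent.DBR
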