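import Pool.Agent.DBR.Stmts

set_option autoImplicit false

/-!
The step for the Taylor coefficients (module AST of the squad DBR, MP_910507_an).
-/

namespace Pool.Agent.DBR

open Complex Metric Set Filter MeasureTheory

open scoped Topology ComplexConjugate

open Pool.Agent.PSB (InS coeff psum Lam SelfU)

namespace AST_

theorem exp_bd {ε : ℝ} (h0 : 0 < ε) (h1 : ε ≤ 1) :
    ‖Complex.exp (ε : ℂ) - 1 - (ε : ℂ)‖ ≤ ε ^ 2 := by
  have h := Complex.norm_exp_sub_one_sub_id_le (x := (ε : ℂ))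
    (by rw [Complex.norm_real, Real.norm_of_nonneg h0.le]; exact h1)
  rwa [Complex.norm_real, Real.norm_of_nonneg h0.le] at h

end AST_

open AST_

theorem ast_proof (hCMP : Stmt_CMP) (hEXP : Stmt_EXP) (hQMO : Stmt_QMO) : Stmt_AST := by
  intro n M
  obtain ⟨CE, hCE, hE⟩ := hEXP n
  have hB0 : (0 : ℝ) ≤ |M| := abs_nonneg M
  set B : ℝ := |M| with hB
  refine ⟨(B * (1 + n) + 2 * n ^ 2 * B + n * B * CE) + n * B * CE + (n * B + 2 * n ^ 2 * B) +
    n * B * CE, by positivity, ?_⟩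
  intro ε f g p h0 h1 hf hg hs k hk hkn
  have hkn' : (k : ℝ) ≤ n := by exact_mod_cast hkn
  have hk0 : (0 : ℝ) ≤ k := by positivity
  have hgB : ∀ j, ‖coeff g j‖ ≤ B := fun j => (norm_coeff_le_of_inS hg j).trans (le_abs_self M)
  have hp := hs.car
  have hpB : ∀ m, 1 ≤ m → ‖coeff p m‖ ≤ 2 := fun m hm => ((hQMO p hp).2.2 m hm).1
  have hga : AnalyticAt ℂ g 0 := (toSS hg).analyticAt
  have hwa : AnalyticAt ℂ (om ε p) 0 := analyticAt_of_ball one_pos (om_diff hp)
  have hcomp : AnalyticAt ℂ (fun z => g (om ε p z)) 0 :=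
    hga.comp_of_eq hwa (om_zero ε p)
  -- the composition formula
  have e1 : coeff f k = Complex.exp (ε : ℂ) *
      ∑ j ∈ Finset.range (k + 1), coeff g j * coeff (fun z => om ε p z ^ j) k := by
    rw [← hCMP g (om ε p) hga hwa (om_zero ε p) k, ← coeff_const_mul hcomp]
    refine coeff_congr_ball one_pos (fun z hz => ?_) k
    rw [hs.eq z (by rwa [mem_ball_zero_iff])]
  have e2 : ∑ j ∈ Finset.range (k + 1), coeff g j * coeff (fun z => om ε p z ^ j) k =
      coeff g k * coeff (fun z => om ε p z ^ k) k +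
        ∑ j ∈ Finset.Ico 1 k, coeff g j * coeff (fun z => om ε p z ^ j) k := by
    rw [Finset.sum_range_succ, Finset.range_eq_Ico, Finset.sum_eq_sum_Ico_succ_bot (by omega),
      (toSS hg).coeff_zero]
    ring
  set E : ℕ → ℂ := fun j => coeff (fun z => om ε p z ^ j) k -
      ((if j = k then 1 else 0) - ε * j * coeff p (k - j)) with hEd
  have hEb : ∀ j, 1 ≤ j → j ≤ k → ‖E j‖ ≤ CE * ε ^ 2 := fun j hj hjk =>
    hE ε p h0 h1 hp j k hj hjk hkn
  have hEe : ∀ j, coeff (fun z => om ε p z ^ j) k =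
      ((if j = k then 1 else 0) - ε * j * coeff p (k - j)) + E j := by
    intro j; rw [hEd]; ring
  set A : ℂ := ∑ j ∈ Finset.Ico 1 k, (j : ℂ) * coeff g j * coeff p (k - j) with hA
  set R : ℂ := coeff g k * E k + ∑ j ∈ Finset.Ico 1 k, coeff g j * E j with hR
  have e3 : coeff g k * coeff (fun z => om ε p z ^ k) k +
        ∑ j ∈ Finset.Ico 1 k, coeff g j * coeff (fun z => om ε p z ^ j) k =
      coeff g k * (1 - ε * k) - ε * A + R := by
    have s1 : ∑ j ∈ Finset.Ico 1 k, coeff g j * coeff (fun z => om ε p z ^ j) k =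
        -(ε * A) + ∑ j ∈ Finset.Ico 1 k, coeff g j * E j := by
      rw [hA, Finset.mul_sum, ← Finset.sum_neg_distrib, ← Finset.sum_add_distrib]
      refine Finset.sum_congr rfl fun j hj => ?_
      rw [Finset.mem_Ico] at hj
      rw [hEe j, if_neg (by omega)]
      ring
    rw [s1, hEe k, if_pos rfl, Nat.sub_self, coeff_zero, hp.zero, hR]
    ring
  have hcard : ((Finset.Ico 1 k).card : ℝ) = k - 1 := by
    rw [Nat.card_Ico, Nat.cast_sub hk]; simp
  have hRb : ‖R‖ ≤ n * B * CE * ε ^ 2 := by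
    have b1 : ‖∑ j ∈ Finset.Ico 1 k, coeff g j * E j‖ ≤ (k - 1) * (B * (CE * ε ^ 2)) := by
      refine (norm_sum_le_of_le (Finset.Ico 1 k) (f := fun j => coeff g j * E j)
        (n := fun _ => B * (CE * ε ^ 2)) (fun j hj => ?_)).trans (le_of_eq ?_)
      · rw [Finset.mem_Ico] at hj
        rw [norm_mul]
        exact mul_le_mul (hgB j) (hEb j hj.1 hj.2.le) (norm_nonneg _) hB0
      · rw [Finset.sum_const, nsmul_eq_mul, hcard]
    have b2 : ‖coeff g k * E k‖ ≤ B * (CE * ε ^ 2) := by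
      rw [norm_mul]
      exact mul_le_mul (hgB k) (hEb k hk le_rfl) (norm_nonneg _) hB0
    calc ‖R‖ ≤ ‖coeff g k * E k‖ + ‖∑ j ∈ Finset.Ico 1 k, coeff g j * E j‖ := norm_add_le _ _
      _ ≤ B * (CE * ε ^ 2) + (k - 1) * (B * (CE * ε ^ 2)) := add_le_add b2 b1
      _ = k * (B * (CE * ε ^ 2)) := by ring
      _ ≤ n * (B * (CE * ε ^ 2)) := by gcongr
      _ = n * B * CE * ε ^ 2 := by ring
  have hAb : ‖A‖ ≤ 2 * n ^ 2 * B := by
    have b1 : ‖A‖ ≤ (k - 1) * (n * B * 2) := by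
      refine (norm_sum_le_of_le (Finset.Ico 1 k)
        (f := fun j => (j : ℂ) * coeff g j * coeff p (k - j))
        (n := fun _ => n * B * 2) (fun j hj => ?_)).trans (le_of_eq ?_)
      · rw [Finset.mem_Ico] at hj
        rw [norm_mul, norm_mul, Complex.norm_natCast]
        have hjn : (j : ℝ) ≤ n := by exact_mod_cast (hj.2.le.trans hkn)
        have := hgB j
        have := hpB (k - j) (by omega)
        gcongr
      · rw [Finset.sum_const, nsmul_eq_mul, hcard]
    refine b1.trans ?_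
    have : (k - 1 : ℝ) ≤ n := by linarith
    calc (k - 1 : ℝ) * (n * B * 2) ≤ n * (n * B * 2) := by gcongr
      _ = 2 * n ^ 2 * B := by ring
  have hSb : ‖coeff g k * (1 - ε * k) - ε * A + R‖ ≤
      B * (1 + n) + 2 * n ^ 2 * B + n * B * CE := by
    have b1 : ‖coeff g k * (1 - (ε : ℂ) * k)‖ ≤ B * (1 + n) := by
      rw [norm_mul]
      refine mul_le_mul (hgB k) ?_ (norm_nonneg _) hB0
      refine (norm_sub_le _ _).trans ?_
      rw [norm_one, norm_mul, Complex.norm_natCast, Complex.norm_real, Real.norm_of_nonneg h0.le]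
      have : ε * k ≤ 1 * n := by gcongr
      linarith
    have b2 : ‖(ε : ℂ) * A‖ ≤ 2 * n ^ 2 * B := by
      rw [norm_mul, Complex.norm_real, Real.norm_of_nonneg h0.le]
      calc ε * ‖A‖ ≤ 1 * (2 * n ^ 2 * B) := by gcongr
        _ = 2 * n ^ 2 * B := one_mul _
    have b3 : ‖R‖ ≤ n * B * CE := by
      refine hRb.trans ?_
      calc n * B * CE * ε ^ 2 ≤ n * B * CE * 1 := by
            gcongr
            exact pow_le_one₀ h0.le h1
        _ = n * B * CE := mul_one _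
    calc ‖coeff g k * (1 - ε * k) - ε * A + R‖
        ≤ ‖coeff g k * (1 - ε * k) - ε * A‖ + ‖R‖ := norm_add_le _ _
      _ ≤ ‖coeff g k * (1 - (ε : ℂ) * k)‖ + ‖(ε : ℂ) * A‖ + ‖R‖ := by
          gcongr
          exact norm_sub_le _ _
      _ ≤ _ := by linarith
  have e4 : coeff f k - (coeff g k - ε * (((k : ℂ) - 1) * coeff g k + A)) =
      (Complex.exp (ε : ℂ) - 1 - ε) * (coeff g k * (1 - ε * k) - ε * A + R) + R -
        (ε : ℂ) ^ 2 * (k * coeff g k + A) + ε * R := by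
    rw [e1, e2, e3]
    ring
  rw [e4]
  have c1 : ‖(Complex.exp (ε : ℂ) - 1 - ε) * (coeff g k * (1 - ε * k) - ε * A + R)‖ ≤
      ε ^ 2 * (B * (1 + n) + 2 * n ^ 2 * B + n * B * CE) := by
    rw [norm_mul]
    exact mul_le_mul (exp_bd h0 h1) hSb (norm_nonneg _) (by positivity)
  have c2 : ‖(ε : ℂ) ^ 2 * (k * coeff g k + A)‖ ≤ ε ^ 2 * (n * B + 2 * n ^ 2 * B) := by
    rw [norm_mul, norm_pow, Complex.norm_real, Real.norm_of_nonneg h0.le]
    refine mul_le_mul_of_nonneg_left ?_ (by positivity)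
    refine (norm_add_le _ _).trans (add_le_add ?_ hAb)
    rw [norm_mul, Complex.norm_natCast]
    exact mul_le_mul hkn' (hgB k) (norm_nonneg _) (by positivity)
  have c3 : ‖(ε : ℂ) * R‖ ≤ n * B * CE * ε ^ 2 := by
    rw [norm_mul, Complex.norm_real, Real.norm_of_nonneg h0.le]
    calc ε * ‖R‖ ≤ 1 * (n * B * CE * ε ^ 2) := by gcongr
      _ = n * B * CE * ε ^ 2 := one_mul _
  calc ‖(Complex.exp (ε : ℂ) - 1 - ε) * (coeff g k * (1 - ε * k) - ε * A + R) + R -
        (ε : ℂ) ^ 2 * (k * coeff g k + A) + ε * R‖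
      ≤ ‖(Complex.exp (ε : ℂ) - 1 - ε) * (coeff g k * (1 - ε * k) - ε * A + R)‖ + ‖R‖ +
        ‖(ε : ℂ) ^ 2 * (k * coeff g k + A)‖ + ‖(ε : ℂ) * R‖ := by
        refine (norm_add_le _ _).trans (add_le_add_left ?_ _)
        refine (norm_sub_le _ _).trans (add_le_add_left (norm_add_le _ _) _)
    _ ≤ ε ^ 2 * (B * (1 + n) + 2 * n ^ 2 * B + n * B * CE) + n * B * CE * ε ^ 2 +
        ε ^ 2 * (n * B + 2 * n ^ 2 * B) + n * B * CE * ε ^ 2 := by linarith
    _ = _ := by ring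

end Pool.Agent.DBR
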