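import Pool.Agent.DBR.Defs

set_option autoImplicit false

/-!
Univalent functions: basic API for Taylor coefficients, the classes and the steps.
-/

namespace Pool.Agent.DBR

open Complex Metric Set Filter

open scoped Topology ComplexConjugate

open Pool.Agent.PSB (InS coeff psum Lam SelfU)

theorem ball_mem : ball (0 : ℂ) 1 ∈ 𝓝 (0 : ℂ) := ball_mem_nhds 0 one_pos

theorem zero_mem : (0 : ℂ) ∈ ball (0 : ℂ) 1 := mem_ball_self one_pos

/-! ### Taylor coefficients -/

theorem coeff_zero (f : ℂ → ℂ) : coeff f 0 = f 0 := by simp [coeff]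

theorem coeff_one (f : ℂ → ℂ) : coeff f 1 = deriv f 0 := by simp [coeff, iteratedDeriv_one]

theorem hasSum_coeff {f : ℂ → ℂ} {r : ℝ} (hf : DifferentiableOn ℂ f (ball 0 r)) {w : ℂ}
    (hw : ‖w‖ < r) : HasSum (fun k => coeff f k * w ^ k) (f w) := by
  have h := Complex.hasSum_taylorSeries_on_ball (c := 0) hf (z := w)
    (by rw [mem_ball_zero_iff]; exact hw)
  have e : (fun k => coeff f k * w ^ k) =
      fun n : ℕ => ((n.factorial : ℂ))⁻¹ • (w - 0) ^ n • iteratedDeriv n f 0 := by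
    funext k
    unfold coeff
    rw [smul_eq_mul, smul_eq_mul, sub_zero]
    ring
  rw [e]
  exact h

theorem coeff_congr {f g : ℂ → ℂ} (h : f =ᶠ[𝓝 0] g) (k : ℕ) : coeff f k = coeff g k := by
  unfold coeff
  rw [h.iteratedDeriv_eq k]

theorem coeff_congr_ball {f g : ℂ → ℂ} {r : ℝ} (hr : 0 < r) (h : ∀ z : ℂ, ‖z‖ < r → f z = g z)
    (k : ℕ) : coeff f k = coeff g k := by
  refine coeff_congr ?_ k
  filter_upwards [ball_mem_nhds (0 : ℂ) hr] with z hz
  exact h z (by simpa using hz)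

/-- Uniqueness of Taylor coefficients. -/
theorem coeff_eq_of_hasSum {f : ℂ → ℂ} {a : ℕ → ℂ} {ρ : ℝ} (hρ : 0 < ρ)
    (h : ∀ z : ℂ, ‖z‖ < ρ → HasSum (fun k => a k * z ^ k) (f z)) (k : ℕ) : coeff f k = a k := by
  set p := FormalMultilinearSeries.ofScalars ℂ a with hp
  have hps : HasFPowerSeriesOnBall f p 0 (ENNReal.ofReal (ρ / 2)) := by
    refine ⟨?_, ?_, ?_⟩
    · have h1 := (h ((ρ / 2 : ℝ) : ℂ) (by
        rw [Complex.norm_real, Real.norm_of_nonneg (by linarith)]; linarith)).summable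
      have h2 : Tendsto (fun k => ‖a k * ((ρ / 2 : ℝ) : ℂ) ^ k‖) atTop (𝓝 0) := by
        have := h1.tendsto_atTop_zero.norm
        simpa using this
      obtain ⟨C, hC⟩ := h2.bddAbove_range
      have h3 : ∀ n, ‖p n‖ * ((Real.toNNReal (ρ / 2) : NNReal) : ℝ) ^ n ≤ C := by
        intro n
        have h4 := hC ⟨n, rfl⟩
        simp only [norm_mul, norm_pow, Complex.norm_real] at h4
        rw [Real.norm_of_nonneg (by linarith : (0 : ℝ) ≤ ρ / 2)] at h4
        rw [Real.coe_toNNReal _ (by linarith : (0 : ℝ) ≤ ρ / 2)]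
        refine le_trans ?_ h4
        gcongr
        rw [hp]
        exact FormalMultilinearSeries.ofScalars_norm_eq_mul (𝕜 := ℂ) (E := ℂ) a n |>.le.trans
          (by simp)
      exact p.le_radius_of_bound C h3
    · simpa using hρ
    · intro y hy
      rw [zero_add]
      have hy' : ‖y‖ < ρ := by
        rw [mem_eball, edist_zero_right] at hy
        have : ‖y‖ < ρ / 2 := by
          rw [← ofReal_norm] at hy
          exact (ENNReal.ofReal_lt_ofReal_iff (by linarith)).1 hy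
        linarith
      have h1 := h y hy'
      refine h1.congr_fun ?_
      intro n
      simp [hp, FormalMultilinearSeries.ofScalars]
  have han : AnalyticAt ℂ f 0 := hps.analyticAt
  have h1 := hps.hasFPowerSeriesAt.eq_formalMultilinearSeries han.hasFPowerSeriesAt
  have h2 := congrArg (fun p => FormalMultilinearSeries.coeff p k) h1
  simp only [hp, FormalMultilinearSeries.coeff_ofScalars] at h2
  unfold coeff
  exact h2.symm

theorem exists_diff {f : ℂ → ℂ} (hf : AnalyticAt ℂ f 0) :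
    ∃ ρ : ℝ, 0 < ρ ∧ ρ ≤ 1 ∧ DifferentiableOn ℂ f (ball 0 ρ) := by
  obtain ⟨ρ, hρ, h⟩ := Metric.eventually_nhds_iff_ball.1 hf.eventually_analyticAt
  refine ⟨min ρ 1, lt_min hρ one_pos, min_le_right _ _, fun z hz => ?_⟩
  exact (h z (ball_subset_ball (min_le_left _ _) hz)).differentiableAt.differentiableWithinAt

theorem analyticAt_of_ball {f : ℂ → ℂ} {r : ℝ} (hr : 0 < r) (hf : DifferentiableOn ℂ f (ball 0 r)) :
    AnalyticAt ℂ f 0 := hf.analyticAt (ball_mem_nhds 0 hr)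

theorem coeff_add {f g : ℂ → ℂ} (hf : AnalyticAt ℂ f 0) (hg : AnalyticAt ℂ g 0) (k : ℕ) :
    coeff (fun z => f z + g z) k = coeff f k + coeff g k := by
  obtain ⟨r, hr, -, h1⟩ := exists_diff hf
  obtain ⟨s, hs, -, h2⟩ := exists_diff hg
  refine coeff_eq_of_hasSum (a := fun k => coeff f k + coeff g k) (lt_min hr hs) (fun z hz => ?_) k
  have := (hasSum_coeff h1 (hz.trans_le (min_le_left _ _))).add
    (hasSum_coeff h2 (hz.trans_le (min_le_right _ _)))
  refine this.congr_fun fun k => ?_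
  ring

theorem coeff_const_mul {f : ℂ → ℂ} (hf : AnalyticAt ℂ f 0) (c : ℂ) (k : ℕ) :
    coeff (fun z => c * f z) k = c * coeff f k := by
  obtain ⟨r, hr, -, h1⟩ := exists_diff hf
  refine coeff_eq_of_hasSum (a := fun k => c * coeff f k) hr (fun z hz => ?_) k
  have := (hasSum_coeff h1 hz).mul_left c
  refine this.congr_fun fun k => ?_
  ring

theorem coeff_neg {f : ℂ → ℂ} (hf : AnalyticAt ℂ f 0) (k : ℕ) :
    coeff (fun z => -f z) k = -coeff f k := by
  have := coeff_const_mul hf (-1) k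
  simpa using this

theorem coeff_sub {f g : ℂ → ℂ} (hf : AnalyticAt ℂ f 0) (hg : AnalyticAt ℂ g 0) (k : ℕ) :
    coeff (fun z => f z - g z) k = coeff f k - coeff g k := by
  have h := coeff_add hf hg.neg k
  have h2 : coeff (-g) k = -coeff g k := coeff_neg hg k
  rw [h2] at h
  simpa [sub_eq_add_neg] using h

theorem coeff_const (c : ℂ) (k : ℕ) : coeff (fun _ => c) k = if k = 0 then c else 0 := by
  refine coeff_eq_of_hasSum (a := fun k => if k = 0 then c else 0) one_pos (fun z _ => ?_) k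
  have := hasSum_single (f := fun k : ℕ => (if k = 0 then c else 0) * z ^ k) 0
    (fun k hk => by simp [hk])
  simpa using this

theorem coeff_sum {ι : Type*} (s : Finset ι) (f : ι → ℂ → ℂ) (hf : ∀ i ∈ s, AnalyticAt ℂ (f i) 0)
    (k : ℕ) : coeff (fun z => ∑ i ∈ s, f i z) k = ∑ i ∈ s, coeff (f i) k := by
  classical
  induction s using Finset.induction_on with
  | empty =>
    simp only [Finset.sum_empty]
    rw [coeff_const]
    split_ifs <;> rfl
  | insert i s hi ih =>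
    simp only [Finset.sum_insert hi]
    have h1 : AnalyticAt ℂ (fun z => ∑ i ∈ s, f i z) 0 :=
      Finset.analyticAt_fun_sum s fun j hj => hf j (Finset.mem_insert_of_mem hj)
    rw [coeff_add (hf i (Finset.mem_insert_self _ _)) h1,
      ih fun j hj => hf j (Finset.mem_insert_of_mem hj)]

/-- Cauchy product. -/
theorem coeff_mul {f g : ℂ → ℂ} (hf : AnalyticAt ℂ f 0) (hg : AnalyticAt ℂ g 0) (k : ℕ) :
    coeff (fun z => f z * g z) k =
      ∑ ij ∈ Finset.HasAntidiagonal.antidiagonal k, coeff f ij.1 * coeff g ij.2 := by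
  obtain ⟨r, hr, -, h1⟩ := exists_diff hf
  obtain ⟨s, hs, -, h2⟩ := exists_diff hg
  refine coeff_eq_of_hasSum (a := fun k => ∑ ij ∈ Finset.HasAntidiagonal.antidiagonal k,
    coeff f ij.1 * coeff g ij.2) (lt_min hr hs) (fun z hz => ?_) k
  have e1 := hasSum_coeff h1 (hz.trans_le (min_le_left _ _))
  have e2 := hasSum_coeff h2 (hz.trans_le (min_le_right _ _))
  have n1 := e1.summable.norm
  have n2 := e2.summable.norm
  have h3 := summable_norm_sum_mul_antidiagonal_of_summable_norm n1 n2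
  have h4 := tsum_mul_tsum_eq_tsum_sum_antidiagonal_of_summable_norm n1 n2
  rw [e1.tsum_eq, e2.tsum_eq] at h4
  have h5 := h3.of_norm.hasSum
  rw [← h4] at h5
  refine h5.congr_fun fun k => ?_
  rw [Finset.sum_mul]
  refine Finset.sum_congr rfl fun ij hij => ?_
  rw [← Finset.HasAntidiagonal.mem_antidiagonal.1 hij, pow_add]
  ring

theorem coeff_scale {f : ℂ → ℂ} (hf : AnalyticAt ℂ f 0) (c : ℂ) (k : ℕ) :
    coeff (fun z => f (c * z)) k = c ^ k * coeff f k := by
  obtain ⟨r, hr, -, h1⟩ := exists_diff hf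
  have hρ : 0 < r / (‖c‖ + 1) := by positivity
  refine coeff_eq_of_hasSum (a := fun k => c ^ k * coeff f k) hρ (fun z hz => ?_) k
  have hc : ‖c * z‖ < r := by
    rw [norm_mul]
    rw [lt_div_iff₀ (by positivity)] at hz
    nlinarith [norm_nonneg c, norm_nonneg z]
  refine (hasSum_coeff h1 hc).congr_fun fun k => ?_
  rw [mul_pow]
  ring

theorem analyticAt_conj {f : ℂ → ℂ} (hf : AnalyticAt ℂ f 0) :
    AnalyticAt ℂ (fun z => conj (f (conj z))) 0 := by
  obtain ⟨r, hr, -, h1⟩ := exists_diff hf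
  refine analyticAt_of_ball hr fun z hz => ?_
  have hz' : conj z ∈ ball (0 : ℂ) r := by
    rw [mem_ball_zero_iff] at hz ⊢
    rwa [Complex.norm_conj]
  have h2 : DifferentiableAt ℂ f (conj z) := h1.differentiableAt (isOpen_ball.mem_nhds hz')
  have h3 := h2.conj_conj
  rw [Complex.conj_conj] at h3
  exact h3.differentiableWithinAt

theorem coeff_conj {f : ℂ → ℂ} (hf : AnalyticAt ℂ f 0) (k : ℕ) :
    coeff (fun z => conj (f (conj z))) k = conj (coeff f k) := by
  obtain ⟨r, hr, -, h1⟩ := exists_diff hf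
  refine coeff_eq_of_hasSum (a := fun k => conj (coeff f k)) hr (fun z hz => ?_) k
  have h2 := hasSum_coeff h1 (w := conj z) (by rwa [Complex.norm_conj])
  have h3 := h2.map (starRingEnd ℂ) Complex.continuous_conj
  refine h3.congr_fun fun k => ?_
  simp

/-- Multiplication by a power of `z`. -/
theorem coeff_pow_mul {f : ℂ → ℂ} (hf : AnalyticAt ℂ f 0) (j k : ℕ) :
    coeff (fun z => z ^ j * f z) k = if j ≤ k then coeff f (k - j) else 0 := by
  obtain ⟨r, hr, -, h1⟩ := exists_diff hf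
  refine coeff_eq_of_hasSum (a := fun k => if j ≤ k then coeff f (k - j) else 0) hr
    (fun z hz => ?_) k
  have h2 := (hasSum_coeff h1 hz).mul_left (z ^ j)
  have h3 : Function.Injective (fun k : ℕ => k + j) := add_left_injective j
  refine (h3.hasSum_iff (f := fun k => (if j ≤ k then coeff f (k - j) else 0) * z ^ k) ?_).1 ?_
  · intro k hk
    have : ¬ j ≤ k := fun h => hk ⟨k - j, by simp [Nat.sub_add_cancel h]⟩
    simp [this]
  · refine h2.congr_fun fun k => ?_
    simp [pow_add]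
    ring

/-- Cauchy estimate on a circle. -/
theorem norm_coeff_le {f : ℂ → ℂ} {r B : ℝ} (hr : 0 < r) (hr1 : r < 1)
    (hf : DifferentiableOn ℂ f (ball 0 1)) (hB : ∀ z : ℂ, ‖z‖ = r → ‖f z‖ ≤ B) (k : ℕ) :
    ‖coeff f k‖ ≤ B / r ^ k := by
  have h1 : DiffContOnCl ℂ f (ball 0 r) := by
    refine (hf.mono ?_).diffContOnCl
    rw [closure_ball _ hr.ne']
    exact closedBall_subset_ball hr1
  have h2 := Complex.norm_iteratedDeriv_le_of_forall_mem_sphere_norm_le k hr h1
    (fun z hz => hB z (by simpa using hz))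
  unfold coeff
  rw [norm_div, Complex.norm_natCast, div_le_iff₀ (by positivity)]
  refine h2.trans (le_of_eq ?_)
  ring

/-- Cauchy estimate in the disc. -/
theorem norm_coeff_le_of_ball {f : ℂ → ℂ} {B : ℝ} (hf : DifferentiableOn ℂ f (ball 0 1))
    (hB : ∀ z ∈ ball (0 : ℂ) 1, ‖f z‖ ≤ B) (k : ℕ) : ‖coeff f k‖ ≤ B := by
  have h1 : ∀ᶠ r : ℝ in 𝓝[<] 1, ‖coeff f k‖ * r ^ k ≤ B := by
    filter_upwards [Ioo_mem_nhdsLT (zero_lt_one' ℝ)] with r hr
    have := norm_coeff_le hr.1 hr.2 hf (B := B) (fun z hz => hB z (by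
      rw [mem_ball_zero_iff, hz]; exact hr.2)) k
    rwa [le_div_iff₀ (pow_pos hr.1 k)] at this
  have h2 : Tendsto (fun r : ℝ => ‖coeff f k‖ * r ^ k) (𝓝[<] 1) (𝓝 (‖coeff f k‖ * 1 ^ k)) :=
    ((continuous_const.mul (continuous_pow k)).tendsto 1).mono_left nhdsWithin_le_nhds
  have h3 := le_of_tendsto h2 h1
  simpa using h3

/-! ### The classes -/

theorem InSS.analyticAt {f : ℂ → ℂ} (hf : InSS f) : AnalyticAt ℂ f 0 :=
  analyticAt_of_ball one_pos hf.diff

theorem InSS.coeff_zero {f : ℂ → ℂ} (hf : InSS f) : coeff f 0 = 0 := by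
  rw [DBR.coeff_zero, hf.zero]

theorem InSS.coeff_one {f : ℂ → ℂ} (hf : InSS f) : coeff f 1 = 1 := by
  rw [DBR.coeff_one, hf.one]

theorem InSS.ne_zero {f : ℂ → ℂ} (hf : InSS f) {z : ℂ} (hz : z ∈ ball (0 : ℂ) 1) (h0 : z ≠ 0) :
    f z ≠ 0 := by
  intro h
  exact h0 (hf.inj hz zero_mem (by rw [h, hf.zero]))

theorem toSS {M : ℝ} {f : ℂ → ℂ} (hf : InS M f) : InSS f := ⟨hf.diff, hf.inj, hf.zero, hf.one⟩

theorem inS_mono {M M' : ℝ} {f : ℂ → ℂ} (hf : InS M f) (h : M ≤ M') : InS M' f :=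
  ⟨hf.diff, hf.inj, hf.zero, hf.one, fun z hz => (hf.bdd z hz).trans h⟩

theorem schwarz_ball {f : ℂ → ℂ} {M : ℝ} (hd : DifferentiableOn ℂ f (ball 0 1)) (h0 : f 0 = 0)
    (hb : ∀ z ∈ ball (0 : ℂ) 1, ‖f z‖ ≤ M) {w : ℂ} (hw : w ∈ ball (0 : ℂ) 1) :
    ‖f w‖ ≤ M * ‖w‖ := by
  have h := Complex.dist_le_div_mul_dist_of_mapsTo_ball (f := f) (c := 0) (R₁ := 1) (R₂ := M)
    (z := w) hd (by
      intro z hz
      rw [h0, mem_closedBall_zero_iff]
      exact hb z hz) hw
  rwa [h0, dist_zero_right, dist_zero_right, div_one] at h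

theorem norm_coeff_le_of_inS {M : ℝ} {f : ℂ → ℂ} (hf : InS M f) (k : ℕ) : ‖coeff f k‖ ≤ M :=
  norm_coeff_le_of_ball hf.diff hf.bdd k

theorem one_le_of_inS {M : ℝ} {f : ℂ → ℂ} (hf : InS M f) : 1 ≤ M := by
  have h := norm_coeff_le_of_inS hf 1
  rw [(toSS hf).coeff_one, norm_one] at h
  exact h

theorem inS_lt {M : ℝ} {f : ℂ → ℂ} (hf : InS M f) {z : ℂ} (hz : z ∈ ball (0 : ℂ) 1) :
    ‖f z‖ < M := by
  have h1 := schwarz_ball hf.diff hf.zero hf.bdd hz
  have h2 := one_le_of_inS hf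
  have h3 : ‖z‖ < 1 := by simpa using hz
  nlinarith [norm_nonneg z]

theorem inS_id {M : ℝ} (hM : 1 ≤ M) : InS M (fun z => z) := by
  refine ⟨differentiableOn_id, fun x _ y _ h => h, rfl, by simp, ?_⟩
  intro z hz
  have : ‖z‖ < 1 := by simpa using hz
  linarith

/-- In the class `S(1)` there is only the identity. -/
theorem eq_id_of_inS_one {f : ℂ → ℂ} (hf : InS 1 f) {z : ℂ} (hz : z ∈ ball (0 : ℂ) 1) :
    f z = z := by
  have hmaps : MapsTo f (ball 0 1) (ball 0 1) := fun w hw => by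
    rw [mem_ball_zero_iff]; exact inS_lt hf hw
  by_contra hne
  have hd : DifferentiableOn ℂ (dslope f 0) (ball 0 1) :=
    (Complex.differentiableOn_dslope ball_mem).2 hf.diff
  have h1 : ∀ w ∈ ball (0 : ℂ) 1, ‖dslope f 0 w‖ ≤ 1 := by
    intro w hw
    by_cases hw0 : w = 0
    · rw [hw0, dslope_same, hf.one, norm_one]
    · rw [dslope_of_ne _ hw0, slope_def_field, hf.zero, sub_zero, sub_zero, norm_div]
      have h2 := schwarz_ball hf.diff hf.zero hf.bdd hw
      rw [one_mul] at h2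
      exact div_le_one_of_le₀ h2 (norm_nonneg _)
  have h0 : dslope f 0 0 = 1 := by rw [dslope_same, hf.one]
  have hmax : IsMaxOn (norm ∘ dslope f 0) (ball 0 1) 0 := by
    intro w hw
    simp only [mem_ofPred_eq, Function.comp_apply]
    rw [h0, norm_one]
    exact h1 w hw
  have h3 := Complex.eqOn_of_isPreconnected_of_isMaxOn_norm
    ((convex_ball (0 : ℂ) 1).isPreconnected) isOpen_ball hd zero_mem hmax
  have h4 := h3 hz
  by_cases hz0 : z = 0
  · exact hne (by rw [hz0, hf.zero])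
  · simp only [Function.const_apply] at h4
    rw [dslope_of_ne _ hz0, slope_def_field, hf.zero, sub_zero, sub_zero, h0,
      div_eq_one_iff_eq hz0] at h4
    exact hne h4

theorem coeff_of_inS_one {f : ℂ → ℂ} (hf : InS 1 f) (k : ℕ) :
    coeff f k = if k = 1 then 1 else 0 := by
  refine coeff_eq_of_hasSum (a := fun k => if k = 1 then (1 : ℂ) else 0) one_pos
    (fun z hz => ?_) k
  rw [eq_id_of_inS_one hf (by rwa [mem_ball_zero_iff])]
  have := hasSum_single (f := fun k : ℕ => (if k = 1 then (1 : ℂ) else 0) * z ^ k) 1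
    (fun k hk => by simp [hk])
  simpa using this

/-! ### Dilations -/

theorem scale_mem {ρ : ℝ} (h0 : 0 < ρ) (h1 : ρ ≤ 1) {z : ℂ} (hz : z ∈ ball (0 : ℂ) 1) :
    (ρ : ℂ) * z ∈ ball (0 : ℂ) 1 := by
  rw [mem_ball_zero_iff] at hz ⊢
  rw [norm_mul, Complex.norm_real, Real.norm_of_nonneg h0.le]
  nlinarith [norm_nonneg z]

/-- The dilation `f(ρ z)/ρ`. -/
noncomputable def dil (ρ : ℝ) (f : ℂ → ℂ) (z : ℂ) : ℂ := f (ρ * z) / ρ

theorem dil_inSS {ρ : ℝ} (h0 : 0 < ρ) (h1 : ρ ≤ 1) {f : ℂ → ℂ} (hf : InSS f) :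
    InSS (dil ρ f) := by
  have hρ : (ρ : ℂ) ≠ 0 := by exact_mod_cast h0.ne'
  refine ⟨?_, ?_, ?_, ?_⟩
  · have hm : MapsTo (fun z : ℂ => (ρ : ℂ) * z) (ball 0 1) (ball 0 1) :=
      fun z hz => scale_mem h0 h1 hz
    exact (hf.diff.comp (differentiableOn_id.const_mul _) hm).div_const _
  · intro x hx y hy hxy
    have h2 : f (ρ * x) = f (ρ * y) := by
      have := hxy
      unfold dil at this
      field_simp at this
      exact this
    have h3 := hf.inj (scale_mem h0 h1 hx) (scale_mem h0 h1 hy) h2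
    exact mul_left_cancel₀ hρ h3
  · simp [dil, hf.zero]
  · have h2 : HasDerivAt f 1 ((ρ : ℂ) * 0) := by
      rw [mul_zero, ← hf.one]
      exact (hf.analyticAt.differentiableAt).hasDerivAt
    have h3 : HasDerivAt (fun z : ℂ => (ρ : ℂ) * z) (ρ : ℂ) 0 := by
      simpa using (hasDerivAt_id (0 : ℂ)).const_mul (ρ : ℂ)
    have h4 := (h2.comp (0 : ℂ) h3).div_const (ρ : ℂ)
    have h5 : deriv (dil ρ f) 0 = 1 * ρ / ρ := h4.deriv
    rw [h5]
    field_simp

theorem dil_inS {ρ : ℝ} (h0 : 0 < ρ) (h1 : ρ < 1) {f : ℂ → ℂ} (hf : InSS f) :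
    ∃ M : ℝ, 1 ≤ M ∧ InS M (dil ρ f) := by
  have h2 := dil_inSS h0 h1.le hf
  have hc : ContinuousOn f (closedBall 0 ρ) :=
    hf.diff.continuousOn.mono (closedBall_subset_ball h1)
  obtain ⟨B, hB⟩ := (isCompact_closedBall (0 : ℂ) ρ).exists_bound_of_continuousOn hc
  have h3 : InS (B / ρ) (dil ρ f) := by
    refine ⟨h2.diff, h2.inj, h2.zero, h2.one, fun z hz => ?_⟩
    unfold dil
    rw [norm_div, Complex.norm_real, Real.norm_of_nonneg h0.le]
    refine div_le_div_of_nonneg_right (hB _ ?_) h0.le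
    rw [mem_closedBall_zero_iff, norm_mul, Complex.norm_real, Real.norm_of_nonneg h0.le]
    rw [mem_ball_zero_iff] at hz
    nlinarith [norm_nonneg z]
  exact ⟨_, one_le_of_inS h3, h3⟩

theorem dil_coeff {ρ : ℝ} {f : ℂ → ℂ} (hf : InSS f) (k : ℕ) :
    coeff (dil ρ f) k = (ρ : ℂ) ^ k * coeff f k / ρ := by
  have h1 := coeff_scale hf.analyticAt (ρ : ℂ) k
  have h2 : AnalyticAt ℂ (fun z : ℂ => f ((ρ : ℂ) * z)) 0 := by
    have : AnalyticAt ℂ f ((ρ : ℂ) * 0) := by rw [mul_zero]; exact hf.analyticAt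
    exact this.comp_of_eq (analyticAt_const.mul analyticAt_id) rfl
  have h3 := coeff_const_mul h2 ((ρ : ℂ)⁻¹) k
  have h4 : dil ρ f = fun z => (ρ : ℂ)⁻¹ * f ((ρ : ℂ) * z) := by
    funext z
    unfold dil
    rw [div_eq_inv_mul]
  rw [h4, h3, h1]
  ring

theorem dil_tendsto_coeff {f : ℂ → ℂ} (hf : InSS f) (k : ℕ) :
    Tendsto (fun ρ : ℝ => coeff (dil ρ f) k) (𝓝[<] 1) (𝓝 (coeff f k)) := by
  simp only [dil_coeff hf]
  have h : Tendsto (fun ρ : ℝ => (ρ : ℂ) ^ k * coeff f k / ρ) (𝓝 1)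
      (𝓝 (((1 : ℝ) : ℂ) ^ k * coeff f k / ((1 : ℝ) : ℂ))) := by
    refine Tendsto.div ?_ (Complex.continuous_ofReal.tendsto 1) (by simp)
    exact (((Complex.continuous_ofReal.tendsto 1).pow k).mul tendsto_const_nhds)
  have h2 := h.mono_left (nhdsWithin_le_nhds (s := Iio (1 : ℝ)))
  simpa using h2

theorem dil_tendsto {f : ℂ → ℂ} (hf : InSS f) {z : ℂ} (hz : z ∈ ball (0 : ℂ) 1) :
    Tendsto (fun ρ : ℝ => dil ρ f z) (𝓝[<] 1) (𝓝 (f z)) := by
  have h1 : ContinuousAt f z := (hf.diff.differentiableAt (isOpen_ball.mem_nhds hz)).continuousAt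
  have h2 : Tendsto (fun ρ : ℝ => (ρ : ℂ) * z) (𝓝 1) (𝓝 z) := by
    have := ((Complex.continuous_ofReal.tendsto 1).mul_const z)
    simpa using this
  have h3 : Tendsto (fun ρ : ℝ => f ((ρ : ℂ) * z) / ρ) (𝓝 1) (𝓝 (f z / ((1 : ℝ) : ℂ))) :=
    (h1.tendsto.comp h2).div (Complex.continuous_ofReal.tendsto 1) (by simp)
  have h4 := h3.mono_left (nhdsWithin_le_nhds (s := Iio (1 : ℝ)))
  simpa [dil] using h4

/-! ### Steps -/

theorem om_norm_le {ε : ℝ} (hε : 0 ≤ ε) {p : ℂ → ℂ} (hp : Car p) {z : ℂ}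
    (hz : z ∈ ball (0 : ℂ) 1) : ‖om ε p z‖ ≤ ‖z‖ := by
  unfold om
  rw [norm_mul, Complex.norm_exp]
  have h : (-((ε : ℂ) * p z)).re ≤ 0 := by
    rw [neg_re, Complex.re_ofReal_mul]
    have := mul_nonneg hε (hp.re z hz)
    linarith
  have h2 := Real.exp_le_one_iff.2 h
  nlinarith [norm_nonneg z]

theorem om_mem {ε : ℝ} (hε : 0 ≤ ε) {p : ℂ → ℂ} (hp : Car p) {z : ℂ}
    (hz : z ∈ ball (0 : ℂ) 1) : om ε p z ∈ ball (0 : ℂ) 1 := by
  rw [mem_ball_zero_iff] at *
  exact (om_norm_le hε hp (by rwa [mem_ball_zero_iff])).trans_lt hz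

theorem om_zero (ε : ℝ) (p : ℂ → ℂ) : om ε p 0 = 0 := by simp [om]

theorem om_ne_zero {ε : ℝ} {p : ℂ → ℂ} {z : ℂ} (hz : z ≠ 0) : om ε p z ≠ 0 :=
  mul_ne_zero hz (Complex.exp_ne_zero _)

theorem om_diff {ε : ℝ} {p : ℂ → ℂ} (hp : Car p) : DifferentiableOn ℂ (om ε p) (ball 0 1) :=
  differentiableOn_id.mul ((hp.diff.const_mul _).neg.cexp)

theorem om_deriv {ε : ℝ} {p : ℂ → ℂ} (hp : Car p) :
    deriv (om ε p) 0 = Complex.exp (-ε) := by
  have h1 : HasDerivAt p (deriv p 0) 0 :=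
    (hp.diff.differentiableAt ball_mem).hasDerivAt
  have h2 := (hasDerivAt_id (0 : ℂ)).mul ((h1.const_mul (ε : ℂ)).neg.cexp)
  have h3 : deriv (om ε p) 0 = _ := h2.deriv
  rw [h3]
  simp [hp.zero]

theorem Car.analyticAt {p : ℂ → ℂ} (hp : Car p) : AnalyticAt ℂ p 0 :=
  analyticAt_of_ball one_pos hp.diff

theorem pK_car : Car pK := by
  refine ⟨?_, ?_, by simp [pK]⟩
  · intro z hz
    have hz1 : ‖z‖ < 1 := by simpa using hz
    have h : (1 : ℂ) + z ≠ 0 := by
      intro h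
      have : ‖z‖ = 1 := by
        rw [show z = -1 by linear_combination h, norm_neg, norm_one]
      linarith
    have : DifferentiableAt ℂ pK z := by
      unfold pK
      exact ((differentiableAt_const _).sub differentiableAt_id).div
        ((differentiableAt_const _).add differentiableAt_id) h
    exact this.differentiableWithinAt
  · intro z hz
    have hz1 : ‖z‖ < 1 := by simpa using hz
    unfold pK
    rw [Complex.div_re]
    have h2 : z.re ^ 2 + z.im ^ 2 < 1 := by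
      have := Complex.sq_norm z
      rw [Complex.normSq_apply] at this
      nlinarith [norm_nonneg z]
    have h3 := Complex.normSq_nonneg (1 + z)
    rw [← add_div]
    refine div_nonneg ?_ h3
    simp only [sub_re, one_re, add_re, sub_im, one_im, add_im]
    nlinarith

end Pool.Agent.DBR
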