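import Pool.Agent.DBR.Stmts

set_option autoImplicit false

/-!
Univalent functions: inversion of the Koebe function as a power series (module CAT of squad DBR).
-/

namespace Pool.Agent.DBR

open Complex Metric Set Filter MeasureTheory

open scoped Topology ComplexConjugate

open Pool.Agent.PSB (InS coeff psum Lam SelfU)

namespace CAT_

/-- The Catalan series over `ℂ`. -/
noncomputable def cs : PowerSeries ℂ := PowerSeries.map (Nat.castRingHom ℂ) PowerSeries.catalanSeries

theorem cs_eq : cs = 1 + PowerSeries.X * cs ^ 2 := by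
  have h := congrArg (PowerSeries.map (Nat.castRingHom ℂ))
    PowerSeries.catalanSeries_sq_mul_X_add_one
  rw [map_add, map_mul, map_pow, map_one, PowerSeries.map_X] at h
  unfold cs
  rw [add_comm, mul_comm]
  exact h.symm

theorem coeff_cs (m : ℕ) : PowerSeries.coeff m cs = (catalan m : ℂ) := by
  unfold cs
  rw [PowerSeries.coeff_map, PowerSeries.catalanSeries_coeff]
  simp

theorem subst_eq (V : PowerSeries ℂ) (hV : PowerSeries.HasSubst V) :
    cs.subst V = 1 + V * (cs.subst V) ^ 2 := by
  have h := congrArg (PowerSeries.substAlgHom hV) cs_eq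
  rw [map_add, map_mul, map_pow, map_one, PowerSeries.substAlgHom_X] at h
  rw [PowerSeries.coe_substAlgHom] at h
  exact h

theorem coeff_pow_zero (U : PowerSeries ℂ) (hU : PowerSeries.constantCoeff U = 0) (m k : ℕ)
    (h : k < m) : PowerSeries.coeff k (U ^ m) = 0 := by
  have h1 : (PowerSeries.X : PowerSeries ℂ) ^ m ∣ U ^ m :=
    pow_dvd_pow_of_dvd (PowerSeries.X_dvd_iff.2 hU) m
  exact (PowerSeries.X_pow_dvd_iff.1 h1) k h

theorem const_U (W U : PowerSeries ℂ) (hW : PowerSeries.constantCoeff W = 0)
    (h : W = U * (1 - W) ^ 2) : PowerSeries.constantCoeff U = 0 := by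
  have h1 := congrArg PowerSeries.constantCoeff h
  rw [map_mul, map_pow, map_sub, map_one, hW] at h1
  simpa using h1.symm

theorem unique (W V U : PowerSeries ℂ) (hU : PowerSeries.constantCoeff U = 0)
    (h : W = U * (1 - W) ^ 2) (h' : V = U * (1 - V) ^ 2) : W = V := by
  have h1 : (W - V) * (1 + U * (2 - W - V)) = 0 := by
    linear_combination h - h'
  rcases mul_eq_zero.1 h1 with h2 | h2
  · exact sub_eq_zero.1 h2
  · exfalso
    have h3 := congrArg PowerSeries.constantCoeff h2
    rw [map_add, map_mul, hU] at h3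
    simp at h3

end CAT_

open CAT_

theorem cat_proof : Stmt_CAT := by
  intro W U hW h k
  have hU := const_U W U hW h
  have hnU : PowerSeries.constantCoeff (-U) = 0 := by
    rw [map_neg, hU, neg_zero]
  have hS : PowerSeries.HasSubst (-U) := PowerSeries.HasSubst.of_constantCoeff_zero' hnU
  have e1 := subst_eq (-U) hS
  have h' : (1 - cs.subst (-U) : PowerSeries ℂ) = U * (1 - (1 - cs.subst (-U))) ^ 2 := by
    linear_combination -e1
  have hWV := unique W _ U hU h h'
  rw [hWV, map_sub, PowerSeries.coeff_subst' hS]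
  have hsup : (Function.support fun d : ℕ =>
      PowerSeries.coeff d cs • PowerSeries.coeff k ((-U) ^ d)) ⊆
      (Finset.range (k + 1) : Set ℕ) := by
    intro d hd
    rw [Function.mem_support] at hd
    rw [Finset.coe_range, Set.mem_Iio]
    by_contra hc
    exact hd (by rw [coeff_pow_zero (-U) hnU d k (by omega), smul_zero])
  rw [finsum_eq_sum_of_support_subset _ hsup, Finset.range_eq_Ico,
    Finset.sum_eq_sum_Ico_succ_bot (by omega)]
  have e3 : PowerSeries.coeff 0 cs • PowerSeries.coeff k ((-U) ^ 0) =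
      PowerSeries.coeff k (1 : PowerSeries ℂ) := by
    rw [coeff_cs, pow_zero]
    simp
  rw [e3]
  have e4 : Finset.Icc 1 k = Finset.Ico (0 + 1) (k + 1) := by
    ext x
    simp only [Finset.mem_Icc, Finset.mem_Ico]
    omega
  rw [e4, sub_add_eq_sub_sub, sub_self, zero_sub, ← Finset.sum_neg_distrib]
  refine Finset.sum_congr rfl fun m hm => ?_
  rw [Finset.mem_Ico] at hm
  obtain ⟨j, rfl⟩ : ∃ j, m = j + 1 := ⟨m - 1, by omega⟩
  rw [coeff_cs, neg_pow, Nat.add_sub_cancel, smul_eq_mul]
  have e5 : ((-1 : PowerSeries ℂ)) ^ (j + 1) * U ^ (j + 1) =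
      PowerSeries.C ((-1 : ℂ) ^ (j + 1)) * U ^ (j + 1) := by
    rw [map_pow, map_neg, map_one]
  rw [e5, PowerSeries.coeff_C_mul]
  ring

end Pool.Agent.DBR
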