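import Pool.Agent.DBR.Stmts

set_option autoImplicit false

namespace Pool.Agent.DBR

open Complex Metric Set Filter MeasureTheory

open scoped Topology ComplexConjugate

open Pool.Agent.PSB (InS coeff psum Lam SelfU)

namespace CHX_

lemma key (n m : ℕ) : (n + (m + 1) + 3).choose (2 * (m + 1) + 1) +
    (n + (m + 1) + 1).choose (2 * (m + 1) + 1) =
    2 * (n + (m + 1) + 2).choose (2 * (m + 1) + 1) + (n + m + 2).choose (2 * m + 1) := by
  have e1 : n + (m + 1) + 3 = (n + m + 3) + 1 := by ring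
  have e2 : 2 * (m + 1) + 1 = (2 * m + 2) + 1 := by ring
  have e3 : n + (m + 1) + 2 = (n + m + 2) + 1 := by ring
  have e4 : n + (m + 1) + 1 = n + m + 2 := by ring
  rw [e1, e2, e3, e4, Nat.choose_succ_succ (n + m + 3), Nat.choose_succ_succ (n + m + 2) (2 * m + 2)]
  have e5 : n + m + 3 = (n + m + 2) + 1 := by ring
  have e6 : 2 * m + 2 = (2 * m + 1) + 1 := by ring
  rw [e5, e6, Nat.choose_succ_succ (n + m + 2) (2 * m + 1)]
  simp only [Nat.succ_eq_add_one]
  ring

lemma uch_eq (n N : ℕ) (x : ℝ) (h : n + 1 ≤ N) : uch n x =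
    ∑ m ∈ Finset.range N, ((n + m + 1).choose (2 * m + 1) : ℝ) * x ^ m := by
  unfold uch
  apply Finset.sum_subset (Finset.range_mono h)
  intro m _ hm
  rw [Finset.mem_range, not_lt] at hm
  rw [Nat.choose_eq_zero_of_lt (by omega)]
  simp

end CHX_

theorem chx_proof : Stmt_CHX := by
  intro x
  refine ⟨by simp [uch], ?_, ?_⟩
  · simp [uch, Finset.sum_range_succ]
  · intro n
    rw [CHX_.uch_eq (n + 2) (n + 3) x (by omega), CHX_.uch_eq n (n + 3) x (by omega)]
    have h1 := CHX_.uch_eq (n + 1) (n + 3) x (by omega)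
    have h2 := CHX_.uch_eq (n + 1) (n + 2) x (by omega)
    rw [add_mul, h1]
    nth_rewrite 2 [← h1]
    rw [h2, Finset.sum_range_succ' _ (n + 2), Finset.sum_range_succ' _ (n + 2),
      Finset.sum_range_succ' _ (n + 2), Finset.mul_sum, mul_add, Finset.mul_sum]
    have key : ∀ m ∈ Finset.range (n + 2),
        ((n + 2 + (m + 1) + 1).choose (2 * (m + 1) + 1) : ℝ) * x ^ (m + 1) =
        2 * (((n + 1 + (m + 1) + 1).choose (2 * (m + 1) + 1) : ℝ) * x ^ (m + 1)) +
        x * (((n + 1 + m + 1).choose (2 * m + 1) : ℝ) * x ^ m) -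
        ((n + (m + 1) + 1).choose (2 * (m + 1) + 1) : ℝ) * x ^ (m + 1) := by
      intro m _
      have hk := CHX_.key n m
      have e1 : n + 2 + (m + 1) + 1 = n + (m + 1) + 3 := by ring
      have e2 : n + 1 + (m + 1) + 1 = n + (m + 1) + 2 := by ring
      have e3 : n + 1 + m + 1 = n + m + 2 := by ring
      rw [e1, e2, e3]
      have hk' : ((n + (m + 1) + 3).choose (2 * (m + 1) + 1) : ℝ) +
        ((n + (m + 1) + 1).choose (2 * (m + 1) + 1) : ℝ) =
        2 * ((n + (m + 1) + 2).choose (2 * (m + 1) + 1) : ℝ) +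
        ((n + m + 2).choose (2 * m + 1) : ℝ) := by exact_mod_cast hk
      have : ((n + (m + 1) + 3).choose (2 * (m + 1) + 1) : ℝ) =
        2 * ((n + (m + 1) + 2).choose (2 * (m + 1) + 1) : ℝ) +
        ((n + m + 2).choose (2 * m + 1) : ℝ) -
        ((n + (m + 1) + 1).choose (2 * (m + 1) + 1) : ℝ) := by linarith
      rw [this]
      ring
    rw [Finset.sum_congr rfl key, Finset.sum_sub_distrib, Finset.sum_add_distrib]
    simp
    ring

end Pool.Agent.DBR
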