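import Pool.Agent.DBR.Stmts

set_option autoImplicit false

namespace Pool.Agent.DBR

open Complex Metric Set Filter MeasureTheory

open scoped Topology ComplexConjugate

open Pool.Agent.PSB (InS coeff psum Lam SelfU)

namespace CMP_

theorem coeff_monomial (c : ℂ) (j k : ℕ) :
    coeff (fun z => c * z ^ j) k = if k = j then c else 0 := by
  have h1 : (fun z : ℂ => c * z ^ j) = fun z => z ^ j * (fun _ => c) z := by
    funext z; ring
  rw [h1, coeff_pow_mul analyticAt_const j k, coeff_const]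
  by_cases h : j ≤ k
  · rw [if_pos h]
    by_cases h2 : k = j
    · subst h2; simp
    · rw [if_neg h2, if_neg (by omega)]
  · rw [if_neg h, if_neg (by omega)]

theorem iter_zero {f : ℂ → ℂ} {k : ℕ} (h : coeff f k = 0) : iteratedDeriv k f 0 = 0 := by
  unfold coeff at h
  rcases div_eq_zero_iff.1 h with h | h
  · exact h
  · exact absurd h (by exact_mod_cast Nat.factorial_ne_zero k)

theorem factor {f : ℂ → ℂ} (hf : AnalyticAt ℂ f 0) {n : ℕ} (h : ∀ i < n, coeff f i = 0) :
    ∃ r : ℂ → ℂ, AnalyticAt ℂ r 0 ∧ ∀ᶠ z in 𝓝 (0 : ℂ), f z = z ^ n * r z := by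
  have h1 : (n : ℕ∞) ≤ analyticOrderAt f 0 :=
    (natCast_le_analyticOrderAt_iff_iteratedDeriv_eq_zero hf).2 fun i hi => iter_zero (h i hi)
  obtain ⟨r, hr, he⟩ := (natCast_le_analyticOrderAt hf).1 h1
  refine ⟨r, hr, he.mono fun z hz => ?_⟩
  rw [hz, sub_zero, smul_eq_mul]

end CMP_

open CMP_ in
theorem CMP_proof : Stmt_CMP := by
  intro g w hg hw h0 k
  set P : ℂ → ℂ := fun z => ∑ j ∈ Finset.range (k + 1), coeff g j * z ^ j with hP
  set G : ℂ → ℂ := fun z => g z - P z with hG
  have hmon : ∀ j : ℕ, AnalyticAt ℂ (fun z : ℂ => coeff g j * z ^ j) 0 := fun j =>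
    analyticAt_const.mul (analyticAt_id.pow j)
  have hPa : AnalyticAt ℂ P 0 := Finset.analyticAt_fun_sum _ fun j _ => hmon j
  have hGa : AnalyticAt ℂ G 0 := hg.sub hPa
  have hGc : ∀ i < k + 1, coeff G i = 0 := by
    intro i hi
    rw [hG, coeff_sub hg hPa, hP, coeff_sum _ _ (fun j _ => hmon j)]
    have h1 : ∑ j ∈ Finset.range (k + 1), coeff (fun z : ℂ => coeff g j * z ^ j) i = coeff g i := by
      rw [Finset.sum_eq_single i]
      · rw [coeff_monomial, if_pos rfl]
      · intro j _ hj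
        rw [coeff_monomial, if_neg (Ne.symm hj)]
      · intro h
        exact absurd (Finset.mem_range.2 hi) h
    rw [h1, sub_self]
  obtain ⟨r, hr, her⟩ := factor hGa hGc
  obtain ⟨u, hu, heu⟩ := factor hw (n := 1) (fun i hi => by
    have : i = 0 := by omega
    subst this
    rw [coeff_zero, h0])
  have hw0 : Tendsto w (𝓝 0) (𝓝 0) := by
    have := hw.continuousAt.tendsto
    rwa [h0] at this
  have hrw : AnalyticAt ℂ (fun z => r (w z)) 0 := by
    have h1 : AnalyticAt ℂ r (w 0) := by rw [h0]; exact hr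
    exact h1.comp hw
  have hGw : AnalyticAt ℂ (fun z => G (w z)) 0 := by
    have h1 : AnalyticAt ℂ G (w 0) := by rw [h0]; exact hGa
    exact h1.comp hw
  have hur : AnalyticAt ℂ (fun z => u z ^ (k + 1) * r (w z)) 0 := (hu.pow _).mul hrw
  have e1 : (fun z => G (w z)) =ᶠ[𝓝 0] fun z => z ^ (k + 1) * (u z ^ (k + 1) * r (w z)) := by
    filter_upwards [heu, hw0.eventually her] with z hz1 hz2
    rw [hz2]
    conv_lhs => rw [hz1]
    have h3 : w z = z ^ 1 * u z := hz1
    rw [← h3]
    conv_lhs => rw [h3]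
    rw [show r (z ^ 1 * u z) = r (w z) by rw [h3]]
    ring
  have e2 : coeff (fun z => G (w z)) k = 0 := by
    rw [coeff_congr e1, coeff_pow_mul hur, if_neg (by omega)]
  have hterm : ∀ j : ℕ, AnalyticAt ℂ (fun z : ℂ => coeff g j * w z ^ j) 0 := fun j =>
    analyticAt_const.mul (hw.pow j)
  have hS : AnalyticAt ℂ (fun z => ∑ j ∈ Finset.range (k + 1), coeff g j * w z ^ j) 0 :=
    Finset.analyticAt_fun_sum _ fun j _ => hterm j
  have e3 : (fun z => g (w z)) =
      fun z => G (w z) + ∑ j ∈ Finset.range (k + 1), coeff g j * w z ^ j := by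
    funext z
    simp only [hG, hP]
    ring
  rw [e3, coeff_add hGw hS, e2, zero_add, coeff_sum _ _ (fun j _ => hterm j)]
  refine Finset.sum_congr rfl fun j _ => ?_
  exact coeff_const_mul (hw.pow j) (coeff g j) k

end Pool.Agent.DBR
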