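import Pool.Agent.DBR.Stmts

set_option autoImplicit false

/-!
Squad DBR, module CUT: cutting off a short radial slit.
-/

namespace Pool.Agent.DBR

open Complex Metric Set Filter MeasureTheory

open scoped Topology ComplexConjugate

open Pool.Agent.PSB (InS coeff psum Lam SelfU)

namespace CUT_

/-- the point avoids the slit -/
lemma slit (hKIN : Stmt_KIN) (η c : ℝ) (w : ℂ) (hw : w ∈ ball (0 : ℂ) 1) (hη : 0 < η)
    (hwη : η ≤ ‖1 + w‖) (hc0 : 0 < c) (hc : 4 * (1 - c) < η ^ 2) :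
    1 + 4 * ((c : ℂ)⁻¹ * Kb w) ∈ slitPlane := by
  obtain ⟨-, h2, -, -⟩ := hKIN
  obtain ⟨-, -, h3, h4⟩ := h2 w hw
  set o : ℂ := (1 + w) / (1 - w) with ho
  have hw1 : ‖w‖ < 1 := by simpa using hw
  have hne : (1 : ℂ) - w ≠ 0 := by
    intro h
    have : w = 1 := (sub_eq_zero.mp h).symm
    rw [this] at hw1
    simp at hw1
  have e : 1 + 4 * ((c : ℂ)⁻¹ * Kb w) = ((c⁻¹ : ℝ) : ℂ) * o ^ 2 - ((c⁻¹ - 1 : ℝ) : ℂ) := by
    have : 4 * Kb w = o ^ 2 - 1 := by
      rw [← h3]
      ring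
    have e2 : 1 + 4 * ((c : ℂ)⁻¹ * Kb w) = 1 + (c : ℂ)⁻¹ * (4 * Kb w) := by ring
    rw [e2, this]
    push_cast
    ring
  by_contra hcon
  rw [e, mem_slitPlane_iff] at hcon
  push Not at hcon
  obtain ⟨hre, him⟩ := hcon
  have hc' : 0 < c⁻¹ := inv_pos.mpr hc0
  rw [sub_im, ofReal_im, sub_zero, im_ofReal_mul] at him
  rw [sub_re, ofReal_re, re_ofReal_mul] at hre
  have him2 : (o ^ 2).im = 0 := by
    rcases mul_eq_zero.mp him with h | h
    · exact absurd h hc'.ne'
    · exact h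
  have e3 : (o ^ 2).im = 2 * o.re * o.im := by
    rw [sq, mul_im]
    ring
  have him3 : o.im = 0 := by
    rw [e3] at him2
    rcases mul_eq_zero.mp him2 with h | h
    · exact absurd h (by positivity)
    · exact h
  have e4 : (o ^ 2).re = o.re ^ 2 := by
    rw [sq, mul_re, him3]
    ring
  rw [e4] at hre
  have h5 : o.re ^ 2 ≤ 1 - c := by
    have h6 : c * (c⁻¹ * o.re ^ 2 - (c⁻¹ - 1)) ≤ 0 :=
      mul_nonpos_of_nonneg_of_nonpos hc0.le hre
    have h7 : c * (c⁻¹ * o.re ^ 2 - (c⁻¹ - 1)) = o.re ^ 2 - (1 - c) := by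
      field_simp
    linarith
  have h8 : 1 + w = o * (1 - w) := by
    rw [ho, div_mul_cancel₀ _ hne]
  have h9 : ‖o‖ = o.re := by
    have : o = ((o.re : ℝ) : ℂ) := by
      apply Complex.ext
      · simp
      · simp [him3]
    rw [this, Complex.norm_real, ofReal_re, Real.norm_of_nonneg h4.le]
  have h10 : ‖1 - w‖ ≤ 2 := by
    calc ‖1 - w‖ ≤ ‖(1 : ℂ)‖ + ‖w‖ := norm_sub_le _ _
      _ ≤ 2 := by
        rw [norm_one]
        linarith
  have h11 : ‖1 + w‖ ≤ o.re * 2 := by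
    rw [h8, norm_mul, h9]
    exact mul_le_mul_of_nonneg_left h10 h4.le
  have h12 : η ≤ o.re * 2 := hwη.trans h11
  have h13 : η ^ 2 ≤ (o.re * 2) ^ 2 := pow_le_pow_left₀ hη.le h12 2
  nlinarith

end CUT_

theorem cut_proof (hKIN : Stmt_KIN) (hPIC : Stmt_PIC) : Stmt_CUT := by
  intro M s F h g ζ η hF hζ hη hgη
  refine ⟨min (η ^ 2 / 4) (1 / 2), lt_min (by positivity) (by norm_num),
    (min_le_right _ _).trans_lt (by norm_num), ?_⟩
  intro c hc1 hc2
  have hc3 : 1 - η ^ 2 / 4 < c := by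
    have := min_le_left (η ^ 2 / 4) (1 / 2 : ℝ)
    linarith
  have hc4 : 1 / 2 < c := by
    have := min_le_right (η ^ 2 / 4) (1 / 2 : ℝ)
    linarith
  have hc0 : 0 < c := by linarith
  have hc5 : 4 * (1 - c) < η ^ 2 := by linarith
  have hcC : (c : ℂ) ≠ 0 := by exact_mod_cast hc0.ne'
  obtain ⟨hU, hUd, hUK⟩ := hPIC c hc0 hc2.le
  obtain ⟨hK1, hK2, -, hK4⟩ := id hKIN
  set e : ℂ := -ζ with he
  have he1 : ‖e‖ = 1 := by rw [he, norm_neg, hζ]
  have hee : e * conj e = 1 := by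
    rw [mul_conj, normSq_eq_norm_sq, he1]
    simp
  have hee' : conj e * e = 1 := by rw [mul_comm, hee]
  have he2 : ‖conj e‖ = 1 := by rw [Complex.norm_conj, he1]
  set u : ℂ → ℂ := fun z => Kinv (c * Kb z) with hu
  have hmem : ∀ z : ℂ, z ∈ ball (0 : ℂ) 1 ↔ ‖z‖ < 1 := fun z => by simp
  -- the inner map of `h'`
  have hrot : ∀ x ∈ ball (0 : ℂ) 1, conj e * x ∈ ball (0 : ℂ) 1 := by
    intro x hx
    rw [hmem] at hx ⊢
    rw [norm_mul, he2, one_mul]
    exact hx
  have hin : ∀ x ∈ ball (0 : ℂ) 1, e * u (conj e * x) ∈ ball (0 : ℂ) 1 := by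
    intro x hx
    rw [hmem, norm_mul, he1, one_mul]
    exact hU.maps _ (hrot x hx)
  have hind : DifferentiableOn ℂ (fun x => e * u (conj e * x)) (ball 0 1) := by
    have h1 : DifferentiableOn ℂ (fun x : ℂ => conj e * x) (ball 0 1) :=
      (differentiable_id.const_mul (conj e)).differentiableOn
    exact (hU.diff.comp h1 hrot).const_mul e
  have hu0 : u 0 = 0 := hU.zero
  have hin0 : (fun x => e * u (conj e * x)) 0 = 0 := by
    simp only [mul_zero]
    rw [hu0, mul_zero]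
  have hKb0 : Kb 0 = 0 := by simp [Kb]
  have hKi0 : Kinv 0 = 0 := by
    have := (hK2 0 zero_mem).2.1
    rwa [hKb0] at this
  -- the points of `g`
  have hw : ∀ z ∈ ball (0 : ℂ) 1, conj e * g z ∈ ball (0 : ℂ) 1 := fun z hz =>
    hrot _ ((hmem _).mpr (hF.gmaps z hz))
  have hslit : ∀ z ∈ ball (0 : ℂ) 1,
      1 + 4 * ((c : ℂ)⁻¹ * Kb (conj e * g z)) ∈ slitPlane := by
    intro z hz
    refine CUT_.slit hKIN η c _ (hw z hz) hη ?_ hc0 hc5
    have h1 : ‖1 + conj e * g z‖ = ‖g z - ζ‖ := by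
      have h2 : g z - ζ = e * (1 + conj e * g z) := by
        rw [mul_add, ← mul_assoc, hee, he]
        ring
      rw [h2, norm_mul, he1, one_mul]
    rw [h1]
    exact hgη z hz
  refine ⟨fun x => h (e * u (conj e * x)), fun z => e * Kinv ((c : ℂ)⁻¹ * Kb (conj e * g z)),
    ?_, ?_, ?_, ?_, ?_, ?_, ?_, ?_, ?_⟩
  · exact hF.hdiff.comp hind hin
  · intro x hx y hy hxy
    have h1 := hF.hinj (hin x hx) (hin y hy) hxy
    have hene : e ≠ 0 := by
      intro h0
      rw [h0] at he1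
      simp at he1
    have h2 := mul_left_cancel₀ hene h1
    have h3 := hU.inj (hrot x hx) (hrot y hy) h2
    have h4 : conj e ≠ 0 := by
      intro h0
      rw [h0] at he2
      simp at he2
    exact mul_left_cancel₀ h4 h3
  · rw [mul_zero, hu0, mul_zero, hF.hzero]
  · have h0 : HasDerivAt h (s : ℂ) 0 := by
      have h1 : DifferentiableAt ℂ h 0 := hF.hdiff.differentiableAt ball_mem
      rw [← hF.hder]
      exact h1.hasDerivAt
    have hu1 : HasDerivAt u (c : ℂ) 0 := by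
      have h1 : DifferentiableAt ℂ u 0 := hU.diff.differentiableAt ball_mem
      have h2 := h1.hasDerivAt
      rw [hUd] at h2
      exact h2
    have h2 : HasDerivAt (fun x : ℂ => conj e * x) (conj e) 0 := by
      simpa using (hasDerivAt_id (0 : ℂ)).const_mul (conj e)
    have h3 : HasDerivAt (fun x => u (conj e * x)) ((c : ℂ) * conj e) 0 := by
      have h4 : HasDerivAt u (c : ℂ) ((fun x : ℂ => conj e * x) 0) := by
        simpa using hu1
      exact h4.comp (0 : ℂ) h2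
    have h5 : HasDerivAt (fun x => e * u (conj e * x)) (e * ((c : ℂ) * conj e)) 0 :=
      h3.const_mul e
    have h6 : HasDerivAt (fun x => h (e * u (conj e * x))) ((s : ℂ) * (e * ((c : ℂ) * conj e)))
        0 := by
      have h7 : HasDerivAt h (s : ℂ) ((fun x => e * u (conj e * x)) 0) := by
        rw [hin0]
        exact h0
      exact h7.comp (0 : ℂ) h5
    rw [h6.deriv]
    have : e * ((c : ℂ) * conj e) = c := by
      rw [mul_comm (c : ℂ), ← mul_assoc, hee, one_mul]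
    rw [this]
    push_cast
    ring
  · intro x hx
    exact hF.hbdd _ (hin x hx)
  · intro z hz
    have h1 : DifferentiableAt ℂ g z := hF.gdiff.differentiableAt (isOpen_ball.mem_nhds hz)
    have h2 : DifferentiableAt ℂ Kb (conj e * g z) :=
      hK4.diff.differentiableAt (isOpen_ball.mem_nhds (hw z hz))
    have h3 : DifferentiableAt ℂ Kinv ((c : ℂ)⁻¹ * Kb (conj e * g z)) :=
      (hK1 _ (hslit z hz)).2.2
    have h4 : DifferentiableAt ℂ (fun z => conj e * g z) z := h1.const_mul _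
    have h5 : DifferentiableAt ℂ (fun z => (c : ℂ)⁻¹ * Kb (conj e * g z)) z :=
      (DifferentiableAt.comp z h2 h4).const_mul _
    have h6 : DifferentiableAt ℂ (fun z => Kinv ((c : ℂ)⁻¹ * Kb (conj e * g z))) z :=
      DifferentiableAt.fun_comp' z h3 h5
    exact (h6.const_mul e).differentiableWithinAt
  · rw [hF.gzero, mul_zero, hKb0, mul_zero, hKi0, mul_zero]
  · intro z hz
    rw [norm_mul, he1, one_mul]
    exact (hK1 _ (hslit z hz)).1
  · intro z hz
    rw [hF.comp z hz, ← mul_assoc, hee', one_mul]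
    have h1 : u (Kinv ((c : ℂ)⁻¹ * Kb (conj e * g z))) = conj e * g z := by
      rw [hu]
      dsimp only
      rw [(hK1 _ (hslit z hz)).2.1, ← mul_assoc, mul_inv_cancel₀ hcC, one_mul]
      exact (hK2 _ (hw z hz)).2.1
    rw [h1, ← mul_assoc, hee, one_mul]

end Pool.Agent.DBR
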