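import Pool.Agent.DBR.Stmts

set_option autoImplicit false

/-!
Squad DBR, module DBB: the inequality of de Branges for bounded univalent functions.
-/

namespace Pool.Agent.DBR

open Complex Metric Set Filter MeasureTheory

open scoped Topology ComplexConjugate

open Pool.Agent.PSB (InS coeff psum Lam SelfU)

namespace DBB_

theorem coeff_deriv (f : ℂ → ℂ) (k : ℕ) : coeff (deriv f) k = ((k : ℂ) + 1) * coeff f (k + 1) := by
  unfold coeff
  rw [iteratedDeriv_succ', Nat.factorial_succ]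
  have h1 : (k.factorial : ℂ) ≠ 0 := by exact_mod_cast k.factorial_ne_zero
  have h2 : ((k : ℂ) + 1) ≠ 0 := by exact_mod_cast k.succ_ne_zero
  push_cast
  field_simp

theorem recursion {l : ℂ → ℂ} (hl : DifferentiableOn ℂ l (ball 0 1)) (k : ℕ) (hk : 1 ≤ k) :
    (k : ℂ) * coeff (fun z => Complex.exp (l z / 2)) k =
      ∑ j ∈ Finset.Icc 1 k, (j : ℂ) * (coeff l j / 2) *
        coeff (fun z => Complex.exp (l z / 2)) (k - j) := by
  set h : ℂ → ℂ := fun z => Complex.exp (l z / 2) with hh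
  have hla : AnalyticAt ℂ l 0 := analyticAt_of_ball one_pos hl
  have hha : AnalyticAt ℂ h 0 := by
    refine analyticAt_of_ball one_pos ?_
    exact (hl.div_const 2).cexp
  obtain ⟨m, rfl⟩ : ∃ m, k = m + 1 := ⟨k - 1, by omega⟩
  have e1 : deriv h =ᶠ[𝓝 0] fun z => (1 / 2 * deriv l z) * h z := by
    filter_upwards [ball_mem] with z hz
    have h1 : HasDerivAt l (deriv l z) z :=
      (hl.differentiableAt (isOpen_ball.mem_nhds hz)).hasDerivAt
    have h2 := (h1.div_const 2).cexp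
    have h3 : deriv h z = Complex.exp (l z / 2) * (deriv l z / 2) := h2.deriv
    rw [h3, hh]
    ring
  have e2 : coeff (deriv h) m = ∑ ij ∈ Finset.HasAntidiagonal.antidiagonal m,
      (1 / 2 * ((ij.1 : ℂ) + 1) * coeff l (ij.1 + 1)) * coeff h ij.2 := by
    rw [coeff_congr e1 m]
    have hd : AnalyticAt ℂ (deriv l) 0 := hla.deriv
    have hd2 : AnalyticAt ℂ (fun z => 1 / 2 * deriv l z) 0 := analyticAt_const.mul hd
    rw [coeff_mul hd2 hha]
    refine Finset.sum_congr rfl fun ij _ => ?_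
    rw [coeff_const_mul hd, coeff_deriv]
    ring
  rw [coeff_deriv] at e2
  push_cast
  rw [e2, Finset.Nat.sum_antidiagonal_eq_sum_range_succ_mk]
  have e3 : Finset.Icc 1 (m + 1) = Finset.Ico 1 (m + 1 + 1) := by
    ext x
    simp only [Finset.mem_Icc, Finset.mem_Ico]
    omega
  rw [e3, Finset.sum_Ico_eq_sum_range]
  have e4 : m + 1 + 1 - 1 = m.succ := by omega
  rw [e4]
  refine Finset.sum_congr rfl fun j hj => ?_
  have e5 : 1 + j = j + 1 := by omega
  have e6 : m + 1 - (j + 1) = m - j := by omega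
  simp only [e5, e6]
  push_cast
  ring

end DBB_

theorem dbb_proof (hMIL : Stmt_MIL) (hLM2 : Stmt_LM2) (hLSE : Stmt_LSE) : Stmt_DBB := by
  intro M f hf k
  have hSS := toSS hf
  rcases Nat.eq_zero_or_pos k with rfl | hk
  · rw [hSS.coeff_zero]
    simp
  obtain ⟨n, rfl⟩ : ∃ n, k = n + 1 := ⟨k - 1, by omega⟩
  have hl := hLSE.1 f hSS
  set l := lg f with hlf
  set h : ℂ → ℂ := fun z => Complex.exp (l z / 2) with hh
  have hha : AnalyticAt ℂ h 0 := by
    refine analyticAt_of_ball one_pos ?_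
    exact (hl.diff.div_const 2).cexp
  have hD0 : coeff h 0 = 1 := by
    rw [coeff_zero, hh]
    simp [hl.zero]
  have hsum := hLM2 n (fun j => lc f j / 2) (coeff h) hD0
    (fun k hk _ => DBB_.recursion hl.diff k hk) (by
      have := hMIL M f hf n
      have e : ∑ k ∈ Finset.Icc 1 n, ((n : ℝ) + 1 - k) * (k * ‖lc f k / 2‖ ^ 2 - 1 / k) =
          (1 / 4) * ∑ k ∈ Finset.Icc 1 n, ((n : ℝ) + 1 - k) * (k * ‖lc f k‖ ^ 2 - 4 / k) := by
        rw [Finset.mul_sum]
        refine Finset.sum_congr rfl fun k _ => ?_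
        rw [norm_div]
        have : ‖(2 : ℂ)‖ = 2 := by simp
        rw [this]
        ring
      rw [e]
      linarith)
  have e1 : coeff f (n + 1) = ∑ ij ∈ Finset.HasAntidiagonal.antidiagonal n,
      coeff h ij.1 * coeff h ij.2 := by
    have e2 : coeff f (n + 1) = coeff (fun z => z ^ 1 * (h z * h z)) (n + 1) := by
      refine coeff_congr_ball one_pos (fun z hz => ?_) _
      rw [hl.eq z (by rwa [mem_ball_zero_iff]), hh]
      simp only
      rw [← Complex.exp_add, pow_one]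
      congr 2
      ring
    have hhh : AnalyticAt ℂ (fun z => h z * h z) 0 := hha.mul hha
    rw [e2, coeff_pow_mul hhh, if_pos (by omega), Nat.add_sub_cancel, coeff_mul hha hha]
  rw [e1]
  refine (norm_sum_le _ _).trans ?_
  have e3 : ∑ ij ∈ Finset.HasAntidiagonal.antidiagonal n, ‖coeff h ij.1 * coeff h ij.2‖ ≤
      ∑ ij ∈ Finset.HasAntidiagonal.antidiagonal n, (‖coeff h ij.1‖ ^ 2 / 2 + ‖coeff h ij.2‖ ^ 2 / 2) := by
    refine Finset.sum_le_sum fun ij _ => ?_
    rw [norm_mul]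
    nlinarith [sq_nonneg (‖coeff h ij.1‖ - ‖coeff h ij.2‖)]
  refine e3.trans ?_
  rw [Finset.sum_add_distrib]
  have e4 : ∑ ij ∈ Finset.HasAntidiagonal.antidiagonal n, ‖coeff h ij.1‖ ^ 2 / 2 =
      ∑ k ∈ Finset.range (n + 1), ‖coeff h k‖ ^ 2 / 2 := by
    rw [Finset.Nat.sum_antidiagonal_eq_sum_range_succ_mk]
  have e5 : ∑ ij ∈ Finset.HasAntidiagonal.antidiagonal n, ‖coeff h ij.2‖ ^ 2 / 2 =
      ∑ k ∈ Finset.range (n + 1), ‖coeff h k‖ ^ 2 / 2 := by
    rw [← e4, ← Finset.Nat.sum_antidiagonal_swap]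
    rfl
  rw [e4, e5, ← Finset.sum_div]
  push_cast
  linarith

end Pool.Agent.DBR
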