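import Pool.Agent.DBR.Stmts

set_option autoImplicit false

/-!
The inequality of de Branges for the class S (module DBS of the squad DBR, MP_910507_an).
-/

namespace Pool.Agent.DBR

open Complex Metric Set Filter MeasureTheory

open scoped Topology ComplexConjugate

open Pool.Agent.PSB (InS coeff psum Lam SelfU)

theorem dbs_proof (hDBB : Stmt_DBB) : Stmt_DBS := by
  intro f hf k
  refine le_of_tendsto (dil_tendsto_coeff hf k).norm ?_
  filter_upwards [Ioo_mem_nhdsLT (zero_lt_one' ℝ)] with ρ hρ
  obtain ⟨M, -, hM⟩ := dil_inS hρ.1 hρ.2 hf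
  exact hDBB M (dil ρ f) hM k

end Pool.Agent.DBR
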