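import Pool.Agent.DBR.Stmts

set_option autoImplicit false

/-!
Univalent functions: DDA, the function `DD f` is holomorphic.
-/

namespace Pool.Agent.DBR

open Complex Metric Set Filter MeasureTheory

open scoped Topology ComplexConjugate

open Pool.Agent.PSB (InS coeff psum Lam SelfU)

theorem dda_proof : Stmt_DDA := by
  intro f hf
  have hud : DifferentiableOn ℂ (dslope f 0) (ball 0 1) :=
    (Complex.differentiableOn_dslope ball_mem).2 hf.diff
  have hu0 : dslope f 0 0 = 1 := by rw [dslope_same, hf.one]
  have hune : ∀ z ∈ ball (0 : ℂ) 1, dslope f 0 z ≠ 0 := by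
    intro z hz
    by_cases h : z = 0
    · rw [h, hu0]; exact one_ne_zero
    · rw [dslope_of_ne _ h, slope_def_field, hf.zero, sub_zero, sub_zero]
      exact div_ne_zero (hf.ne_zero hz h) h
  set v : ℂ → ℂ := fun z => (dslope f 0 z)⁻¹ - (1 - z) ^ 2 with hv
  have hvd : DifferentiableOn ℂ v (ball 0 1) :=
    (hud.inv hune).sub (((differentiableOn_const _).sub differentiableOn_id).pow 2)
  have hv0 : v 0 = 0 := by simp [hv, hf.one]
  have hfu : f = fun z => z ^ 1 * dslope f 0 z := by
    funext z
    by_cases h : z = 0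
    · simp [h, hf.zero]
    · rw [dslope_of_ne _ h, slope_def_field, hf.zero, sub_zero, sub_zero, pow_one]
      field_simp
  have huan : AnalyticAt ℂ (dslope f 0) 0 := analyticAt_of_ball one_pos hud
  have hc2 : deriv (dslope f 0) 0 = coeff f 2 := by
    have h1 := coeff_pow_mul huan 1 2
    rw [← hfu] at h1
    simp only [Nat.one_le_ofNat, if_true, Nat.add_one_sub_one] at h1
    rw [h1, coeff_one]
  have hdv : deriv v 0 = 2 - coeff f 2 := by
    have h1 : HasDerivAt (dslope f 0) (coeff f 2) 0 := by
      rw [← hc2]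
      exact huan.differentiableAt.hasDerivAt
    have h2 := h1.inv (c := dslope f 0) (by rw [hu0]; exact one_ne_zero)
    have h3 : HasDerivAt (fun z : ℂ => (1 - z) ^ 2) (2 * (1 - 0) ^ 1 * (-1)) 0 := by
      have := ((hasDerivAt_id (0 : ℂ)).const_sub 1).fun_pow 2
      simpa using this
    have h4 := (h2.sub h3).deriv
    have h5 : deriv v 0 = deriv ((dslope f 0)⁻¹ - fun z : ℂ => (1 - z) ^ 2) 0 := rfl
    rw [h5, h4, hu0]
    ring
  have hd := (Complex.differentiableOn_dslope ball_mem).2 hvd
  refine hd.congr fun z _ => ?_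
  unfold DD
  split_ifs with h
  · rw [h, dslope_same, hdv]
  · rw [dslope_of_ne _ h, slope_def_field, hv0, sub_zero, sub_zero]
    simp only [hv]
    rw [dslope_of_ne _ h, slope_def_field, hf.zero, sub_zero, sub_zero, sub_div, inv_div]
    congr 1
    field_simp

end Pool.Agent.DBR
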