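import Pool.Agent.DBR.Stmts

set_option autoImplicit false

/-!
Univalent functions: size of `DD f` for univalent functions (module DS5 of squad DBR).
-/

namespace Pool.Agent.DBR

open Complex Metric Set Filter MeasureTheory

open scoped Topology ComplexConjugate

open Pool.Agent.PSB (InS coeff psum Lam SelfU)

namespace DS5_

theorem tend_EE {f : ℂ → ℂ} (hf : InSS f) :
    Tendsto (fun ρ : ℝ => EE (dil ρ f)) (𝓝[<] 1) (𝓝 (EE f)) := by
  unfold EE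
  exact ((Complex.continuous_re.tendsto _).comp (dil_tendsto_coeff hf 2)).const_sub 2

theorem tend_DD {f : ℂ → ℂ} (hf : InSS f) {z : ℂ} (hz : z ∈ ball (0 : ℂ) 1) :
    Tendsto (fun ρ : ℝ => DD (dil ρ f) z) (𝓝[<] 1) (𝓝 (DD f z)) := by
  unfold DD
  by_cases h0 : z = 0
  · simp only [if_pos h0]
    exact (dil_tendsto_coeff hf 2).const_sub 2
  · simp only [if_neg h0]
    exact ((tendsto_const_nhds (x := (1 : ℂ))).div (dil_tendsto hf hz)
      (hf.ne_zero hz h0)).sub_const _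

end DS5_

open DS5_

theorem ds5_proof (hDU5 : Stmt_DU5) : Stmt_DS5 := by
  intro r f z hf h0 h1 hz
  have hz1 : z ∈ ball (0 : ℂ) 1 := by
    rw [mem_ball_zero_iff]
    exact hz.trans_lt h1
  have e1 : Tendsto (fun ρ : ℝ => ‖DD (dil ρ f) z‖ ^ 2) (𝓝[<] 1) (𝓝 (‖DD f z‖ ^ 2)) :=
    (tend_DD hf hz1).norm.pow 2
  have e2 : Tendsto (fun ρ : ℝ => (4 / (1 - r) ^ 2) ^ 2 * EE (dil ρ f)) (𝓝[<] 1)
      (𝓝 ((4 / (1 - r) ^ 2) ^ 2 * EE f)) := (tend_EE hf).const_mul _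
  refine le_of_tendsto_of_tendsto e1 e2 ?_
  have e3 : ∀ᶠ ρ : ℝ in 𝓝[<] 1, 0 < ρ ∧ ρ < 1 := by
    refine Filter.Eventually.and ?_ self_mem_nhdsWithin
    exact mem_nhdsWithin_of_mem_nhds (Ioi_mem_nhds one_pos)
  filter_upwards [e3] with ρ hρ
  obtain ⟨M, -, hM⟩ := dil_inS hρ.1 hρ.2 hf
  exact hDU5 M r (dil ρ f) z hM h0 h1 hz

end Pool.Agent.DBR
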