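import Pool.Agent.DBR.Stmts

set_option autoImplicit false

/-!
Squad DBR, module DS6: the real part of `DD f` for univalent functions.
-/

namespace Pool.Agent.DBR

open Complex Metric Set Filter MeasureTheory

open scoped Topology ComplexConjugate

open Pool.Agent.PSB (InS coeff psum Lam SelfU)

namespace DS6_

theorem tendsto_EE {f : ℂ → ℂ} (hf : InSS f) :
    Tendsto (fun ρ : ℝ => EE (dil ρ f)) (𝓝[<] 1) (𝓝 (EE f)) := by
  have h1 := dil_tendsto_coeff hf 2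
  have h2 := (Complex.continuous_re.tendsto (coeff f 2)).comp h1
  exact tendsto_const_nhds.sub h2

theorem tendsto_DD {f : ℂ → ℂ} (hf : InSS f) {z : ℂ} (hz : z ∈ ball (0 : ℂ) 1) :
    Tendsto (fun ρ : ℝ => DD (dil ρ f) z) (𝓝[<] 1) (𝓝 (DD f z)) := by
  unfold DD
  by_cases h0 : z = 0
  · simp only [h0, if_true]
    exact tendsto_const_nhds.sub (dil_tendsto_coeff hf 2)
  · simp only [h0, if_false]
    exact (tendsto_const_nhds.div (dil_tendsto hf hz) (hf.ne_zero hz h0)).sub tendsto_const_nhds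

theorem tendsto_LL {f : ℂ → ℂ} (hf : InSS f) {z : ℂ} (hz : z ∈ ball (0 : ℂ) 1) :
    Tendsto (fun ρ : ℝ => LL (dil ρ f) z) (𝓝[<] 1) (𝓝 (LL f z)) := by
  have hz' : conj z ∈ ball (0 : ℂ) 1 := by
    rw [mem_ball_zero_iff] at hz ⊢
    rwa [Complex.norm_conj]
  have h1 := tendsto_DD hf hz
  have h2 := (Complex.continuous_conj.tendsto (DD f (conj z))).comp (tendsto_DD hf hz')
  have h3 := (Complex.continuous_ofReal.tendsto (EE f)).comp (tendsto_EE hf)
  exact ((h1.add h2).div_const 2).sub h3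

end DS6_

theorem ds6_proof (hDU6 : Stmt_DU6) : Stmt_DS6 := by
  intro r f z hf hr0 hr1 hz
  have hzb : z ∈ ball (0 : ℂ) 1 := by
    rw [mem_ball_zero_iff]
    linarith
  have h1 : Tendsto (fun ρ : ℝ => ‖LL (dil ρ f) z‖) (𝓝[<] 1) (𝓝 ‖LL f z‖) :=
    (DS6_.tendsto_LL hf hzb).norm
  have h2 : Tendsto (fun ρ : ℝ => 100 / (1 - r) ^ 6 * EE (dil ρ f) * ‖z‖) (𝓝[<] 1)
      (𝓝 (100 / (1 - r) ^ 6 * EE f * ‖z‖)) :=
    ((DS6_.tendsto_EE hf).const_mul _).mul_const _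
  refine le_of_tendsto_of_tendsto h1 h2 ?_
  filter_upwards [Ioo_mem_nhdsLT (zero_lt_one' ℝ)] with ρ hρ
  obtain ⟨M, -, hM⟩ := dil_inS hρ.1 hρ.2 hf
  exact hDU6 M r (dil ρ f) z hM hr0 hr1 hz

end Pool.Agent.DBR
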