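import Pool.Agent.DBR.Stmts

set_option autoImplicit false

/-!
DSE: the difference `1/f - 1/K` along a step.
-/

namespace Pool.Agent.DBR

open Complex Metric Set Filter MeasureTheory

open scoped Topology ComplexConjugate

open Pool.Agent.PSB (InS coeff psum Lam SelfU)

namespace DSE_

/-- The identity away from `0`. -/
theorem away {ε : ℝ} {f g p : ℂ → ℂ} (hε : 0 < ε) (hg : InSS g)
    (hs : Step ε f g p) {z : ℂ} (hz : z ∈ ball (0 : ℂ) 1) (h0 : z ≠ 0) :
    DD f z = Complex.exp (-ε) * DD g (om ε p z) + TT ε p z := by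
  have hom : om ε p z ∈ ball (0 : ℂ) 1 := om_mem hε.le hs.car hz
  have hom0 : om ε p z ≠ 0 := om_ne_zero h0
  have hg0 : g (om ε p z) ≠ 0 := hg.ne_zero hom hom0
  have hfz : f z = Complex.exp ε * g (om ε p z) := hs.eq z hz
  have he : Complex.exp (ε : ℂ) ≠ 0 := Complex.exp_ne_zero _
  unfold DD TT
  rw [if_neg h0, if_neg hom0, if_neg h0, hfz]
  have h1 : Complex.exp (-(ε : ℂ)) = (Complex.exp (ε : ℂ))⁻¹ := Complex.exp_neg _
  have h2 : Complex.exp (-((ε : ℂ) * (1 + p z))) =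
      Complex.exp (-(ε : ℂ)) * Complex.exp (-((ε : ℂ) * p z)) := by
    rw [← Complex.exp_add]; congr 1; ring
  have h3 : Complex.exp ((ε : ℂ) * (p z - 1)) =
      Complex.exp (-(ε : ℂ)) * (Complex.exp (-((ε : ℂ) * p z)))⁻¹ := by
    rw [← Complex.exp_neg, ← Complex.exp_add]; congr 1; ring
  have h4 : Complex.exp (-((ε : ℂ) * p z)) ≠ 0 := Complex.exp_ne_zero _
  rw [h2, h3, h1]
  have h5 : om ε p z = z * Complex.exp (-((ε : ℂ) * p z)) := rfl
  generalize g (om ε p z) = G at *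
  rw [h5]
  generalize Complex.exp (-((ε : ℂ) * p z)) = X at *
  generalize Complex.exp (ε : ℂ) = E at *
  field_simp
  ring

theorem tt_tendsto {ε : ℝ} {p : ℂ → ℂ} (hp : Car p) :
    Tendsto (TT ε p) (𝓝[≠] 0) (𝓝 (TT ε p 0)) := by
  have hpd : HasDerivAt p (deriv p 0) 0 := (hp.diff.differentiableAt ball_mem).hasDerivAt
  have hpc : Tendsto p (𝓝[≠] 0) (𝓝 1) := by
    have := hpd.continuousAt.tendsto
    rw [hp.zero] at this
    exact this.mono_left nhdsWithin_le_nhds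
  have hz : Tendsto (fun z : ℂ => z) (𝓝[≠] 0) (𝓝 0) := nhdsWithin_le_nhds
  have h1 : Tendsto (fun z : ℂ => z * (Complex.exp (-((ε : ℂ) * (1 + p z))) - 1)) (𝓝[≠] 0)
      (𝓝 (0 * (Complex.exp (-((ε : ℂ) * (1 + 1))) - 1))) := by
    refine hz.mul (Tendsto.sub ?_ tendsto_const_nhds)
    exact ((hpc.const_add 1).const_mul (ε : ℂ)).neg.cexp
  have h2 : HasDerivAt (fun z : ℂ => Complex.exp ((ε : ℂ) * (p z - 1))) ((ε : ℂ) * deriv p 0) 0 := by
    have := ((hpd.sub_const 1).const_mul (ε : ℂ)).cexp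
    rw [hp.zero] at this
    simpa using this
  have h3 : Tendsto (fun z : ℂ => (Complex.exp ((ε : ℂ) * (p z - 1)) - 1) / z) (𝓝[≠] 0)
      (𝓝 ((ε : ℂ) * deriv p 0)) := by
    have h4 := h2.tendsto_slope
    refine h4.congr' ?_
    filter_upwards [self_mem_nhdsWithin] with z hz
    rw [slope_def_field, hp.zero, sub_self, mul_zero, Complex.exp_zero, sub_zero]
  have h5 := (h1.add h3).add_const (2 * (1 - Complex.exp (-(ε : ℂ))))
  have e1 : TT ε p 0 = 0 * (Complex.exp (-((ε : ℂ) * (1 + 1))) - 1) + (ε : ℂ) * deriv p 0 +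
      2 * (1 - Complex.exp (-(ε : ℂ))) := by
    unfold TT
    rw [if_pos rfl, coeff_one]
    ring
  rw [e1]
  refine h5.congr' ?_
  filter_upwards [self_mem_nhdsWithin] with z hz
  have hz0 : z ≠ 0 := hz
  unfold TT
  rw [if_neg hz0]

end DSE_

theorem dse_proof (hDDA : Stmt_DDA) : Stmt_DSE := by
  intro ε f g p hε hf hg hs
  have key : ∀ z ∈ ball (0 : ℂ) 1,
      DD f z = Complex.exp (-ε) * DD g (om ε p z) + TT ε p z := by
    intro z hz
    by_cases h0 : z = 0
    · subst h0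
      have hc : ∀ F : ℂ → ℂ, InSS F → Tendsto (DD F) (𝓝 0) (𝓝 (DD F 0)) := fun F hF =>
        ((hDDA F hF).differentiableAt ball_mem).continuousAt
      have h1 : Tendsto (DD f) (𝓝[≠] 0) (𝓝 (DD f 0)) := (hc f hf).mono_left nhdsWithin_le_nhds
      have h2 : Tendsto (om ε p) (𝓝[≠] 0) (𝓝 0) := by
        have := (((om_diff (ε := ε) hs.car).differentiableAt ball_mem).continuousAt
          (x := (0 : ℂ))).tendsto
        rw [om_zero] at this
        exact this.mono_left nhdsWithin_le_nhds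
      have h3 : Tendsto (fun z => Complex.exp (-ε) * DD g (om ε p z) + TT ε p z) (𝓝[≠] 0)
          (𝓝 (Complex.exp (-ε) * DD g 0 + TT ε p 0)) :=
        (((hc g hg).comp h2).const_mul _).add (DSE_.tt_tendsto hs.car)
      have h4 : Tendsto (DD f) (𝓝[≠] 0) (𝓝 (Complex.exp (-ε) * DD g 0 + TT ε p 0)) := by
        refine h3.congr' ?_
        have hb : ball (0 : ℂ) 1 ∈ 𝓝[≠] (0 : ℂ) := nhdsWithin_le_nhds ball_mem
        filter_upwards [self_mem_nhdsWithin, hb] with w hw hwb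
        exact (DSE_.away hε hg hs hwb hw).symm
      rw [om_zero]
      exact tendsto_nhds_unique h1 h4
    · exact DSE_.away hε hg hs hz h0
  refine ⟨key, ?_⟩
  have h := congrArg Complex.re (key 0 zero_mem)
  rw [om_zero] at h
  unfold DD TT at h
  rw [if_pos rfl, if_pos rfl, if_pos rfl] at h
  have he : Complex.exp (-(ε : ℂ)) = ((Real.exp (-ε) : ℝ) : ℂ) := by push_cast; rfl
  rw [he] at h
  simp only [Complex.sub_re, Complex.add_re, Complex.re_ofReal_mul, Complex.re_ofNat] at h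
  have h2 : ((2 : ℂ) * (1 - ((Real.exp (-ε) : ℝ) : ℂ))).re = 2 * (1 - Real.exp (-ε)) := by
    rw [show (2 : ℂ) * (1 - ((Real.exp (-ε) : ℝ) : ℂ)) = ((2 * (1 - Real.exp (-ε)) : ℝ) : ℂ) by
      push_cast; ring, Complex.ofReal_re]
  rw [h2] at h
  unfold EE yy
  linarith

end Pool.Agent.DBR
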