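import Pool.Agent.DBR.Stmts

set_option autoImplicit false

/-!
Module DU5 of the squad DBR: size of `DD f` for bounded univalent functions.
-/

namespace Pool.Agent.DBR

open Complex Metric Set Filter MeasureTheory

open scoped Topology ComplexConjugate

open Pool.Agent.PSB (InS coeff psum Lam SelfU)

namespace DU5_

/-- Elementary bound for the exponential. -/
theorem exp_bd {ε : ℝ} (h0 : 0 < ε) (h1 : ε ≤ 1) :
    Real.exp (-ε) ≤ 1 - ε + ε ^ 2 ∧ 1 - ε ≤ Real.exp (-ε) ∧ Real.exp (-ε) ≤ 1 := by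
  have h2 := Real.abs_exp_sub_one_sub_id_le (x := -ε) (by rw [abs_neg, abs_of_pos h0]; exact h1)
  have h3 := (abs_le.1 h2).2
  have h4 := Real.add_one_le_exp (-ε)
  have h5 := Real.exp_le_one_iff.2 (by linarith : -ε ≤ 0)
  refine ⟨?_, by linarith, h5⟩
  nlinarith

/-- Weighted Cauchy-Schwarz inequality for three terms. -/
theorem cs3 {w1 w2 w3 a b : ℝ} (h1 : 0 ≤ w1) (h2 : 0 ≤ w2) (h3 : 0 ≤ w3) :
    (w1 * a + w2 * b + w3) ^ 2 ≤ (w1 + w2 + w3) * (w1 * a ^ 2 + w2 * b ^ 2 + w3) := by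
  nlinarith [mul_nonneg (mul_nonneg h1 h2) (sq_nonneg (a - b)),
    mul_nonneg (mul_nonneg h1 h3) (sq_nonneg (a - 1)),
    mul_nonneg (mul_nonneg h2 h3) (sq_nonneg (b - 1))]

/-- The real estimate of a step. -/
theorem real_step {ε c E E' y x C2 e u : ℝ} (h0 : 0 < ε) (h1 : ε ≤ 1) (hc : 4 ≤ c)
    (hE : 0 ≤ E) (hE4 : E ≤ 4) (hy : 0 ≤ y) (hy4 : y ≤ 4) (hx : 0 ≤ x) (hC : 0 ≤ C2)
    (he : e = Real.exp (-ε)) (hE' : E' = e * E + ε * y - 2 * (ε - 1 + e)) (hu0 : 0 ≤ u)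
    (hu : u ≤ e * Real.sqrt (c ^ 2 * E + x) + ε * (c * Real.sqrt y) + C2 * ε ^ 2) :
    u ^ 2 ≤ c ^ 2 * E' +
      ((1 + (1 + C2 + (2 * c ^ 2 + C2) + (1 + C2) * (8 * c ^ 2 + C2)) * ε) * x +
        (1 + C2 + (2 * c ^ 2 + C2) + (1 + C2) * (8 * c ^ 2 + C2)) * ε ^ 2) := by
  obtain ⟨b1, b2, b3⟩ := exp_bd h0 h1
  rw [← he] at b1 b2 b3
  have he0 : 0 ≤ e := by linarith
  have hcc : 0 ≤ c ^ 2 := sq_nonneg c
  have hA : 0 ≤ c ^ 2 * E + x := by positivity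
  have hε2 : ε ^ 2 ≤ 1 := by nlinarith
  have hw3 : 0 ≤ C2 * ε ^ 2 := by positivity
  have k1 : u ^ 2 ≤ (e * Real.sqrt (c ^ 2 * E + x) + ε * (c * Real.sqrt y) + C2 * ε ^ 2) ^ 2 :=
    pow_le_pow_left₀ hu0 hu 2
  have k2 := cs3 (w1 := e) (w2 := ε) (w3 := C2 * ε ^ 2) (a := Real.sqrt (c ^ 2 * E + x))
    (b := c * Real.sqrt y) he0 h0.le hw3
  rw [Real.sq_sqrt hA, mul_pow, Real.sq_sqrt hy] at k2
  set S := e * (c ^ 2 * E + x) + ε * (c ^ 2 * y) + C2 * ε ^ 2 with hS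
  have hS0 : 0 ≤ S := by positivity
  have k3 : e + ε + C2 * ε ^ 2 ≤ 1 + (1 + C2) * ε ^ 2 := by nlinarith
  have k4 : (e + ε + C2 * ε ^ 2) * S ≤ (1 + (1 + C2) * ε ^ 2) * S :=
    mul_le_mul_of_nonneg_right k3 hS0
  have hexE : e * (c ^ 2 * E) ≤ c ^ 2 * 4 := by
    have : e * (c ^ 2 * E) ≤ 1 * (c ^ 2 * E) :=
      mul_le_mul_of_nonneg_right b3 (by positivity)
    nlinarith
  have hex : e * x ≤ x := by nlinarith
  have hey : ε * (c ^ 2 * y) ≤ c ^ 2 * 4 := by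
    have : ε * (c ^ 2 * y) ≤ 1 * (c ^ 2 * y) :=
      mul_le_mul_of_nonneg_right h1 (by positivity)
    nlinarith
  have k5 : S ≤ 8 * c ^ 2 + C2 + x := by
    have : C2 * ε ^ 2 ≤ C2 := by nlinarith
    rw [hS]
    nlinarith
  have k6 : S ≤ c ^ 2 * E' + x + (2 * c ^ 2 + C2) * ε ^ 2 := by
    have h7 : ε - 1 + e ≤ ε ^ 2 := by linarith
    have h8 : c ^ 2 * (ε - 1 + e) ≤ c ^ 2 * ε ^ 2 := mul_le_mul_of_nonneg_left h7 hcc
    rw [hS, hE']
    nlinarith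
  have k7 : (1 + C2) * ε ^ 2 * S ≤ (1 + C2) * ε ^ 2 * (8 * c ^ 2 + C2 + x) :=
    mul_le_mul_of_nonneg_left k5 (by positivity)
  have k8 : (1 + C2) * ε ^ 2 * x ≤ (1 + C2) * ε * x := by
    have : ε ^ 2 ≤ ε := by nlinarith
    exact mul_le_mul_of_nonneg_right (mul_le_mul_of_nonneg_left this (by linarith)) hx
  have k9 : 0 ≤ ((2 * c ^ 2 + C2) + (1 + C2) * (8 * c ^ 2 + C2)) * ε * x := by positivity
  have k10 : 0 ≤ (1 + C2) * ε ^ 2 := by positivity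
  calc u ^ 2 ≤ (1 + (1 + C2) * ε ^ 2) * S := k1.trans (k2.trans k4)
    _ = S + (1 + C2) * ε ^ 2 * S := by ring
    _ ≤ (c ^ 2 * E' + x + (2 * c ^ 2 + C2) * ε ^ 2) +
        (1 + C2) * ε ^ 2 * (8 * c ^ 2 + C2 + x) := add_le_add k6 k7
    _ ≤ _ := by nlinarith

/-- Bounds for the deficiency. -/
theorem EE_bd (hDBB : Stmt_DBB) {M : ℝ} {g : ℂ → ℂ} (hg : InS M g) : 0 ≤ EE g ∧ EE g ≤ 4 := by
  have h := hDBB M g hg 2
  have h2 := Complex.abs_re_le_norm (coeff g 2)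
  have h3 := abs_le.1 (h2.trans h)
  unfold EE
  push_cast at h3
  constructor <;> linarith [h3.1, h3.2]

/-- Base case: the class `S(1)`. -/
theorem base {g : ℂ → ℂ} (hg : InS 1 g) {c : ℝ} (hc : 4 ≤ c) {z : ℂ} (hz : ‖z‖ < 1) :
    ‖DD g z‖ ^ 2 ≤ c ^ 2 * EE g + 0 := by
  have h2 : coeff g 2 = 0 := by rw [coeff_of_inS_one hg]; simp
  have hE : EE g = 2 := by unfold EE; rw [h2]; simp
  have hD : DD g z = 2 - z := by
    unfold DD
    split_ifs with h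
    · rw [h, h2]
    · rw [eq_id_of_inS_one hg (by rwa [mem_ball_zero_iff])]
      field_simp
      ring
  rw [hD, hE]
  have h3 : ‖(2 : ℂ) - z‖ ≤ 3 := by
    refine (norm_sub_le _ _).trans ?_
    have : ‖(2 : ℂ)‖ = 2 := by simp
    rw [this]
    linarith
  have h4 : ‖(2 : ℂ) - z‖ ^ 2 ≤ 3 ^ 2 := pow_le_pow_left₀ (norm_nonneg _) h3 2
  nlinarith

end DU5_

/-- DU5: size of `DD f` for bounded univalent functions. -/
theorem DU5_proof (hREC : Stmt_REC) (hDSE : Stmt_DSE) (hRRE : Stmt_RRE) (hTTR : Stmt_TTR)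
    (hDBB : Stmt_DBB) (hQMO : Stmt_QMO) : Stmt_DU5 := by
  intro M r f z hf hr0 hr1 hz
  obtain ⟨C1, hC1, hTT⟩ := hTTR r hr0 hr1
  set c : ℝ := 4 / (1 - r) ^ 2 with hc
  have hr1' : 0 < 1 - r := by linarith
  have hc4 : 4 ≤ c := by
    rw [hc, le_div_iff₀ (by positivity)]
    nlinarith
  have hM := one_le_of_inS hf
  set C2 : ℝ := C1 + 2 with hC2
  have hC20 : 0 ≤ C2 := by linarith
  set C : ℝ := 1 + C2 + (2 * c ^ 2 + C2) + (1 + C2) * (8 * c ^ 2 + C2) with hC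
  have hC0 : 0 ≤ C := by positivity
  have key := hREC M C (fun _ x g => ∀ w : ℂ, ‖w‖ ≤ r → ‖DD g w‖ ^ 2 ≤ c ^ 2 * EE g + x) hM hC0
    (fun t x x' g hx h w hw => (h w hw).trans (by linarith)) ?_
    (fun g hg w hw => DU5_.base hg hc4 (hw.trans_lt hr1)) f hf
  · refine le_of_forall_pos_le_add fun x hx => ?_
    exact key x hx z hz
  · intro ε t x f g p hε hε1 _ _ hx hf hg hst h w hw
    have hwb : w ∈ ball (0 : ℂ) 1 := by rw [mem_ball_zero_iff]; linarith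
    obtain ⟨h1, h2⟩ := hDSE ε f g p hε (toSS hf) (toSS hg) hst
    obtain ⟨hE0, hE4⟩ := DU5_.EE_bd hDBB hg
    obtain ⟨hy0, hy4, -⟩ := hQMO p hst.car
    have hom : ‖om ε p w‖ ≤ r := (om_norm_le hε.le hst.car hwb).trans hw
    have h3 := h _ hom
    have hA : ‖DD g (om ε p w)‖ ≤ Real.sqrt (c ^ 2 * EE g + x) := Real.le_sqrt_of_sq_le h3
    have h4 := hTT ε p w hε hε1 hst.car hw
    have h5 := hRRE p r w hst.car hr1 hw
    obtain ⟨b1, b2, b3⟩ := DU5_.exp_bd hε hε1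
    have h6 : ‖(2 : ℂ) * (1 - Complex.exp (-ε) - ε)‖ ≤ 2 * ε ^ 2 := by
      have : (2 : ℂ) * (1 - Complex.exp (-ε) - ε) = ((2 * (1 - Real.exp (-ε) - ε) : ℝ) : ℂ) := by
        push_cast
        ring
      rw [this, Complex.norm_real, Real.norm_eq_abs, abs_le]
      constructor <;> nlinarith
    have h7 : ‖TT ε p w‖ ≤ ε * (c * Real.sqrt (yy p)) + C2 * ε ^ 2 := by
      have e1 : TT ε p w = (TT ε p w - ε * RR p w - 2 * (1 - Complex.exp (-ε) - ε)) +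
          (ε * RR p w) + 2 * (1 - Complex.exp (-ε) - ε) := by ring
      have e2 : ‖(ε : ℂ) * RR p w‖ ≤ ε * (c * Real.sqrt (yy p)) := by
        rw [norm_mul, Complex.norm_real, Real.norm_of_nonneg hε.le]
        exact mul_le_mul_of_nonneg_left h5 hε.le
      have e3 : C1 * ε ^ 2 * ‖w‖ ≤ C1 * ε ^ 2 := by
        have : ‖w‖ ≤ 1 := by linarith
        have h8 : 0 ≤ C1 * ε ^ 2 := by positivity
        nlinarith
      rw [e1]
      refine (norm_add_le _ _).trans ?_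
      refine (add_le_add (norm_add_le _ _) le_rfl).trans ?_
      rw [hC2]
      linarith
    have h8 : ‖DD f w‖ ≤ Real.exp (-ε) * Real.sqrt (c ^ 2 * EE g + x) +
        ε * (c * Real.sqrt (yy p)) + C2 * ε ^ 2 := by
      rw [h1 w hwb]
      refine (norm_add_le _ _).trans ?_
      have e1 : ‖Complex.exp (-(ε : ℂ))‖ = Real.exp (-ε) := by
        rw [Complex.norm_exp]
        simp
      rw [norm_mul, e1, add_assoc]
      exact add_le_add (mul_le_mul_of_nonneg_left hA (Real.exp_pos _).le) h7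
    exact DU5_.real_step hε hε1 hc4 hE0 hE4 hy0 hy4 hx hC20 rfl h2 (norm_nonneg _) h8

end Pool.Agent.DBR
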