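import Pool.Agent.DBR.Stmts

set_option autoImplicit false

/-!
Module DU6 of the squad DBR: the real part of `DD f` for bounded univalent functions.
-/

namespace Pool.Agent.DBR

open Complex Metric Set Filter MeasureTheory

open scoped Topology ComplexConjugate

open Pool.Agent.PSB (InS coeff psum Lam SelfU)

namespace DU6_

/-- Elementary bound for the exponential. -/
theorem exp_bd {ε : ℝ} (h0 : 0 < ε) (h1 : ε ≤ 1) :
    Real.exp (-ε) ≤ 1 - ε + ε ^ 2 ∧ 1 - ε ≤ Real.exp (-ε) ∧ Real.exp (-ε) ≤ 1 := by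
  have h2 := Real.abs_exp_sub_one_sub_id_le (x := -ε) (by rw [abs_neg, abs_of_pos h0]; exact h1)
  have h3 := (abs_le.1 h2).2
  have h4 := Real.add_one_le_exp (-ε)
  have h5 := Real.exp_le_one_iff.2 (by linarith : -ε ≤ 0)
  refine ⟨?_, by linarith, h5⟩
  nlinarith

/-- Bounds for the deficiency. -/
theorem EE_bd (hDBB : Stmt_DBB) {M : ℝ} {g : ℂ → ℂ} (hg : InS M g) : 0 ≤ EE g ∧ EE g ≤ 4 := by
  have h := hDBB M g hg 2
  have h2 := Complex.abs_re_le_norm (coeff g 2)
  have h3 := abs_le.1 (h2.trans h)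
  unfold EE
  push_cast at h3
  constructor <;> linarith [h3.1, h3.2]

/-- Base case: the class `S(1)`. -/
theorem base {g : ℂ → ℂ} (hg : InS 1 g) {c : ℝ} (hc : 1 ≤ c) {z : ℂ} (hz : ‖z‖ < 1) :
    ‖LL g z‖ ≤ (c * EE g + 0) * ‖z‖ := by
  have h2 : coeff g 2 = 0 := by rw [coeff_of_inS_one hg]; simp
  have hE : EE g = 2 := by unfold EE; rw [h2]; simp
  have hD : ∀ w : ℂ, ‖w‖ < 1 → DD g w = 2 - w := by
    intro w hw
    unfold DD
    split_ifs with h
    · rw [h, h2]
    · rw [eq_id_of_inS_one hg (by rwa [mem_ball_zero_iff])]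
      field_simp
      ring
  have hL : LL g z = -z := by
    unfold LL
    rw [hD z hz, hD (conj z) (by rwa [Complex.norm_conj]), hE]
    simp only [map_sub, Complex.conj_conj, map_ofNat]
    push_cast
    ring
  rw [hL, norm_neg, hE]
  nlinarith [norm_nonneg z]

/-- Lipschitz bound. -/
theorem lip (hDU5 : Stmt_DU5) (hDDA : Stmt_DDA) (hDBB : Stmt_DBB) {M r : ℝ} {g : ℂ → ℂ}
    (hg : InS M g) (hr0 : 0 < r) (hr1 : r < 1) {a b : ℂ} (ha : ‖a‖ ≤ r) (hb : ‖b‖ ≤ r) :
    ‖DD g a - DD g b‖ ≤ 32 * Real.sqrt (EE g) / (1 - r) ^ 3 * ‖a - b‖ := by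
  obtain ⟨hE0, -⟩ := EE_bd hDBB hg
  have hs : 0 < 1 - r := by linarith
  have hdd := hDDA g (toSS hg)
  set R : ℝ := (1 - r) / 2 with hR
  have hR0 : 0 < R := by positivity
  have hbd : ∀ w : ℂ, ‖w‖ ≤ (1 + r) / 2 → ‖DD g w‖ ≤ 16 * Real.sqrt (EE g) / (1 - r) ^ 2 := by
    intro w hw
    have h := hDU5 M ((1 + r) / 2) g w hg (by linarith) (by linarith) hw
    have h1 : (1 - (1 + r) / 2) = (1 - r) / 2 := by ring
    rw [h1] at h
    have h2 : (4 / ((1 - r) / 2) ^ 2) ^ 2 * EE g = (16 * Real.sqrt (EE g) / (1 - r) ^ 2) ^ 2 := by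
      rw [div_pow (16 * Real.sqrt (EE g)), mul_pow, Real.sq_sqrt hE0]
      field_simp
      ring
    rw [h2] at h
    exact abs_le_of_sq_le_sq' h (by positivity) |>.2
  have hderiv : ∀ w ∈ closedBall (0 : ℂ) r,
      ‖deriv (DD g) w‖ ≤ 32 * Real.sqrt (EE g) / (1 - r) ^ 3 := by
    intro w hw
    rw [mem_closedBall_zero_iff] at hw
    have hcl : closedBall w R ⊆ ball (0 : ℂ) 1 := by
      intro u hu
      rw [mem_closedBall, dist_eq_norm] at hu
      rw [mem_ball_zero_iff]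
      have : ‖u‖ ≤ ‖u - w‖ + ‖w‖ := by
        have := norm_add_le (u - w) w
        rwa [sub_add_cancel] at this
      linarith
    have h1 : DiffContOnCl ℂ (DD g) (ball w R) := by
      refine (hdd.mono ?_).diffContOnCl
      rw [closure_ball _ hR0.ne']
      exact hcl
    have h2 := Complex.norm_deriv_le_of_forall_mem_sphere_norm_le hR0 h1
      (C := 16 * Real.sqrt (EE g) / (1 - r) ^ 2) (fun u hu => by
        refine hbd u ?_
        rw [mem_sphere, dist_eq_norm] at hu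
        have : ‖u‖ ≤ ‖u - w‖ + ‖w‖ := by
          have := norm_add_le (u - w) w
          rwa [sub_add_cancel] at this
        linarith)
    refine h2.trans (le_of_eq ?_)
    rw [hR]
    field_simp
    ring
  have h := Convex.norm_image_sub_le_of_norm_deriv_le (𝕜 := ℂ) (f := DD g)
    (s := closedBall (0 : ℂ) r) (fun w hw => by
      refine hdd.differentiableAt (isOpen_ball.mem_nhds ?_)
      rw [mem_closedBall_zero_iff] at hw
      rw [mem_ball_zero_iff]
      linarith) hderiv (convex_closedBall 0 r)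
    (x := b) (y := a) (by rwa [mem_closedBall_zero_iff]) (by rwa [mem_closedBall_zero_iff])
  exact h

/-- The real estimate of a step. -/
theorem real_step {ε s E E' y x C1 e k : ℝ} (h0 : 0 < ε) (h1 : ε ≤ 1) (hs0 : 0 < s) (hs1 : s ≤ 1)
    (hE : 0 ≤ E) (hE4 : E ≤ 4) (hy : 0 ≤ y) (hx : 0 ≤ x) (hC1 : 0 ≤ C1)
    (he : e = Real.exp (-ε)) (hE' : E' = e * E + ε * y - 2 * (ε - 1 + e)) (hk : k = Real.exp (-(ε * s / 2))) :
    e * ((100 / s ^ 6 * E + x) * k + 32 * Real.sqrt E / s ^ 3 * (2 * ε * Real.sqrt y / s ^ 2)) +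
      ε * (10 / s ^ 3 * y) + C1 * ε ^ 2 ≤
    100 / s ^ 6 * E' + ((1 + (8 * (100 / s ^ 6) + C1) * ε) * x + (8 * (100 / s ^ 6) + C1) * ε ^ 2) := by
  obtain ⟨b1, b2, b3⟩ := exp_bd h0 h1
  rw [← he] at b1 b2 b3
  have he0 : 0 ≤ e := by linarith
  have hes : 0 < ε * s / 2 := by positivity
  have hes1 : ε * s / 2 ≤ 1 := by nlinarith
  obtain ⟨d1, d2, d3⟩ := exp_bd hes hes1
  rw [← hk] at d1 d2 d3
  have hk0 : 0 ≤ k := by linarith
  set c : ℝ := 100 / s ^ 6 with hc
  have hc0 : 0 < c := by positivity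
  set A := Real.sqrt E with hA
  set B := Real.sqrt y with hB
  have hA2 : A ^ 2 = E := Real.sq_sqrt hE
  have hB2 : B ^ 2 = y := Real.sq_sqrt hy
  have hA0 : 0 ≤ A := Real.sqrt_nonneg _
  have hB0 : 0 ≤ B := Real.sqrt_nonneg _
  -- bracket
  have hbr : 64 / s ^ 5 * (A * B) + 10 / s ^ 3 * y ≤ c * E * (s / 2) + c * y := by
    have i5 : 0 < 1 / s ^ 5 := by positivity
    have e1 : c * E * (s / 2) = 50 * (1 / s ^ 5) * A ^ 2 := by
      rw [hA2, hc]; field_simp; ring
    have e2 : c = 100 * (1 / s ^ 6) := by rw [hc]; ring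
    have e3 : 1 / s ^ 5 ≤ 1 / s ^ 6 := by
      refine one_div_le_one_div_of_le (by positivity) ?_
      exact pow_le_pow_of_le_one hs0.le hs1 (by norm_num)
    have e4 : 1 / s ^ 3 ≤ 1 / s ^ 6 := by
      refine one_div_le_one_div_of_le (by positivity) ?_
      exact pow_le_pow_of_le_one hs0.le hs1 (by norm_num)
    have e5 : 10 / s ^ 3 * y ≤ 10 * (1 / s ^ 6) * y := by
      have : 10 / s ^ 3 * y = 10 * (1 / s ^ 3) * y := by ring
      rw [this]
      exact mul_le_mul_of_nonneg_right (by linarith) hy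
    have e6 : 90 * (1 / s ^ 5) * y ≤ 90 * (1 / s ^ 6) * y :=
      mul_le_mul_of_nonneg_right (by linarith) hy
    have e7 : 64 * (A * B) ≤ 50 * A ^ 2 + 90 * B ^ 2 := by nlinarith [sq_nonneg (A - B)]
    have e8 : 64 / s ^ 5 * (A * B) ≤ 50 * (1 / s ^ 5) * A ^ 2 + 90 * (1 / s ^ 5) * y := by
      have := mul_le_mul_of_nonneg_left e7 i5.le
      rw [← hB2]
      calc 64 / s ^ 5 * (A * B) = 1 / s ^ 5 * (64 * (A * B)) := by ring
        _ ≤ 1 / s ^ 5 * (50 * A ^ 2 + 90 * B ^ 2) := this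
        _ = _ := by ring
    have e9 : c * y = 100 * (1 / s ^ 6) * y := by rw [e2]
    rw [e1, e9]
    linarith
  -- the terms
  have hcE : 0 ≤ c * E := by positivity
  have hcE4 : c * E ≤ 4 * c := by nlinarith
  have hkk : k ≤ 1 - ε * (s / 2) + ε ^ 2 := by
    have : (ε * s / 2) ^ 2 ≤ ε ^ 2 := by
      refine pow_le_pow_left₀ hes.le ?_ 2
      nlinarith
    linarith
  have t1 : e * (c * E * k) ≤ e * (c * E) - c * E * (s / 2) * ε + 2 * c * ε ^ 2 + 4 * c * ε ^ 2 := by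
    have h2 : c * E * k ≤ c * E * (1 - ε * (s / 2) + ε ^ 2) := mul_le_mul_of_nonneg_left hkk hcE
    have h3 : e * (c * E * k) ≤ e * (c * E * (1 - ε * (s / 2) + ε ^ 2)) :=
      mul_le_mul_of_nonneg_left h2 he0
    have h4 : e * (c * E * (1 - ε * (s / 2) + ε ^ 2)) =
        e * (c * E) - e * (c * E * (s / 2) * ε) + e * (c * E * ε ^ 2) := by ring
    have h5 : 0 ≤ c * E * (s / 2) * ε := by positivity
    have h6 : (1 - ε) * (c * E * (s / 2) * ε) ≤ e * (c * E * (s / 2) * ε) :=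
      mul_le_mul_of_nonneg_right b2 h5
    have h7 : c * E * (s / 2) ≤ 2 * c := by
      have : c * E * (s / 2) ≤ c * E * (1 / 2) := mul_le_mul_of_nonneg_left (by linarith) hcE
      linarith
    have h8 : ε * (c * E * (s / 2) * ε) ≤ 2 * c * ε ^ 2 := by
      have := mul_le_mul_of_nonneg_right h7 (sq_nonneg ε)
      nlinarith
    have h9 : e * (c * E * ε ^ 2) ≤ 4 * c * ε ^ 2 := by
      have h10 : 0 ≤ c * E * ε ^ 2 := by positivity
      have h11 : e * (c * E * ε ^ 2) ≤ 1 * (c * E * ε ^ 2) := mul_le_mul_of_nonneg_right b3 h10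
      have h12 := mul_le_mul_of_nonneg_right hcE4 (sq_nonneg ε)
      linarith
    linarith
  have t2 : e * (x * k) ≤ x := by
    have h2 : x * k ≤ x := mul_le_of_le_one_right hx d3
    have h3 : 0 ≤ x * k := mul_nonneg hx hk0
    have h4 : e * (x * k) ≤ 1 * (x * k) := mul_le_mul_of_nonneg_right b3 h3
    linarith
  have t3 : e * (32 * A / s ^ 3 * (2 * ε * B / s ^ 2)) ≤ ε * (64 / s ^ 5 * (A * B)) := by
    have h2 : 32 * A / s ^ 3 * (2 * ε * B / s ^ 2) = ε * (64 / s ^ 5 * (A * B)) := by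
      field_simp
      ring
    rw [h2]
    have h3 : 0 ≤ ε * (64 / s ^ 5 * (A * B)) := by positivity
    have h4 := mul_le_mul_of_nonneg_right b3 h3
    linarith
  have t4 : ε * (64 / s ^ 5 * (A * B) + 10 / s ^ 3 * y) ≤ ε * (c * E * (s / 2) + c * y) :=
    mul_le_mul_of_nonneg_left hbr h0.le
  have t5 : c * (ε - 1 + e) ≤ c * ε ^ 2 := mul_le_mul_of_nonneg_left (by linarith) hc0.le
  have t6 : 0 ≤ (8 * c + C1) * ε * x := by positivity
  rw [hE']
  have l1 : e * ((c * E + x) * k + 32 * A / s ^ 3 * (2 * ε * B / s ^ 2)) =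
      e * (c * E * k) + e * (x * k) + e * (32 * A / s ^ 3 * (2 * ε * B / s ^ 2)) := by ring
  rw [l1]
  nlinarith

end DU6_

/-- DU6: the real part of `DD f` for bounded univalent functions. -/
theorem du6_proof (hREC : Stmt_REC) (hDSE : Stmt_DSE) (hRRS : Stmt_RRS) (hTTR : Stmt_TTR)
    (hDBB : Stmt_DBB) (hDU5 : Stmt_DU5) (hPKB : Stmt_PKB) (hDDA : Stmt_DDA) (hQMO : Stmt_QMO) :
    Stmt_DU6 := by
  intro M r f z hf hr0 hr1 hz
  obtain ⟨C1, hC1, hTT⟩ := hTTR r hr0 hr1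
  have hs0 : 0 < 1 - r := by linarith
  have hs1 : 1 - r ≤ 1 := by linarith
  set c : ℝ := 100 / (1 - r) ^ 6 with hc
  have hc1 : 1 ≤ c := by
    rw [hc, le_div_iff₀ (by positivity)]
    have : (1 - r) ^ 6 ≤ 1 := pow_le_one₀ hs0.le hs1
    linarith
  have hM := one_le_of_inS hf
  have hC0 : 0 ≤ 8 * c + C1 := by positivity
  have key := hREC M (8 * c + C1)
    (fun _ x g => ∀ w : ℂ, ‖w‖ ≤ r → ‖LL g w‖ ≤ (c * EE g + x) * ‖w‖) hM hC0
    (fun t x x' g hx h w hw => (h w hw).trans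
      (mul_le_mul_of_nonneg_right (by linarith) (norm_nonneg _))) ?_
    (fun g hg w hw => DU6_.base hg hc1 (hw.trans_lt hr1)) f hf
  · have : ∀ x : ℝ, 0 < x → ‖LL f z‖ ≤ c * EE f * ‖z‖ + x := by
      intro x hx
      have h := key x hx z hz
      have h1 : x * ‖z‖ ≤ x := mul_le_of_le_one_right hx.le (by linarith)
      linarith [add_mul (c * EE f) x ‖z‖]
    exact le_of_forall_pos_le_add this
  · intro ε t x f g p hε hε1 _ _ hx hf hg hst h w hw
    have hwb : w ∈ ball (0 : ℂ) 1 := by rw [mem_ball_zero_iff]; linarith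
    have hcw : ‖conj w‖ ≤ r := by rwa [Complex.norm_conj]
    have hcwb : conj w ∈ ball (0 : ℂ) 1 := by rw [mem_ball_zero_iff]; linarith
    obtain ⟨h1, h2⟩ := hDSE ε f g p hε (toSS hf) (toSS hg) hst
    obtain ⟨hE0, hE4⟩ := DU6_.EE_bd hDBB hg
    obtain ⟨hy0, hy4, -⟩ := hQMO p hst.car
    obtain ⟨p1, p2, p3⟩ := hPKB ε r p w hε.le hst.car hr1 hw
    obtain ⟨q1, q2, q3⟩ := hPKB ε r p (conj w) hε.le hst.car hr1 hcw
    have hkc : om ε pK (conj w) = conj (om ε pK w) := by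
      rw [← p3, Complex.conj_conj]
    rw [hkc, Complex.norm_conj] at q1
    set a := om ε p w with ha
    set b := om ε p (conj w) with hb
    set k := om ε pK w with hk
    have har : ‖a‖ ≤ r := (om_norm_le hε.le hst.car hwb).trans hw
    have hbr : ‖b‖ ≤ r := (om_norm_le hε.le hst.car hcwb).trans hcw
    have hkr : ‖k‖ ≤ r := (om_norm_le hε.le pK_car hwb).trans hw
    have hckr : ‖conj k‖ ≤ r := by rwa [Complex.norm_conj]
    have hLk := h k hkr
    have l1 := DU6_.lip hDU5 hDDA hDBB hg hr0 hr1 har hkr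
    have l2 := DU6_.lip hDU5 hDDA hDBB hg hr0 hr1 hbr hckr
    have r1 := hTT ε p w hε hε1 hst.car hw
    have r2 := hTT ε p (conj w) hε hε1 hst.car hcw
    rw [Complex.norm_conj] at r2
    have r3 := hRRS p r w hst.car hr1 hw
    set u1 := TT ε p w - ε * RR p w - 2 * (1 - Complex.exp (-ε) - ε) with hu1
    set u2 := TT ε p (conj w) - ε * RR p (conj w) - 2 * (1 - Complex.exp (-ε) - ε) with hu2
    have hce : conj (Complex.exp (-(ε : ℂ))) = Complex.exp (-(ε : ℂ)) := by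
      rw [← Complex.exp_conj]
      simp
    -- identity
    have hid : LL f w = Complex.exp (-ε) * (LL g k + ((DD g a - DD g k) +
        conj (DD g b - DD g (conj k))) / 2) + ε * (sym (RR p) w - yy p) + (u1 + conj u2) / 2 := by
      unfold LL sym
      rw [h1 w hwb, h1 (conj w) hcwb, h2, ← ha, ← hb, hu1, hu2]
      simp only [map_sub, map_add, map_mul, hce, Complex.conj_ofReal, map_one, map_ofNat]
      push_cast
      ring
    have n1 : ‖Complex.exp (-(ε : ℂ))‖ = Real.exp (-ε) := by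
      rw [Complex.norm_exp]
      simp
    have n2 : ‖((DD g a - DD g k) + conj (DD g b - DD g (conj k))) / 2‖ ≤
        32 * Real.sqrt (EE g) / (1 - r) ^ 3 *
          (2 * ε * Real.sqrt (yy p) / (1 - r) ^ 2) * ‖w‖ := by
      have m0 : 0 ≤ 32 * Real.sqrt (EE g) / (1 - r) ^ 3 := by positivity
      have m1 := l1.trans (mul_le_mul_of_nonneg_left p1 m0)
      have m2 := l2.trans (mul_le_mul_of_nonneg_left q1 m0)
      rw [norm_div]
      have m3 : ‖(2 : ℂ)‖ = 2 := by simp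
      rw [m3, div_le_iff₀ (by norm_num)]
      refine (norm_add_le _ _).trans ?_
      rw [Complex.norm_conj]
      linarith
    have n3 : ‖(u1 + conj u2) / 2‖ ≤ C1 * ε ^ 2 * ‖w‖ := by
      rw [norm_div]
      have m3 : ‖(2 : ℂ)‖ = 2 := by simp
      rw [m3, div_le_iff₀ (by norm_num)]
      refine (norm_add_le _ _).trans ?_
      rw [Complex.norm_conj]
      linarith
    have n4 : ‖LL g k‖ ≤ (c * EE g + x) * Real.exp (-(ε * (1 - r) / 2)) * ‖w‖ := by
      have m0 : 0 ≤ c * EE g + x := by positivity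
      refine hLk.trans ?_
      rw [mul_assoc]
      exact mul_le_mul_of_nonneg_left p2 m0
    have n5 : ‖(ε : ℂ) * (sym (RR p) w - yy p)‖ ≤ ε * (10 / (1 - r) ^ 3 * yy p) * ‖w‖ := by
      rw [norm_mul, Complex.norm_real, Real.norm_of_nonneg hε.le, mul_assoc]
      exact mul_le_mul_of_nonneg_left r3 hε.le
    have hreal := DU6_.real_step (ε := ε) (s := 1 - r) (E := EE g) (E' := EE f) (y := yy p)
      (x := x) (C1 := C1) hε hε1 hs0 hs1 hE0 hE4 hy0 hx hC1 rfl h2 rfl
    have hfin : ‖LL f w‖ ≤ (Real.exp (-ε) * ((c * EE g + x) * Real.exp (-(ε * (1 - r) / 2)) +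
        32 * Real.sqrt (EE g) / (1 - r) ^ 3 * (2 * ε * Real.sqrt (yy p) / (1 - r) ^ 2)) +
        ε * (10 / (1 - r) ^ 3 * yy p) + C1 * ε ^ 2) * ‖w‖ := by
      rw [hid]
      refine (norm_add_le _ _).trans ?_
      refine (add_le_add (norm_add_le _ _) n3).trans ?_
      have m4 : ‖Complex.exp (-(ε : ℂ)) * (LL g k + ((DD g a - DD g k) +
          conj (DD g b - DD g (conj k))) / 2)‖ ≤ Real.exp (-ε) *
          (((c * EE g + x) * Real.exp (-(ε * (1 - r) / 2)) * ‖w‖) +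
            32 * Real.sqrt (EE g) / (1 - r) ^ 3 *
          (2 * ε * Real.sqrt (yy p) / (1 - r) ^ 2) * ‖w‖) := by
        rw [norm_mul, n1]
        exact mul_le_mul_of_nonneg_left ((norm_add_le _ _).trans (add_le_add n4 n2))
          (Real.exp_pos _).le
      refine (add_le_add (add_le_add m4 n5) le_rfl).trans (le_of_eq ?_)
      ring
    exact hfin.trans (mul_le_mul_of_nonneg_right hreal (norm_nonneg _))

end Pool.Agent.DBR
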