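import Mathlib
import Pool.Agent.PSB.Defs

/-!
Univalent functions: one-step Loewner recursion, the inequality of de Branges, an inequality of
Bombieri type and partial sums of bounded univalent functions (MP_910507_an): definitions.
-/

namespace Pool.Agent.DBR

open Complex Metric Set Filter

open scoped Topology ComplexConjugate

open Pool.Agent.PSB (InS coeff psum Lam SelfU)

/-- The class `S` of normalised univalent functions of the unit disc. -/
structure InSS (f : ℂ → ℂ) : Prop where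
  diff : DifferentiableOn ℂ f (ball 0 1)
  inj : InjOn f (ball 0 1)
  zero : f 0 = 0
  one : deriv f 0 = 1

/-- Functions of the Carathéodory class. -/
structure Car (p : ℂ → ℂ) : Prop where
  diff : DifferentiableOn ℂ p (ball 0 1)
  re : ∀ z ∈ ball (0 : ℂ) 1, 0 ≤ (p z).re
  zero : p 0 = 1

/-- The inner map `z exp(-ε p(z))` of a step. -/
noncomputable def om (ε : ℝ) (p : ℂ → ℂ) (z : ℂ) : ℂ := z * Complex.exp (-(ε * p z))

/-- A Loewner step: `f = e^ε g(z exp(-ε p(z)))` with `p` in the Carathéodory class. -/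
structure Step (ε : ℝ) (f g p : ℂ → ℂ) : Prop where
  car : Car p
  eq : ∀ z ∈ ball (0 : ℂ) 1, f z = Complex.exp ε * g (om ε p z)

/-- The first `n` values of `q` are twice the moments of a finitely supported probability measure
on the unit circle. -/
def Mom (n : ℕ) (q : ℕ → ℂ) : Prop :=
  ∃ (N : ℕ) (w : Fin N → ℝ) (κ : Fin N → ℂ), (∀ i, 0 ≤ w i) ∧ ∑ i, w i = 1 ∧ (∀ i, ‖κ i‖ = 1) ∧
    ∀ m, 1 ≤ m → m ≤ n → q m = 2 * ∑ i, (w i : ℂ) * κ i ^ m

/-- A factorisation `F = h ∘ g` with `h` univalent, `h 0 = 0`, `h' 0 = s`, `|h| ≤ M`, and `g` a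
holomorphic self-map of the disc with `g 0 = 0`. -/
structure Fac (M s : ℝ) (F h g : ℂ → ℂ) : Prop where
  hdiff : DifferentiableOn ℂ h (ball 0 1)
  hinj : InjOn h (ball 0 1)
  hzero : h 0 = 0
  hder : deriv h 0 = (s : ℂ)
  hbdd : ∀ z ∈ ball (0 : ℂ) 1, ‖h z‖ ≤ M
  gdiff : DifferentiableOn ℂ g (ball 0 1)
  gzero : g 0 = 0
  gmaps : ∀ z ∈ ball (0 : ℂ) 1, ‖g z‖ < 1
  comp : ∀ z ∈ ball (0 : ℂ) 1, F z = h (g z)

/-- The Koebe function. -/
noncomputable def Kb (z : ℂ) : ℂ := z / (1 - z) ^ 2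

/-- The inverse of the Koebe function, `(√(1+4v) - 1)/(√(1+4v) + 1)`. -/
noncomputable def Kinv (v : ℂ) : ℂ :=
  ((1 + 4 * v) ^ ((1 : ℂ) / 2) - 1) / ((1 + 4 * v) ^ ((1 : ℂ) / 2) + 1)

/-- The Pick function of the class `S(M)`. -/
noncomputable def Pk (M : ℝ) (z : ℂ) : ℂ := M * Kinv (Kb z / M)

/-- The value `∑ (-1)^(m-1) Cat_m C(n+m,2m) M^(1-m)`. -/
noncomputable def AP (n : ℕ) (M : ℝ) : ℝ :=
  ∑ m ∈ Finset.Icc 1 n, (-1 : ℝ) ^ (m - 1) * (catalan m) * ((n + m).choose (2 * m)) / M ^ (m - 1)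

/-- The weights of de Branges: `-τ_k'/k` as a function of `s = e^{-t}`. -/
noncomputable def gam (n k : ℕ) (s : ℝ) : ℝ :=
  ∑ m ∈ Finset.Icc k n,
    (-1 : ℝ) ^ (m - k) * ((2 * m).choose (m - k)) * ((n + m + 1).choose (2 * m + 1)) * s ^ m

/-- The weights of de Branges `τ_k` as a function of `s = e^{-t}`. -/
noncomputable def tau (n k : ℕ) (s : ℝ) : ℝ :=
  ∑ m ∈ Finset.Icc k n,
    (-1 : ℝ) ^ (m - k) * ((k : ℝ) / m) * ((2 * m).choose (m - k)) *
      ((n + m + 1).choose (2 * m + 1)) * s ^ m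

/-- `l` is the logarithm of `f z / z`. -/
structure IsLog (f l : ℂ → ℂ) : Prop where
  diff : DifferentiableOn ℂ l (ball 0 1)
  zero : l 0 = 0
  eq : ∀ z ∈ ball (0 : ℂ) 1, f z = z * Complex.exp (l z)

open Classical in
/-- A chosen logarithm of `f z / z`. -/
noncomputable def lg (f : ℂ → ℂ) : ℂ → ℂ := if h : ∃ l, IsLog f l then h.choose else 0

/-- The logarithmic coefficients (twice the usual `γ_k`). -/
noncomputable def lc (f : ℂ → ℂ) (k : ℕ) : ℂ := coeff (lg f) k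

/-- The functional of Milin and de Branges at time `t`. -/
noncomputable def Phi (n : ℕ) (t : ℝ) (f : ℂ → ℂ) : ℝ :=
  ∑ k ∈ Finset.Icc 1 n, tau n k (Real.exp (-t)) * (k * ‖lc f k‖ ^ 2 - 4 / k)

/-- The deficiency `2 - Re a_2`. -/
noncomputable def EE (f : ℂ → ℂ) : ℝ := 2 - (coeff f 2).re

/-- The difference `1/f - 1/K`, holomorphic in the disc. -/
noncomputable def DD (f : ℂ → ℂ) (z : ℂ) : ℂ :=
  if z = 0 then 2 - coeff f 2 else 1 / f z - (1 - z) ^ 2 / z

/-- The part of `DD f - DD f 0` with real coefficients. -/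
noncomputable def LL (f : ℂ → ℂ) (z : ℂ) : ℂ := (DD f z + conj (DD f (conj z))) / 2 - EE f

/-- The Carathéodory function of the Koebe function. -/
noncomputable def pK (z : ℂ) : ℂ := (1 - z) / (1 + z)

/-- The deficiency `2 + Re p_1`. -/
noncomputable def yy (p : ℂ → ℂ) : ℝ := 2 + (coeff p 1).re

/-- The first order term of a step for `1/f - 1/K`. -/
noncomputable def RR (p : ℂ → ℂ) (z : ℂ) : ℂ :=
  if z = 0 then coeff p 1 + 2 else (p z - 1) / z - z * (1 + p z) + 2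

/-- The exact increment of a step for `1/f - 1/K`. -/
noncomputable def TT (ε : ℝ) (p : ℂ → ℂ) (z : ℂ) : ℂ :=
  if z = 0 then ε * coeff p 1 + 2 * (1 - Complex.exp (-ε))
  else z * (Complex.exp (-(ε * (1 + p z))) - 1) + (Complex.exp (ε * (p z - 1)) - 1) / z
    + 2 * (1 - Complex.exp (-ε))

end Pool.Agent.DBR
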