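import Pool.Agent.DBR.Stmts

set_option autoImplicit false

/-!
Squad DBR, module ES1: estimates for the difference with the Koebe function on a circle.
-/

namespace Pool.Agent.DBR

open Complex Metric Set Filter MeasureTheory

open scoped Topology ComplexConjugate

open Pool.Agent.PSB (InS coeff psum Lam SelfU)

namespace ES1_

theorem diff_eq {F : ℂ → ℂ} (hF : InSS F) {z : ℂ} (hz : z ∈ ball (0 : ℂ) 1) (h0 : z ≠ 0) :
    F z - Kb z = -(DD F z * F z * Kb z) := by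
  have h1 : F z ≠ 0 := hF.ne_zero hz h0
  have h2 : (1 : ℂ) - z ≠ 0 := by
    intro h
    have h3 : z = 1 := by linear_combination -h
    rw [h3] at hz
    simp at hz
  unfold DD Kb
  rw [if_neg h0]
  field_simp
  ring

theorem Kb_conj (z : ℂ) : conj (Kb (conj z)) = Kb z := by
  unfold Kb
  simp

end ES1_

theorem es1_proof (hDS5 : Stmt_DS5) (hDS6 : Stmt_DS6) (hGRO : Stmt_GRO) (hKIN : Stmt_KIN) :
    Stmt_ES1 := by
  intro n F hn hF z hz
  have hn2 : (2 : ℝ) ≤ n := by exact_mod_cast hn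
  have hn0 : (0 : ℝ) < n := by linarith
  set r : ℝ := 1 - 1 / (n : ℝ) with hr
  have hinv : 1 / (n : ℝ) ≤ 1 / 2 := one_div_le_one_div_of_le (by norm_num) hn2
  have hinv0 : 0 < 1 / (n : ℝ) := by positivity
  have hr0 : 0 < r := by rw [hr]; linarith
  have hr1 : r < 1 := by rw [hr]; linarith
  have h1r : 1 - r = 1 / (n : ℝ) := by rw [hr]; ring
  have hK : InSS Kb := hKIN.2.2.2
  -- growth
  have gro : ∀ f : ℂ → ℂ, InSS f → ∀ w : ℂ, ‖w‖ = r → ‖f w‖ ≤ (n : ℝ) ^ 2 := by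
    intro f hf w hw
    have h := hGRO f r w hf hr1 hw.le
    rw [h1r] at h
    have e : r / (1 / (n : ℝ)) ^ 2 = r * n ^ 2 := by field_simp
    rw [e] at h
    nlinarith [sq_nonneg (n : ℝ)]
  have hDD : ∀ w : ℂ, ‖w‖ = r → ‖DD F w‖ ^ 2 ≤ (4 * (n : ℝ) ^ 2) ^ 2 * EE F := by
    intro w hw
    have h := hDS5 r F w hF hr0 hr1 hw.le
    rw [h1r] at h
    have e : 4 / (1 / (n : ℝ)) ^ 2 = 4 * n ^ 2 := by field_simp
    rwa [e] at h
  have hE : 0 ≤ EE F := by
    have h := hDD z hz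
    have h2 : 0 ≤ (4 * (n : ℝ) ^ 2) ^ 2 * EE F := le_trans (sq_nonneg _) h
    have h3 : 0 < (4 * (n : ℝ) ^ 2) ^ 2 := by positivity
    by_contra hneg
    push Not at hneg
    have := mul_neg_of_pos_of_neg h3 hneg
    linarith
  set s := Real.sqrt (EE F) with hs
  have hs0 : 0 ≤ s := Real.sqrt_nonneg _
  have hss : s ^ 2 = EE F := Real.sq_sqrt hE
  have hD : ∀ w : ℂ, ‖w‖ = r → ‖DD F w‖ ≤ 4 * (n : ℝ) ^ 2 * s := by
    intro w hw
    refine le_of_sq_le_sq ?_ (by positivity)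
    calc ‖DD F w‖ ^ 2 ≤ (4 * (n : ℝ) ^ 2) ^ 2 * EE F := hDD w hw
      _ = (4 * (n : ℝ) ^ 2 * s) ^ 2 := by rw [← hss]; ring
  have hmem : ∀ w : ℂ, ‖w‖ = r → w ∈ ball (0 : ℂ) 1 ∧ w ≠ 0 := by
    intro w hw
    refine ⟨?_, ?_⟩
    · rw [mem_ball_zero_iff, hw]; exact hr1
    · intro h
      rw [h, norm_zero] at hw
      linarith
  have key : ∀ w : ℂ, ‖w‖ = r → F w - Kb w = -(DD F w * F w * Kb w) := fun w hw =>
    ES1_.diff_eq hF (hmem w hw).1 (hmem w hw).2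
  have first : ∀ w : ℂ, ‖w‖ = r → ‖F w - Kb w‖ ≤ 4 * (n : ℝ) ^ 6 * s := by
    intro w hw
    rw [key w hw, norm_neg, norm_mul, norm_mul]
    have a := hD w hw
    have b := gro F hF w hw
    have c := gro Kb hK w hw
    calc ‖DD F w‖ * ‖F w‖ * ‖Kb w‖ ≤ (4 * (n : ℝ) ^ 2 * s) * (n : ℝ) ^ 2 * (n : ℝ) ^ 2 := by
          gcongr
      _ = 4 * (n : ℝ) ^ 6 * s := by ring
  refine ⟨first z hz, ?_⟩
  have hzc : ‖conj z‖ = r := by rw [Complex.norm_conj]; exact hz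
  -- decomposition
  have dec : ∀ w : ℂ, ‖w‖ = r → F w - Kb w = -(DD F w * Kb w ^ 2) - DD F w * Kb w * (F w - Kb w) := by
    intro w hw
    have h := key w hw
    linear_combination h
  have hsym : sym (fun z => F z - Kb z) z =
      -((LL F z + EE F) * Kb z ^ 2) -
        (DD F z * Kb z * (F z - Kb z) + conj (DD F (conj z) * Kb (conj z) * (F (conj z) - Kb (conj z)))) / 2 := by
    unfold sym
    simp only
    have h1 := dec z hz
    have h2 := dec (conj z) hzc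
    have h3 : LL F z + EE F = (DD F z + conj (DD F (conj z))) / 2 := by
      unfold LL
      ring
    have h4 : conj (Kb (conj z)) = Kb z := ES1_.Kb_conj z
    have h5 : conj (F (conj z) - Kb (conj z)) =
        -(conj (DD F (conj z)) * Kb z ^ 2) -
          conj (DD F (conj z) * Kb (conj z) * (F (conj z) - Kb (conj z))) := by
      conv_lhs => rw [h2]
      rw [map_sub, map_neg, map_mul, map_pow, h4]
    rw [h5, h3]
    linear_combination h1 / 2
  rw [hsym]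
  have hLL : ‖LL F z‖ ≤ 100 * (n : ℝ) ^ 6 * EE F := by
    have h := hDS6 r F z hF hr0 hr1 hz.le
    rw [h1r] at h
    have e : 100 / (1 / (n : ℝ)) ^ 6 = 100 * n ^ 6 := by field_simp
    rw [e] at h
    refine h.trans ?_
    have h2 : 0 ≤ 100 * (n : ℝ) ^ 6 * EE F := by positivity
    have h3 : ‖z‖ ≤ 1 := by rw [hz]; exact hr1.le
    nlinarith
  have hn6 : (1 : ℝ) ≤ (n : ℝ) ^ 6 := one_le_pow₀ (by linarith)
  have hA : ‖(LL F z + EE F) * Kb z ^ 2‖ ≤ 101 * (n : ℝ) ^ 10 * EE F := by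
    rw [norm_mul, norm_pow]
    have h1 : ‖LL F z + (EE F : ℂ)‖ ≤ 101 * (n : ℝ) ^ 6 * EE F := by
      refine (norm_add_le _ _).trans ?_
      rw [Complex.norm_real, Real.norm_of_nonneg hE]
      nlinarith
    have h2 := gro Kb hK z hz
    calc ‖LL F z + (EE F : ℂ)‖ * ‖Kb z‖ ^ 2 ≤ (101 * (n : ℝ) ^ 6 * EE F) * ((n : ℝ) ^ 2) ^ 2 := by
          gcongr
      _ = 101 * (n : ℝ) ^ 10 * EE F := by ring
  have hB : ∀ w : ℂ, ‖w‖ = r → ‖DD F w * Kb w * (F w - Kb w)‖ ≤ 16 * (n : ℝ) ^ 10 * EE F := by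
    intro w hw
    rw [norm_mul, norm_mul]
    have a := hD w hw
    have c := gro Kb hK w hw
    have d := first w hw
    calc ‖DD F w‖ * ‖Kb w‖ * ‖F w - Kb w‖ ≤
          (4 * (n : ℝ) ^ 2 * s) * (n : ℝ) ^ 2 * (4 * (n : ℝ) ^ 6 * s) := by gcongr
      _ = 16 * (n : ℝ) ^ 10 * s ^ 2 := by ring
      _ = 16 * (n : ℝ) ^ 10 * EE F := by rw [hss]
  have hB1 := hB z hz
  have hB2 := hB (conj z) hzc
  have hC : ‖(DD F z * Kb z * (F z - Kb z) +
      conj (DD F (conj z) * Kb (conj z) * (F (conj z) - Kb (conj z)))) / 2‖ ≤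
      16 * (n : ℝ) ^ 10 * EE F := by
    rw [norm_div]
    have h2 : ‖(2 : ℂ)‖ = 2 := by simp
    rw [h2]
    have h3 := norm_add_le (DD F z * Kb z * (F z - Kb z))
      (conj (DD F (conj z) * Kb (conj z) * (F (conj z) - Kb (conj z))))
    rw [Complex.norm_conj] at h3
    linarith
  refine (norm_sub_le _ _).trans ?_
  rw [norm_neg]
  linarith

end Pool.Agent.DBR
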