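import Pool.Agent.DBR.Stmts

set_option autoImplicit false

/-!
ES2: estimates for the difference of `f` and the Pick function.
-/

namespace Pool.Agent.DBR

open Complex Metric Set Filter MeasureTheory

open scoped Topology ComplexConjugate

open Pool.Agent.PSB (InS coeff psum Lam SelfU)

namespace ES2_

/-- `f - F` is small if `f = F (1 - b f)^2`. -/
theorem diff_small {N b : ℝ} {f F : ℂ} (hN : 0 ≤ N) (hb : 0 ≤ b) (hbN : b * N ≤ 1 / 100000)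
    (hf : ‖f‖ ≤ N) (hF : ‖F‖ ≤ N) (h : F * (1 - b * f) ^ 2 = f) : ‖f - F‖ ≤ 3 * b * N ^ 2 := by
  have e : f - F = F * (b * f) * (b * f - 2) := by
    linear_combination -h
  have h1 : ‖(b : ℂ) * f‖ ≤ b * N := by
    rw [norm_mul, Complex.norm_real, Real.norm_of_nonneg hb]
    gcongr
  have h2 : ‖(b : ℂ) * f - 2‖ ≤ 3 := by
    refine (norm_sub_le _ _).trans ?_
    have : ‖(2 : ℂ)‖ = 2 := by simp
    rw [this]
    linarith
  rw [e, norm_mul, norm_mul]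
  calc ‖F‖ * ‖(b : ℂ) * f‖ * ‖(b : ℂ) * f - 2‖ ≤ N * (b * N) * 3 := by gcongr
    _ = 3 * b * N ^ 2 := by ring

/-- The factor `1/(1-u)`. -/
theorem inv_small {u : ℂ} (hu : ‖u‖ ≤ 1 / 1000) : 1 - u ≠ 0 ∧ ‖(1 - u)⁻¹‖ ≤ 1.01 := by
  have h1 : 1 - 1 / 1000 ≤ ‖1 - u‖ := by
    have := norm_sub_norm_le (1 : ℂ) u
    rw [norm_one] at this
    linarith
  have h2 : 0 < ‖1 - u‖ := by linarith
  refine ⟨norm_pos_iff.1 h2, ?_⟩
  rw [norm_inv, inv_le_comm₀ h2 (by norm_num)]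
  refine le_trans ?_ h1
  norm_num

theorem u_small {N b : ℝ} {f P : ℂ} (hN : 0 ≤ N) (hb : 0 ≤ b) (hbN : b * N ≤ 1 / 100000)
    (hf : ‖f‖ ≤ N) (hP : ‖P‖ ≤ N) : ‖(b : ℂ) ^ 2 * f * P‖ ≤ (b * N) ^ 2 ∧ (b * N) ^ 2 ≤ 1 / 1000 := by
  constructor
  · rw [norm_mul, norm_mul, norm_pow, Complex.norm_real, Real.norm_of_nonneg hb]
    calc b ^ 2 * ‖f‖ * ‖P‖ ≤ b ^ 2 * N * N := by gcongr
      _ = (b * N) ^ 2 := by ring
  · have h0 : 0 ≤ b * N := by positivity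
    nlinarith

/-- The size of `W`. -/
theorem W_small {N b : ℝ} {f P F K : ℂ} (hN : 0 ≤ N) (hb : 0 ≤ b) (hbN : b * N ≤ 1 / 100000)
    (hf : ‖f‖ ≤ N) (hP : ‖P‖ ≤ N) (hF : ‖F‖ ≤ N) (hfF : ‖f - F‖ ≤ 3 * b * N ^ 2)
    (hPK : ‖P - K‖ ≤ 3 * b * N ^ 2) :
    ‖f * P / (1 - (b : ℂ) ^ 2 * f * P) - F * K‖ ≤ 7 * b * N ^ 3 := by
  obtain ⟨hu1, hu2⟩ := u_small hN hb hbN hf hP
  obtain ⟨hne, hinv⟩ := inv_small (hu1.trans hu2)
  have h0 : 0 ≤ b * N := by positivity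
  have e : f * P / (1 - (b : ℂ) ^ 2 * f * P) - F * K =
      (f - F) * P + F * (P - K) + f * P * ((b : ℂ) ^ 2 * f * P) * (1 - (b : ℂ) ^ 2 * f * P)⁻¹ := by
    obtain ⟨u, hu⟩ : ∃ u : ℂ, u = (b : ℂ) ^ 2 * f * P := ⟨_, rfl⟩
    rw [← hu] at hne ⊢
    field_simp
    ring
  rw [e]
  have h1 : ‖(f - F) * P‖ ≤ 3 * b * N ^ 2 * N := by
    rw [norm_mul]; gcongr
  have h2 : ‖F * (P - K)‖ ≤ N * (3 * b * N ^ 2) := by
    rw [norm_mul]; gcongr
  have h3 : ‖f * P * ((b : ℂ) ^ 2 * f * P) * (1 - (b : ℂ) ^ 2 * f * P)⁻¹‖ ≤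
      N * N * (b * N) ^ 2 * 1.01 := by
    rw [norm_mul, norm_mul, norm_mul f P]; gcongr
  have h4 : N * N * (b * N) ^ 2 * 1.01 ≤ b * N ^ 3 := by
    have : N * N * (b * N) ^ 2 * 1.01 = (b * N ^ 3) * ((b * N) * 1.01) := by ring
    rw [this]
    have h5 : (b * N) * 1.01 ≤ 1 := by linarith
    have h6 : 0 ≤ b * N ^ 3 := by positivity
    nlinarith
  calc _ ≤ 3 * b * N ^ 2 * N + N * (3 * b * N ^ 2) + N * N * (b * N) ^ 2 * 1.01 :=
        (norm_add₃_le).trans (by gcongr)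
    _ ≤ 7 * b * N ^ 3 := by nlinarith

/-- The algebraic identities. -/
theorem ident {b : ℝ} {f P F K D : ℂ} (hf0 : f ≠ 0) (hP0 : P ≠ 0) (hF0 : F ≠ 0) (hK0 : K ≠ 0)
    (hf : F * (1 - b * f) ^ 2 = f) (hP : K * (1 - b * P) ^ 2 = P) (hD : D = 1 / F - 1 / K)
    (hne : 1 - (b : ℂ) ^ 2 * f * P ≠ 0) :
    f - P = -D * (f * P / (1 - (b : ℂ) ^ 2 * f * P)) ∧ F - K = -D * (F * K) := by
  constructor
  · have e1 : 1 / F = (1 - b * f) ^ 2 / f := by
      rw [div_eq_div_iff hF0 hf0]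
      linear_combination -hf
    have e2 : 1 / K = (1 - b * P) ^ 2 / P := by
      rw [div_eq_div_iff hK0 hP0]
      linear_combination -hP
    rw [e1, e2] at hD
    have h1 : D * (f * P) = -((f - P) * (1 - (b : ℂ) ^ 2 * f * P)) := by
      rw [hD]
      field_simp
      ring
    rw [mul_div_assoc', eq_div_iff hne, neg_mul, h1, neg_neg]
  · rw [hD]
    field_simp
    ring

/-- The main estimates at one point. -/
theorem core {N b s : ℝ} {f P F K D : ℂ} (hN : 0 ≤ N) (hb : 0 ≤ b) (hs : 0 ≤ s)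
    (hbN : b * N ≤ 1 / 100000) (hf0 : f ≠ 0) (hP0 : P ≠ 0) (hF0 : F ≠ 0) (hK0 : K ≠ 0)
    (hfN : ‖f‖ ≤ N) (hPN : ‖P‖ ≤ N) (hFN : ‖F‖ ≤ N) (hKN : ‖K‖ ≤ N)
    (hf : F * (1 - b * f) ^ 2 = f) (hP : K * (1 - b * P) ^ 2 = P) (hD : D = 1 / F - 1 / K)
    (hDs : ‖D‖ ≤ 4 * N * s) :
    ‖P - K‖ ≤ 3 * b * N ^ 2 ∧
    ‖(f - P) - (F - K)‖ ≤ 28 * b * N ^ 4 * s ∧
    ‖P * P / (1 - (b : ℂ) ^ 2 * P * P) - K * K‖ ≤ 7 * b * N ^ 3 ∧
    (f - P) - (F - K) = -D * (f * P / (1 - (b : ℂ) ^ 2 * f * P) - F * K) ∧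
    ‖(f * P / (1 - (b : ℂ) ^ 2 * f * P) - F * K) -
      (P * P / (1 - (b : ℂ) ^ 2 * P * P) - K * K)‖ ≤ 41 * b * N ^ 5 * s := by
  have h0 : 0 ≤ b * N := by positivity
  have hfF := diff_small hN hb hbN hfN hFN hf
  have hPK := diff_small hN hb hbN hPN hKN hP
  obtain ⟨hu1, hu2⟩ := u_small hN hb hbN hfN hPN
  obtain ⟨hne, hinv⟩ := inv_small (hu1.trans hu2)
  obtain ⟨hv1, hv2⟩ := u_small hN hb hbN hPN hPN
  obtain ⟨hne', hinv'⟩ := inv_small (hv1.trans hv2)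
  obtain ⟨e1, e2⟩ := ident hf0 hP0 hF0 hK0 hf hP hD hne
  have hW := W_small hN hb hbN hfN hPN hFN hfF hPK
  have hW0 := W_small hN hb hbN hPN hPN hKN hPK hPK
  have e3 : (f - P) - (F - K) = -D * (f * P / (1 - (b : ℂ) ^ 2 * f * P) - F * K) := by
    rw [e1, e2]; ring
  have hH : ‖(f - P) - (F - K)‖ ≤ 28 * b * N ^ 4 * s := by
    rw [e3, norm_mul, norm_neg]
    calc ‖D‖ * ‖f * P / (1 - (b : ℂ) ^ 2 * f * P) - F * K‖ ≤ (4 * N * s) * (7 * b * N ^ 3) := by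
          gcongr
      _ = 28 * b * N ^ 4 * s := by ring
  refine ⟨hPK, hH, hW0, e3, ?_⟩
  have hFK : ‖F - K‖ ≤ 4 * N ^ 3 * s := by
    rw [e2, norm_mul, norm_neg, norm_mul]
    calc ‖D‖ * (‖F‖ * ‖K‖) ≤ (4 * N * s) * (N * N) := by gcongr
      _ = 4 * N ^ 3 * s := by ring
  have hfP : ‖f - P‖ ≤ 5 * N ^ 3 * s := by
    rw [e1, norm_mul, norm_neg, div_eq_mul_inv, norm_mul, norm_mul]
    calc ‖D‖ * (‖f‖ * ‖P‖ * ‖(1 - (b : ℂ) ^ 2 * f * P)⁻¹‖) ≤ (4 * N * s) * (N * N * 1.01) := by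
          gcongr
      _ = 4.04 * (N ^ 3 * s) := by ring
      _ ≤ 5 * (N ^ 3 * s) := by
          have : 0 ≤ N ^ 3 * s := by positivity
          linarith
      _ = 5 * N ^ 3 * s := by ring
  obtain ⟨u, hu⟩ : ∃ u : ℂ, u = (b : ℂ) ^ 2 * f * P := ⟨_, rfl⟩
  obtain ⟨v, hv⟩ : ∃ v : ℂ, v = (b : ℂ) ^ 2 * P * P := ⟨_, rfl⟩
  have e4 : (f * P / (1 - (b : ℂ) ^ 2 * f * P) - F * K) -
      (P * P / (1 - (b : ℂ) ^ 2 * P * P) - K * K) =
      ((f - P) - (F - K)) * P + (F - K) * (P - K) +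
      (f - P) * P * ((u + v - u * v) * ((1 - u)⁻¹ * (1 - v)⁻¹)) := by
    have huv : f * v = P * u := by rw [hu, hv]; ring
    rw [← hu, ← hv]
    rw [← hu] at hne
    rw [← hv] at hne'
    have e5 : f * P / (1 - u) - P * P / (1 - v) = (f - P) * P * ((1 - u)⁻¹ * (1 - v)⁻¹) := by
      field_simp
      linear_combination (-1 : ℂ) * huv
    have e6 : (u + v - u * v) * ((1 - u)⁻¹ * (1 - v)⁻¹) = (1 - u)⁻¹ * (1 - v)⁻¹ - 1 := by
      field_simp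
      ring
    rw [e6]
    linear_combination e5
  rw [e4]
  rw [← hu] at hu1 hinv
  rw [← hv] at hv1 hinv'
  have h1 : ‖((f - P) - (F - K)) * P‖ ≤ 28 * b * N ^ 4 * s * N := by
    rw [norm_mul]; gcongr
  have h2 : ‖(F - K) * (P - K)‖ ≤ (4 * N ^ 3 * s) * (3 * b * N ^ 2) := by
    rw [norm_mul]; gcongr
  have h3 : ‖u + v - u * v‖ ≤ 3 * (b * N) ^ 2 := by
    have : ‖u * v‖ ≤ (b * N) ^ 2 * 1 := by
      rw [norm_mul]
      have hv3 : ‖v‖ ≤ 1 := hv1.trans (hv2.trans (by norm_num))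
      gcongr
    calc ‖u + v - u * v‖ ≤ ‖u‖ + ‖v‖ + ‖u * v‖ := by
          refine (norm_sub_le _ _).trans ?_
          gcongr
          exact norm_add_le _ _
      _ ≤ (b * N) ^ 2 + (b * N) ^ 2 + (b * N) ^ 2 * 1 := by gcongr
      _ = 3 * (b * N) ^ 2 := by ring
  have h4 : ‖(f - P) * P * ((u + v - u * v) * ((1 - u)⁻¹ * (1 - v)⁻¹))‖ ≤
      (5 * N ^ 3 * s) * N * (3 * (b * N) ^ 2 * (1.01 * 1.01)) := by
    rw [norm_mul, norm_mul, norm_mul (u + v - u * v), norm_mul (1 - u)⁻¹]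
    gcongr
  have h5 : (5 * N ^ 3 * s) * N * (3 * (b * N) ^ 2 * (1.01 * 1.01)) ≤ b * N ^ 5 * s := by
    have e : (5 * N ^ 3 * s) * N * (3 * (b * N) ^ 2 * (1.01 * 1.01)) =
        (b * N ^ 5 * s) * (15 * (1.01 * 1.01) * (b * N)) := by ring
    rw [e]
    have h6 : 15 * (1.01 * 1.01) * (b * N) ≤ 1 := by linarith
    have h7 : 0 ≤ b * N ^ 5 * s := by positivity
    nlinarith
  calc _ ≤ 28 * b * N ^ 4 * s * N + (4 * N ^ 3 * s) * (3 * b * N ^ 2) +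
        (5 * N ^ 3 * s) * N * (3 * (b * N) ^ 2 * (1.01 * 1.01)) :=
        (norm_add₃_le).trans (by gcongr)
    _ ≤ 28 * b * N ^ 4 * s * N + (4 * N ^ 3 * s) * (3 * b * N ^ 2) + b * N ^ 5 * s := by gcongr
    _ = 41 * b * N ^ 5 * s := by ring

theorem conj_Kb (z : ℂ) : conj (Kb (conj z)) = Kb z := by
  unfold Kb
  simp

end ES2_

open ES2_ in
theorem es2_proof (hDS5 : Stmt_DS5) (hDS6 : Stmt_DS6) (hGRO : Stmt_GRO) (hKIN : Stmt_KIN)
    (hTIL : Stmt_TIL) (hPKE : Stmt_PKE) (_hES1 : Stmt_ES1) : Stmt_ES2 := by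
  intro n M f hn hM hf z hz
  have hnR : (2 : ℝ) ≤ n := by exact_mod_cast hn
  have hn0 : (0 : ℝ) < n := by linarith
  have hM1 : 1 ≤ M := one_le_of_inS hf
  have hM0 : 0 < M := by linarith
  obtain ⟨r, hr⟩ : ∃ r : ℝ, r = 1 - 1 / (n : ℝ) := ⟨_, rfl⟩
  have hrinv : 1 - r = 1 / (n : ℝ) := by rw [hr]; ring
  have hn1 : 1 / (n : ℝ) ≤ 1 / 2 := by
    apply one_div_le_one_div_of_le <;> linarith
  have hnpos : 0 < 1 / (n : ℝ) := by positivity
  have hr0 : 0 < r := by rw [hr]; linarith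
  have hr1 : r < 1 := by rw [hr]; linarith
  obtain ⟨b, hb⟩ : ∃ b : ℝ, b = 1 / M := ⟨_, rfl⟩
  obtain ⟨N, hN⟩ : ∃ N : ℝ, N = (n : ℝ) ^ 2 := ⟨_, rfl⟩
  have hN0 : 0 ≤ N := by rw [hN]; positivity
  have hN1 : 1 ≤ N := by rw [hN]; nlinarith
  have hb0 : 0 ≤ b := by rw [hb]; positivity
  have hbN : b * N ≤ 1 / 100000 := by
    rw [hb, hN, one_div, ← div_eq_inv_mul, div_le_iff₀ hM0]
    have h1 : (n : ℝ) ^ 2 ≤ (n : ℝ) ^ 16 := pow_le_pow_right₀ (by linarith) (by norm_num)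
    linarith
  set F := til M f with hFdef
  have hF : InSS F := hTIL M f hf
  have hP : InS M (Pk M) := (hPKE M hM1).1
  have hK : InSS Kb := hKIN.2.2.2
  have hgro : r / (1 - r) ^ 2 ≤ N := by
    rw [hrinv, hN, div_pow, one_pow, div_div_eq_mul_div, div_one]
    nlinarith [sq_nonneg (n : ℝ)]
  -- the estimates at a point
  have key : ∀ w : ℂ, ‖w‖ = r →
      ‖Pk M w - Kb w‖ ≤ 3 * b * N ^ 2 ∧
      ‖(f w - Pk M w) - (F w - Kb w)‖ ≤ 28 * b * N ^ 4 * Real.sqrt (EE F) ∧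
      ‖Pk M w * Pk M w / (1 - (b : ℂ) ^ 2 * Pk M w * Pk M w) - Kb w * Kb w‖ ≤ 7 * b * N ^ 3 ∧
      (f w - Pk M w) - (F w - Kb w) =
        -(DD F w) * (f w * Pk M w / (1 - (b : ℂ) ^ 2 * f w * Pk M w) - F w * Kb w) ∧
      ‖(f w * Pk M w / (1 - (b : ℂ) ^ 2 * f w * Pk M w) - F w * Kb w) -
        (Pk M w * Pk M w / (1 - (b : ℂ) ^ 2 * Pk M w * Pk M w) - Kb w * Kb w)‖ ≤
        41 * b * N ^ 5 * Real.sqrt (EE F) := by
    intro w hw
    have hw1 : w ∈ ball (0 : ℂ) 1 := by rw [mem_ball_zero_iff, hw]; exact hr1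
    have hw0 : w ≠ 0 := by
      intro h
      rw [h, norm_zero] at hw
      linarith
    have b1 := (hGRO f r w (toSS hf) hr1 hw.le).trans hgro
    have b2 := (hGRO (Pk M) r w (toSS hP) hr1 hw.le).trans hgro
    have b3 := (hGRO F r w hF hr1 hw.le).trans hgro
    have b4 := (hGRO Kb r w hK hr1 hw.le).trans hgro
    have hbM : (b : ℂ) = 1 / (M : ℂ) := by rw [hb]; push_cast; rfl
    have hMc : (M : ℂ) ≠ 0 := by exact_mod_cast hM0.ne'
    have small : ∀ x : ℂ, ‖x‖ ≤ N → 1 - (b : ℂ) * x ≠ 0 := by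
      intro x hx
      refine (inv_small ?_).1
      rw [norm_mul, Complex.norm_real, Real.norm_of_nonneg hb0]
      calc b * ‖x‖ ≤ b * N := by gcongr
        _ ≤ 1 / 1000 := by linarith
    have e1 : F w * (1 - b * f w) ^ 2 = f w := by
      have h1 := small _ b1
      have h2 : 1 - f w / (M : ℂ) = 1 - b * f w := by rw [hbM]; ring
      rw [hFdef]
      unfold til
      rw [h2]
      exact div_mul_cancel₀ _ (pow_ne_zero 2 h1)
    have e2 : Kb w * (1 - b * Pk M w) ^ 2 = Pk M w := by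
      have h1 := small _ b2
      have h2 : 1 - Pk M w / (M : ℂ) = 1 - b * Pk M w := by rw [hbM]; ring
      rw [← ((hPKE M hM1).2 w hw1).1]
      unfold til
      rw [h2]
      exact div_mul_cancel₀ _ (pow_ne_zero 2 h1)
    have hD : DD F w = 1 / F w - 1 / Kb w := by
      unfold DD Kb
      rw [if_neg hw0, one_div_div]
    have hDs : ‖DD F w‖ ≤ 4 * N * Real.sqrt (EE F) := by
      have h1 := hDS5 r F w hF hr0 hr1 hw.le
      have h2 : 4 / (1 - r) ^ 2 = 4 * N := by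
        rw [hrinv, hN]
        field_simp
      rw [h2] at h1
      have h3 := Real.le_sqrt_of_sq_le h1
      rwa [Real.sqrt_mul (sq_nonneg _), Real.sqrt_sq (by positivity)] at h3
    exact core hN0 hb0 (Real.sqrt_nonneg _) hbN ((toSS hf).ne_zero hw1 hw0)
      ((toSS hP).ne_zero hw1 hw0) (hF.ne_zero hw1 hw0) (hK.ne_zero hw1 hw0) b1 b2 b3 b4 e1 e2 hD hDs
  have hzr : ‖z‖ = r := by rw [hz, hr]
  have hzc : ‖conj z‖ = r := by rw [Complex.norm_conj, hzr]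
  have hz1 : z ∈ ball (0 : ℂ) 1 := by rw [mem_ball_zero_iff, hzr]; exact hr1
  have hz0 : z ≠ 0 := by
    intro h
    rw [h, norm_zero] at hzr
    linarith
  have hE0 : 0 ≤ EE F := by
    have h1 := hDS5 r F z hF hr0 hr1 hzr.le
    have h2 : 0 < (4 / (1 - r) ^ 2) ^ 2 := by
      have : 0 < 1 - r := by linarith
      positivity
    by_contra h3
    push Not at h3
    have := mul_neg_of_pos_of_neg h2 h3
    nlinarith [sq_nonneg ‖DD F z‖]
  have hsq : Real.sqrt (EE F) ^ 2 = EE F := Real.sq_sqrt hE0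
  obtain ⟨k1, k2, k3, k4, k5⟩ := key z hzr
  obtain ⟨-, -, c3, c4, c5⟩ := key (conj z) hzc
  have hN2 : N ^ 2 = (n : ℝ) ^ 4 := by rw [hN]; ring
  have hN4 : N ^ 4 = (n : ℝ) ^ 8 := by rw [hN]; ring
  refine ⟨?_, ?_, ?_⟩
  · rw [hN2, hb] at k1
    refine k1.trans (le_of_eq ?_)
    ring
  · rw [hN4, hb] at k2
    refine k2.trans (le_of_eq ?_)
    ring
  · -- the symmetric part
    obtain ⟨s, hs⟩ : ∃ s : ℝ, s = Real.sqrt (EE F) := ⟨_, rfl⟩
    obtain ⟨W0, hW0⟩ : ∃ W0 : ℂ, W0 = Pk M z * Pk M z / (1 - (b : ℂ) ^ 2 * Pk M z * Pk M z) -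
      Kb z * Kb z := ⟨_, rfl⟩
    obtain ⟨W0c, hW0c⟩ : ∃ W0 : ℂ, W0 = Pk M (conj z) * Pk M (conj z) /
      (1 - (b : ℂ) ^ 2 * Pk M (conj z) * Pk M (conj z)) - Kb (conj z) * Kb (conj z) := ⟨_, rfl⟩
    obtain ⟨W, hW⟩ : ∃ W : ℂ, W = f z * Pk M z / (1 - (b : ℂ) ^ 2 * f z * Pk M z) -
      F z * Kb z := ⟨_, rfl⟩
    obtain ⟨Wc, hWc⟩ : ∃ W : ℂ, W = f (conj z) * Pk M (conj z) /
      (1 - (b : ℂ) ^ 2 * f (conj z) * Pk M (conj z)) - F (conj z) * Kb (conj z) := ⟨_, rfl⟩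
    have hcW : conj W0c = W0 := by
      have h1 := ((hPKE M hM1).2 z hz1).2
      have h2 := conj_Kb z
      rw [hW0c, hW0]
      simp only [map_sub, map_mul, map_div₀, map_pow, map_one, h1, h2, Complex.conj_ofReal]
    rw [← hW] at k4 k5
    rw [← hs] at k5
    rw [← hW0] at k3 k5
    rw [← hWc] at c4 c5
    rw [← hs] at c5
    rw [← hW0c] at c3 c5
    have hDz : ∀ w : ℂ, ‖w‖ = r → ‖DD F w‖ ≤ 4 * N * s := by
      intro w hw
      have h1 := hDS5 r F w hF hr0 hr1 hw.le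
      have h2 : 4 / (1 - r) ^ 2 = 4 * N := by
        rw [hrinv, hN]
        field_simp
      rw [h2] at h1
      have h3 := Real.le_sqrt_of_sq_le h1
      rwa [Real.sqrt_mul (sq_nonneg _), Real.sqrt_sq (by positivity), ← hs] at h3
    have hsymD : ‖(DD F z + conj (DD F (conj z))) / 2‖ ≤ 101 * N ^ 3 * EE F := by
      have h1 := hDS6 r F z hF hr0 hr1 hzr.le
      have e : (DD F z + conj (DD F (conj z))) / 2 = LL F z + (EE F : ℂ) := by
        unfold LL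
        ring
      have h2 : 100 / (1 - r) ^ 6 * EE F * ‖z‖ ≤ 100 * N ^ 3 * EE F := by
        have e6 : 100 / (1 - r) ^ 6 = 100 * N ^ 3 := by
          rw [hrinv, hN]
          field_simp
        rw [e6, hzr]
        have : 0 ≤ 100 * N ^ 3 * EE F := by positivity
        nlinarith
      rw [e]
      refine (norm_add_le _ _).trans ?_
      rw [Complex.norm_real, Real.norm_of_nonneg hE0]
      have h3 : EE F ≤ N ^ 3 * EE F := by
        have : 1 ≤ N ^ 3 := one_le_pow₀ hN1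
        nlinarith
      calc ‖LL F z‖ + EE F ≤ 100 * N ^ 3 * EE F + N ^ 3 * EE F := by
            gcongr
            exact h1.trans h2
        _ = 101 * N ^ 3 * EE F := by ring
    have main : sym (fun z => (f z - Pk M z) - (F z - Kb z)) z =
        -((DD F z + conj (DD F (conj z))) / 2 * W0) -
          (DD F z * (W - W0) + conj (DD F (conj z) * (Wc - W0c))) / 2 := by
      unfold sym
      simp only []
      rw [k4, c4]
      simp only [map_mul, map_neg, map_sub, hcW]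
      ring
    have hmain : ‖sym (fun z => (f z - Pk M z) - (F z - Kb z)) z‖ ≤
        101 * N ^ 3 * EE F * (7 * b * N ^ 3) + 4 * N * s * (41 * b * N ^ 5 * s) := by
      rw [main]
      refine (norm_sub_le _ _).trans ?_
      rw [norm_neg, norm_mul]
      have t1 : ‖(DD F z * (W - W0) + conj (DD F (conj z) * (Wc - W0c))) / 2‖ ≤
          4 * N * s * (41 * b * N ^ 5 * s) := by
        rw [norm_div]
        have e2 : ‖(2 : ℂ)‖ = 2 := by simp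
        rw [e2, div_le_iff₀ (by norm_num)]
        refine (norm_add_le _ _).trans ?_
        rw [Complex.norm_conj, norm_mul, norm_mul]
        have a1 : ‖DD F z‖ * ‖W - W0‖ ≤ 4 * N * s * (41 * b * N ^ 5 * s) :=
          mul_le_mul (hDz z hzr) k5 (norm_nonneg _) (by rw [hs]; positivity)
        have a2 : ‖DD F (conj z)‖ * ‖Wc - W0c‖ ≤ 4 * N * s * (41 * b * N ^ 5 * s) :=
          mul_le_mul (hDz (conj z) hzc) c5 (norm_nonneg _) (by rw [hs]; positivity)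
        linarith
      have t2 : ‖(DD F z + conj (DD F (conj z))) / 2‖ * ‖W0‖ ≤
          101 * N ^ 3 * EE F * (7 * b * N ^ 3) :=
        mul_le_mul hsymD k3 (norm_nonneg _) (by positivity)
      exact add_le_add t2 t1
    refine hmain.trans ?_
    have hss : s * s = EE F := by rw [← hsq, hs]; ring
    have hN6 : N ^ 6 = (n : ℝ) ^ 12 := by rw [hN]; ring
    have e : 101 * N ^ 3 * EE F * (7 * b * N ^ 3) + 4 * N * s * (41 * b * N ^ 5 * s) =
        871 * (N ^ 6 * b * EE F) := by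
      rw [← hss]; ring
    rw [e]
    have e' : 900 * (n : ℝ) ^ 12 / M * EE F = 900 * (N ^ 6 * b * EE F) := by
      rw [← hN6, hb]; ring
    rw [e']
    have : 0 ≤ N ^ 6 * b * EE F := by positivity
    linarith

end Pool.Agent.DBR
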