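import Pool.Agent.DBR.Stmts

set_option autoImplicit false

/-!
Partial sums and bounds on the circle of radius `1 - 1/n`.
-/

namespace Pool.Agent.DBR

open Complex Metric Set Filter MeasureTheory

open scoped Topology ComplexConjugate

open Pool.Agent.PSB (InS coeff psum Lam SelfU)

namespace EX1_

theorem pow_ge {n k : ℕ} (hn : 2 ≤ n) (hk : k ≤ n) : (1 : ℝ) / 4 ≤ (1 - 1 / (n : ℝ)) ^ k := by
  have hn' : (2 : ℝ) ≤ n := by exact_mod_cast hn
  have h0 : (0 : ℝ) < 1 - 1 / (n : ℝ) := by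
    have : 1 / (n : ℝ) ≤ 1 / 2 := by
      apply one_div_le_one_div_of_le <;> linarith
    linarith
  have h1 : (1 : ℝ) - 1 / (n : ℝ) ≤ 1 := by
    have : 0 ≤ 1 / (n : ℝ) := by positivity
    linarith
  have h2 : (1 - 1 / (n : ℝ)) ^ n ≤ (1 - 1 / (n : ℝ)) ^ k := pow_le_pow_of_le_one h0.le h1 hk
  refine le_trans ?_ h2
  have h3 := one_add_mul_self_le_rpow_one_add (s := -(1 / (n : ℝ))) (by linarith)
    (p := (n : ℝ) / 2) (by linarith)
  have h4 : 1 + (n : ℝ) / 2 * -(1 / (n : ℝ)) = 1 / 2 := by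
    field_simp
    ring
  rw [h4] at h3
  have h5 : (1 - 1 / (n : ℝ)) ^ n = ((1 + -(1 / (n : ℝ))) ^ ((n : ℝ) / 2)) ^ 2 := by
    rw [← Real.rpow_natCast ((1 + -(1 / (n : ℝ))) ^ ((n : ℝ) / 2)) 2, ← Real.rpow_mul (by linarith),
      ← Real.rpow_natCast]
    rw [← sub_eq_add_neg]
    congr 1
    push_cast
    ring
  rw [h5]
  nlinarith

theorem sum_bound {n : ℕ} {B : ℝ} (hn : 2 ≤ n) (hB : 0 ≤ B) (c : ℕ → ℝ) (h0 : c 0 = 0)
    (hc : ∀ k, |c k| ≤ B / (1 - 1 / (n : ℝ)) ^ k) :
    ∑ k ∈ Finset.range (n + 1), |c k| ≤ 4 * n * B := by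
  rw [Finset.sum_range_succ', h0, abs_zero, add_zero]
  have h1 : ∀ k ∈ Finset.range n, |c (k + 1)| ≤ 4 * B := by
    intro k hk
    refine (hc (k + 1)).trans ?_
    have h2 := pow_ge hn (show k + 1 ≤ n from Finset.mem_range.1 hk)
    rw [div_le_iff₀ (by linarith)]
    nlinarith
  refine (Finset.sum_le_sum h1).trans ?_
  rw [Finset.sum_const, Finset.card_range, nsmul_eq_mul]
  linarith

theorem sym_diff {h : ℂ → ℂ} (hd : DifferentiableOn ℂ h (ball 0 1)) :
    DifferentiableOn ℂ (sym h) (ball 0 1) := by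
  intro z hz
  have hz' : conj z ∈ ball (0 : ℂ) 1 := by
    rw [mem_ball_zero_iff] at hz ⊢
    rwa [Complex.norm_conj]
  have h1 : DifferentiableAt ℂ h z := hd.differentiableAt (isOpen_ball.mem_nhds hz)
  have h2 : DifferentiableAt ℂ h (conj z) := hd.differentiableAt (isOpen_ball.mem_nhds hz')
  have h3 := h2.conj_conj
  rw [Complex.conj_conj] at h3
  have h4 : DifferentiableAt ℂ (fun z => (h z + conj (h (conj z))) / 2) z :=
    (h1.add h3).div_const 2
  exact h4.differentiableWithinAt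

theorem sym_coeff {h : ℂ → ℂ} (hd : DifferentiableOn ℂ h (ball 0 1)) (k : ℕ) :
    coeff (sym h) k = ((coeff h k).re : ℂ) := by
  have ha : AnalyticAt ℂ h 0 := analyticAt_of_ball one_pos hd
  have h1 := coeff_add ha (analyticAt_conj ha) k
  rw [coeff_conj ha] at h1
  have h2 := coeff_const_mul (ha.add (analyticAt_conj ha)) (1 / 2 : ℂ) k
  have h3 : (sym h) = fun z => (1 / 2 : ℂ) * (h + fun z => conj (h (conj z))) z := by
    funext z
    unfold sym
    simp only [Pi.add_apply]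
    ring
  rw [h3, h2]
  have h4 : coeff (h + fun z => conj (h (conj z))) k = coeff h k + conj (coeff h k) := h1
  rw [h4, Complex.add_conj]
  push_cast
  ring

end EX1_

open EX1_ in
theorem ex1_proof : Stmt_EX1 := by
  intro n h B hn hd h0
  have hn' : (2 : ℝ) ≤ n := by exact_mod_cast hn
  have hr : (0 : ℝ) < 1 - 1 / (n : ℝ) := by
    have : 1 / (n : ℝ) ≤ 1 / 2 := by
      apply one_div_le_one_div_of_le <;> linarith
    linarith
  have hr1 : (1 : ℝ) - 1 / (n : ℝ) < 1 := by
    have : 0 < 1 / (n : ℝ) := by positivity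
    linarith
  have hmem : ‖(((1 - 1 / (n : ℝ) : ℝ)) : ℂ)‖ = 1 - 1 / (n : ℝ) := by
    rw [Complex.norm_real, Real.norm_of_nonneg hr.le]
  constructor
  · intro hB
    have hB0 : 0 ≤ B := (norm_nonneg _).trans (hB _ hmem)
    have h1 := sum_bound hn hB0 (fun k => ‖coeff h k‖) (by simp [coeff_zero, h0])
      (fun k => by
        rw [abs_norm]
        exact norm_coeff_le hr hr1 hd hB k)
    unfold psum
    refine (norm_sum_le _ _).trans (le_trans (le_of_eq ?_) h1)
    refine Finset.sum_congr rfl fun k _ => ?_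
    simp
  · intro hB
    have hB0 : 0 ≤ B := (norm_nonneg _).trans (hB _ hmem)
    have h1 := sum_bound hn hB0 (fun k => (coeff h k).re) (by simp [coeff_zero, h0])
      (fun k => by
        have h2 := norm_coeff_le hr hr1 (sym_diff hd) hB k
        rwa [sym_coeff hd, Complex.norm_real, Real.norm_eq_abs] at h2)
    unfold psum
    rw [Complex.re_sum]
    refine (Finset.abs_sum_le_sum_abs _ _).trans (le_trans (le_of_eq ?_) h1)
    refine Finset.sum_congr rfl fun k _ => ?_
    simp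

end Pool.Agent.DBR
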