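import Pool.Agent.DBR.Stmts

/-!
Coefficients of the powers of the inner map of a step (MP_910507_an).
-/

set_option autoImplicit false

namespace Pool.Agent.DBR

open Complex Metric Set Filter MeasureTheory

open scoped Topology ComplexConjugate

open Pool.Agent.PSB (InS coeff psum Lam SelfU)

namespace EXP_

theorem exp_bound {x : ℂ} (hx : 0 ≤ x.re) : ‖Complex.exp (-x) - 1 + x‖ ≤ 3 * ‖x‖ ^ 2 := by
  rcases le_total ‖x‖ 1 with h | h
  · have h1 := Complex.norm_exp_sub_one_sub_id_le (x := -x) (by rwa [norm_neg])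
    rw [norm_neg] at h1
    have h2 : Complex.exp (-x) - 1 - -x = Complex.exp (-x) - 1 + x := by ring
    rw [h2] at h1
    nlinarith [sq_nonneg ‖x‖]
  · have h1 : ‖Complex.exp (-x)‖ ≤ 1 := by
      rw [Complex.norm_exp]
      have : (-x).re ≤ 0 := by simpa using hx
      exact Real.exp_le_one_iff.mpr this
    have h2 : ‖Complex.exp (-x) - 1 + x‖ ≤ ‖Complex.exp (-x)‖ + ‖(1 : ℂ)‖ + ‖x‖ :=
      (norm_add_le _ _).trans (add_le_add (norm_sub_le _ _) le_rfl)
    rw [norm_one] at h2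
    nlinarith

theorem car_bound {p : ℂ → ℂ} (hp : Car p) {z : ℂ} (hz : ‖z‖ = 1 / 2) : ‖p z‖ ≤ 3 := by
  have hne : ∀ w ∈ ball (0 : ℂ) 1, p w + 1 ≠ 0 := by
    intro w hw h
    have h1 := hp.re w hw
    have h2 := congrArg Complex.re h
    simp only [Complex.add_re, Complex.one_re, Complex.zero_re] at h2
    linarith
  have hd : DifferentiableOn ℂ (fun w => (p w - 1) / (p w + 1)) (ball 0 1) :=
    (hp.diff.sub_const 1).div (hp.diff.add_const 1) hne
  have h0 : (fun w => (p w - 1) / (p w + 1)) 0 = 0 := by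
    show (p 0 - 1) / (p 0 + 1) = 0
    rw [hp.zero, sub_self, zero_div]
  have hb : ∀ w ∈ ball (0 : ℂ) 1, ‖(fun w => (p w - 1) / (p w + 1)) w‖ ≤ 1 := by
    intro w hw
    show ‖(p w - 1) / (p w + 1)‖ ≤ 1
    rw [norm_div, div_le_one (norm_pos_iff.mpr (hne w hw))]
    have h1 := hp.re w hw
    rw [← sq_le_sq₀ (norm_nonneg _) (norm_nonneg _), Complex.sq_norm, Complex.sq_norm,
      Complex.normSq_apply, Complex.normSq_apply]
    simp only [Complex.sub_re, Complex.one_re, Complex.sub_im, Complex.one_im, Complex.add_re,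
      Complex.add_im]
    nlinarith
  have hz1 : z ∈ ball (0 : ℂ) 1 := by
    rw [mem_ball_zero_iff, hz]
    norm_num
  have h := schwarz_ball hd h0 hb hz1
  have h2 : ‖(p z - 1) / (p z + 1)‖ ≤ 1 * ‖z‖ := h
  rw [norm_div, div_le_iff₀ (norm_pos_iff.mpr (hne z hz1)), hz] at h2
  have h3 : ‖p z‖ ≤ ‖p z - 1‖ + 1 := by
    have := norm_add_le (p z - 1) 1
    rwa [sub_add_cancel, norm_one] at this
  have h4 : ‖p z + 1‖ ≤ ‖p z‖ + 1 := by
    have := norm_add_le (p z) 1
    rwa [norm_one] at this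
  linarith

theorem om_pow (ε : ℝ) (p : ℂ → ℂ) (j : ℕ) :
    (fun z => om ε p z ^ j) = fun z => z ^ j * Complex.exp (-((j * ε : ℂ) * p z)) := by
  funext z
  unfold om
  rw [mul_pow, ← Complex.exp_nat_mul]
  congr 2
  ring

end EXP_

open EXP_ in
theorem exp_proof : Stmt_EXP := by
  intro n
  refine ⟨27 * n ^ 2 * 2 ^ n, by positivity, ?_⟩
  intro ε p hε hε1 hp j k hj hjk hkn
  have hpa := hp.analyticAt
  have ha : AnalyticAt ℂ (fun z => Complex.exp (-((j * ε : ℂ) * p z))) 0 :=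
    (analyticAt_const.mul hpa).neg.cexp
  rw [om_pow, coeff_pow_mul ha, if_pos hjk]
  have hR : DifferentiableOn ℂ
      (fun z => Complex.exp (-((j * ε : ℂ) * p z)) - 1 + (j * ε : ℂ) * p z) (ball 0 1) :=
    (((hp.diff.const_mul _).neg.cexp).sub_const 1).add (hp.diff.const_mul _)
  have h1 : coeff (fun z => Complex.exp (-((j * ε : ℂ) * p z)) - 1 + (j * ε : ℂ) * p z) (k - j) =
      coeff (fun z => Complex.exp (-((j * ε : ℂ) * p z))) (k - j) -
        (if k - j = 0 then 1 else 0) + (j * ε : ℂ) * coeff p (k - j) := by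
    have a1 : AnalyticAt ℂ (fun z => Complex.exp (-((j * ε : ℂ) * p z)) - 1) 0 :=
      ha.sub analyticAt_const
    have a2 : AnalyticAt ℂ (fun z => (j * ε : ℂ) * p z) 0 := analyticAt_const.mul hpa
    rw [coeff_add a1 a2, coeff_sub ha analyticAt_const, coeff_const, coeff_const_mul hpa]
  have hb : ∀ z : ℂ, ‖z‖ = 1 / 2 →
      ‖(fun z => Complex.exp (-((j * ε : ℂ) * p z)) - 1 + (j * ε : ℂ) * p z) z‖ ≤
        27 * n ^ 2 * ε ^ 2 := by
    intro z hz
    have hz1 : z ∈ ball (0 : ℂ) 1 := by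
      rw [mem_ball_zero_iff, hz]
      norm_num
    have hre : 0 ≤ ((j * ε : ℂ) * p z).re := by
      have e : (j * ε : ℂ) = ((j * ε : ℝ) : ℂ) := by push_cast; ring
      rw [e, Complex.re_ofReal_mul]
      exact mul_nonneg (by positivity) (hp.re z hz1)
    refine (exp_bound hre).trans ?_
    have h3 : ‖(j * ε : ℂ) * p z‖ ≤ 3 * (n * ε) := by
      rw [norm_mul, norm_mul, Complex.norm_natCast, Complex.norm_real, Real.norm_of_nonneg hε.le]
      have h4 := car_bound hp hz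
      have h5 : (j : ℝ) ≤ n := by exact_mod_cast hjk.trans hkn
      have h6 : (j : ℝ) * ε ≤ n * ε := mul_le_mul_of_nonneg_right h5 hε.le
      calc (j : ℝ) * ε * ‖p z‖ ≤ (n * ε) * 3 :=
            mul_le_mul h6 h4 (norm_nonneg _) (by positivity)
        _ = _ := by ring
    calc 3 * ‖(j * ε : ℂ) * p z‖ ^ 2 ≤ 3 * (3 * (n * ε)) ^ 2 := by
          gcongr
      _ = _ := by ring
  have h2 := norm_coeff_le (r := 1 / 2) (by norm_num) (by norm_num) hR hb (k - j)
  rw [h1] at h2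
  have h3 : coeff (fun z => Complex.exp (-((j * ε : ℂ) * p z))) (k - j) -
      ((if j = k then 1 else 0) - (ε : ℂ) * j * coeff p (k - j)) =
      coeff (fun z => Complex.exp (-((j * ε : ℂ) * p z))) (k - j) -
        (if k - j = 0 then 1 else 0) + (j * ε : ℂ) * coeff p (k - j) := by
    have e : (k - j = 0) ↔ (j = k) := by omega
    simp only [e]
    ring
  rw [h3]
  refine h2.trans ?_
  have h4 : (1 / 2 : ℝ) ^ (k - j) ≥ (1 / 2) ^ n :=
    pow_le_pow_of_le_one (by norm_num) (by norm_num) (by omega)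
  rw [div_le_iff₀ (by positivity)]
  have h5 : (2 : ℝ) ^ n * (1 / 2) ^ n = 1 := by
    rw [← mul_pow]
    norm_num
  calc 27 * (n : ℝ) ^ 2 * ε ^ 2 = 27 * n ^ 2 * ε ^ 2 * (2 ^ n * (1 / 2) ^ n) := by rw [h5, mul_one]
    _ ≤ 27 * n ^ 2 * ε ^ 2 * (2 ^ n * (1 / 2) ^ (k - j)) := by gcongr
    _ = _ := by ring

end Pool.Agent.DBR
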