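import Pool.Agent.DBR.Stmts

set_option autoImplicit false

/-!
Univalent functions: the functional of de Branges along a step.
-/

namespace Pool.Agent.DBR

open Complex Metric Set Filter MeasureTheory

open scoped Topology ComplexConjugate

open Pool.Agent.PSB (InS coeff psum Lam SelfU)

namespace FDB_

theorem tau_last (n : ℕ) (s : ℝ) : tau n (n + 1) s = 0 := by
  unfold tau
  rw [Finset.Icc_eq_empty (by omega)]
  simp

theorem gam_last (n : ℕ) (s : ℝ) : gam n (n + 1) s = 0 := by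
  unfold gam
  rw [Finset.Icc_eq_empty (by omega)]
  simp

theorem sq_exp {c X e : ℂ} {ε B D C : ℝ} (hε : 0 < ε) (hε1 : ε ≤ 1) (hB : 0 ≤ B) (hD : 0 ≤ D)
    (hC : 0 ≤ C) (hc : ‖c‖ ≤ B) (hX : ‖X‖ ≤ D) (he : ‖e‖ ≤ C * ε ^ 2) :
    ‖c - ε * X + e‖ ^ 2 ≤ ‖c‖ ^ 2 - 2 * ε * (conj c * X).re +
      (D ^ 2 + 2 * (B + D) * C + C ^ 2) * ε ^ 2 := by
  have h1 : ‖c - ε * X + e‖ ≤ ‖c - ε * X‖ + ‖e‖ := norm_add_le _ _
  have h2 : ‖c - ε * X‖ ^ 2 = ‖c‖ ^ 2 - 2 * ε * (conj c * X).re + ε ^ 2 * ‖X‖ ^ 2 := by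
    rw [← Complex.normSq_eq_norm_sq, ← Complex.normSq_eq_norm_sq, ← Complex.normSq_eq_norm_sq]
    simp only [Complex.normSq_apply, Complex.sub_re, Complex.sub_im, Complex.mul_re,
      Complex.mul_im, Complex.ofReal_re, Complex.ofReal_im, Complex.conj_re, Complex.conj_im]
    ring
  have h3 : ‖c - ε * X‖ ≤ B + D := by
    refine (norm_sub_le _ _).trans ?_
    have : ‖(ε : ℂ) * X‖ ≤ D := by
      rw [norm_mul, Complex.norm_real, Real.norm_of_nonneg hε.le]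
      nlinarith [norm_nonneg X]
    linarith
  have h4 : ‖X‖ ^ 2 ≤ D ^ 2 := by
    have := norm_nonneg X
    nlinarith
  have hε4 : ε ^ 2 * ε ^ 2 ≤ ε ^ 2 := by
    have : ε ^ 2 ≤ 1 := by nlinarith
    nlinarith [sq_nonneg ε]
  have h5 : ‖e‖ ^ 2 ≤ C ^ 2 * ε ^ 2 := by
    have h6 : ‖e‖ ^ 2 ≤ (C * ε ^ 2) ^ 2 := by
      have := norm_nonneg e
      nlinarith
    have h7 : (C * ε ^ 2) ^ 2 = C ^ 2 * (ε ^ 2 * ε ^ 2) := by ring
    rw [h7] at h6
    exact h6.trans (mul_le_mul_of_nonneg_left hε4 (sq_nonneg C))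
  have h8 : ‖c - ε * X‖ * ‖e‖ ≤ (B + D) * (C * ε ^ 2) :=
    mul_le_mul h3 he (norm_nonneg _) (by positivity)
  have h9 : ‖c - ε * X + e‖ ^ 2 ≤ (‖c - ε * X‖ + ‖e‖) ^ 2 := by
    have := norm_nonneg (c - ε * X + e)
    nlinarith
  have h10 : ε ^ 2 * ‖X‖ ^ 2 ≤ ε ^ 2 * D ^ 2 := mul_le_mul_of_nonneg_left h4 (sq_nonneg ε)
  nlinarith

theorem X_bound {n k : ℕ} {B : ℝ} {c q : ℕ → ℂ} (hB : 0 ≤ B) (hkn : k ≤ n)
    (hc : ∀ j, j ≤ n → ‖c j‖ ≤ B) (hq : ∀ m, 1 ≤ m → ‖q m‖ ≤ 2) (hk : 1 ≤ k) :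
    ‖(k : ℂ) * c k + q k + ∑ j ∈ Finset.Ico 1 k, (j : ℂ) * c j * q (k - j)‖ ≤
      n * B + 2 + n * (n * B * 2) := by
  have hkn' : (k : ℝ) ≤ n := by exact_mod_cast hkn
  have h1 : ‖(k : ℂ) * c k‖ ≤ n * B := by
    rw [norm_mul, Complex.norm_natCast]
    exact mul_le_mul hkn' (hc k hkn) (norm_nonneg _) (by positivity)
  have h2 : ‖∑ j ∈ Finset.Ico 1 k, (j : ℂ) * c j * q (k - j)‖ ≤ n * (n * B * 2) := by
    refine (norm_sum_le _ _).trans ?_
    have h3 : ∀ j ∈ Finset.Ico 1 k, ‖(j : ℂ) * c j * q (k - j)‖ ≤ n * B * 2 := by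
      intro j hj
      rw [Finset.mem_Ico] at hj
      rw [norm_mul, norm_mul, Complex.norm_natCast]
      have hjn : (j : ℝ) ≤ n := by exact_mod_cast (by omega : j ≤ n)
      exact mul_le_mul (mul_le_mul hjn (hc j (by omega)) (norm_nonneg _) (by positivity))
        (hq (k - j) (by omega)) (norm_nonneg _) (by positivity)
    refine (Finset.sum_le_sum h3).trans ?_
    rw [Finset.sum_const, Nat.card_Ico, nsmul_eq_mul]
    have : ((k - 1 : ℕ) : ℝ) ≤ n := by exact_mod_cast (by omega : k - 1 ≤ n)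
    exact mul_le_mul_of_nonneg_right this (by positivity)
  calc _ ≤ ‖(k : ℂ) * c k + q k‖ + ‖∑ j ∈ Finset.Ico 1 k, (j : ℂ) * c j * q (k - j)‖ :=
        norm_add_le _ _
    _ ≤ (‖(k : ℂ) * c k‖ + ‖q k‖) + ‖∑ j ∈ Finset.Ico 1 k, (j : ℂ) * c j * q (k - j)‖ := by
        gcongr
        exact norm_add_le _ _
    _ ≤ _ := by
        have := hq k hk
        linarith

/-- One term. -/
theorem term {k n T T' G K ε a2 c2 R E C2 B : ℝ} (hk : 1 ≤ k) (hkn : k ≤ n) (hε : 0 < ε)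
    (hC2 : 0 ≤ C2) (hE : 0 ≤ E) (hT0 : 0 ≤ T) (hT : |T| ≤ C2)
    (hT' : |T' - (T - ε * k * G)| ≤ C2 * ε ^ 2) (hc2 : 0 ≤ c2) (hcB : c2 ≤ B)
    (ha : a2 ≤ c2 - 2 * ε * R + E * ε ^ 2) (hK : K = 4 / k) :
    T * (k * a2 - K) ≤ T' * (k * c2 - K) -
      ε * (-(k * G * (k * c2 - K)) + 2 * (k * T * R)) + (C2 * (n * B + 4) + C2 * n * E) * ε ^ 2 := by
  have hK0 : 0 ≤ K := by rw [hK]; positivity
  have hK4 : K ≤ 4 := by
    rw [hK, div_le_iff₀ (by linarith)]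
    linarith
  have h1 : T * (k * a2) ≤ T * (k * (c2 - 2 * ε * R + E * ε ^ 2)) :=
    mul_le_mul_of_nonneg_left (mul_le_mul_of_nonneg_left ha (by linarith)) hT0
  have h2 : T * k * (E * ε ^ 2) ≤ C2 * n * (E * ε ^ 2) := by
    have : T ≤ C2 := (le_abs_self T).trans hT
    exact mul_le_mul_of_nonneg_right (mul_le_mul this hkn (by linarith) hC2) (by positivity)
  have h3 : |k * c2 - K| ≤ n * B + 4 := by
    rw [abs_le]
    have : k * c2 ≤ n * B := mul_le_mul hkn hcB hc2 (by linarith)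
    have : 0 ≤ k * c2 := by positivity
    constructor <;> linarith
  have h4 : |(T' - (T - ε * k * G)) * (k * c2 - K)| ≤ (C2 * ε ^ 2) * (n * B + 4) := by
    rw [abs_mul]
    exact mul_le_mul hT' h3 (abs_nonneg _) (by positivity)
  have h5 := (abs_le.1 h4).1
  nlinarith

end FDB_

open FDB_ in
theorem fdb_proof (hLST : Stmt_LST) (hLCB : Stmt_LCB) (hQFM : Stmt_QFM) (hHRG : Stmt_HRG)
    (hGPS : Stmt_GPS) (hWTS : Stmt_WTS) (hTWD : Stmt_TWD) (hQMO : Stmt_QMO) : Stmt_FDB := by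
  intro n M
  obtain ⟨B, hB, hBf⟩ := hLCB n M
  obtain ⟨C1, hC1, hst⟩ := hLST n M
  obtain ⟨C2, hC2, htw⟩ := hTWD n
  set D : ℝ := n * B + 2 + n * (n * B * 2) with hD
  have hD0 : 0 ≤ D := by positivity
  set E : ℝ := D ^ 2 + 2 * (B + D) * C1 + C1 ^ 2 with hE
  have hE0 : 0 ≤ E := by positivity
  refine ⟨n * (C2 * (n * B ^ 2 + 4) + C2 * n * E), by positivity, ?_⟩
  intro ε t f g p hε hε1 ht hf hg hs
  have hs0 : 0 ≤ Real.exp (-t) := (Real.exp_pos _).le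
  have hs1 : Real.exp (-t) ≤ 1 := by
    rw [Real.exp_le_one_iff]; linarith
  have hG : ∀ k, k ≤ n → 0 ≤ gam n k (Real.exp (-t)) := fun k hk => hGPS n k _ hk hs0 hs1
  have hTG : ∀ k, 1 ≤ k → tau n k (Real.exp (-t)) - tau n (k + 1) (Real.exp (-t)) =
      gam n k (Real.exp (-t)) + gam n (k + 1) (Real.exp (-t)) := fun k hk => hWTS n k _ hk
  have hT0 : ∀ j, j ≤ n → 0 ≤ tau n (n + 1 - j) (Real.exp (-t)) := by
    intro j
    induction j with
    | zero => intro _; rw [Nat.sub_zero, tau_last]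
    | succ j ih =>
      intro hj
      have h1 := ih (by omega)
      have h2 := hTG (n + 1 - (j + 1)) (by omega)
      have e : n + 1 - (j + 1) + 1 = n + 1 - j := by omega
      rw [e] at h2
      have h3 := hG (n + 1 - (j + 1)) (by omega)
      have h4 : 0 ≤ gam n (n + 1 - j) (Real.exp (-t)) := by
        rcases Nat.eq_zero_or_pos j with h0 | h0
        · subst h0
          rw [Nat.sub_zero, gam_last]
        · exact hG _ (by omega)
      linarith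
  have hT0' : ∀ k, 1 ≤ k → k ≤ n → 0 ≤ tau n k (Real.exp (-t)) := by
    intro k hk hkn
    have := hT0 (n + 1 - k) (by omega)
    rwa [show n + 1 - (n + 1 - k) = k by omega] at this
  have hq := hQMO p hs.car
  have hform := hQFM n (fun k => tau n k (Real.exp (-t))) (fun k => gam n k (Real.exp (-t)))
    (lc g) (coeff p) (hHRG p hs.car n) (fun k _ hk => hG k hk) (fun k hk _ => hTG k hk)
    (tau_last n _) (gam_last n _)
  have key : ∀ k ∈ Finset.Icc 1 n,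
      tau n k (Real.exp (-t)) * (k * ‖lc f k‖ ^ 2 - 4 / k) ≤
        tau n k (Real.exp (-(t + ε))) * (k * ‖lc g k‖ ^ 2 - 4 / k) -
        ε * (-(k * gam n k (Real.exp (-t)) * (k * ‖lc g k‖ ^ 2 - 4 / k)) +
          2 * (k * tau n k (Real.exp (-t)) * (conj (lc g k) * ((k : ℂ) * lc g k + coeff p k +
        ∑ j ∈ Finset.Ico 1 k, (j : ℂ) * lc g j * coeff p (k - j))).re)) +
        (C2 * (n * B ^ 2 + 4) + C2 * n * E) * ε ^ 2 := by
    intro k hk
    rw [Finset.mem_Icc] at hk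
    obtain ⟨hk1, hkn⟩ := hk
    obtain ⟨w1, w2, w3⟩ := htw k t ε hk1 hkn ht hε hε1
    have hX := X_bound hB hkn (fun j hj => hBf g hg j hj) (fun m hm => (hq.2.2 m hm).1) hk1
    have hstk := hst ε f g p hε hε1 hf hg hs k hk1 hkn
    have ha := sq_exp hε hε1 hB hD0 hC1 (hBf g hg k hkn) hX hstk
    have e1 : lc g k - ε * ((k : ℂ) * lc g k + coeff p k +
        ∑ j ∈ Finset.Ico 1 k, (j : ℂ) * lc g j * coeff p (k - j)) +
        (lc f k - (lc g k - ε * ((k : ℂ) * lc g k + coeff p k +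
        ∑ j ∈ Finset.Ico 1 k, (j : ℂ) * lc g j * coeff p (k - j)))) = lc f k := by ring
    rw [e1] at ha
    have hcB : ‖lc g k‖ ^ 2 ≤ B ^ 2 := by
      have := hBf g hg k hkn
      have := norm_nonneg (lc g k)
      nlinarith
    exact term (k := (k : ℝ)) (n := (n : ℝ)) (by exact_mod_cast hk1) (by exact_mod_cast hkn) hε
      hC2 hE0 (hT0' k hk1 hkn) w1 w3 (sq_nonneg _) hcB ha rfl
  have hsum := Finset.sum_le_sum key
  rw [Finset.sum_add_distrib, Finset.sum_sub_distrib, ← Finset.mul_sum, Finset.sum_const,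
    Nat.card_Icc, nsmul_eq_mul] at hsum
  have hε' := mul_nonneg hε.le hform
  unfold Phi
  simp only [Nat.add_sub_cancel] at hsum
  linarith

end Pool.Agent.DBR
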