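import Pool.Agent.DBR.Stmts

set_option autoImplicit false

namespace Pool.Agent.DBR

open Complex Metric Set Filter MeasureTheory

open scoped Topology ComplexConjugate

open Pool.Agent.PSB (InS coeff psum Lam SelfU)

namespace FIN_

theorem psum_le {M : ℝ} {f : ℂ → ℂ} (hf : InS M f) (n : ℕ) {z : ℂ} (hz : ‖z‖ = 1) :
    ‖psum f n z‖ ≤ (n + 1) * M := by
  unfold psum
  refine (norm_sum_le _ _).trans ?_
  refine (Finset.sum_le_sum (g := fun _ => M) fun k _ => ?_).trans ?_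
  · rw [norm_mul, norm_pow, hz, one_pow, mul_one]
    exact norm_coeff_le_of_inS hf k
  · simp

theorem bdd (n : ℕ) (M : ℝ) :
    BddAbove {r : ℝ | ∃ f : ℂ → ℂ, InS M f ∧ ∃ z : ℂ, ‖z‖ = 1 ∧ r = ‖psum f n z‖} := by
  refine ⟨(n + 1) * M, ?_⟩
  rintro r ⟨f, hf, z, hz, rfl⟩
  exact psum_le hf n hz

theorem le_lam {M : ℝ} {f : ℂ → ℂ} (hf : InS M f) (n : ℕ) {z : ℂ} (hz : ‖z‖ = 1) :
    ‖psum f n z‖ ≤ Lam n M := le_csSup (bdd n M) ⟨f, hf, z, hz, rfl⟩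

theorem lam_le {M : ℝ} (hM : 1 ≤ M) {n : ℕ} {B : ℝ}
    (h : ∀ f : ℂ → ℂ, InS M f → ∀ z : ℂ, ‖z‖ = 1 → ‖psum f n z‖ ≤ B) : Lam n M ≤ B := by
  refine csSup_le ⟨_, _, inS_id hM, 1, norm_one, rfl⟩ ?_
  rintro r ⟨f, hf, z, hz, rfl⟩
  exact h f hf z hz

end FIN_

open FIN_ in
theorem fin_proof (hUPB : Stmt_UPB) (hPCO : Stmt_PCO) (hPKE : Stmt_PKE) (hROT : Stmt_ROT) :
    Stmt_FIN := by
  intro n M hn hM
  have h1 : (1 : ℝ) ≤ M := by
    have h2 : (1 : ℝ) ≤ (n : ℝ) ^ 16 := one_le_pow₀ (by exact_mod_cast (by omega : 1 ≤ n))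
    nlinarith
  refine le_antisymm (lam_le h1 fun f hf z hz => ?_) ?_
  · obtain ⟨f', hf', -, h⟩ := hROT M f z hf hz
    rw [h n]
    exact hUPB n M f' hn hM hf'
  · have h2 := le_lam (hPKE M h1).1 n (z := 1) norm_one
    rw [hPCO.1 M n h1, Complex.norm_real, Real.norm_eq_abs] at h2
    exact (le_abs_self _).trans h2

end Pool.Agent.DBR
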