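import Pool.Agent.DBR.Stmts

set_option autoImplicit false

/-!
Univalent functions: FLM, limits of factorisations.
-/

namespace Pool.Agent.DBR

open Complex Metric Set Filter

open scoped Topology ComplexConjugate

open Pool.Agent.PSB (InS coeff psum Lam SelfU)

theorem flm_proof (hMON : Stmt_MON) (hHUR : Stmt_HUR) : Stmt_FLM := by
  intro Mn sn M s Fn hn gn F hM hs hs0 hF hfac
  -- bounds
  obtain ⟨R, hR⟩ := hM.bddAbove_range
  have hMR : ∀ n, Mn n ≤ R := fun n => hR ⟨n, rfl⟩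
  obtain ⟨φ, hφ, h, hhd, hhlim⟩ := hMON R hn (fun n => (hfac n).hdiff)
    (fun n z hz => ((hfac n).hbdd z hz).trans (hMR n))
  obtain ⟨ψ, hψ, g, hgd, hglim⟩ := hMON 1 (fun n => gn (φ n)) (fun n => (hfac (φ n)).gdiff)
    (fun n z hz => ((hfac (φ n)).gmaps z hz).le)
  have hψt : Tendsto ψ atTop atTop := hψ.tendsto_atTop
  have hφt : Tendsto φ atTop atTop := hφ.tendsto_atTop
  have hθ : Tendsto (fun n => φ (ψ n)) atTop atTop := hφt.comp hψt
  have hh2 : TendstoLocallyUniformlyOn (fun n => hn (φ (ψ n))) h atTop (ball 0 1) := by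
    intro u hu x hx
    obtain ⟨t, ht, h1⟩ := hhlim u hu x hx
    exact ⟨t, ht, hψt.eventually h1⟩
  have hptg : ∀ z ∈ ball (0 : ℂ) 1, Tendsto (fun n => gn (φ (ψ n)) z) atTop (𝓝 (g z)) :=
    fun z hz => hglim.tendsto_at hz
  have hpth : ∀ z ∈ ball (0 : ℂ) 1, Tendsto (fun n => hn (φ (ψ n)) z) atTop (𝓝 (h z)) :=
    fun z hz => hh2.tendsto_at hz
  have hg0 : g 0 = 0 := by
    have h1 := hptg 0 zero_mem
    have h2 : (fun n => gn (φ (ψ n)) 0) = fun _ => (0 : ℂ) := by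
      funext n
      exact (hfac _).gzero
    rw [h2] at h1
    exact tendsto_nhds_unique h1 tendsto_const_nhds
  have hh0 : h 0 = 0 := by
    have h1 := hpth 0 zero_mem
    have h2 : (fun n => hn (φ (ψ n)) 0) = fun _ => (0 : ℂ) := by
      funext n
      exact (hfac _).hzero
    rw [h2] at h1
    exact tendsto_nhds_unique h1 tendsto_const_nhds
  have hhder : deriv h 0 = (s : ℂ) := by
    have h1 := (hh2.deriv (Eventually.of_forall fun n => (hfac (φ (ψ n))).hdiff)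
      isOpen_ball).tendsto_at zero_mem
    have h2 : Tendsto (fun n => ((sn (φ (ψ n)) : ℝ) : ℂ)) atTop (𝓝 (s : ℂ)) :=
      (Complex.continuous_ofReal.tendsto s).comp (hs.comp hθ)
    refine tendsto_nhds_unique h1 ?_
    refine h2.congr fun n => ?_
    simp [(hfac (φ (ψ n))).hder]
  have hhinj : InjOn h (ball 0 1) := by
    refine hHUR (fun n => hn (φ (ψ n))) h (fun n => (hfac _).hdiff) (fun n => (hfac _).hinj) hh2 ?_
    rw [hhder]
    exact_mod_cast hs0.ne'
  have hhb : ∀ z ∈ ball (0 : ℂ) 1, ‖h z‖ ≤ M := by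
    intro z hz
    exact le_of_tendsto_of_tendsto (hpth z hz).norm (hM.comp hθ)
      (Eventually.of_forall fun n => (hfac (φ (ψ n))).hbdd z hz)
  have hgb : ∀ z ∈ ball (0 : ℂ) 1, ‖g z‖ ≤ 1 := by
    intro z hz
    exact le_of_tendsto (hptg z hz).norm (Eventually.of_forall fun n => ((hfac (φ (ψ n))).gmaps z hz).le)
  have hgm : ∀ z ∈ ball (0 : ℂ) 1, ‖g z‖ < 1 := by
    intro z hz
    have h1 := schwarz_ball hgd hg0 hgb hz
    have h2 : ‖z‖ < 1 := by simpa using hz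
    linarith
  refine ⟨h, g, ⟨hhd, hhinj, hh0, hhder, hhb, hgd, hg0, hgm, ?_⟩⟩
  intro z hz
  have hgz : g z ∈ ball (0 : ℂ) 1 := by simpa using hgm z hz
  have h1 : Tendsto (fun n => hn (φ (ψ n)) (gn (φ (ψ n)) z)) atTop (𝓝 (h (g z))) := by
    refine hh2.tendsto_comp (hhd.continuousOn.continuousWithinAt hgz) hgz ?_
    refine tendsto_nhdsWithin_iff.2 ⟨hptg z hz, Eventually.of_forall fun n => ?_⟩
    simpa using (hfac (φ (ψ n))).gmaps z hz
  have h2 : Tendsto (fun n => Fn (φ (ψ n)) z) atTop (𝓝 (F z)) := (hF z hz).comp hθ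
  refine tendsto_nhds_unique h2 (h1.congr fun n => ?_)
  exact ((hfac (φ (ψ n))).comp z hz).symm

end Pool.Agent.DBR
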