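import Pool.Agent.DBR.Stmts

/-!
# Squad DBR (MP_910507_an): module FRE
-/

set_option autoImplicit false

namespace Pool.Agent.DBR

open Complex Metric Set Filter MeasureTheory

open scoped Topology ComplexConjugate

open Pool.Agent.PSB (InS coeff psum Lam SelfU)

namespace FRE_

theorem open_image (h : ℂ → ℂ) (hd : DifferentiableOn ℂ h (ball 0 1)) (hi : InjOn h (ball 0 1)) :
    IsOpen (h '' ball 0 1) := by
  have ha : AnalyticOnNhd ℂ h (ball 0 1) := hd.analyticOnNhd isOpen_ball
  rcases ha.is_constant_or_isOpen (convex_ball (0 : ℂ) 1).isPreconnected with ⟨w, hw⟩ | h2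
  · exfalso
    have h0 : (0 : ℂ) ∈ ball (0 : ℂ) 1 := mem_ball_self one_pos
    have h1 : (1 / 2 : ℂ) ∈ ball (0 : ℂ) 1 := by
      rw [mem_ball_zero_iff]
      norm_num
    have := hi h0 h1 ((hw 0 h0).trans (hw _ h1).symm)
    norm_num at this
  · exact h2 _ Subset.rfl isOpen_ball

end FRE_

open FRE_

theorem fre_proof (hTOP : Stmt_TOP) (hSCH : Stmt_SCH) (hWLF : Stmt_WLF) (hACC : Stmt_ACC) :
    Stmt_FRE := by
  intro R₀ M s F h g hR hF hFi hF1 hs hfac
  have h01 : (0 : ℂ) ∈ ball (0 : ℂ) 1 := mem_ball_self one_pos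
  have hopen : IsOpen (h '' ball 0 1) := open_image h hfac.hdiff hfac.hinj
  have hbd : Bornology.IsBounded (h '' ball 0 1) := by
    refine (isBounded_closedBall (x := (0 : ℂ)) (r := M)).subset ?_
    rintro _ ⟨z, hz, rfl⟩
    rw [mem_closedBall_zero_iff]
    exact hfac.hbdd z hz
  have hsub : F '' ball 0 1 ⊆ h '' ball 0 1 := by
    rintro _ ⟨z, hz, rfl⟩
    refine ⟨g z, ?_, (hfac.comp z hz).symm⟩
    rw [mem_ball_zero_iff]
    exact hfac.gmaps z hz
  have hball : ball (0 : ℂ) 1 ⊆ ball 0 R₀ := ball_subset_ball hR.le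
  -- the frontier is not contained in the image of the closed disc
  have hnot : ¬ frontier (h '' ball 0 1) ⊆ F '' closedBall 0 1 := by
    intro hfr
    have heq := hTOP R₀ F (h '' ball 0 1) hR hF hFi hopen hbd hsub hfr
    have hgi : InjOn g (ball 0 1) := by
      intro z hz z' hz' hgz
      refine hFi (hball hz) (hball hz') ?_
      rw [hfac.comp z hz, hfac.comp z' hz', hgz]
    have hgs : g '' ball 0 1 = ball 0 1 := by
      refine Subset.antisymm ?_ ?_
      · rintro _ ⟨z, hz, rfl⟩
        rw [mem_ball_zero_iff]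
        exact hfac.gmaps z hz
      · intro w hw
        have h1 : h w ∈ F '' ball 0 1 := heq ▸ mem_image_of_mem h hw
        obtain ⟨z, hz, hzw⟩ := h1
        refine ⟨z, hz, hfac.hinj ?_ hw ?_⟩
        · rw [mem_ball_zero_iff]
          exact hfac.gmaps z hz
        · rw [← hfac.comp z hz, hzw]
    have hn := hSCH g hfac.gdiff hgi hfac.gzero hgs
    have hee : F =ᶠ[𝓝 0] (h ∘ g) := by
      filter_upwards [isOpen_ball.mem_nhds h01] with z hz
      exact hfac.comp z hz
    have hg0 : DifferentiableAt ℂ g 0 := hfac.gdiff.differentiableAt (isOpen_ball.mem_nhds h01)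
    have hh0 : DifferentiableAt ℂ h (g 0) := by
      rw [hfac.gzero]
      exact hfac.hdiff.differentiableAt (isOpen_ball.mem_nhds h01)
    have hd : deriv F 0 = deriv h (g 0) * deriv g 0 := by
      rw [hee.deriv_eq, deriv_comp 0 hh0 hg0]
    rw [hF1, hfac.gzero, hfac.hder] at hd
    have hnorm := congrArg norm hd
    rw [norm_one, norm_mul, hn, mul_one, Complex.norm_real, Real.norm_eq_abs,
      abs_of_pos (by linarith)] at hnorm
    linarith
  rw [not_subset] at hnot
  obtain ⟨v, hvf, hvK⟩ := hnot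
  have hvV : v ∉ h '' ball 0 1 := by
    rw [frontier, hopen.interior_eq] at hvf
    exact hvf.2
  have hKc : IsClosed (F '' closedBall 0 1) := by
    have h1 : IsCompact (F '' closedBall 0 1) := by
      refine (isCompact_closedBall (0 : ℂ) 1).image_of_continuousOn ?_
      exact hF.continuousOn.mono (closedBall_subset_ball hR)
    exact h1.isClosed
  obtain ⟨d, hd, hdK⟩ := Metric.isOpen_iff.1 hKc.isOpen_compl v hvK
  have hvc : v ∈ closure (h '' ball 0 1) := frontier_subset_closure hvf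
  obtain ⟨q, hqV, hq⟩ := Metric.mem_closure_iff.1 hvc (d / 2) (by positivity)
  obtain ⟨ζ, η₀, hζ, hη₀, hacc⟩ := hACC h q v hfac.hdiff hfac.hinj hqV hvV
  obtain ⟨η, hη, hηm, hw⟩ := hWLF h M ζ hfac.hdiff hfac.hinj hfac.hbdd hζ (d / 2) (min η₀ 1)
    (by positivity) (lt_min hη₀ one_pos)
  obtain ⟨z, hz, hzη, hzs⟩ := hacc η hη (hηm.trans_le (min_le_left _ _))
  have hη1 : η < 1 := hηm.trans_le (min_le_right _ _)
  have hzv : dist (h z) v < d / 2 := by
    have h1 : segment ℝ q v ⊆ ball v (d / 2) := by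
      refine (convex_ball v (d / 2)).segment_subset ?_ (mem_ball_self (by positivity))
      rw [mem_ball, dist_comm]
      exact hq
    exact mem_ball.1 (h1 hzs)
  have hno : ∀ w ∈ ball (0 : ℂ) 1, ‖g w - ζ‖ ≠ η := by
    intro w hwb hwη
    have hgw : g w ∈ ball (0 : ℂ) 1 := by
      rw [mem_ball_zero_iff]
      exact hfac.gmaps w hwb
    have h1 := hw z hz (g w) hgw hzη hwη
    have h2 : h (g w) ∈ ball v d := by
      rw [mem_ball]
      calc dist (h (g w)) v ≤ dist (h (g w)) (h z) + dist (h z) v := dist_triangle _ _ _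
        _ < d / 2 + d / 2 := by
          refine add_lt_add ?_ hzv
          rw [dist_comm, dist_eq_norm]
          exact h1
        _ = d := by ring
    have h3 := hdK h2
    apply h3
    refine ⟨w, ball_subset_closedBall hwb, ?_⟩
    exact hfac.comp w hwb
  refine ⟨ζ, η, hζ, hη, fun w hwb => ?_⟩
  by_contra hlt
  push Not at hlt
  have hcont : ContinuousOn (fun w => ‖g w - ζ‖) (ball 0 1) :=
    (hfac.gdiff.continuousOn.sub continuousOn_const).norm
  have hiv := (convex_ball (0 : ℂ) 1).isPreconnected.intermediate_value hwb h01 hcont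
  have h0 : ‖g 0 - ζ‖ = 1 := by rw [hfac.gzero, zero_sub, norm_neg, hζ]
  obtain ⟨w', hw', he⟩ := hiv ⟨hlt.le, by
    show η ≤ ‖g 0 - ζ‖
    rw [h0]
    exact hη1.le⟩
  exact hno w' hw' he

end Pool.Agent.DBR
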