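import Pool.Agent.DBR.Stmts

/-!
# Squad DBR, module GCF: the weights as coefficients of a polynomial.
-/

set_option autoImplicit false

namespace Pool.Agent.DBR

namespace GCF_

open Polynomial

/-- coefficients of `X ^ (n - m) * (1 - X) ^ (2 m)` -/
lemma coeff_term (n m k : ℕ) (hm : m ≤ n) (hk : k ≤ n) :
    ((X : ℝ[X]) ^ (n - m) * (X - C 1) ^ (2 * m)).coeff (n + k) =
      if k ≤ m then (-1 : ℝ) ^ (m - k) * ((2 * m).choose (m - k)) else 0 := by
  have h1 : n + k = (k + m) + (n - m) := by omega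
  have h0 : (X - C 1 : ℝ[X]) = X + C (-1) := by
    rw [Polynomial.C_neg, sub_eq_add_neg]
  rw [h1, mul_comm, Polynomial.coeff_mul_X_pow, h0, Polynomial.coeff_X_add_C_pow]
  split_ifs with h
  · have h2 : 2 * m - (k + m) = m - k := by omega
    have h3 : (2 * m).choose (k + m) = (2 * m).choose (m - k) := by
      rw [← Nat.choose_symm (by omega : k + m ≤ 2 * m), h2]
    rw [h2, h3]
  · have h2 : (2 * m).choose (k + m) = 0 := Nat.choose_eq_zero_of_lt (by omega)
    rw [h2]
    simp

/-- the polynomial -/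
noncomputable def poly (n : ℕ) (s : ℝ) : ℝ[X] :=
  ∑ m ∈ Finset.range (n + 1), C (((n + m + 1).choose (2 * m + 1) : ℝ) * s ^ m) *
    ((X : ℝ[X]) ^ (n - m) * (X - C 1) ^ (2 * m))

lemma eval_poly (n : ℕ) (s T : ℝ) (hT : 0 < T) :
    (poly n s).eval T = T ^ n * uch n (s * (1 - T) ^ 2 / T) := by
  unfold poly uch
  rw [Polynomial.eval_finsetSum, Finset.mul_sum]
  refine Finset.sum_congr rfl fun m hm => ?_
  have hm' : m ≤ n := by
    have := Finset.mem_range.1 hm
    omega
  simp only [Polynomial.eval_mul, Polynomial.eval_C, Polynomial.eval_pow, Polynomial.eval_X,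
    Polynomial.eval_sub]
  have h1 : T ^ n = T ^ (n - m) * T ^ m := by rw [← pow_add]; congr 1; omega
  have h2 : (s * (1 - T) ^ 2 / T) ^ m * T ^ m = s ^ m * (T - 1) ^ (2 * m) := by
    rw [← mul_pow, div_mul_cancel₀ _ hT.ne', mul_pow, ← pow_mul, pow_mul, pow_mul]
    rw [show (1 - T) ^ 2 = (T - 1) ^ 2 by ring]
  calc _ = ((n + m + 1).choose (2 * m + 1) : ℝ) * T ^ (n - m) *
        (s ^ m * (T - 1) ^ (2 * m)) := by ring
    _ = ((n + m + 1).choose (2 * m + 1) : ℝ) * T ^ (n - m) *
        ((s * (1 - T) ^ 2 / T) ^ m * T ^ m) := by rw [h2]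
    _ = _ := by rw [h1]; ring

end GCF_

open GCF_ Polynomial in
theorem gcf_proof : Stmt_GCF := by
  intro n s A hA k hk
  have hpq : poly n s = ∑ l ∈ Finset.range (2 * n + 1), C (A l) * (X : ℝ[X]) ^ l := by
    apply Polynomial.eq_of_infinite_eval_eq
    refine (Set.Ioi_infinite (0 : ℝ)).mono ?_
    intro T hT
    show (poly n s).eval T = _
    rw [eval_poly n s T hT, hA T hT, Polynomial.eval_finsetSum]
    refine Finset.sum_congr rfl fun l _ => ?_
    simp
  have h1 : (poly n s).coeff (n + k) = A (n + k) := by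
    rw [hpq, Polynomial.finsetSum_coeff]
    rw [Finset.sum_eq_single (n + k)]
    · simp
    · intro l _ hl
      rw [Polynomial.coeff_C_mul, Polynomial.coeff_X_pow, if_neg (Ne.symm hl), mul_zero]
    · intro h
      exact absurd (Finset.mem_range.2 (by omega)) h
  rw [← h1]
  unfold poly gam
  rw [Polynomial.finsetSum_coeff]
  have h2 : ∀ m ∈ Finset.range (n + 1),
      (C (((n + m + 1).choose (2 * m + 1) : ℝ) * s ^ m) *
        ((X : ℝ[X]) ^ (n - m) * (X - C 1) ^ (2 * m))).coeff (n + k) =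
      if k ≤ m then (-1 : ℝ) ^ (m - k) * ((2 * m).choose (m - k)) *
        ((n + m + 1).choose (2 * m + 1)) * s ^ m else 0 := by
    intro m hm
    rw [Polynomial.coeff_C_mul, coeff_term n m k (by have := Finset.mem_range.1 hm; omega) hk]
    split_ifs
    · ring
    · ring
  rw [Finset.sum_congr rfl h2, ← Finset.sum_filter]
  apply Finset.sum_congr _ fun _ _ => rfl
  ext m
  simp only [Finset.mem_filter, Finset.mem_range, Finset.mem_Icc]
  omega

end Pool.Agent.DBR
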