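import Pool.Agent.DBR.Stmts

/-!
# MP_910507_an, squad DBR: module GON, the weights at `s = 1`
-/

set_option autoImplicit false

namespace Pool.Agent.DBR

open Complex Metric Set Filter MeasureTheory
open scoped Topology ComplexConjugate
open Pool.Agent.PSB (InS coeff psum Lam SelfU)

namespace GON_

/-- the coefficients -/
noncomputable def A (l : ℕ) : ℝ := if Even l then 1 else 0

/-- the sum of the even powers -/
noncomputable def E (T : ℝ) (n : ℕ) : ℝ := ∑ j ∈ Finset.range (n + 1), T ^ (2 * j)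

theorem E_succ (T : ℝ) (n : ℕ) : E T (n + 1) = E T n + T ^ (2 * (n + 1)) := by
  unfold E
  rw [Finset.sum_range_succ]

theorem sum_A (T : ℝ) (n : ℕ) : ∑ l ∈ Finset.range (2 * n + 1), A l * T ^ l = E T n := by
  induction n with
  | zero => simp [A, E]
  | succ n ih =>
    rw [E_succ, show 2 * (n + 1) + 1 = (2 * n + 1) + 1 + 1 by ring, Finset.sum_range_succ,
      Finset.sum_range_succ, ih]
    have h1 : A (2 * n + 1) = 0 := by
      unfold A
      rw [if_neg (by simp)]
    have h2 : A (2 * n + 1 + 1) = 1 := by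
      unfold A
      rw [if_pos ⟨n + 1, by ring⟩]
    rw [h1, h2, show 2 * (n + 1) = 2 * n + 1 + 1 by ring]
    ring

theorem both (hC : Stmt_CHX) (T : ℝ) (hT : 0 < T) (n : ℕ) :
    T ^ n * uch n (1 * (1 - T) ^ 2 / T) = E T n ∧
      T ^ (n + 1) * uch (n + 1) (1 * (1 - T) ^ 2 / T) = E T (n + 1) := by
  obtain ⟨c0, c1, c2⟩ := hC (1 * (1 - T) ^ 2 / T)
  have hx : T * (2 + 1 * (1 - T) ^ 2 / T) = 1 + T ^ 2 := by
    field_simp
    ring
  induction n with
  | zero =>
    refine ⟨?_, ?_⟩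
    · rw [c0]
      simp [E]
    · rw [c1, show (0 : ℕ) + 1 = 1 from rfl, pow_one, hx]
      simp [E, Finset.sum_range_succ]
  | succ n ih =>
    refine ⟨ih.2, ?_⟩
    rw [show n + 1 + 1 = n + 2 from rfl, c2]
    have h1 : T ^ (n + 2) * ((2 + 1 * (1 - T) ^ 2 / T) * uch (n + 1) (1 * (1 - T) ^ 2 / T)
        - uch n (1 * (1 - T) ^ 2 / T))
        = (T * (2 + 1 * (1 - T) ^ 2 / T)) * (T ^ (n + 1) * uch (n + 1) (1 * (1 - T) ^ 2 / T))
          - T ^ 2 * (T ^ n * uch n (1 * (1 - T) ^ 2 / T)) := by ring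
    rw [h1, hx, ih.1, ih.2, show n + 2 = (n + 1) + 1 from rfl, E_succ T (n + 1), E_succ T n]
    ring

end GON_

open GON_ in
theorem gon_proof (hCHX : Stmt_CHX) (hGCF : Stmt_GCF) : Stmt_GON := by
  intro n k hk
  have h := hGCF n 1 A (fun T hT => by rw [sum_A]; exact (both hCHX T hT n).1) k hk
  rw [← h]
  unfold A
  have he : Even (n + k) ↔ Even (n - k) := by
    rw [Nat.even_add, Nat.even_sub hk]
  by_cases hn : Even (n - k)
  · rw [if_pos (he.2 hn), if_pos hn]
  · rw [if_neg (fun h => hn (he.1 h)), if_neg hn]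

end Pool.Agent.DBR
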