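import Pool.Agent.DBR.Stmts

/-!
Squad DBR (MP_910507_an): module GPS, positivity of the weights.
-/

set_option autoImplicit false

namespace Pool.Agent.DBR

open Complex Metric Set Filter MeasureTheory

open scoped Topology ComplexConjugate

open Pool.Agent.PSB (InS coeff psum Lam SelfU)

namespace GPS_

theorem tr_eq (hSYT : Stmt_SYT) (hCHX : Stmt_CHX) (a b c d x : ℝ) (htr : a + d = 2 + x)
    (hdet : a * d - b * c = 1) (n : ℕ) :
    ∑ i ∈ Finset.range (n + 1), sy n a b c d i i = uch n x := by
  obtain ⟨h0, h1, h2⟩ := hSYT a b c d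
  obtain ⟨g0, g1, g2⟩ := hCHX x
  have key : ∀ n : ℕ, ∑ i ∈ Finset.range (n + 1), sy n a b c d i i = uch n x ∧
      ∑ i ∈ Finset.range (n + 2), sy (n + 1) a b c d i i = uch (n + 1) x := by
    intro n
    induction n with
    | zero => exact ⟨by rw [h0, g0], by rw [h1, g1, htr]⟩
    | succ n ih =>
      refine ⟨ih.2, ?_⟩
      rw [h2 n, g2 n, ih.1, ih.2, htr, hdet, one_mul]
  exact (key n).1

theorem sy_scale (n : ℕ) (c sg T : ℝ) (hT : T ≠ 0) (i j : ℕ) :
    T ^ i * sy n c (sg * T) (-sg / T) c i j = T ^ j * sy n c sg (-sg) c i j := by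
  unfold sy
  obtain ⟨P, hP⟩ : ∃ P : Polynomial ℝ, P = (Polynomial.C c + Polynomial.C sg * Polynomial.X) ^ (n - i) *
    (Polynomial.C (-sg) + Polynomial.C c * Polynomial.X) ^ i := ⟨_, rfl⟩
  have h1 : P.comp (Polynomial.C T * Polynomial.X) =
      Polynomial.C (T ^ i) * ((Polynomial.C c + Polynomial.C (sg * T) * Polynomial.X) ^ (n - i) *
        (Polynomial.C (-sg / T) + Polynomial.C c * Polynomial.X) ^ i) := by
    rw [hP, Polynomial.mul_comp, Polynomial.pow_comp, Polynomial.pow_comp, Polynomial.add_comp,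
      Polynomial.add_comp, Polynomial.mul_comp, Polynomial.mul_comp, Polynomial.C_comp,
      Polynomial.C_comp, Polynomial.C_comp, Polynomial.X_comp]
    have e1 : Polynomial.C (-sg) + Polynomial.C c * (Polynomial.C T * Polynomial.X) =
        Polynomial.C T * (Polynomial.C (-sg / T) + Polynomial.C c * Polynomial.X) := by
      have : (-sg : ℝ) = T * (-sg / T) := by field_simp
      rw [mul_add, ← Polynomial.C_mul, ← this]
      ring
    have e2 : Polynomial.C sg * (Polynomial.C T * Polynomial.X) =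
        Polynomial.C (sg * T) * Polynomial.X := by
      rw [Polynomial.C_mul]
      ring
    rw [e1, e2, mul_pow, ← Polynomial.C_pow]
    ring
  have h2 := congrArg (fun p => Polynomial.coeff p j) h1
  rw [Polynomial.comp_C_mul_X_coeff, Polynomial.coeff_C_mul] at h2
  rw [← h2, hP]
  ring

end GPS_

theorem gps_proof (hSYA : Stmt_SYA) (hSYT : Stmt_SYT) (hSYB : Stmt_SYB) (hCHX : Stmt_CHX)
    (hGCF : Stmt_GCF) : Stmt_GPS := by
  intro n k s hk hs0 hs1
  obtain ⟨c, hc⟩ : ∃ c : ℝ, c = Real.sqrt (1 - s) := ⟨_, rfl⟩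
  obtain ⟨sg, hsg⟩ : ∃ sg : ℝ, sg = Real.sqrt s := ⟨_, rfl⟩
  have hc2 : c * c = 1 - s := by rw [hc]; exact Real.mul_self_sqrt (by linarith)
  have hs2 : sg * sg = s := by rw [hsg]; exact Real.mul_self_sqrt hs0
  obtain ⟨w, hw⟩ : ∃ w : ℕ → ℕ → ℝ, w = fun i j =>
    (n.choose i : ℝ) / (n.choose j : ℝ) * sy n c sg (-sg) c i j ^ 2 := ⟨_, rfl⟩
  have hw0 : ∀ i j, 0 ≤ w i j := by
    intro i j
    rw [hw]
    positivity
  obtain ⟨A, hA⟩ : ∃ A : ℕ → ℝ, A = fun l => ∑ i ∈ Finset.range (n + 1),
    ∑ j ∈ Finset.range (n + 1), if n + j - i = l then w i j else 0 := ⟨_, rfl⟩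
  have hmain := hGCF n s A (by
    intro T hT
    have hT0 : T ≠ 0 := hT.ne'
    have htr := GPS_.tr_eq hSYT hCHX (c * c + sg * T * sg) (c * -sg + sg * T * c)
      (-sg / T * c + c * sg) (-sg / T * -sg + c * c) (s * (1 - T) ^ 2 / T) (by
        have e1 : c * c + sg * T * sg + (-sg / T * -sg + c * c) =
            2 * (c * c) + (sg * sg) * T + (sg * sg) / T := by
          field_simp
          ring
        rw [e1, hc2, hs2]
        field_simp
        ring) (by
        have e2 : (c * c + sg * T * sg) * (-sg / T * -sg + c * c) -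
            (c * -sg + sg * T * c) * (-sg / T * c + c * sg) =
            (c * c + sg * sg) * (c * c + sg * sg) := by
          field_simp
          ring
        rw [e2, hc2, hs2]
        ring) n
    rw [← htr]
    have h1 : ∀ i ∈ Finset.range (n + 1),
        sy n (c * c + sg * T * sg) (c * -sg + sg * T * c) (-sg / T * c + c * sg)
          (-sg / T * -sg + c * c) i i =
        ∑ j ∈ Finset.range (n + 1), sy n c (sg * T) (-sg / T) c i j * sy n c (-sg) sg c j i := by
      intro i hi
      rw [Finset.mem_range] at hi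
      exact (hSYA n c (sg * T) (-sg / T) c c (-sg) sg c i i (by omega) (by omega)).symm
    rw [Finset.sum_congr rfl h1, Finset.mul_sum]
    have h2 : ∑ l ∈ Finset.range (2 * n + 1), A l * T ^ l =
        ∑ i ∈ Finset.range (n + 1), ∑ j ∈ Finset.range (n + 1), w i j * T ^ (n + j - i) := by
      rw [hA]
      simp only [Finset.sum_mul]
      rw [Finset.sum_comm]
      apply Finset.sum_congr rfl
      intro i hi
      rw [Finset.sum_comm]
      apply Finset.sum_congr rfl
      intro j hj
      rw [Finset.mem_range] at hi hj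
      rw [Finset.sum_eq_single (n + j - i)]
      · rw [if_pos rfl]
      · intro l _ hl
        rw [if_neg (fun h => hl h.symm), zero_mul]
      · intro hl
        exfalso
        apply hl
        rw [Finset.mem_range]
        omega
    rw [h2]
    apply Finset.sum_congr rfl
    intro i hi
    rw [Finset.mul_sum]
    apply Finset.sum_congr rfl
    intro j hj
    rw [Finset.mem_range] at hi hj
    have h3 := GPS_.sy_scale n c sg T hT0 i j
    have h4 := hSYB n c sg (-sg) c i j (by omega) (by omega)
    have hcj : (n.choose j : ℝ) ≠ 0 := by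
      exact_mod_cast (Nat.choose_pos (by omega : j ≤ n)).ne'
    have h5 : sy n c (-sg) sg c j i = (n.choose i : ℝ) / (n.choose j : ℝ) * sy n c sg (-sg) c i j := by
      rw [div_mul_eq_mul_div, h4]
      field_simp
    have h6 : T ^ i * T ^ (n + j - i) = T ^ n * T ^ j := by
      rw [← pow_add, ← pow_add]
      congr 1
      omega
    have hTi : T ^ i ≠ 0 := pow_ne_zero i hT0
    rw [h5, hw]
    apply mul_left_cancel₀ hTi
    calc T ^ i * (T ^ n * (sy n c (sg * T) (-sg / T) c i j *
          ((n.choose i : ℝ) / (n.choose j : ℝ) * sy n c sg (-sg) c i j)))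
        = T ^ n * (T ^ i * sy n c (sg * T) (-sg / T) c i j) *
          ((n.choose i : ℝ) / (n.choose j : ℝ) * sy n c sg (-sg) c i j) := by ring
      _ = (T ^ n * T ^ j) * ((n.choose i : ℝ) / (n.choose j : ℝ) * sy n c sg (-sg) c i j ^ 2) := by
          rw [h3]
          ring
      _ = T ^ i * ((n.choose i : ℝ) / (n.choose j : ℝ) * sy n c sg (-sg) c i j ^ 2 *
          T ^ (n + j - i)) := by
          rw [← h6]
          ring) k hk
  rw [← hmain, hA]
  apply Finset.sum_nonneg
  intro i _
  apply Finset.sum_nonneg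
  intro j _
  split_ifs
  · exact hw0 i j
  · exact le_refl 0

end Pool.Agent.DBR
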