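import Pool.Agent.DBR.Stmts

set_option autoImplicit false

/-!
Squad DBR, module GRO: growth of univalent functions.
-/

namespace Pool.Agent.DBR

open Complex Metric Set Filter MeasureTheory

open scoped Topology ComplexConjugate

open Pool.Agent.PSB (InS coeff psum Lam SelfU)

theorem gro_proof (hDBS : Stmt_DBS) : Stmt_GRO := by
  intro f r z hf hr1 hz
  have hr0 : 0 ≤ r := (norm_nonneg z).trans hz
  have h1 := hasSum_coeff hf.diff (w := z) (hz.trans_lt hr1)
  have h2 : HasSum (fun k : ℕ => (k : ℝ) * r ^ k) (r / (1 - r) ^ 2) :=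
    hasSum_coe_mul_geometric_of_norm_lt_one (by rwa [Real.norm_of_nonneg hr0])
  rw [← h1.tsum_eq, ← h2.tsum_eq]
  refine tsum_of_norm_bounded h2.summable.hasSum (fun k => ?_)
  rw [norm_mul, norm_pow]
  have h3 := hDBS f hf k
  gcongr

end Pool.Agent.DBR
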