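import Pool.Agent.DBR.Stmts
import Pool.Agent.PSB.FC
import Pool.Agent.CbRank.ConvHull

set_option autoImplicit false

/-!
Squad DBR, module HRG: the coefficients of Carathéodory functions are twice the moments of
probability measures on the circle.
-/

namespace Pool.Agent.DBR

open Complex Metric Set Filter MeasureTheory

open scoped Topology ComplexConjugate

open Pool.Agent.PSB (InS coeff psum Lam SelfU ee)

namespace HRG_

/-- The moment curve. -/
noncomputable def cur (n : ℕ) (κ : ℂ) : Fin n → ℂ := fun m => 2 * κ ^ ((m : ℕ) + 1)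

theorem cur_cont (n : ℕ) : Continuous (cur n) := by
  unfold cur
  fun_prop

/-- The image of the circle. -/
def K (n : ℕ) : Set (Fin n → ℂ) := cur n '' sphere (0 : ℂ) 1

theorem K_compact (n : ℕ) : IsCompact (K n) := (isCompact_sphere (0 : ℂ) 1).image (cur_cont n)

theorem hull_closed (n : ℕ) : IsClosed (convexHull ℝ (K n)) :=
  (CbRank.isCompact_convexHull (K_compact n)).isClosed

theorem norm_ee (θ : ℝ) : ‖ee θ‖ = 1 := by
  unfold ee
  exact Complex.norm_exp_ofReal_mul_I θ

theorem ee_cont : Continuous ee := Pool.Agent.PSB.FC_cont_ee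

theorem mem_r {p : ℂ → ℂ} (hp : Car p) (n : ℕ) {r : ℝ} (hr : 0 < r) (hr1 : r < 1) :
    (fun m : Fin n => (r : ℂ) ^ ((m : ℕ) + 1) * coeff p ((m : ℕ) + 1)) ∈ convexHull ℝ (K n) := by
  have hpi := Real.pi_pos
  set d : ℝ → ℝ := fun θ => (2 * Real.pi)⁻¹ * (p (r * ee θ)).re with hd
  have hmem : ∀ θ : ℝ, (r : ℂ) * ee θ ∈ ball (0 : ℂ) 1 := fun θ => Pool.Agent.PSB.FC_mem r θ hr hr1
  have hdc : Continuous d :=
    continuous_const.mul (Complex.continuous_re.comp (Pool.Agent.PSB.FC_cont p hp.diff r hr hr1))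
  have hd0 : ∀ θ, 0 ≤ d θ := fun θ => mul_nonneg (by positivity) (hp.re _ (hmem θ))
  set ν : Measure ℝ := (volume.restrict (Ioc 0 (2 * Real.pi))).withDensity
    (fun θ => ENNReal.ofReal (d θ)) with hν
  have hdi : Integrable d (volume.restrict (Ioc 0 (2 * Real.pi))) :=
    (hdc.integrableOn_Icc (a := 0) (b := 2 * Real.pi)).mono_set Ioc_subset_Icc_self
  have hpi2 : (0 : ℝ) ≤ 2 * Real.pi := by positivity
  have hfc := Pool.Agent.PSB.fc_proof p hp.diff r hr hr1
  have hmass : ∫ θ in Ioc 0 (2 * Real.pi), d θ = 1 := by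
    have h0 := hfc 0
    simp only [pow_zero, mul_one, if_true, hp.zero, Complex.one_re, Complex.ofReal_one] at h0
    have h1 : (((∫ θ in (0 : ℝ)..(2 * Real.pi), (p (r * ee θ)).re) : ℝ) : ℂ) =
        ((2 * Real.pi : ℝ) : ℂ) := by
      rw [← intervalIntegral.integral_ofReal]
      rw [h0]
      push_cast
      ring
    have h2 : (∫ θ in (0 : ℝ)..(2 * Real.pi), (p (r * ee θ)).re) = 2 * Real.pi := by
      exact_mod_cast h1
    rw [← intervalIntegral.integral_of_le hpi2, hd, intervalIntegral.integral_const_mul, h2]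
    field_simp
  have hprob : IsProbabilityMeasure ν := by
    constructor
    rw [hν, withDensity_apply _ MeasurableSet.univ, Measure.restrict_univ,
      ← ofReal_integral_eq_lintegral_ofReal hdi (Eventually.of_forall hd0), hmass,
      ENNReal.ofReal_one]
  set F : ℝ → Fin n → ℂ := fun θ => cur n (conj (ee θ)) with hF
  have hFc : Continuous F := (cur_cont n).comp (Complex.continuous_conj.comp ee_cont)
  have hFK : ∀ θ, F θ ∈ K n := fun θ => ⟨conj (ee θ), by simp [norm_ee], rfl⟩
  have hFb : ∀ θ, ‖F θ‖ ≤ 2 := by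
    intro θ
    rw [pi_norm_le_iff_of_nonneg (by norm_num)]
    intro m
    simp [hF, cur, norm_ee]
  have hFi : Integrable F ν :=
    Integrable.of_bound hFc.aestronglyMeasurable 2 (Eventually.of_forall hFb)
  have hm := (convex_convexHull ℝ (K n)).integral_mem (hull_closed n)
    (Eventually.of_forall fun θ => subset_convexHull ℝ _ (hFK θ)) hFi
  have he : ∫ θ, F θ ∂ν = fun m : Fin n => (r : ℂ) ^ ((m : ℕ) + 1) * coeff p ((m : ℕ) + 1) := by
    funext m
    have h1 := (ContinuousLinearMap.proj (R := ℝ) (φ := fun _ : Fin n => ℂ) m).integral_comp_comm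
      hFi
    simp only [ContinuousLinearMap.proj_apply] at h1
    rw [← h1, hν, integral_withDensity_eq_integral_toReal_smul (by fun_prop) (by simp),
      ← intervalIntegral.integral_of_le hpi2]
    have h2 : ∀ θ : ℝ, (ENNReal.ofReal (d θ)).toReal • F θ m =
        (Real.pi : ℂ)⁻¹ * ((((p (r * ee θ)).re : ℝ) : ℂ) * conj (ee θ) ^ ((m : ℕ) + 1)) := by
      intro θ
      rw [ENNReal.toReal_ofReal (hd0 θ), Complex.real_smul]
      simp only [hd, hF, cur]
      push_cast
      have : (Real.pi : ℂ) ≠ 0 := by exact_mod_cast hpi.ne'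
      field_simp
    simp only [h2]
    rw [intervalIntegral.integral_const_mul, hfc ((m : ℕ) + 1), if_neg (Nat.succ_ne_zero _)]
    have : (Real.pi : ℂ) ≠ 0 := by exact_mod_cast hpi.ne'
    field_simp
  rw [he] at hm
  exact hm

theorem mem_one {p : ℂ → ℂ} (hp : Car p) (n : ℕ) :
    (fun m : Fin n => coeff p ((m : ℕ) + 1)) ∈ convexHull ℝ (K n) := by
  have h1 : Tendsto (fun r : ℝ => fun m : Fin n => (r : ℂ) ^ ((m : ℕ) + 1) *
      coeff p ((m : ℕ) + 1)) (𝓝[<] 1) (𝓝 (fun m : Fin n => coeff p ((m : ℕ) + 1))) := by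
    rw [tendsto_pi_nhds]
    intro m
    have h : Tendsto (fun r : ℝ => (r : ℂ) ^ ((m : ℕ) + 1) * coeff p ((m : ℕ) + 1)) (𝓝 1)
        (𝓝 ((((1 : ℝ) : ℂ)) ^ ((m : ℕ) + 1) * coeff p ((m : ℕ) + 1))) :=
      ((Complex.continuous_ofReal.tendsto 1).pow _).mul tendsto_const_nhds
    have h2 := h.mono_left (nhdsWithin_le_nhds (s := Iio (1 : ℝ)))
    simpa using h2
  refine (hull_closed n).mem_of_tendsto h1 ?_
  filter_upwards [Ioo_mem_nhdsLT (zero_lt_one' ℝ)] with r hr
  exact mem_r hp n hr.1 hr.2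

end HRG_

open HRG_ in
/-- HRG: the coefficients of Carathéodory functions. -/
theorem hrg_proof : Stmt_HRG := by
  intro p hp n
  obtain ⟨ι, hι, w, z, hw, hs, hz, he⟩ := mem_convexHull_iff_exists_fintype.1 (mem_one hp n)
  choose κ hκ hκz using hz
  refine ⟨Fintype.card ι, fun i => w ((Fintype.equivFin ι).symm i),
    fun i => κ ((Fintype.equivFin ι).symm i), fun i => hw _, ?_, fun i => by simpa using hκ _, ?_⟩
  · rw [← hs]
    exact Equiv.sum_comp (Fintype.equivFin ι).symm w
  · intro m h1 hn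
    have h2 := congrFun he ⟨m - 1, by omega⟩
    simp only [Finset.sum_apply, Pi.smul_apply] at h2
    rw [Nat.sub_add_cancel h1] at h2
    rw [← h2, Equiv.sum_comp (Fintype.equivFin ι).symm (fun i => (w i : ℂ) * κ i ^ m),
      Finset.mul_sum]
    refine Finset.sum_congr rfl fun i _ => ?_
    rw [← hκz i, Complex.real_smul]
    simp only [cur]
    rw [Nat.sub_add_cancel h1]
    ring

end Pool.Agent.DBR
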