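import Pool.Agent.DBR.Stmts

set_option autoImplicit false

/-!
Univalent functions: HUR, limits of injective holomorphic functions (Hurwitz).
-/

namespace Pool.Agent.DBR

open Complex Metric Set Filter MeasureTheory

open scoped Topology ComplexConjugate

open Pool.Agent.PSB (InS coeff psum Lam SelfU)

theorem hur_proof : Stmt_HUR := by
  intro f F hd hinj hlim hder a ha b hb hab
  by_contra hne
  have hFd : DifferentiableOn ℂ F (ball 0 1) :=
    hlim.differentiableOn (Eventually.of_forall hd) isOpen_ball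
  have hFan : AnalyticOnNhd ℂ F (ball 0 1) := hFd.analyticOnNhd isOpen_ball
  have hGan : AnalyticOnNhd ℂ (fun z => F z - F b) (ball 0 1) := hFan.sub analyticOnNhd_const
  -- isolated zeros
  have hiso : ∀ᶠ z in 𝓝[≠] a, F z - F b ≠ 0 := by
    rcases (hGan a ha).eventually_eq_zero_or_eventually_ne_zero with h | h
    · exfalso
      have h1 : EqOn (fun z => F z - F b) 0 (ball 0 1) :=
        hGan.eqOn_zero_of_preconnected_of_eventuallyEq_zero
          (convex_ball (0 : ℂ) 1).isPreconnected ha h
      have h2 : F =ᶠ[𝓝 0] fun _ => F b := by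
        filter_upwards [ball_mem] with z hz
        have := h1 hz
        simpa [sub_eq_zero] using this
      rw [h2.deriv_eq] at hder
      simp at hder
    · exact h
  obtain ⟨s1, hs1, h1⟩ := Metric.mem_nhdsWithin_iff.1 hiso
  obtain ⟨s2, hs2, h2⟩ := Metric.isOpen_iff.1 (isOpen_ball : IsOpen (ball (0 : ℂ) 1)) a ha
  have hdab : 0 < dist b a := dist_pos.2 (Ne.symm hne)
  obtain ⟨s, hs0, hss⟩ : ∃ s : ℝ, 0 < s ∧ s < min (min s1 s2) (dist b a) :=
    exists_between (lt_min (lt_min hs1 hs2) hdab)
  have hs1' : s < s1 := hss.trans_le ((min_le_left _ _).trans (min_le_left _ _))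
  have hs2' : s < s2 := hss.trans_le ((min_le_left _ _).trans (min_le_right _ _))
  have hs3' : s < dist b a := hss.trans_le (min_le_right _ _)
  have hsub : closedBall a s ⊆ ball 0 1 := (closedBall_subset_ball hs2').trans h2
  have hbn : b ∉ closedBall a s := fun h => absurd (mem_closedBall.1 h) (not_le.2 hs3')
  -- lower bound on the sphere
  have hnz : ∀ z ∈ sphere a s, F z - F b ≠ 0 := by
    intro z hz
    refine h1 ⟨?_, ?_⟩
    · rw [mem_ball, mem_sphere.1 hz]; exact hs1'
    · rintro rfl
      rw [mem_sphere, dist_self] at hz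
      exact hs0.ne hz
  have hcont : ContinuousOn (fun z => ‖F z - F b‖) (sphere a s) :=
    ((hFd.continuousOn.mono (sphere_subset_closedBall.trans hsub)).sub continuousOn_const).norm
  obtain ⟨z0, hz0, hmin⟩ := (isCompact_sphere a s).exists_isMinOn
    (NormedSpace.sphere_nonempty.2 hs0.le) hcont
  have hm : 0 < ‖F z0 - F b‖ := norm_pos_iff.2 (hnz z0 hz0)
  set m : ℝ := ‖F z0 - F b‖ with hmdef
  have hge : ∀ z ∈ sphere a s, m ≤ ‖F z - F b‖ := fun z hz => hmin hz
  -- uniform convergence
  have hunif : TendstoUniformlyOn f F atTop (closedBall a s) :=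
    (tendstoLocallyUniformlyOn_iff_forall_isCompact isOpen_ball).1 hlim _ hsub
      (isCompact_closedBall a s)
  have hev1 : ∀ᶠ n in atTop, ∀ z ∈ closedBall a s, dist (F z) (f n z) < m / 8 :=
    Metric.tendstoUniformlyOn_iff.1 hunif (m / 8) (by positivity)
  have hev2 : ∀ᶠ n in atTop, dist (f n b) (F b) < m / 8 :=
    (Metric.tendsto_nhds.1 (hlim.tendsto_at hb)) (m / 8) (by positivity)
  obtain ⟨n, hn1, hn2⟩ := (hev1.and hev2).exists
  rw [dist_eq_norm] at hn2
  have hGd : DifferentiableOn ℂ (fun z => f n z - f n b) (ball 0 1) := (hd n).sub_const _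
  have hGne : ∀ z ∈ closedBall a s, f n z - f n b ≠ 0 := by
    intro z hz h
    have := hinj n (hsub hz) hb (sub_eq_zero.1 h)
    exact hbn (this ▸ hz)
  have hinvd : DiffContOnCl ℂ (fun z => (f n z - f n b)⁻¹) (ball a s) := by
    have h3 : DiffContOnCl ℂ (fun z => f n z - f n b) (ball a s) := by
      refine (hGd.mono ?_).diffContOnCl
      rw [closure_ball _ hs0.ne']
      exact hsub
    refine h3.inv fun z hz => hGne z ?_
    rwa [closure_ball _ hs0.ne'] at hz
  have hbound : ∀ z ∈ frontier (ball a s), ‖(f n z - f n b)⁻¹‖ ≤ 2 / m := by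
    intro z hz
    rw [frontier_ball _ hs0.ne'] at hz
    have h3 := hge z hz
    have h4 := hn1 z (sphere_subset_closedBall hz)
    rw [dist_eq_norm] at h4
    have h5 : ‖F z - F b‖ ≤ ‖F z - f n z‖ + ‖f n z - f n b‖ + ‖f n b - F b‖ := by
      have : F z - F b = (F z - f n z) + (f n z - f n b) + (f n b - F b) := by ring
      rw [this]
      exact (norm_add_le _ _).trans (add_le_add_left (norm_add_le _ _) _)
    have h6 : m / 2 ≤ ‖f n z - f n b‖ := by linarith
    rw [norm_inv, inv_le_comm₀ (by linarith) (by positivity), inv_div]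
    exact h6
  have h7 := Complex.norm_le_of_forall_mem_frontier_norm_le isBounded_ball hinvd hbound
    (z := a) (subset_closure (mem_ball_self hs0))
  have h8 : ‖f n a - f n b‖ ≤ m / 4 := by
    have h9 := hn1 a (mem_closedBall_self hs0.le)
    rw [dist_eq_norm, norm_sub_rev] at h9
    have h10 : f n a - f n b = (f n a - F a) + (F b - f n b) := by rw [hab]; ring
    rw [h10]
    rw [norm_sub_rev] at hn2
    refine (norm_add_le _ _).trans ?_
    linarith
  have hpos : 0 < ‖f n a - f n b‖ := norm_pos_iff.2 (hGne a (mem_closedBall_self hs0.le))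
  rw [norm_inv, inv_le_comm₀ hpos (by positivity), inv_div] at h7
  linarith

end Pool.Agent.DBR
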