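import Pool.Agent.DBR.Stmts

/-!
The inequality of Jenkins and Tammi (module JTT).
-/

set_option autoImplicit false

namespace Pool.Agent.DBR

open Complex Metric Set Filter MeasureTheory

open scoped Topology ComplexConjugate

open Pool.Agent.PSB (InS coeff psum Lam SelfU)

namespace JTT_

/-- the right hand side as a function of time -/
noncomputable def II (M σ t : ℝ) : ℝ :=
  if t ≤ -Real.log σ then
    (Real.exp (-t) ^ 2 - σ ^ 2) + 4 * σ ^ 2 * (-Real.log σ - t) + 8 * σ * (σ - 1 / M) - (σ ^ 2 - 1 / M ^ 2)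
  else 8 * σ * (Real.exp (-t) - 1 / M) - (Real.exp (-t) ^ 2 - 1 / M ^ 2)

/-- its derivative with the opposite sign -/
noncomputable def hh (σ E : ℝ) : ℝ :=
  if σ ≤ E then 2 * E ^ 2 + 4 * σ ^ 2 else 8 * σ * E - 2 * E ^ 2

theorem exp_facts (x : ℝ) (h0 : 0 ≤ x) (h1 : x ≤ 1) :
    0 < Real.exp (-x) ∧ Real.exp (-x) ≤ 1 ∧ 1 - x ≤ Real.exp (-x) ∧ Real.exp (-x) ≤ 1 - x + x ^ 2 := by
  refine ⟨Real.exp_pos _, Real.exp_le_one_iff.mpr (by linarith), ?_, ?_⟩
  · have := Real.add_one_le_exp (-x)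
    linarith
  · have h := Real.abs_exp_sub_one_sub_id_le (x := -x) (by rw [abs_neg, abs_of_nonneg h0]; exact h1)
    have h2 := (abs_le.mp h).2
    nlinarith

theorem kernel (σ E c : ℝ) (hσ : 0 ≤ σ) (hE : 0 ≤ E) (h1 : -1 ≤ c) (h2 : c ≤ 1) :
    -(2 * E ^ 2 * (2 * c ^ 2 - 1)) - 8 * σ * E * c ≤ hh σ E := by
  unfold hh
  split_ifs with h
  · nlinarith [sq_nonneg (σ + c * E)]
  · have h3 : 0 ≤ 2 * σ - E * (1 - c) := by nlinarith
    have h4 : 0 ≤ E * (1 + c) := by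
      apply mul_nonneg hE
      linarith
    nlinarith [mul_nonneg h4 h3]

theorem caseC (E z y δ ε : ℝ) (hE0 : 0 ≤ E) (hE1 : E ≤ 1) (hδ0 : 0 ≤ δ) (hδ : δ ≤ ε) (hε : ε ≤ 1)
    (hz0 : 0 < z) (hz1 : z ≤ 1) (hz2 : 1 - δ ≤ z) (hz3 : z ≤ 1 - δ + δ ^ 2)
    (hy0 : 0 < y) (hy2 : 1 - ε ≤ y) (hy3 : y ≤ 1 - ε + ε ^ 2) :
    -(40 * ε ^ 2) ≤ E ^ 2 * (1 + 6 * z ^ 2 - 8 * (z * y) + y ^ 2 + 4 * z ^ 2 * δ - 2 * ε - 4 * ε * z ^ 2) := by
  have hε0 : 0 ≤ ε := hδ0.trans hδ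
  have hδ2 : δ ^ 2 ≤ ε ^ 2 := by nlinarith
  have hδε : δ * ε ≤ ε ^ 2 := by nlinarith
  have a1 : 1 - 2 * δ ≤ z ^ 2 := by nlinarith
  have a2 : 1 - 2 * ε ≤ y ^ 2 := by nlinarith
  have a3 : z * y ≤ 1 - δ - ε + 4 * ε ^ 2 := by
    have b1 : z * y ≤ (1 - δ + δ ^ 2) * (1 - ε + ε ^ 2) := by
      apply mul_le_mul hz3 hy3 hy0.le
      nlinarith
    have b2 : δ ^ 2 * ε ^ 2 ≤ ε ^ 2 := by
      have : δ ^ 2 ≤ 1 := by nlinarith
      nlinarith [sq_nonneg ε]
    have b3 : 0 ≤ δ * ε ^ 2 := by positivity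
    have b4 : 0 ≤ δ ^ 2 * ε := by positivity
    nlinarith
  have a4 : δ * (1 - 2 * δ) ≤ z ^ 2 * δ := by nlinarith
  have a5 : ε * z ^ 2 ≤ ε := by
    have : z ^ 2 ≤ 1 := by nlinarith
    nlinarith
  have a6 : -(40 * ε ^ 2) ≤ 1 + 6 * z ^ 2 - 8 * (z * y) + y ^ 2 + 4 * z ^ 2 * δ - 2 * ε - 4 * ε * z ^ 2 := by
    nlinarith
  have a7 : E ^ 2 ≤ 1 := by nlinarith
  have a8 : 0 ≤ E ^ 2 := sq_nonneg E
  have a9 : 0 ≤ 40 * ε ^ 2 := by positivity
  calc -(40 * ε ^ 2) ≤ -(E ^ 2 * (40 * ε ^ 2)) := by nlinarith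
    _ = E ^ 2 * (-(40 * ε ^ 2)) := by ring
    _ ≤ _ := mul_le_mul_of_nonneg_left a6 a8

theorem II_step (M σ t ε : ℝ) (hσ0 : 0 < σ) (hσ1 : σ ≤ 1) (ht : 0 ≤ t) (hε0 : 0 < ε) (hε1 : ε ≤ 1) :
    II M σ (t + ε) + ε * hh σ (Real.exp (-t)) ≤ II M σ t + 40 * ε ^ 2 := by
  have hE0 : 0 < Real.exp (-t) := Real.exp_pos _
  have hE1 : Real.exp (-t) ≤ 1 := Real.exp_le_one_iff.mpr (by linarith)
  obtain ⟨hy0, hy1, hy2, hy3⟩ := exp_facts ε hε0.le hε1
  have hEy : Real.exp (-(t + ε)) = Real.exp (-t) * Real.exp (-ε) := by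
    rw [← Real.exp_add]
    congr 1
    ring
  have hiff : t ≤ -Real.log σ ↔ σ ≤ Real.exp (-t) := by
    rw [← Real.log_le_iff_le_exp hσ0]
    constructor <;> intro h <;> linarith
  set E := Real.exp (-t) with hEdef
  set y := Real.exp (-ε) with hydef
  have hσσ : 0 ≤ σ ^ 2 := sq_nonneg σ
  have hEE : E ^ 2 ≤ 1 := by nlinarith
  have hEE0 : 0 ≤ E ^ 2 := sq_nonneg E
  have hεε : 0 ≤ ε ^ 2 := sq_nonneg ε
  have hyy : y ^ 2 ≤ 1 - 2 * ε + 3 * ε ^ 2 := by nlinarith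
  have hyy' : 1 - 2 * ε ≤ y ^ 2 := by nlinarith
  by_cases h1 : t ≤ -Real.log σ
  · have h1' := hiff.mp h1
    by_cases h2 : t + ε ≤ -Real.log σ
    · simp only [II, hh, if_pos h1, if_pos h1', if_pos h2, hEy]
      have : E ^ 2 * y ^ 2 ≤ E ^ 2 * (1 - 2 * ε + 3 * ε ^ 2) := mul_le_mul_of_nonneg_left hyy hEE0
      nlinarith
    · simp only [II, hh, if_pos h1, if_pos h1', if_neg h2, hEy]
      push Not at h2
      have hδ0 : 0 ≤ -Real.log σ - t := by linarith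
      have hδ1 : -Real.log σ - t ≤ ε := by linarith
      obtain ⟨hz0, hz1, hz2, hz3⟩ := exp_facts (-Real.log σ - t) hδ0 (by linarith)
      have hzE : σ = E * Real.exp (-(-Real.log σ - t)) := by
        rw [hEdef, ← Real.exp_add]
        have : -t + -(-Real.log σ - t) = Real.log σ := by ring
        rw [this, Real.exp_log hσ0]
      set δ := -Real.log σ - t with hδdef
      set z := Real.exp (-δ) with hzdef
      have hc := caseC E z y δ ε hE0.le hE1 hδ0 hδ1 hε1 hz0 hz1 hz2 hz3 hy0 hy2 hy3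
      clear_value δ z y E
      subst hzE
      nlinarith [hc]
  · have h1' : ¬ σ ≤ E := fun h => h1 (hiff.mpr h)
    have h2 : ¬ t + ε ≤ -Real.log σ := fun h => h1 (by linarith)
    simp only [II, hh, if_neg h1, if_neg h1', if_neg h2, hEy]
    have e1 : 0 ≤ σ * E := by positivity
    have e1' : σ * E ≤ 1 := by nlinarith
    have e2 : σ * E * y ≤ σ * E * (1 - ε + ε ^ 2) := mul_le_mul_of_nonneg_left hy3 e1
    have e3 : E ^ 2 * (1 - 2 * ε) ≤ E ^ 2 * y ^ 2 := mul_le_mul_of_nonneg_left hyy' hEE0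
    have e4 : σ * E * ε ^ 2 ≤ ε ^ 2 := by nlinarith
    nlinarith

theorem moment_bound (σ E : ℝ) (ω : ℂ) (hσ : 0 ≤ σ) (hE : 0 ≤ E) (hω : ‖ω‖ = 1) (q : ℕ → ℂ)
    (hq : Mom 2 q) :
    -(E ^ 2 * (ω ^ 2 * q 2).re) - 4 * σ * E * (ω * q 1).re ≤ hh σ E := by
  obtain ⟨N, w, κ, hw, hsum, hκ, hm⟩ := hq
  have h1 := hm 1 le_rfl (by norm_num)
  have h2 := hm 2 (by norm_num) le_rfl
  have e2 : (ω ^ 2 * q 2).re = ∑ i, w i * (2 * (2 * (ω * κ i).re ^ 2 - 1)) := by
    rw [h2]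
    have : ω ^ 2 * (2 * ∑ i, (w i : ℂ) * κ i ^ 2) = ∑ i, (w i : ℂ) * (2 * (ω * κ i) ^ 2) := by
      rw [Finset.mul_sum, Finset.mul_sum]
      refine Finset.sum_congr rfl fun i _ => ?_
      ring
    rw [this, Complex.re_sum]
    refine Finset.sum_congr rfl fun i _ => ?_
    rw [Complex.re_ofReal_mul]
    congr 1
    have hn : ‖ω * κ i‖ = 1 := by rw [norm_mul, hω, hκ i, mul_one]
    have hn2 : (ω * κ i).re ^ 2 + (ω * κ i).im ^ 2 = 1 := by
      have := Complex.sq_norm (ω * κ i)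
      rw [hn, Complex.normSq_apply] at this
      nlinarith
    have h3 : (2 * (ω * κ i) ^ 2).re = 2 * ((ω * κ i).re ^ 2 - (ω * κ i).im ^ 2) := by
      rw [pow_two (ω * κ i)]
      have : (2 : ℂ) = ((2 : ℝ) : ℂ) := by norm_num
      rw [this, Complex.re_ofReal_mul, Complex.mul_re]
      ring
    rw [h3]
    nlinarith
  have e1 : (ω * q 1).re = ∑ i, w i * (2 * (ω * κ i).re) := by
    rw [h1]
    have : ω * (2 * ∑ i, (w i : ℂ) * κ i ^ 1) = ∑ i, (w i : ℂ) * (((2 : ℝ) : ℂ) * (ω * κ i)) := by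
      rw [Finset.mul_sum, Finset.mul_sum]
      refine Finset.sum_congr rfl fun i _ => ?_
      push_cast
      ring
    rw [this, Complex.re_sum]
    refine Finset.sum_congr rfl fun i _ => ?_
    rw [Complex.re_ofReal_mul, Complex.re_ofReal_mul]
  rw [e1, e2, Finset.mul_sum, Finset.mul_sum, ← Finset.sum_neg_distrib, ← Finset.sum_sub_distrib]
  calc _ = ∑ i, w i * (-(2 * E ^ 2 * (2 * (ω * κ i).re ^ 2 - 1)) - 8 * σ * E * (ω * κ i).re) := by
        refine Finset.sum_congr rfl fun i _ => ?_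
        ring
    _ ≤ ∑ i, w i * hh σ E := by
        refine Finset.sum_le_sum fun i _ => mul_le_mul_of_nonneg_left ?_ (hw i)
        have hn : ‖ω * κ i‖ = 1 := by rw [norm_mul, hω, hκ i, mul_one]
        have hre := Complex.abs_re_le_norm (ω * κ i)
        rw [hn] at hre
        exact kernel σ E _ hσ hE (abs_le.mp hre).1 (abs_le.mp hre).2
    _ = hh σ E := by rw [← Finset.sum_mul, hsum, one_mul]

/-- the functional -/
noncomputable def PP (M σ : ℝ) (ω : ℂ) (t x : ℝ) (f : ℂ → ℂ) : Prop :=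
  Real.exp (-t) ^ 2 * (ω ^ 2 * (coeff f 3 - coeff f 2 ^ 2)).re +
    4 * σ * Real.exp (-t) * (ω * coeff f 2).re ≤ II M σ t + x

theorem re_mul_le (ω w : ℂ) (hω : ‖ω‖ = 1) : |(ω * w).re| ≤ ‖w‖ := by
  have := Complex.abs_re_le_norm (ω * w)
  rwa [norm_mul, hω, one_mul] at this

end JTT_

open JTT_ in
theorem jtt_proof (hREC : Stmt_REC) (hAST : Stmt_AST) (hHRG : Stmt_HRG) (hQMO : Stmt_QMO) : Stmt_JTT := by
  intro M σ f ω hf hω hσM hσ1
  have hM : 1 ≤ M := one_le_of_inS hf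
  have hM0 : 0 < M := by linarith
  have hσ0 : 0 < σ := lt_of_lt_of_le (by positivity) hσM
  have hω2 : ‖ω ^ 2‖ = 1 := by rw [norm_pow, hω, one_pow]
  obtain ⟨C₀, hC₀, hast⟩ := hAST 3 M
  obtain ⟨C₁, hC₁⟩ : ∃ C₁ : ℝ, C₁ = C₀ + (M + 2) ^ 2 + 2 * (M + 2) * C₀ + C₀ ^ 2 := ⟨_, rfl⟩
  obtain ⟨C, hC⟩ : ∃ C : ℝ, C = 3 * (M + M ^ 2) + 4 * M + C₁ + 4 * C₀ + 40 := ⟨_, rfl⟩
  have hC₁0 : 0 ≤ C₁ := by rw [hC₁]; positivity
  have hC0 : 0 ≤ C := by rw [hC]; positivity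
  have key : ∀ x : ℝ, 0 < x → PP M σ ω 0 x f := by
    refine hREC M C (PP M σ ω) hM hC0 ?_ ?_ ?_ f hf
    · intro t x x' g hx hP
      unfold PP at hP ⊢
      linarith
    · intro ε t x f g p hε0 hε1 ht htM hx hf hg hst hP
      unfold PP at hP ⊢
      have hE0 : 0 < Real.exp (-t) := Real.exp_pos _
      have hE1 : Real.exp (-t) ≤ 1 := Real.exp_le_one_iff.mpr (by linarith)
      obtain ⟨hy0, hy1, hy2, hy3⟩ := exp_facts ε hε0.le hε1
      have hEy : Real.exp (-(t + ε)) = Real.exp (-t) * Real.exp (-ε) := by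
        rw [← Real.exp_add]
        congr 1
        ring
      have hII := II_step M σ t ε hσ0 hσ1 ht hε0 hε1
      have hmom := moment_bound σ (Real.exp (-t)) ω hσ0.le hE0.le hω _ (hHRG p hst.car 2)
      have h2 := hast ε f g p hε0 hε1 hf hg hst 2 (by norm_num) (by norm_num)
      have h3 := hast ε f g p hε0 hε1 hf hg hst 3 (by norm_num) (by norm_num)
      have hg1 : coeff g 1 = 1 := by rw [coeff_one, hg.one]
      have s2 : ∑ j ∈ Finset.Ico (1 : ℕ) 2, (j : ℂ) * coeff g j * coeff p (2 - j) = coeff p 1 := by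
        simp [hg1]
      have s3 : ∑ j ∈ Finset.Ico (1 : ℕ) 3, (j : ℂ) * coeff g j * coeff p (3 - j) =
          coeff p 2 + 2 * coeff g 2 * coeff p 1 := by
        rw [Finset.sum_Ico_succ_top (by norm_num), Finset.sum_Ico_succ_top (by norm_num)]
        simp [hg1]
      rw [s2] at h2
      rw [s3] at h3
      have hb2 := norm_coeff_le_of_inS hg 2
      have hb3 := norm_coeff_le_of_inS hg 3
      have hp1 := ((hQMO p hst.car).2.2 1 le_rfl).1
      have hp2 := ((hQMO p hst.car).2.2 2 (by norm_num)).1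
      obtain ⟨R₂, hR₂⟩ : ∃ R₂ : ℂ, R₂ = coeff f 2 - (coeff g 2 * (1 - ε) - ε * coeff p 1) := ⟨_, rfl⟩
      obtain ⟨R₃, hR₃⟩ : ∃ R₃ : ℂ, R₃ = coeff f 3 - (coeff g 3 * (1 - 2 * ε) - ε * coeff p 2
        - 2 * ε * coeff g 2 * coeff p 1) := ⟨_, rfl⟩
      have hR₂n : ‖R₂‖ ≤ C₀ * ε ^ 2 := by
        rw [hR₂]
        refine le_trans (le_of_eq ?_) h2
        congr 1
        push_cast
        ring
      have hR₃n : ‖R₃‖ ≤ C₀ * ε ^ 2 := by
        rw [hR₃]
        refine le_trans (le_of_eq ?_) h3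
        congr 1
        push_cast
        ring
      have ha2 : coeff f 2 = coeff g 2 * (1 - ε) - ε * coeff p 1 + R₂ := by rw [hR₂]; ring
      have ha3 : coeff f 3 = coeff g 3 * (1 - 2 * ε) - ε * coeff p 2
        - 2 * ε * coeff g 2 * coeff p 1 + R₃ := by rw [hR₃]; ring
      obtain ⟨X, hX⟩ : ∃ X : ℂ, X = coeff g 2 * (1 - ε) - ε * coeff p 1 := ⟨_, rfl⟩
      obtain ⟨W, hW⟩ : ∃ W : ℂ, W = R₃ - (ε : ℂ) ^ 2 * (coeff g 2 + coeff p 1) ^ 2 - 2 * X * R₂ - R₂ ^ 2 := ⟨_, rfl⟩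
      have hA : coeff f 3 - coeff f 2 ^ 2 = (coeff g 3 - coeff g 2 ^ 2) * (1 - 2 * ε) - ε * coeff p 2 + W := by
        rw [hW, hX, ha2, ha3]
        ring
      have hεn : ‖(ε : ℂ)‖ = ε := by rw [Complex.norm_real, Real.norm_of_nonneg hε0.le]
      have hXn : ‖X‖ ≤ M + 2 := by
        rw [hX]
        refine (norm_sub_le _ _).trans ?_
        rw [norm_mul, norm_mul, hεn]
        have h1 : ‖(1 : ℂ) - ε‖ ≤ 1 := by
          have : (1 : ℂ) - ε = ((1 - ε : ℝ) : ℂ) := by push_cast; ring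
          rw [this, Complex.norm_real, Real.norm_of_nonneg (by linarith)]
          linarith
        have h2 : ‖coeff g 2‖ * ‖(1 : ℂ) - ε‖ ≤ M * 1 :=
          mul_le_mul hb2 h1 (norm_nonneg _) hM0.le
        have h3 : ε * ‖coeff p 1‖ ≤ 1 * 2 := mul_le_mul hε1 hp1 (norm_nonneg _) (by norm_num)
        linarith
      have hε2 : ε ^ 2 ≤ 1 := by nlinarith
      have hε2' : 0 ≤ ε ^ 2 := sq_nonneg ε
      have hR₂1 : ‖R₂‖ ≤ C₀ := hR₂n.trans (by nlinarith)
      have hWn : ‖W‖ ≤ C₁ * ε ^ 2 := by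
        rw [hW]
        have n1 : ‖(ε : ℂ) ^ 2 * (coeff g 2 + coeff p 1) ^ 2‖ ≤ ε ^ 2 * (M + 2) ^ 2 := by
          rw [norm_mul, norm_pow, norm_pow, hεn]
          refine mul_le_mul_of_nonneg_left ?_ hε2'
          refine pow_le_pow_left₀ (norm_nonneg _) ?_ 2
          refine (norm_add_le _ _).trans ?_
          linarith
        have n2 : ‖2 * X * R₂‖ ≤ 2 * (M + 2) * (C₀ * ε ^ 2) := by
          rw [norm_mul, norm_mul]
          have : ‖(2 : ℂ)‖ = 2 := by norm_num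
          rw [this]
          refine mul_le_mul ?_ hR₂n (norm_nonneg _) (by positivity)
          linarith
        have n3 : ‖R₂ ^ 2‖ ≤ C₀ * (C₀ * ε ^ 2) := by
          rw [pow_two, norm_mul]
          exact mul_le_mul hR₂1 hR₂n (norm_nonneg _) hC₀
        calc ‖R₃ - (ε : ℂ) ^ 2 * (coeff g 2 + coeff p 1) ^ 2 - 2 * X * R₂ - R₂ ^ 2‖
            ≤ ‖R₃‖ + ‖(ε : ℂ) ^ 2 * (coeff g 2 + coeff p 1) ^ 2‖ + ‖2 * X * R₂‖ + ‖R₂ ^ 2‖ := by
              refine (norm_sub_le _ _).trans (add_le_add ?_ le_rfl)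
              refine (norm_sub_le _ _).trans (add_le_add ?_ le_rfl)
              exact norm_sub_le _ _
          _ ≤ C₁ * ε ^ 2 := by
              rw [hC₁]
              nlinarith
      -- real parts
      have hre2 : (ω * coeff f 2).re = (1 - ε) * (ω * coeff g 2).re - ε * (ω * coeff p 1).re + (ω * R₂).re := by
        have : ω * coeff f 2 = ((1 - ε : ℝ) : ℂ) * (ω * coeff g 2) - (ε : ℂ) * (ω * coeff p 1) + ω * R₂ := by
          rw [ha2]
          push_cast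
          ring
        rw [this, Complex.add_re, Complex.sub_re, Complex.re_ofReal_mul, Complex.re_ofReal_mul]
      have hre3 : (ω ^ 2 * (coeff f 3 - coeff f 2 ^ 2)).re = (1 - 2 * ε) * (ω ^ 2 * (coeff g 3 - coeff g 2 ^ 2)).re
          - ε * (ω ^ 2 * coeff p 2).re + (ω ^ 2 * W).re := by
        have : ω ^ 2 * (coeff f 3 - coeff f 2 ^ 2) = ((1 - 2 * ε : ℝ) : ℂ) * (ω ^ 2 * (coeff g 3 - coeff g 2 ^ 2))
            - (ε : ℂ) * (ω ^ 2 * coeff p 2) + ω ^ 2 * W := by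
          rw [hA]
          push_cast
          ring
        rw [this, Complex.add_re, Complex.sub_re, Complex.re_ofReal_mul, Complex.re_ofReal_mul]
      have rW := (abs_le.mp ((re_mul_le (ω ^ 2) W hω2).trans hWn)).2
      have rR := (abs_le.mp ((re_mul_le ω R₂ hω).trans hR₂n)).2
      have rB := abs_le.mp ((re_mul_le ω (coeff g 2) hω).trans hb2)
      have hbb : ‖coeff g 3 - coeff g 2 ^ 2‖ ≤ M + M ^ 2 := by
        refine (norm_sub_le _ _).trans (add_le_add hb3 ?_)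
        rw [norm_pow]
        exact pow_le_pow_left₀ (norm_nonneg _) hb2 2
      have rA := abs_le.mp ((re_mul_le (ω ^ 2) (coeff g 3 - coeff g 2 ^ 2) hω2).trans hbb)
      rw [hEy] at hP
      rw [hre2, hre3]
      set E := Real.exp (-t)
      set y := Real.exp (-ε)
      set A := (ω ^ 2 * (coeff g 3 - coeff g 2 ^ 2)).re
      set B := (ω * coeff g 2).re
      set q1 := (ω * coeff p 1).re
      set q2 := (ω ^ 2 * coeff p 2).re
      set w2 := (ω ^ 2 * W).re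
      set r2 := (ω * R₂).re
      clear_value E y A B q1 q2 w2 r2
      have hEE : E ^ 2 ≤ 1 := by nlinarith
      have hEE0 : 0 ≤ E ^ 2 := sq_nonneg E
      have hyy : |y ^ 2 - (1 - 2 * ε)| ≤ 3 * ε ^ 2 := by
        rw [abs_le]
        constructor <;> nlinarith
      have hyy1 : |y - (1 - ε)| ≤ ε ^ 2 := by
        rw [abs_le]
        constructor <;> nlinarith
      have t1 : E ^ 2 * ((1 - 2 * ε) * A) ≤ E ^ 2 * y ^ 2 * A + 3 * ε ^ 2 * (M + M ^ 2) := by
        have hAabs : |A| ≤ M + M ^ 2 := abs_le.mpr rA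
        have : -(E ^ 2 * ((y ^ 2 - (1 - 2 * ε)) * A)) ≤ 3 * ε ^ 2 * (M + M ^ 2) := by
          refine (neg_le_abs _).trans ?_
          rw [abs_mul, abs_mul, abs_of_nonneg hEE0]
          calc E ^ 2 * (|y ^ 2 - (1 - 2 * ε)| * |A|) ≤ 1 * (3 * ε ^ 2 * (M + M ^ 2)) := by
                refine mul_le_mul hEE ?_ (by positivity) (by norm_num)
                exact mul_le_mul hyy hAabs (abs_nonneg _) (by positivity)
            _ = _ := one_mul _
        linarith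
      have t2 : 4 * σ * E * ((1 - ε) * B) ≤ 4 * σ * (E * y) * B + 4 * ε ^ 2 * M := by
        have hBabs : |B| ≤ M := abs_le.mpr rB
        have hσE : σ * E ≤ 1 := by nlinarith
        have hσE0 : 0 ≤ σ * E := by positivity
        have : -(4 * (σ * E) * ((y - (1 - ε)) * B)) ≤ 4 * ε ^ 2 * M := by
          refine (neg_le_abs _).trans ?_
          rw [abs_mul (4 * (σ * E)), abs_mul (y - (1 - ε)), abs_of_nonneg (by positivity : (0 : ℝ) ≤ 4 * (σ * E))]
          calc 4 * (σ * E) * (|y - (1 - ε)| * |B|) ≤ 4 * (ε ^ 2 * M) := by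
                refine mul_le_mul (by linarith) ?_ (by positivity) (by norm_num)
                exact mul_le_mul hyy1 hBabs (abs_nonneg _) (by positivity)
            _ = _ := by ring
        linarith
      have t3 : E ^ 2 * w2 ≤ C₁ * ε ^ 2 := by
        calc E ^ 2 * w2 ≤ E ^ 2 * (C₁ * ε ^ 2) := mul_le_mul_of_nonneg_left rW hEE0
          _ ≤ 1 * (C₁ * ε ^ 2) := mul_le_mul_of_nonneg_right hEE (by positivity)
          _ = _ := one_mul _
      have t4 : 4 * σ * E * r2 ≤ 4 * C₀ * ε ^ 2 := by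
        have hσE : σ * E ≤ 1 := by nlinarith
        have hσE0 : 0 ≤ σ * E := by positivity
        calc 4 * σ * E * r2 = 4 * ((σ * E) * r2) := by ring
          _ ≤ 4 * ((σ * E) * (C₀ * ε ^ 2)) := by
              have := mul_le_mul_of_nonneg_left rR hσE0
              linarith
          _ ≤ 4 * (1 * (C₀ * ε ^ 2)) := by
              have := mul_le_mul_of_nonneg_right hσE (by positivity : 0 ≤ C₀ * ε ^ 2)
              linarith
          _ = _ := by ring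
      have t5 : ε * (-(E ^ 2 * q2) - 4 * σ * E * q1) ≤ ε * hh σ E := mul_le_mul_of_nonneg_left hmom hε0.le
      have t6 : 0 ≤ C * ε * x := by positivity
      rw [hC] at t6 ⊢
      nlinarith
    · intro g hg
      unfold PP
      have h2 : coeff g 2 = 0 := by rw [coeff_of_inS_one hg]; simp
      have h3 : coeff g 3 = 0 := by rw [coeff_of_inS_one hg]; simp
      rw [h2, h3]
      have hexp : Real.exp (-Real.log M) = 1 / M := by
        rw [Real.exp_neg, Real.exp_log hM0, one_div]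
      unfold II
      rw [hexp]
      split_ifs with h
      · have hσM' : σ ≤ 1 / M := by
          have : Real.log M ≤ Real.log σ⁻¹ := by rw [Real.log_inv]; exact h
          have h4 := (Real.log_le_log_iff hM0 (inv_pos.mpr hσ0)).mp this
          rw [le_div_iff₀ hM0]
          calc σ * M ≤ σ * σ⁻¹ := mul_le_mul_of_nonneg_left h4 hσ0.le
            _ = 1 := mul_inv_cancel₀ hσ0.ne'
        have hσeq : σ = 1 / M := le_antisymm hσM' hσM
        have hlog : -Real.log σ - Real.log M = 0 := by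
          rw [hσeq, one_div, Real.log_inv]
          ring
        rw [hlog, hσeq]
        simp
      · simp
  have hfin : Real.exp (-(0 : ℝ)) ^ 2 * (ω ^ 2 * (coeff f 3 - coeff f 2 ^ 2)).re +
    4 * σ * Real.exp (-(0 : ℝ)) * (ω * coeff f 2).re ≤ II M σ 0 := le_of_forall_pos_le_add key
  have hlog : (0 : ℝ) ≤ -Real.log σ := by
    have := Real.log_nonpos hσ0.le hσ1
    linarith
  simp only [II, if_pos hlog, neg_zero, Real.exp_zero] at hfin
  have hdiv : 8 * σ / M = 8 * σ * (1 / M) := by ring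
  rw [hdiv]
  nlinarith

end Pool.Agent.DBR
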