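import Pool.Agent.DBR.Stmts

set_option autoImplicit false

/-!
The Koebe function and its inverse.
-/

namespace Pool.Agent.DBR

open Complex Metric Set Filter MeasureTheory

open scoped Topology ComplexConjugate

open Pool.Agent.PSB (InS coeff psum Lam SelfU)

namespace KIN_

theorem ne_one_of_mem {z : ℂ} (hz : z ∈ ball (0 : ℂ) 1) : (1 : ℂ) - z ≠ 0 := by
  intro h
  have h1 : z = 1 := by linear_combination -h
  rw [h1] at hz
  simp at hz

/-- Square roots on the slit plane. -/
theorem half_sq (u : ℂ) (hu : u ∈ slitPlane) :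
    (u ^ ((1 : ℂ) / 2)) ^ 2 = u ∧ 0 < (u ^ ((1 : ℂ) / 2)).re := by
  have hu0 : u ≠ 0 := slitPlane_ne_zero hu
  constructor
  · rw [← Complex.cpow_nat_mul]
    simp
  · rw [Complex.cpow_def_of_ne_zero hu0, Complex.exp_re]
    have h1 : (Complex.log u * (1 / 2)).im = u.arg / 2 := by
      rw [show Complex.log u * (1 / 2) = ((1 / 2 : ℝ) : ℂ) * Complex.log u by push_cast; ring,
        Complex.im_ofReal_mul, Complex.log_im]
      ring
    rw [h1]
    have h2 := Complex.mem_slitPlane_iff_arg.1 hu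
    have h3 := Complex.neg_pi_lt_arg u
    have h4 : u.arg < Real.pi := lt_of_le_of_ne (Complex.arg_le_pi u) h2.1
    refine mul_pos (Real.exp_pos _) (Real.cos_pos_of_mem_Ioo ⟨by linarith, by linarith⟩)

theorem sq_inj_re {a b : ℂ} (ha : 0 < a.re) (hb : 0 < b.re) (h : a ^ 2 = b ^ 2) : a = b := by
  have h1 : (a - b) * (a + b) = 0 := by linear_combination h
  rcases mul_eq_zero.1 h1 with h2 | h2
  · linear_combination h2
  · exfalso
    have := congrArg Complex.re h2
    simp only [add_re, zero_re] at this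
    linarith

theorem sq_mem_slit {w : ℂ} (hw : 0 < w.re) : w ^ 2 ∈ slitPlane := by
  rw [Complex.mem_slitPlane_iff]
  by_cases h : w.im = 0
  · left
    rw [pow_two, Complex.mul_re, h]
    nlinarith
  · right
    rw [pow_two, Complex.mul_im]
    intro h2
    have : w.re * w.im = 0 := by linarith
    rcases mul_eq_zero.1 this with h3 | h3
    · linarith
    · exact h h3

theorem half_of_sq {w : ℂ} (hw : 0 < w.re) : (w ^ 2) ^ ((1 : ℂ) / 2) = w := by
  obtain ⟨h1, h2⟩ := half_sq (w ^ 2) (sq_mem_slit hw)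
  exact sq_inj_re h2 hw h1

theorem norm_lt_of_re {s : ℂ} (hs : 0 < s.re) : ‖(s - 1) / (s + 1)‖ < 1 := by
  have h0 : s + 1 ≠ 0 := by
    intro h
    have := congrArg Complex.re h
    simp only [add_re, one_re, zero_re] at this
    linarith
  rw [norm_div, div_lt_one (norm_pos_iff.2 h0)]
  have h1 : ‖s - 1‖ ^ 2 < ‖s + 1‖ ^ 2 := by
    rw [Complex.sq_norm, Complex.sq_norm, Complex.normSq_apply, Complex.normSq_apply]
    simp only [sub_re, one_re, add_re, sub_im, one_im, add_im]
    nlinarith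
  exact lt_of_pow_lt_pow_left₀ 2 (norm_nonneg _) h1

theorem part1 (v : ℂ) (hv : 1 + 4 * v ∈ slitPlane) :
    ‖Kinv v‖ < 1 ∧ Kb (Kinv v) = v ∧ DifferentiableAt ℂ Kinv v := by
  obtain ⟨h1, h2⟩ := half_sq _ hv
  have h0 : (1 + 4 * v) ^ ((1 : ℂ) / 2) + 1 ≠ 0 := by
    intro h
    have := congrArg Complex.re h
    simp only [add_re, one_re, zero_re] at this
    linarith
  refine ⟨norm_lt_of_re h2, ?_, ?_⟩
  · unfold Kb Kinv
    set s := (1 + 4 * v) ^ ((1 : ℂ) / 2) with hs
    have h3 : 1 - (s - 1) / (s + 1) = 2 / (s + 1) := by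
      field_simp
      ring
    rw [h3]
    have h4 : v = (s ^ 2 - 1) / 4 := by
      rw [h1]; ring
    rw [h4]
    field_simp
    ring
  · unfold Kinv
    have h5 : DifferentiableAt ℂ (fun v : ℂ => (1 + 4 * v) ^ ((1 : ℂ) / 2)) v := by
      refine DifferentiableAt.cpow ?_ (differentiableAt_const _) hv
      exact (differentiableAt_const _).add (differentiableAt_id.const_mul _)
    exact (h5.sub_const 1).div (h5.add_const 1) h0

theorem re_pos {z : ℂ} (hz : z ∈ ball (0 : ℂ) 1) : 0 < ((1 + z) / (1 - z)).re := by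
  have hz0 := ne_one_of_mem hz
  rw [mem_ball_zero_iff] at hz
  rw [Complex.div_re, ← add_div]
  have h3 : 0 < Complex.normSq (1 - z) := Complex.normSq_pos.2 hz0
  refine div_pos ?_ h3
  have h2 : z.re ^ 2 + z.im ^ 2 < 1 := by
    have := Complex.sq_norm z
    rw [Complex.normSq_apply] at this
    nlinarith [norm_nonneg z]
  simp only [sub_re, one_re, add_re, sub_im, one_im, add_im]
  nlinarith

theorem kb_eq {z : ℂ} (hz : z ∈ ball (0 : ℂ) 1) : 1 + 4 * Kb z = ((1 + z) / (1 - z)) ^ 2 := by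
  have hz0 := ne_one_of_mem hz
  unfold Kb
  field_simp
  ring

theorem kinv_kb {z : ℂ} (hz : z ∈ ball (0 : ℂ) 1) : Kinv (Kb z) = z := by
  have hz0 := ne_one_of_mem hz
  unfold Kinv
  rw [kb_eq hz, half_of_sq (re_pos hz)]
  have h1 : (1 + z) / (1 - z) + 1 = 2 / (1 - z) := by
    field_simp
    ring
  have h2 : (1 + z) / (1 - z) - 1 = 2 * z / (1 - z) := by
    field_simp
    ring
  rw [h1, h2]
  field_simp

theorem part3 {z : ℂ} (hz : z ∈ ball (0 : ℂ) 1) (c : ℝ) (h0 : 0 ≤ c) (h1 : c ≤ 1) :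
    1 + 4 * (c * Kb z) ∈ slitPlane := by
  have h2 : 1 + 4 * ((c : ℂ) * Kb z) = ((1 - c : ℝ) : ℂ) + (c : ℂ) * ((1 + z) / (1 - z)) ^ 2 := by
    rw [← kb_eq hz]
    push_cast
    ring
  rw [h2]
  have hw := re_pos hz
  set w := (1 + z) / (1 - z) with hwdef
  rcases eq_or_lt_of_le h0 with hc | hc
  · rw [← hc]
    simp [Complex.mem_slitPlane_iff]
  · rw [Complex.mem_slitPlane_iff]
    by_cases h : w.im = 0
    · left
      rw [add_re, Complex.ofReal_re, Complex.re_ofReal_mul, pow_two, Complex.mul_re, h]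
      have : 0 < c * (w.re * w.re - 0 * 0) := by
        have : 0 < w.re * w.re := mul_pos hw hw
        nlinarith
      linarith
    · right
      rw [add_im, Complex.ofReal_im, Complex.im_ofReal_mul, pow_two, Complex.mul_im]
      intro h3
      have h4 : w.re * w.im + w.im * w.re = 0 := by
        have : c * (w.re * w.im + w.im * w.re) = 0 := by linarith
        rcases mul_eq_zero.1 this with h5 | h5
        · exact absurd h5 hc.ne'
        · exact h5
      have : w.re * w.im = 0 := by linarith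
      rcases mul_eq_zero.1 this with h3 | h3
      · linarith
      · exact h h3

end KIN_

open KIN_ in
theorem kin_proof : Stmt_KIN := by
  refine ⟨part1, fun z hz => ⟨?_, kinv_kb hz, kb_eq hz, re_pos hz⟩, fun z hz c h0 h1 =>
    part3 hz c h0 h1, ?_⟩
  · rw [kb_eq hz]
    exact sq_mem_slit (re_pos hz)
  · refine ⟨?_, ?_, by simp [Kb], ?_⟩
    · intro z hz
      have hz0 := ne_one_of_mem hz
      have : DifferentiableAt ℂ Kb z := by
        unfold Kb
        exact differentiableAt_id.div (((differentiableAt_const _).sub differentiableAt_id).pow 2)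
          (pow_ne_zero 2 hz0)
      exact this.differentiableWithinAt
    · intro x hx y hy hxy
      rw [← kinv_kb hx, ← kinv_kb hy, hxy]
    · have h1 : HasDerivAt (fun z : ℂ => z / (1 - z) ^ 2) 
          ((1 * (1 - (0 : ℂ)) ^ 2 - 0 * (2 * (1 - (0 : ℂ)) ^ (2 - 1) * (0 - 1))) /
            ((1 - (0 : ℂ)) ^ 2) ^ 2) 0 := by
        refine (hasDerivAt_id (0 : ℂ)).div ?_ (by simp)
        have h2 : HasDerivAt (fun z : ℂ => 1 - z) (0 - 1) 0 :=
          (hasDerivAt_const (0 : ℂ) (1 : ℂ)).sub (hasDerivAt_id 0)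
        have h4 := h2.pow 2
        have h5 : ((fun z : ℂ => 1 - z) ^ 2) = fun z : ℂ => (1 - z) ^ 2 := rfl
        rw [h5] at h4
        simpa using h4
      have h3 : deriv Kb 0 = _ := h1.deriv
      rw [h3]
      norm_num

end Pool.Agent.DBR
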