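import Pool.Agent.DBR.Stmts

set_option autoImplicit false

/-!
Univalent functions: powers of the Koebe function (module KPW of squad DBR).
-/

namespace Pool.Agent.DBR

open Complex Metric Set Filter MeasureTheory

open scoped Topology ComplexConjugate

open Pool.Agent.PSB (InS coeff psum Lam SelfU)

theorem kpw_proof : Stmt_KPW := by
  intro U hU m k hm
  have h1 : U ^ m * (1 - PowerSeries.X) ^ (2 * m) = PowerSeries.X ^ m := by
    rw [pow_mul, ← mul_pow, hU]
  have h2 : (1 - PowerSeries.X : PowerSeries ℂ) ^ (2 * m) *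
      (PowerSeries.invOneSubPow ℂ (2 * m)).val = 1 := by
    rw [← PowerSeries.invOneSubPow_inv_eq_one_sub_pow]
    exact (PowerSeries.invOneSubPow ℂ (2 * m)).inv_val
  have h3 : U ^ m = (PowerSeries.invOneSubPow ℂ (2 * m)).val * PowerSeries.X ^ m := by
    calc U ^ m = (U ^ m * (1 - PowerSeries.X) ^ (2 * m)) *
        (PowerSeries.invOneSubPow ℂ (2 * m)).val := by rw [mul_assoc, h2, mul_one]
      _ = _ := by rw [h1, mul_comm]
  rw [h3, PowerSeries.coeff_mul_X_pow']
  split_ifs with hk
  · rw [PowerSeries.invOneSubPow_val_eq_mk_sub_one_add_choose_of_pos _ _ (by omega),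
      PowerSeries.coeff_mk]
    have e : 2 * m - 1 + (k - m) = k + m - 1 := by omega
    rw [e]
  · rw [Nat.choose_eq_zero_of_lt (by omega), Nat.cast_zero]

end Pool.Agent.DBR
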