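import Pool.Agent.DBR.Stmts
import Pool.Agent.PSB.Main

set_option autoImplicit false

namespace Pool.Agent.DBR

open Complex Metric Set Filter MeasureTheory

open scoped Topology ComplexConjugate

open Pool.Agent.PSB (InS coeff psum Lam SelfU)

open Pool.Agent.PSB in
theorem l3a_proof : Stmt_L3A := by
  intro M σ hM hσ0 hσ1 η hη
  have hM0 : (0 : ℝ) < M := by linarith
  have hlim := lim_proof M σ hM hσ0 hσ1
  have ht := PSB.LIM_.t_tend M hM
  have hr := PSB.LIM_.rho_tend M hM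
  have hs := PSB.LIM_.sc_tend M hM
  -- the real part of `A`
  have hA : Tendsto (fun m : ℕ => 2 * epm M m * rho (epm M m) * (1 + sc (epm M m)) * σ * m) atTop
      (𝓝 (2 * σ * Real.log M)) := by
    have h1 := ((ht.mul hr).mul (hs.const_add 1)).mul_const σ
    have h2 : Real.log M * 1 * (1 + 1) * σ = 2 * σ * Real.log M := by ring
    rw [h2] at h1
    refine h1.congr fun m => ?_
    ring
  have hI : Tendsto (fun m : ℕ => 2 * epm M m * (1 - sc (epm M m)) * m) atTop (𝓝 0) := by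
    have h1 := ht.mul (hs.const_sub 1)
    have h2 : Real.log M * (1 - 1) = 0 := by ring
    rw [h2] at h1
    refine h1.congr fun m => ?_
    ring
  have hev := (((hlim.eventually (lt_mem_nhds (show
    1 + 2 * σ * Real.log M + 4 * σ ^ 2 * Real.log M ^ 2 - 4 * σ ^ 2 * Real.log M
        + (1 - 1 / M ^ 2) - η / 2 < 1 + 2 * σ * Real.log M + 4 * σ ^ 2 * Real.log M ^ 2
          - 4 * σ ^ 2 * Real.log M + (1 - 1 / M ^ 2) by linarith))).and
    (hA.eventually (Metric.ball_mem_nhds _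
      (show (0 : ℝ) < η / 2 by linarith)))).and
    (hI.eventually (Metric.ball_mem_nhds _ (show (0 : ℝ) < η / 2 by linarith)))).and
    (eventually_ge_atTop 1)
  obtain ⟨m, ⟨⟨hval, hA1⟩, hI1⟩, hm⟩ := hev.exists
  have hε := PSB.LB3_.epm_pos hM hm
  obtain ⟨κ, hκ, hre, him, hQ⟩ := cls_proof M σ m hM hσ0 hσ1 hm
  obtain ⟨hF, hJ⟩ := chn (epm M m) κ hε hκ (2 * m)
  have hs' := PSB.LB3_.sc_pow hM hm
  have hMC : (M : ℂ) ≠ 0 := by exact_mod_cast hM0.ne'
  set F := chain (epm M m) κ (2 * m) with hFdef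
  set A := chA (epm M m) κ (2 * m) with hAd
  set B := chB (epm M m) κ (2 * m) with hB
  have hFan : AnalyticAt ℂ F 0 := hF.diff.analyticAt (ball_mem_nhds 0 one_pos)
  have hfan : AnalyticAt ℂ (fun z => (M : ℂ) * F z) 0 := analyticAt_const.mul hFan
  have hJf : Jet3 (fun z => (M : ℂ) * F z) 1 A B := by
    unfold Jet3 at hJ ⊢
    have h5 := hJ.const_mul_left (M : ℂ)
    have h6 : (fun z : ℂ => (M : ℂ) * F z - (1 * z + A * z ^ 2 + B * z ^ 3)) =
        (fun z : ℂ => (M : ℂ) * (F z - ((sc (epm M m) : ℂ) ^ (2 * m) * z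
          + (sc (epm M m) : ℂ) ^ (2 * m) * A * z ^ 2
          + (sc (epm M m) : ℂ) ^ (2 * m) * B * z ^ 3))) := by
      funext z
      linear_combination (z + A * z ^ 2 + B * z ^ 3) * hs'
    rw [h6]
    exact h5
  obtain ⟨hz, hd, hc1, hc2, hc3⟩ := jet_proof _ 1 A B hfan hJf
  rw [Real.dist_eq] at hA1 hI1
  rw [sub_zero] at hI1
  have hAre : |A.re - 2 * σ * Real.log M| ≤ η / 2 := by rw [hre]; exact hA1.le
  have hAim : |A.im| ≤ η / 2 := by
    refine him.trans ?_
    exact (le_abs_self _).trans hI1.le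
  refine ⟨fun z => (M : ℂ) * F z, ⟨?_, ?_, hz, hd, ?_⟩, ?_, ?_⟩
  · exact hF.diff.const_mul _
  · intro x hx y hy hxy
    exact hF.inj hx hy (mul_left_cancel₀ hMC hxy)
  · intro z hz'
    rw [norm_mul, Complex.norm_real, Real.norm_of_nonneg hM0.le]
    have := hF.maps z hz'
    nlinarith
  · rw [hc2]
    have h1 : A - 2 * (σ : ℂ) * (Real.log M : ℂ) =
        ((A.re - 2 * σ * Real.log M : ℝ) : ℂ) + (A.im : ℂ) * Complex.I := by
      apply Complex.ext <;> simp
    rw [h1]
    refine (norm_add_le _ _).trans ?_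
    rw [norm_mul, Complex.norm_I, mul_one, Complex.norm_real, Complex.norm_real,
      Real.norm_eq_abs, Real.norm_eq_abs]
    linarith
  · rw [hc3]
    have hBre : B.re = A.re ^ 2 - A.im ^ 2
        - 2 * epm M m * (1 + 2 * epm M m) * rho (epm M m) ^ 2 * (chQ (epm M m) κ (2 * m)).re := by
      rw [hB]
      unfold chB
      rw [← hAd]
      have hcast : (2 * (epm M m : ℂ) * (1 + 2 * (epm M m : ℂ)) * (rho (epm M m) : ℂ) ^ 2
          * chQ (epm M m) κ (2 * m)) =
          ((2 * epm M m * (1 + 2 * epm M m) * rho (epm M m) ^ 2 : ℝ) : ℂ)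
            * chQ (epm M m) κ (2 * m) := by push_cast; ring
      rw [hcast, Complex.sub_re, Complex.re_ofReal_mul, sq A, Complex.mul_re]
      ring
    have himsq : A.im ^ 2 ≤ (2 * epm M m * (1 - sc (epm M m)) * m) ^ 2 := by
      have := sq_le_sq' (by linarith [neg_abs_le A.im, him]) (le_trans (le_abs_self A.im) him)
      exact this
    rw [hBre, hQ]
    have h7 := abs_le.1 hAre
    rw [hre] at h7 ⊢
    linarith [hval, himsq, h7.1, h7.2]

end Pool.Agent.DBR
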