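import Pool.Agent.DBR.Stmts

/-!
# Squad DBR, module L3B: the lower bound for the third partial sum, `1/M ≤ σ ≤ 1`.
-/

set_option autoImplicit false

namespace Pool.Agent.DBR

open Complex Metric Set Filter MeasureTheory

open scoped Topology ComplexConjugate

open Pool.Agent.PSB (InS coeff psum Lam SelfU)

namespace L3B_

lemma cat2 : catalan 2 = 2 := catalan_two

lemma cat3 : catalan 3 = 5 := catalan_three

lemma ap1 (M : ℝ) : AP 1 M = 1 := by
  unfold AP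
  simp [catalan_one]

lemma ap2 (M : ℝ) : AP 2 M = 3 - 2 / M := by
  unfold AP
  have h : Finset.Icc 1 2 = ({1, 2} : Finset ℕ) := by decide
  rw [h, Finset.sum_insert (by decide), Finset.sum_singleton, catalan_one, cat2]
  have e1 : ((2 + 1).choose (2 * 1) : ℕ) = 3 := by decide
  have e2 : ((2 + 2).choose (2 * 2) : ℕ) = 1 := by decide
  rw [e1, e2]
  norm_num
  ring

lemma ap3 (M : ℝ) : AP 3 M = 6 - 10 / M + 5 / M ^ 2 := by
  unfold AP
  have h : Finset.Icc 1 3 = ({1, 2, 3} : Finset ℕ) := by decide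
  rw [h, Finset.sum_insert (by decide), Finset.sum_insert (by decide), Finset.sum_singleton,
    catalan_one, cat2, cat3]
  have e1 : ((3 + 1).choose (2 * 1) : ℕ) = 6 := by decide
  have e2 : ((3 + 2).choose (2 * 2) : ℕ) = 5 := by decide
  have e3 : ((3 + 3).choose (2 * 3) : ℕ) = 1 := by decide
  rw [e1, e2, e3]
  norm_num
  ring

/-- partial sums at `1` of a function of the class. -/
lemma psum_one (f : ℂ → ℂ) (n : ℕ) : psum f n 1 = ∑ k ∈ Finset.range (n + 1), coeff f k := by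
  unfold psum
  simp

lemma psum_succ (f : ℂ → ℂ) (n : ℕ) : coeff f (n + 1) = psum f (n + 1) 1 - psum f n 1 := by
  rw [psum_one, psum_one, Finset.sum_range_succ (fun k => coeff f k) (n + 1)]
  ring

/-- the composition -/
noncomputable def cmp (σ : ℝ) (g f : ℂ → ℂ) (z : ℂ) : ℂ := (σ : ℂ)⁻¹ * g ((σ : ℂ) * f z)

lemma mem {σ : ℝ} (h0 : 0 < σ) {f : ℂ → ℂ} (hf : InS (1 / σ) f) {z : ℂ}
    (hz : z ∈ ball (0 : ℂ) 1) : (σ : ℂ) * f z ∈ ball (0 : ℂ) 1 := by
  have h := inS_lt hf hz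
  rw [mem_ball_zero_iff, norm_mul, Complex.norm_real, Real.norm_of_nonneg h0.le]
  rw [lt_div_iff₀ h0] at h
  linarith

lemma inS {M σ : ℝ} (h0 : 0 < σ) {f g : ℂ → ℂ} (hf : InS (1 / σ) f) (hg : InS (M * σ) g) :
    InS M (cmp σ g f) := by
  have hσ : (σ : ℂ) ≠ 0 := by exact_mod_cast h0.ne'
  have hmaps : MapsTo (fun z : ℂ => (σ : ℂ) * f z) (ball 0 1) (ball 0 1) :=
    fun z hz => mem h0 hf hz
  refine ⟨?_, ?_, ?_, ?_, ?_⟩
  · exact (hg.diff.comp (hf.diff.const_mul _) hmaps).const_mul _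
  · intro x hx y hy hxy
    have h2 : g ((σ : ℂ) * f x) = g ((σ : ℂ) * f y) :=
      mul_left_cancel₀ (inv_ne_zero hσ) hxy
    have h3 := hg.inj (hmaps hx) (hmaps hy) h2
    exact hf.inj hx hy (mul_left_cancel₀ hσ h3)
  · simp [cmp, hf.zero, hg.zero]
  · have h1 : HasDerivAt f 1 0 := by
      rw [← hf.one]
      exact ((toSS hf).analyticAt.differentiableAt).hasDerivAt
    have h2 : HasDerivAt (fun z : ℂ => (σ : ℂ) * f z) ((σ : ℂ) * 1) 0 := h1.const_mul _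
    have h3 : HasDerivAt g 1 ((fun z : ℂ => (σ : ℂ) * f z) 0) := by
      have e : (fun z : ℂ => (σ : ℂ) * f z) 0 = 0 := by simp [hf.zero]
      rw [e, ← hg.one]
      exact ((toSS hg).analyticAt.differentiableAt).hasDerivAt
    have h4 := (h3.comp (0 : ℂ) h2).const_mul ((σ : ℂ)⁻¹)
    have h5 : deriv (cmp σ g f) 0 = (σ : ℂ)⁻¹ * (1 * ((σ : ℂ) * 1)) := h4.deriv
    rw [h5]
    field_simp
  · intro z hz
    unfold cmp
    rw [norm_mul, norm_inv, Complex.norm_real, Real.norm_of_nonneg h0.le,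
      inv_mul_le_iff₀ h0]
    have := hg.bdd _ (hmaps hz)
    linarith

/-- coefficients of the powers of `σ f` -/
lemma pow2 {σ : ℝ} {f : ℂ → ℂ} (hf : InSS f) :
    coeff (fun z => ((σ : ℂ) * f z) ^ 2) 2 = (σ : ℂ) ^ 2 ∧
    coeff (fun z => ((σ : ℂ) * f z) ^ 2) 3 = 2 * (σ : ℂ) ^ 2 * coeff f 2 := by
  have hw : AnalyticAt ℂ (fun z : ℂ => (σ : ℂ) * f z) 0 := analyticAt_const.mul hf.analyticAt
  have e : (fun z : ℂ => ((σ : ℂ) * f z) ^ 2) = fun z => ((σ : ℂ) * f z) * ((σ : ℂ) * f z) := by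
    funext z; ring
  have c0 : coeff (fun z : ℂ => (σ : ℂ) * f z) 0 = 0 := by
    rw [coeff_const_mul hf.analyticAt, hf.coeff_zero, mul_zero]
  have c1 : coeff (fun z : ℂ => (σ : ℂ) * f z) 1 = σ := by
    rw [coeff_const_mul hf.analyticAt, hf.coeff_one, mul_one]
  have c2 : coeff (fun z : ℂ => (σ : ℂ) * f z) 2 = σ * coeff f 2 :=
    coeff_const_mul hf.analyticAt _ _
  constructor
  · rw [e, coeff_mul hw hw]
    have h : Finset.HasAntidiagonal.antidiagonal 2 = ({(0, 2), (1, 1), (2, 0)} : Finset (ℕ × ℕ)) := by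
      decide
    rw [h, Finset.sum_insert (by decide), Finset.sum_insert (by decide), Finset.sum_singleton]
    simp only [c0, c1, c2]
    ring
  · rw [e, coeff_mul hw hw]
    have h : Finset.HasAntidiagonal.antidiagonal 3 =
        ({(0, 3), (1, 2), (2, 1), (3, 0)} : Finset (ℕ × ℕ)) := by
      decide
    rw [h, Finset.sum_insert (by decide), Finset.sum_insert (by decide),
      Finset.sum_insert (by decide), Finset.sum_singleton]
    simp only [c0, c1, c2]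
    ring

lemma pow3 {σ : ℝ} {f : ℂ → ℂ} (hf : InSS f) :
    coeff (fun z => ((σ : ℂ) * f z) ^ 3) 3 = (σ : ℂ) ^ 3 := by
  have hw : AnalyticAt ℂ (fun z : ℂ => (σ : ℂ) * f z) 0 := analyticAt_const.mul hf.analyticAt
  have hw2 : AnalyticAt ℂ (fun z : ℂ => ((σ : ℂ) * f z) ^ 2) 0 := hw.pow 2
  have e : (fun z : ℂ => ((σ : ℂ) * f z) ^ 3) = fun z => ((σ : ℂ) * f z) * ((σ : ℂ) * f z) ^ 2 := by
    funext z; ring
  have c0 : coeff (fun z : ℂ => (σ : ℂ) * f z) 0 = 0 := by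
    rw [coeff_const_mul hf.analyticAt, hf.coeff_zero, mul_zero]
  have c1 : coeff (fun z : ℂ => (σ : ℂ) * f z) 1 = σ := by
    rw [coeff_const_mul hf.analyticAt, hf.coeff_one, mul_one]
  have d0 : coeff (fun z : ℂ => ((σ : ℂ) * f z) ^ 2) 0 = 0 := by
    rw [coeff_zero, hf.zero]; simp
  have d1 : coeff (fun z : ℂ => ((σ : ℂ) * f z) ^ 2) 1 = 0 := by
    have e2 : (fun z : ℂ => ((σ : ℂ) * f z) ^ 2) = fun z => ((σ : ℂ) * f z) * ((σ : ℂ) * f z) := by
      funext z; ring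
    rw [e2, coeff_mul hw hw]
    have h : Finset.HasAntidiagonal.antidiagonal 1 = ({(0, 1), (1, 0)} : Finset (ℕ × ℕ)) := by
      decide
    rw [h, Finset.sum_insert (by decide), Finset.sum_singleton]
    simp only [c0, c1]
    ring
  rw [e, coeff_mul hw hw2]
  have h : Finset.HasAntidiagonal.antidiagonal 3 =
      ({(0, 3), (1, 2), (2, 1), (3, 0)} : Finset (ℕ × ℕ)) := by
    decide
  rw [h, Finset.sum_insert (by decide), Finset.sum_insert (by decide),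
    Finset.sum_insert (by decide), Finset.sum_singleton]
  simp only [c0, c1, d0, d1, (pow2 hf).1]
  ring

lemma cf2 (hCMP : Stmt_CMP) {σ : ℝ} (h0 : 0 < σ) {f g : ℂ → ℂ} (hf : InSS f) (hg : InSS g) :
    coeff (cmp σ g f) 2 = coeff f 2 + σ * coeff g 2 := by
  have hσ : (σ : ℂ) ≠ 0 := by exact_mod_cast h0.ne'
  have hw : AnalyticAt ℂ (fun z : ℂ => (σ : ℂ) * f z) 0 := analyticAt_const.mul hf.analyticAt
  have hw0 : (fun z : ℂ => (σ : ℂ) * f z) 0 = 0 := by simp [hf.zero]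
  have hgw : AnalyticAt ℂ (fun z : ℂ => g ((σ : ℂ) * f z)) 0 := by
    exact AnalyticAt.comp_of_eq hg.analyticAt hw hw0
  have h1 := hCMP g (fun z => (σ : ℂ) * f z) hg.analyticAt hw hw0 2
  have h2 : coeff (cmp σ g f) 2 = (σ : ℂ)⁻¹ * coeff (fun z => g ((σ : ℂ) * f z)) 2 :=
    coeff_const_mul hgw _ _
  rw [h2, h1, Finset.sum_range_succ, Finset.sum_range_succ, Finset.sum_range_succ,
    Finset.sum_range_zero, hg.coeff_zero, hg.coeff_one, (pow2 hf).1]
  simp only [pow_one]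
  rw [coeff_const_mul hf.analyticAt]
  field_simp
  ring

lemma cf3 (hCMP : Stmt_CMP) {σ : ℝ} (h0 : 0 < σ) {f g : ℂ → ℂ} (hf : InSS f) (hg : InSS g) :
    coeff (cmp σ g f) 3 =
      coeff f 3 + 2 * σ * coeff f 2 * coeff g 2 + σ ^ 2 * coeff g 3 := by
  have hσ : (σ : ℂ) ≠ 0 := by exact_mod_cast h0.ne'
  have hw : AnalyticAt ℂ (fun z : ℂ => (σ : ℂ) * f z) 0 := analyticAt_const.mul hf.analyticAt
  have hw0 : (fun z : ℂ => (σ : ℂ) * f z) 0 = 0 := by simp [hf.zero]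
  have hgw : AnalyticAt ℂ (fun z : ℂ => g ((σ : ℂ) * f z)) 0 := by
    exact AnalyticAt.comp_of_eq hg.analyticAt hw hw0
  have h1 := hCMP g (fun z => (σ : ℂ) * f z) hg.analyticAt hw hw0 3
  have h2 : coeff (cmp σ g f) 3 = (σ : ℂ)⁻¹ * coeff (fun z => g ((σ : ℂ) * f z)) 3 :=
    coeff_const_mul hgw _ _
  rw [h2, h1, Finset.sum_range_succ, Finset.sum_range_succ, Finset.sum_range_succ,
    Finset.sum_range_succ, Finset.sum_range_zero, hg.coeff_zero, hg.coeff_one, (pow2 hf).2,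
    pow3 hf]
  simp only [pow_one]
  rw [coeff_const_mul hf.analyticAt]
  field_simp
  ring

end L3B_

open L3B_ in
theorem l3b_proof (hL3A : Stmt_L3A) (hPKE : Stmt_PKE) (hPCO : Stmt_PCO) (hCMP : Stmt_CMP) :
    Stmt_L3B := by
  intro M σ hM hσ1 hσ2 η hη
  have hM0 : 0 < M := by linarith
  have hσ0 : 0 < σ := lt_of_lt_of_le (by positivity) hσ1
  rcases eq_or_lt_of_le hσ2 with h1 | h1
  · subst h1
    refine ⟨Pk M, (hPKE M hM.le).1, ?_⟩
    rw [hPCO.1 M 3 hM.le, Complex.norm_real, Real.log_one, ap3]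
    refine le_trans ?_ (le_abs_self _)
    have e : 2 + 1 / M ^ 2 + 2 * (1 - 1 / M - 1 * 0) + (2 * (1 - 1 / M - 1 * 0)) ^ 2 -
        2 * 1 * (2 * (1 - 1 / M - 1 * 0)) + 2 * 1 ^ 2 - 4 * 1 / M = 6 - 10 / M + 5 / M ^ 2 := by
      field_simp
      ring
    rw [e]
    linarith
  · have hMσ : 1 ≤ M * σ := by
      rw [div_le_iff₀ hM0] at hσ1
      linarith
    have hM1 : 1 < 1 / σ := by
      rw [lt_div_iff₀ hσ0]; linarith
    obtain ⟨f, hf, hf2, hf3⟩ := hL3A (1 / σ) σ hM1 hσ0.le (by rw [one_div_one_div]) (η / 6)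
      (by positivity)
    have hg := (hPKE (M * σ) hMσ).1
    refine ⟨cmp σ (Pk (M * σ)) f, inS hσ0 hf hg, ?_⟩
    have hcS := toSS (inS hσ0 hf hg)
    have hfS := toSS hf
    have hgS := toSS hg
    have g2 : coeff (Pk (M * σ)) 2 = ((2 - 2 / (M * σ) : ℝ) : ℂ) := by
      rw [psum_succ, hPCO.1 _ 2 hMσ, hPCO.1 _ 1 hMσ, ap2, ap1]
      push_cast
      ring
    have g3 : coeff (Pk (M * σ)) 3 = ((3 - 8 / (M * σ) + 5 / (M * σ) ^ 2 : ℝ) : ℂ) := by
      rw [psum_succ, hPCO.1 _ 3 hMσ, hPCO.1 _ 2 hMσ, ap3, ap2]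
      push_cast
      ring
    have hp : psum (cmp σ (Pk (M * σ)) f) 3 1 =
        1 + coeff (cmp σ (Pk (M * σ)) f) 2 + coeff (cmp σ (Pk (M * σ)) f) 3 := by
      rw [psum_one, Finset.sum_range_succ, Finset.sum_range_succ, Finset.sum_range_succ,
        Finset.sum_range_succ, Finset.sum_range_zero, hcS.coeff_zero, hcS.coeff_one]
      ring
    rw [hp, cf2 hCMP hσ0 hfS hgS, cf3 hCMP hσ0 hfS hgS, g2, g3]
    refine le_trans ?_ (Complex.re_le_norm _)
    have hre : ((1 : ℂ) + (coeff f 2 + σ * ((2 - 2 / (M * σ) : ℝ) : ℂ)) +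
        (coeff f 3 + 2 * σ * coeff f 2 * ((2 - 2 / (M * σ) : ℝ) : ℂ) +
          σ ^ 2 * ((3 - 8 / (M * σ) + 5 / (M * σ) ^ 2 : ℝ) : ℂ))).re =
        1 + ((coeff f 2).re + σ * (2 - 2 / (M * σ))) +
        ((coeff f 3).re + 2 * σ * (2 - 2 / (M * σ)) * (coeff f 2).re +
          σ ^ 2 * (3 - 8 / (M * σ) + 5 / (M * σ) ^ 2)) := by
      have e1 : (σ : ℂ) * ((2 - 2 / (M * σ) : ℝ) : ℂ) = ((σ * (2 - 2 / (M * σ)) : ℝ) : ℂ) := by
        push_cast; ring
      have e2 : 2 * (σ : ℂ) * coeff f 2 * ((2 - 2 / (M * σ) : ℝ) : ℂ) =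
          ((2 * σ * (2 - 2 / (M * σ)) : ℝ) : ℂ) * coeff f 2 := by
        push_cast; ring
      have e3 : (σ : ℂ) ^ 2 * ((3 - 8 / (M * σ) + 5 / (M * σ) ^ 2 : ℝ) : ℂ) =
          ((σ ^ 2 * (3 - 8 / (M * σ) + 5 / (M * σ) ^ 2) : ℝ) : ℂ) := by
        push_cast; ring
      rw [e1, e2, e3]
      simp only [add_re, one_re, ofReal_re, re_ofReal_mul]
    rw [hre]
    set L : ℝ := Real.log (1 / σ) with hL
    have hLσ : Real.log σ = -L := by
      rw [hL, one_div, Real.log_inv, neg_neg]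
    have hu : 2 * σ * L - η / 6 ≤ (coeff f 2).re := by
      have h2 : |(coeff f 2 - ((2 * σ * L : ℝ) : ℂ)).re| ≤ η / 6 := by
        refine (Complex.abs_re_le_norm _).trans ?_
        have : coeff f 2 - ((2 * σ * L : ℝ) : ℂ) = coeff f 2 - 2 * σ * L := by push_cast; ring
        rw [this]
        exact hf2
      rw [Complex.sub_re, Complex.ofReal_re] at h2
      have := (abs_le.1 h2).1
      linarith
    have hv : 4 * σ ^ 2 * L ^ 2 + 1 - σ ^ 2 - 4 * σ ^ 2 * L - η / 6 ≤ (coeff f 3).re := by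
      have e : (1 : ℝ) / (1 / σ) ^ 2 = σ ^ 2 := by
        field_simp
      rw [e] at hf3
      exact hf3
    rw [hLσ]
    -- coefficient of u
    have hK : 1 + 2 * σ * (2 - 2 / (M * σ)) = 1 + 4 * (σ - 1 / M) := by
      field_simp
      ring
    have hK0 : 0 ≤ 1 + 4 * (σ - 1 / M) := by linarith
    have hK5 : 1 + 4 * (σ - 1 / M) ≤ 5 := by
      have : 0 < 1 / M := by positivity
      linarith
    have e1 : σ * (2 - 2 / (M * σ)) = 2 * σ - 2 / M := by
      field_simp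
    have e2 : σ ^ 2 * (3 - 8 / (M * σ) + 5 / (M * σ) ^ 2) = 3 * σ ^ 2 - 8 * σ / M + 5 / M ^ 2 := by
      field_simp
    rw [e1, e2]
    have hm : (1 + 4 * (σ - 1 / M)) * (2 * σ * L - η / 6) ≤
        (1 + 4 * (σ - 1 / M)) * (coeff f 2).re := mul_le_mul_of_nonneg_left hu hK0
    have hm2 : (1 + 4 * (σ - 1 / M)) * (η / 6) ≤ 5 * (η / 6) :=
      mul_le_mul_of_nonneg_right hK5 (by positivity)
    have hexp : (coeff f 2).re + 2 * σ * (2 - 2 / (M * σ)) * (coeff f 2).re =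
        (1 + 4 * (σ - 1 / M)) * (coeff f 2).re := by
      rw [← hK]; ring
    have key : 2 + 1 / M ^ 2 + 2 * (σ - 1 / M - σ * -L) + (2 * (σ - 1 / M - σ * -L)) ^ 2 -
        2 * σ * (2 * (σ - 1 / M - σ * -L)) + 2 * σ ^ 2 - 4 * σ / M =
        1 + (1 + 4 * (σ - 1 / M)) * (2 * σ * L) + (2 * σ - 2 / M) +
        (4 * σ ^ 2 * L ^ 2 + 1 - σ ^ 2 - 4 * σ ^ 2 * L) +
        (3 * σ ^ 2 - 8 * σ / M + 5 / M ^ 2) := by
      field_simp
      ring
    rw [key]
    nlinarith [hm, hm2, hexp, hv]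

end Pool.Agent.DBR
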