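import Pool.Agent.DBR.Stmts

set_option autoImplicit false

namespace Pool.Agent.DBR

open Complex Metric Set Filter MeasureTheory

open scoped Topology ComplexConjugate

open Pool.Agent.PSB (InS coeff psum Lam SelfU)

namespace LA3_

theorem psum_le {M : ℝ} {f : ℂ → ℂ} (hf : InS M f) (n : ℕ) {z : ℂ} (hz : ‖z‖ = 1) :
    ‖psum f n z‖ ≤ (n + 1) * M := by
  unfold psum
  refine (norm_sum_le _ _).trans ?_
  refine (Finset.sum_le_sum (g := fun _ => M) fun k _ => ?_).trans ?_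
  · rw [norm_mul, norm_pow, hz, one_pow, mul_one]
    exact norm_coeff_le_of_inS hf k
  · simp

theorem bdd (n : ℕ) (M : ℝ) :
    BddAbove {r : ℝ | ∃ f : ℂ → ℂ, InS M f ∧ ∃ z : ℂ, ‖z‖ = 1 ∧ r = ‖psum f n z‖} := by
  refine ⟨(n + 1) * M, ?_⟩
  rintro r ⟨f, hf, z, hz, rfl⟩
  exact psum_le hf n hz

theorem le_lam {M : ℝ} {f : ℂ → ℂ} (hf : InS M f) (n : ℕ) {z : ℂ} (hz : ‖z‖ = 1) :
    ‖psum f n z‖ ≤ Lam n M := le_csSup (bdd n M) ⟨f, hf, z, hz, rfl⟩

theorem lam_le {M : ℝ} (hM : 1 ≤ M) {n : ℕ} {B : ℝ}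
    (h : ∀ f : ℂ → ℂ, InS M f → ∀ z : ℂ, ‖z‖ = 1 → ‖psum f n z‖ ≤ B) : Lam n M ≤ B := by
  refine csSup_le ⟨_, _, inS_id hM, 1, norm_one, rfl⟩ ?_
  rintro r ⟨f, hf, z, hz, rfl⟩
  exact h f hf z hz

/-- The lower bound on `[0, 1/M]`. -/
theorem lower1 (hL3A : Stmt_L3A) {M σ : ℝ} (hM : 1 < M) (h0 : 0 ≤ σ) (h1 : σ ≤ 1 / M) :
    2 - 1 / M ^ 2 + 2 * σ * Real.log M + 4 * σ ^ 2 * Real.log M ^ 2 - 4 * σ ^ 2 * Real.log M ≤
      Lam 3 M := by
  refine le_of_forall_pos_le_add fun η hη => ?_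
  obtain ⟨f, hf, h2, h3⟩ := hL3A M σ hM h0 h1 (η / 2) (by linarith)
  have h4 := le_lam hf 3 (z := 1) norm_one
  have h5 : psum f 3 1 = 1 + coeff f 2 + coeff f 3 := by
    unfold psum
    rw [Finset.sum_range_succ, Finset.sum_range_succ, Finset.sum_range_succ,
      Finset.sum_range_succ, Finset.sum_range_zero, (toSS hf).coeff_zero, (toSS hf).coeff_one]
    ring
  have h6 := Complex.re_le_norm (psum f 3 1)
  rw [h5] at h4 h6
  simp only [add_re, one_re] at h6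
  have h7 : |(coeff f 2 - 2 * σ * Real.log M).re| ≤ η / 2 := (Complex.abs_re_le_norm _).trans h2
  have h8 : (coeff f 2 - 2 * σ * Real.log M).re = (coeff f 2).re - 2 * σ * Real.log M := by
    simp [sub_re]
  rw [h8] at h7
  have h9 := (abs_le.1 h7).1
  linarith

/-- The lower bound on `[1/M, 1]`. -/
theorem lower2 (hL3B : Stmt_L3B) {M σ : ℝ} (hM : 1 < M) (h0 : 1 / M ≤ σ) (h1 : σ ≤ 1) :
    2 + 1 / M ^ 2 + 2 * (σ - 1 / M - σ * Real.log σ) + (2 * (σ - 1 / M - σ * Real.log σ)) ^ 2 -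
        2 * σ * (2 * (σ - 1 / M - σ * Real.log σ)) + 2 * σ ^ 2 - 4 * σ / M ≤ Lam 3 M := by
  refine le_of_forall_pos_le_add fun η hη => ?_
  obtain ⟨f, hf, h2⟩ := hL3B M σ hM h0 h1 η hη
  have h4 := le_lam hf 3 (z := 1) norm_one
  linarith

end LA3_

open LA3_ in
theorem la3_proof (hU3A : Stmt_U3A) (hU3B : Stmt_U3B) (hU3C : Stmt_U3C) (hU3D : Stmt_U3D)
    (hL3A : Stmt_L3A) (hL3B : Stmt_L3B) (hN3R : Stmt_N3R) (_ : Stmt_ROT) : Stmt_LA3 := by
  intro M hM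
  have hM0 : (0 : ℝ) < M := by linarith
  refine ⟨fun h => ?_, fun h h' => ?_, fun h => ?_⟩
  · have hL0 : 0 < Real.log M := Real.log_pos hM
    have hL : Real.log M < 1 := by linarith
    refine le_antisymm (lam_le hM.le fun f hf z hz => ?_) ?_
    · obtain ⟨x, hx0, hx1, hx⟩ := hU3A M f z hM hf hz
      obtain ⟨σ, h1, h2, h3⟩ := hU3B M x hM h hx0 hx1
      exact (hx σ h1 h2).trans h3
    · have h4 : 0 < 4 * (1 - Real.log M) := by linarith
      have h5 : (1 : ℝ) / (4 * (1 - Real.log M)) ≤ 1 / M :=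
        one_div_le_one_div_of_le hM0 (by linarith)
      have h6 := lower1 hL3A hM (σ := 1 / (4 * (1 - Real.log M))) (by positivity) h5
      refine le_trans (le_of_eq ?_) h6
      have h7 : (1 - Real.log M) ≠ 0 := by linarith
      field_simp
      ring
  · obtain ⟨s, h1, h2, h3, h4⟩ := hN3R M hM h h'
    refine ⟨s, h1, h2, h3, h4, ?_⟩
    refine le_antisymm (lam_le hM.le fun f hf z hz => ?_) ?_
    · obtain ⟨x, hx0, hx1, hx⟩ := hU3A M f z hM hf hz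
      obtain ⟨σ, h5, h6, h7⟩ := hU3C M x s hM h h' h1 h2 h3 h4 hx0 hx1
      exact (hx σ h5 h6).trans h7
    · have h5 := lower2 hL3B hM h2 h3
      refine le_trans (le_of_eq ?_) h5
      rw [h4]
      ring
  · refine le_antisymm (lam_le hM.le fun f hf z hz => ?_) ?_
    · obtain ⟨x, hx0, hx1, hx⟩ := hU3A M f z hM hf hz
      obtain ⟨σ, h5, h6, h7⟩ := hU3D M x h hx0 hx1
      exact (hx σ h5 h6).trans h7
    · have h5 := lower2 hL3B hM (σ := 1) (by rw [div_le_one hM0]; linarith) le_rfl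
      refine le_trans (le_of_eq ?_) h5
      rw [Real.log_one]
      ring

end Pool.Agent.DBR
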