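import Pool.Agent.DBR.Stmts
import Pool.Agent.DBR.Basic

set_option autoImplicit false

namespace Pool.Agent.DBR

open Complex Metric Set Filter MeasureTheory
open scoped Topology ComplexConjugate
open Pool.Agent.PSB (InS coeff psum Lam SelfU)

theorem lcb_proof (hLSE : Stmt_LSE) : Stmt_LCB := by
  intro n M
  refine ⟨2 * (|Real.log M| + 1) * 2 ^ n, by positivity, fun f hf k hk => ?_⟩
  have hM : 1 ≤ M := one_le_of_inS hf
  have hl : IsLog f (lg f) := hLSE.1 f (toSS hf)
  have hA : 0 < |Real.log M| + 1 := by positivity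
  have hre : ∀ z ∈ ball (0 : ℂ) 1, (lg f z).re ≤ |Real.log M| + 1 := by
    intro z hz
    by_cases h0 : z = 0
    · rw [h0, hl.zero, Complex.zero_re]
      exact hA.le
    · have h1 := schwarz_ball hf.diff hf.zero hf.bdd hz
      rw [hl.eq z hz, norm_mul, Complex.norm_exp, mul_comm] at h1
      have h2 : 0 < ‖z‖ := norm_pos_iff.mpr h0
      have h3 : Real.exp (lg f z).re ≤ M := le_of_mul_le_mul_right h1 h2
      have h4 : (lg f z).re ≤ Real.log M := by
        rw [Real.le_log_iff_exp_le (by linarith)]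
        exact h3
      have h5 := le_abs_self (Real.log M)
      linarith
  have hb : ∀ z : ℂ, ‖z‖ = 1 / 2 → ‖lg f z‖ ≤ 2 * (|Real.log M| + 1) := by
    intro z hz
    have h1 := Complex.borelCaratheodory_zero (f := lg f) (R := 1) (z := z) hA hl.diff hre one_pos
      (by rw [mem_ball_zero_iff, hz]; norm_num) hl.zero
    rw [hz] at h1
    refine h1.trans (le_of_eq ?_)
    ring
  have h1 := norm_coeff_le (f := lg f) (r := 1 / 2) (by norm_num) (by norm_num) hl.diff hb k
  unfold lc
  refine h1.trans ?_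
  rw [div_le_iff₀ (by positivity), mul_assoc]
  have h2 : (1 : ℝ) ≤ 2 ^ n * (1 / 2) ^ k := by
    have h3 : (1 / 2 : ℝ) ^ n ≤ (1 / 2) ^ k := pow_le_pow_of_le_one (by norm_num) (by norm_num) hk
    have h4 : (2 : ℝ) ^ n * (1 / 2) ^ n = 1 := by rw [← mul_pow]; norm_num
    calc (1 : ℝ) = 2 ^ n * (1 / 2) ^ n := h4.symm
      _ ≤ _ := by gcongr
  nlinarith

end Pool.Agent.DBR
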