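import Pool.Agent.DBR.Stmts

set_option autoImplicit false

/-!
Univalent functions: the second inequality of Lebedev and Milin (module LM2 of squad DBR).
-/

namespace Pool.Agent.DBR

open Complex Metric Set Filter MeasureTheory

open scoped Topology ComplexConjugate

open Pool.Agent.PSB (InS coeff psum Lam SelfU)

namespace LM2_

/-- `∑ j² |A_j|²`. -/
noncomputable def al (A : ℕ → ℂ) (k : ℕ) : ℝ :=
  ∑ j ∈ Finset.Icc 1 k, (j : ℝ) ^ 2 * ‖A j‖ ^ 2

/-- `∑ |D_j|²`. -/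
noncomputable def be (D : ℕ → ℂ) (k : ℕ) : ℝ := ∑ j ∈ Finset.range (k + 1), ‖D j‖ ^ 2

theorem al_succ (A : ℕ → ℂ) (k : ℕ) :
    al A (k + 1) = al A k + ((k : ℝ) + 1) ^ 2 * ‖A (k + 1)‖ ^ 2 := by
  unfold al
  rw [Finset.sum_Icc_succ_top (by omega)]
  push_cast
  ring

theorem be_succ (D : ℕ → ℂ) (k : ℕ) : be D (k + 1) = be D k + ‖D (k + 1)‖ ^ 2 := by
  unfold be
  rw [Finset.sum_range_succ]

theorem be_nonneg (D : ℕ → ℂ) (k : ℕ) : 0 ≤ be D k :=
  Finset.sum_nonneg fun _ _ => by positivity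

theorem al_nonneg (A : ℕ → ℂ) (k : ℕ) : 0 ≤ al A k :=
  Finset.sum_nonneg fun _ _ => by positivity

theorem cs (A D : ℕ → ℂ) (m : ℕ)
    (h : ((m + 1 : ℕ) : ℂ) * D (m + 1) =
      ∑ j ∈ Finset.Icc 1 (m + 1), (j : ℂ) * A j * D (m + 1 - j)) :
    ((m : ℝ) + 1) ^ 2 * ‖D (m + 1)‖ ^ 2 ≤ al A (m + 1) * be D m := by
  have h1 : ((m : ℝ) + 1) * ‖D (m + 1)‖ ≤
      ∑ j ∈ Finset.Icc 1 (m + 1), ((j : ℝ) * ‖A j‖) * ‖D (m + 1 - j)‖ := by
    have h2 : ((m : ℝ) + 1) * ‖D (m + 1)‖ = ‖((m + 1 : ℕ) : ℂ) * D (m + 1)‖ := by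
      rw [norm_mul, Complex.norm_natCast]
      push_cast
      ring
    rw [h2, h]
    refine (norm_sum_le _ _).trans (le_of_eq ?_)
    refine Finset.sum_congr rfl fun j _ => ?_
    rw [norm_mul, norm_mul, Complex.norm_natCast]
  have h3 := Finset.sum_mul_sq_le_sq_mul_sq (Finset.Icc 1 (m + 1))
    (fun j => (j : ℝ) * ‖A j‖) (fun j => ‖D (m + 1 - j)‖)
  have h4 : ∑ j ∈ Finset.Icc 1 (m + 1), ‖D (m + 1 - j)‖ ^ 2 = be D m := by
    unfold be
    refine Finset.sum_nbij' (fun j => m + 1 - j) (fun i => m + 1 - i) ?_ ?_ ?_ ?_ ?_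
    · intro j hj
      rw [Finset.mem_Icc] at hj
      rw [Finset.mem_range]
      omega
    · intro i hi
      rw [Finset.mem_range] at hi
      rw [Finset.mem_Icc]
      omega
    · intro j hj
      rw [Finset.mem_Icc] at hj
      show m + 1 - (m + 1 - j) = j
      omega
    · intro i hi
      rw [Finset.mem_range] at hi
      show m + 1 - (m + 1 - i) = i
      omega
    · intro j _
      rfl
  have h5 : ∑ j ∈ Finset.Icc 1 (m + 1), ((j : ℝ) * ‖A j‖) ^ 2 = al A (m + 1) := by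
    unfold al
    exact Finset.sum_congr rfl fun j _ => by ring
  rw [h4, h5] at h3
  have h6 : 0 ≤ ((m : ℝ) + 1) * ‖D (m + 1)‖ := by positivity
  calc ((m : ℝ) + 1) ^ 2 * ‖D (m + 1)‖ ^ 2 = (((m : ℝ) + 1) * ‖D (m + 1)‖) ^ 2 := by ring
    _ ≤ (∑ j ∈ Finset.Icc 1 (m + 1), ((j : ℝ) * ‖A j‖) * ‖D (m + 1 - j)‖) ^ 2 :=
        pow_le_pow_left₀ h6 h1 2
    _ ≤ _ := h3

/-- the exponent -/
noncomputable def ss (A : ℕ → ℂ) (n : ℕ) : ℝ :=
  ∑ k ∈ Finset.Icc 1 n, (al A k - k) / (k * (k + 1))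

theorem ss_succ (A : ℕ → ℂ) (n : ℕ) :
    ss A (n + 1) = ss A n + (al A (n + 1) - (n + 1)) / (((n : ℝ) + 1) * (n + 2)) := by
  unfold ss
  rw [Finset.sum_Icc_succ_top (by omega)]
  push_cast
  ring_nf

theorem bound (A D : ℕ → ℂ) (n : ℕ) (h0 : D 0 = 1)
    (h : ∀ k, 1 ≤ k → k ≤ n → (k : ℂ) * D k = ∑ j ∈ Finset.Icc 1 k, (j : ℂ) * A j * D (k - j)) :
    ∀ k, k ≤ n → be D k ≤ ((k : ℝ) + 1) * Real.exp (ss A k) := by
  intro k
  induction k with
  | zero =>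
    intro _
    unfold be ss
    simp [h0]
  | succ m ih =>
    intro hm
    have h1 := ih (by omega)
    have h2 := cs A D m (h (m + 1) (by omega) hm)
    have hm0 : (0 : ℝ) < (m : ℝ) + 1 := by positivity
    have h3 : ‖D (m + 1)‖ ^ 2 ≤ al A (m + 1) * be D m / ((m : ℝ) + 1) ^ 2 := by
      rw [le_div_iff₀ (by positivity)]
      linarith
    rw [be_succ, ss_succ, Real.exp_add]
    set x : ℝ := (al A (m + 1) - (m + 1)) / (((m : ℝ) + 1) * (m + 2)) with hx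
    have h4 : be D m + al A (m + 1) * be D m / ((m : ℝ) + 1) ^ 2 =
        be D m * (((m : ℝ) + 2) / (m + 1) * (1 + x)) := by
      rw [hx]
      field_simp
      ring
    have h5 : 0 ≤ ((m : ℝ) + 2) / (m + 1) * (1 + x) := by
      have h6 : ((m : ℝ) + 2) / (m + 1) * (1 + x) = 1 + al A (m + 1) / ((m : ℝ) + 1) ^ 2 := by
        rw [hx]
        field_simp
        ring
      rw [h6]
      have := al_nonneg A (m + 1)
      positivity
    have h7 : 1 + x ≤ Real.exp x := by linarith [Real.add_one_le_exp x]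
    push_cast
    calc be D m + ‖D (m + 1)‖ ^ 2 ≤ be D m + al A (m + 1) * be D m / ((m : ℝ) + 1) ^ 2 := by
          linarith
      _ = be D m * (((m : ℝ) + 2) / (m + 1) * (1 + x)) := h4
      _ ≤ (((m : ℝ) + 1) * Real.exp (ss A m)) * (((m : ℝ) + 2) / (m + 1) * (1 + x)) :=
          mul_le_mul_of_nonneg_right h1 h5
      _ ≤ (((m : ℝ) + 1) * Real.exp (ss A m)) * (((m : ℝ) + 2) / (m + 1) * Real.exp x) := by
          have h8 : 0 ≤ ((m : ℝ) + 1) * Real.exp (ss A m) := by positivity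
          refine mul_le_mul_of_nonneg_left ?_ h8
          exact mul_le_mul_of_nonneg_left h7 (by positivity)
      _ = ((m : ℝ) + 1 + 1) * (Real.exp (ss A m) * Real.exp x) := by
          field_simp
          ring

/-- `∑ (k |A_k|² - 1/k)`. -/
noncomputable def uu (A : ℕ → ℂ) (n : ℕ) : ℝ :=
  ∑ k ∈ Finset.Icc 1 n, ((k : ℝ) * ‖A k‖ ^ 2 - 1 / k)

theorem uu_succ (A : ℕ → ℂ) (n : ℕ) :
    uu A (n + 1) = uu A n + (((n : ℝ) + 1) * ‖A (n + 1)‖ ^ 2 - 1 / (n + 1)) := by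
  unfold uu
  rw [Finset.sum_Icc_succ_top (by omega)]
  push_cast
  ring

theorem ss_eq (A : ℕ → ℂ) (n : ℕ) : ss A n = uu A n - (al A n - n) / (n + 1) := by
  induction n with
  | zero =>
    unfold ss uu al
    simp
  | succ m ih =>
    have h1 : (m : ℝ) + 1 ≠ 0 := by positivity
    have h2 : (m : ℝ) + 2 ≠ 0 := by positivity
    rw [ss_succ, ih, uu_succ, al_succ]
    push_cast
    have h3 : (m : ℝ) + 1 + 1 ≠ 0 := by positivity
    field_simp
    ring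

theorem tt_eq (A : ℕ → ℂ) (n : ℕ) :
    ∑ k ∈ Finset.Icc 1 n, ((n : ℝ) + 1 - k) * (k * ‖A k‖ ^ 2 - 1 / k) =
      ((n : ℝ) + 1) * ss A n := by
  induction n with
  | zero =>
    unfold ss
    simp
  | succ m ih =>
    have h0 : ∑ k ∈ Finset.Icc 1 (m + 1), (((m + 1 : ℕ) : ℝ) + 1 - k) * (k * ‖A k‖ ^ 2 - 1 / k) =
        ∑ k ∈ Finset.Icc 1 m, ((m : ℝ) + 1 - k) * (k * ‖A k‖ ^ 2 - 1 / k) + uu A (m + 1) := by
      rw [Finset.sum_Icc_succ_top (by omega), uu_succ]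
      unfold uu
      rw [← add_assoc, ← Finset.sum_add_distrib]
      congr 1
      · refine Finset.sum_congr rfl fun k _ => ?_
        push_cast
        ring
      · push_cast
        ring
    rw [h0, ih, ss_succ]
    have h1 : (m : ℝ) + 1 ≠ 0 := by positivity
    have h2 : (m : ℝ) + 2 ≠ 0 := by positivity
    have h3 := ss_eq A (m + 1)
    rw [ss_succ] at h3
    have h4 : uu A (m + 1) = ss A m + (al A (m + 1) - (m + 1)) / (((m : ℝ) + 1) * (m + 2)) +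
        (al A (m + 1) - (m + 1)) / (m + 1 + 1) := by
      rw [h3]
      push_cast
      ring
    rw [h4]
    have h5 : (m : ℝ) + 1 + 1 ≠ 0 := by positivity
    push_cast
    field_simp
    ring

end LM2_

theorem lm2_proof : Stmt_LM2 := by
  intro n A D h0 h hs
  have h1 := LM2_.bound A D n h0 h n le_rfl
  have h2 := LM2_.tt_eq A n
  rw [h2] at hs
  have hn : (0 : ℝ) < (n : ℝ) + 1 := by positivity
  have h3 : LM2_.ss A n ≤ 0 := by
    by_contra hc
    push Not at hc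
    have := mul_pos hn hc
    linarith
  have h4 : Real.exp (LM2_.ss A n) ≤ 1 := Real.exp_le_one_iff.2 h3
  calc ∑ k ∈ Finset.range (n + 1), ‖D k‖ ^ 2 ≤ ((n : ℝ) + 1) * Real.exp (LM2_.ss A n) := h1
    _ ≤ ((n : ℝ) + 1) * 1 := mul_le_mul_of_nonneg_left h4 hn.le
    _ = (n : ℝ) + 1 := mul_one _

end Pool.Agent.DBR
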