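import Pool.Agent.DBR.Stmts

/-!
DBR, module LOG: holomorphic logarithms on the disc.
-/

set_option autoImplicit false

namespace Pool.Agent.DBR

open Complex Metric Set Filter MeasureTheory

open scoped Topology ComplexConjugate

open Pool.Agent.PSB (InS coeff psum Lam SelfU)

theorem log_proof : Stmt_LOG := by
  intro F hF hne h0
  have hg : DifferentiableOn ℂ (fun z => deriv F z / F z) (ball 0 1) :=
    (hF.deriv isOpen_ball).div hF hne
  obtain ⟨l, hl0, hl⟩ := hg.isExactOn_ball.with_val_at 0 0
  have hld : DifferentiableOn ℂ l (ball 0 1) := fun z hz =>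
    (hl z hz).differentiableAt.differentiableWithinAt
  refine ⟨l, hld, hl0, ?_⟩
  have hder : ∀ z ∈ ball (0 : ℂ) 1, HasDerivAt (fun z => F z * Complex.exp (-l z)) 0 z := by
    intro z hz
    have h1 : HasDerivAt F (deriv F z) z :=
      (hF.differentiableAt (isOpen_ball.mem_nhds hz)).hasDerivAt
    have h2 : HasDerivAt (fun z => Complex.exp (-l z)) (Complex.exp (-l z) * -(deriv F z / F z)) z :=
      ((hl z hz).neg).cexp
    have h3 := h1.mul h2
    have e : deriv F z * Complex.exp (-l z) + F z * (Complex.exp (-l z) * -(deriv F z / F z)) = 0 := by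
      have := hne z hz
      field_simp
      ring
    rwa [e] at h3
  intro z hz
  have hb0 : (0 : ℂ) ∈ ball (0 : ℂ) 1 := mem_ball_self one_pos
  have hc : F z * Complex.exp (-l z) = F 0 * Complex.exp (-l 0) := by
    refine (convex_ball (0 : ℂ) 1).is_const_of_fderivWithin_eq_zero (𝕜 := ℂ)
      (fun w hw => (hder w hw).differentiableAt.differentiableWithinAt) ?_ hz hb0
    intro w hw
    rw [fderivWithin_of_isOpen isOpen_ball hw]
    have := (hder w hw).hasFDerivAt.fderiv
    rw [this]
    ext
    simp
  rw [h0, hl0] at hc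
  have : F z = (F z * Complex.exp (-l z)) * Complex.exp (l z) := by
    rw [mul_assoc, ← Complex.exp_add]
    simp
  rw [this, hc]
  simp

end Pool.Agent.DBR
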