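import Pool.Agent.DBR.Stmts

set_option autoImplicit false

/-!
Univalent functions: LSE, existence and uniqueness of the logarithm of `f z / z`.
-/

namespace Pool.Agent.DBR

open Complex Metric Set Filter MeasureTheory

open scoped Topology ComplexConjugate

open Pool.Agent.PSB (InS coeff psum Lam SelfU)

namespace LSE_

theorem exists_isLog (hLOG : Stmt_LOG) {f : ℂ → ℂ} (hf : InSS f) : ∃ l, IsLog f l := by
  have hud : DifferentiableOn ℂ (dslope f 0) (ball 0 1) :=
    (Complex.differentiableOn_dslope ball_mem).2 hf.diff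
  have hu0 : dslope f 0 0 = 1 := by rw [dslope_same, hf.one]
  have hune : ∀ z ∈ ball (0 : ℂ) 1, dslope f 0 z ≠ 0 := by
    intro z hz
    by_cases h : z = 0
    · rw [h, hu0]; exact one_ne_zero
    · rw [dslope_of_ne _ h, slope_def_field, hf.zero, sub_zero, sub_zero]
      exact div_ne_zero (hf.ne_zero hz h) h
  obtain ⟨l, h1, h2, h3⟩ := hLOG (dslope f 0) hud hune hu0
  refine ⟨l, h1, h2, fun z hz => ?_⟩
  rw [← h3 z hz]
  by_cases h : z = 0
  · simp [h, hf.zero]
  · rw [dslope_of_ne _ h, slope_def_field, hf.zero, sub_zero, sub_zero]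
    field_simp

theorem uniq {f l l' : ℂ → ℂ} (h : IsLog f l) (h' : IsLog f l') {z : ℂ}
    (hz : z ∈ ball (0 : ℂ) 1) : l z = l' z := by
  set g : ℂ → ℂ := fun z => l z - l' z with hg
  have hgd : DifferentiableOn ℂ g (ball 0 1) := h.diff.sub h'.diff
  have hexp : ∀ w ∈ ball (0 : ℂ) 1, Complex.exp (g w) = 1 := by
    intro w hw
    by_cases h0 : w = 0
    · simp [hg, h0, h.zero, h'.zero]
    · have h1 := h.eq w hw
      have h2 := h'.eq w hw
      have h3 : Complex.exp (l w) = Complex.exp (l' w) :=
        mul_left_cancel₀ h0 (h1.symm.trans h2)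
      simp only [hg]
      rw [Complex.exp_sub, h3, div_self (Complex.exp_ne_zero _)]
  have hder : EqOn (deriv g) 0 (ball 0 1) := by
    intro w hw
    have h1 : HasDerivAt g (deriv g w) w :=
      (hgd.differentiableAt (isOpen_ball.mem_nhds hw)).hasDerivAt
    have h2 := h1.cexp
    have h3 : (fun z => Complex.exp (g z)) =ᶠ[𝓝 w] fun _ => 1 := by
      filter_upwards [isOpen_ball.mem_nhds hw] with z hz
      exact hexp z hz
    have h4 := h3.deriv_eq
    rw [h2.deriv] at h4
    simp only [deriv_const] at h4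
    rcases mul_eq_zero.1 h4 with h5 | h5
    · exact absurd h5 (Complex.exp_ne_zero _)
    · exact h5
  have h1 := isOpen_ball.is_const_of_deriv_eq_zero (convex_ball (0 : ℂ) 1).isPreconnected hgd hder
    hz zero_mem
  simp only [hg, h.zero, h'.zero, sub_zero] at h1
  exact sub_eq_zero.1 h1

end LSE_

open LSE_ in
theorem lse_proof (hLOG : Stmt_LOG) : Stmt_LSE := by
  refine ⟨fun f hf => ?_, fun f l l' h h' z hz => uniq h h' hz⟩
  have h := exists_isLog hLOG hf
  unfold lg
  rw [dif_pos h]
  exact h.choose_spec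

end Pool.Agent.DBR
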