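import Pool.Agent.DBR.Stmts

set_option autoImplicit false

/-!
Squad DBR, module LST: the step for the logarithmic coefficients.
-/

namespace Pool.Agent.DBR

open Complex Metric Set Filter MeasureTheory
open scoped Topology ComplexConjugate
open Pool.Agent.PSB (InS coeff psum Lam SelfU)

namespace LST_

theorem isLog_step (hLSE : Stmt_LSE) {M ε : ℝ} {f g p : ℂ → ℂ} (hε : 0 < ε) (hg : InS M g)
    (hs : Step ε f g p) : IsLog f (fun z => (ε - ε * p z) + lg g (om ε p z)) := by
  have hlg := hLSE.1 g (toSS hg)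
  have hcar := hs.car
  have hmaps : MapsTo (om ε p) (ball 0 1) (ball 0 1) := fun z hz => om_mem hε.le hcar hz
  refine ⟨?_, ?_, ?_⟩
  · exact ((differentiableOn_const _).sub (hcar.diff.const_mul _)).add
      (hlg.diff.comp (om_diff hcar) hmaps)
  · simp only [om_zero, hlg.zero, hcar.zero]
    ring
  · intro z hz
    rw [hs.eq z hz, hlg.eq _ (om_mem hε.le hcar hz), Complex.exp_add, Complex.exp_sub]
    have e : om ε p z = z * (Complex.exp (ε * p z))⁻¹ := by
      unfold om
      rw [Complex.exp_neg]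
    have e' : Complex.exp ε * (om ε p z * Complex.exp (lg g (om ε p z))) =
        om ε p z * (Complex.exp ε * Complex.exp (lg g (om ε p z))) := by ring
    rw [e']
    nth_rewrite 1 [e]
    ring

end LST_

open LST_ in
theorem lst_proof (hLSE : Stmt_LSE) (hCMP : Stmt_CMP) (hEXP : Stmt_EXP) (hLCB : Stmt_LCB)
    (_hQMO : Stmt_QMO) : Stmt_LST := by
  intro n M
  obtain ⟨C1, hC1, h1⟩ := hEXP n
  obtain ⟨B, hB, h2⟩ := hLCB n M
  refine ⟨n * (B * C1), by positivity, ?_⟩
  intro ε f g p hε hε1 hf hg hs k hk hkn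
  have hlf := hLSE.1 f (toSS hf)
  have hlg := hLSE.1 g (toSS hg)
  have hcar := hs.car
  have hmaps : MapsTo (om ε p) (ball 0 1) (ball 0 1) := fun z hz => om_mem hε.le hcar hz
  have hl := isLog_step hLSE hε hg hs
  have hk0 : k ≠ 0 := by omega
  have e1 : lc f k = coeff (fun z => (ε - ε * p z) + lg g (om ε p z)) k :=
    coeff_congr_ball one_pos (fun z hz => hLSE.2 f _ _ hlf hl z (by rwa [mem_ball_zero_iff])) k
  have a0 : AnalyticAt ℂ (fun z => (ε : ℂ) * p z) 0 := analyticAt_const.mul hcar.analyticAt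
  have a1 : AnalyticAt ℂ (fun z => (ε : ℂ) - ε * p z) 0 := analyticAt_const.sub a0
  have a2 : AnalyticAt ℂ (fun z => lg g (om ε p z)) 0 :=
    analyticAt_of_ball one_pos (hlg.diff.comp (om_diff hcar) hmaps)
  have a3 : AnalyticAt ℂ (om ε p) 0 := analyticAt_of_ball one_pos (om_diff hcar)
  have a4 : AnalyticAt ℂ (lg g) 0 := analyticAt_of_ball one_pos hlg.diff
  have e2 : lc f k = -(ε * coeff p k) + coeff (fun z => lg g (om ε p z)) k := by
    rw [e1, coeff_add a1 a2, coeff_sub analyticAt_const a0, coeff_const, if_neg hk0,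
      coeff_const_mul hcar.analyticAt]
    ring
  have e3 : coeff (fun z => lg g (om ε p z)) k =
      ∑ j ∈ Finset.Icc 1 k, lc g j * coeff (fun z => om ε p z ^ j) k := by
    rw [hCMP (lg g) (om ε p) a4 a3 (om_zero ε p) k]
    have hr : Finset.range (k + 1) = insert 0 (Finset.Icc 1 k) := by
      ext j
      simp only [Finset.mem_range, Finset.mem_insert, Finset.mem_Icc]
      omega
    rw [hr, Finset.sum_insert (by simp)]
    rw [coeff_zero, hlg.zero, zero_mul, zero_add]
    rfl
  have e4 : ∑ j ∈ Finset.Icc 1 k, lc g j * ((if j = k then 1 else 0) - ε * j * coeff p (k - j)) =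
      lc g k - ε * ((k : ℂ) * lc g k +
        ∑ j ∈ Finset.Ico 1 k, (j : ℂ) * lc g j * coeff p (k - j)) := by
    have hr : Finset.Icc 1 k = insert k (Finset.Ico 1 k) := by
      ext j
      simp only [Finset.mem_insert, Finset.mem_Icc, Finset.mem_Ico]
      omega
    rw [hr, Finset.sum_insert (by simp)]
    have hp0 : coeff p 0 = 1 := by rw [coeff_zero, hcar.zero]
    rw [if_pos rfl, Nat.sub_self, hp0]
    have e5 : ∑ j ∈ Finset.Ico 1 k,
        lc g j * ((if j = k then 1 else 0) - ε * j * coeff p (k - j)) =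
        -(ε * ∑ j ∈ Finset.Ico 1 k, (j : ℂ) * lc g j * coeff p (k - j)) := by
      rw [Finset.mul_sum, ← Finset.sum_neg_distrib]
      refine Finset.sum_congr rfl fun j hj => ?_
      have : j ≠ k := by
        have := (Finset.mem_Ico.1 hj).2
        omega
      rw [if_neg this]
      ring
    rw [e5]
    ring
  have e6 : lc f k - (lc g k - ε * ((k : ℂ) * lc g k + coeff p k +
      ∑ j ∈ Finset.Ico 1 k, (j : ℂ) * lc g j * coeff p (k - j))) =
      ∑ j ∈ Finset.Icc 1 k, lc g j * (coeff (fun z => om ε p z ^ j) k -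
        ((if j = k then 1 else 0) - ε * j * coeff p (k - j))) := by
    have : ∑ j ∈ Finset.Icc 1 k, lc g j * (coeff (fun z => om ε p z ^ j) k -
        ((if j = k then 1 else 0) - ε * j * coeff p (k - j))) =
        ∑ j ∈ Finset.Icc 1 k, lc g j * coeff (fun z => om ε p z ^ j) k -
        ∑ j ∈ Finset.Icc 1 k, lc g j * ((if j = k then 1 else 0) - ε * j * coeff p (k - j)) := by
      rw [← Finset.sum_sub_distrib]
      refine Finset.sum_congr rfl fun j _ => ?_
      ring
    rw [this, ← e3, e4, e2]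
    ring
  rw [e6]
  calc ‖∑ j ∈ Finset.Icc 1 k, lc g j * (coeff (fun z => om ε p z ^ j) k -
        ((if j = k then 1 else 0) - ε * j * coeff p (k - j)))‖
      ≤ ∑ j ∈ Finset.Icc 1 k, ‖lc g j * (coeff (fun z => om ε p z ^ j) k -
        ((if j = k then 1 else 0) - ε * j * coeff p (k - j)))‖ := norm_sum_le _ _
    _ ≤ ∑ _j ∈ Finset.Icc 1 k, B * (C1 * ε ^ 2) := by
        refine Finset.sum_le_sum fun j hj => ?_
        obtain ⟨hj1, hj2⟩ := Finset.mem_Icc.1 hj
        rw [norm_mul]
        exact mul_le_mul (h2 g hg j (hj2.trans hkn)) (h1 ε p hε hε1 hcar j k hj1 hj2 hkn)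
          (norm_nonneg _) hB
    _ = (k : ℝ) * (B * (C1 * ε ^ 2)) := by
        rw [Finset.sum_const, Nat.card_Icc, nsmul_eq_mul]
        simp
    _ ≤ (n : ℝ) * (B * (C1 * ε ^ 2)) := by
        have : (k : ℝ) ≤ n := by exact_mod_cast hkn
        exact mul_le_mul_of_nonneg_right this (by positivity)
    _ = n * (B * C1) * ε ^ 2 := by ring

end Pool.Agent.DBR
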