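import Pool.Agent.DBR.Stmts

/-!
# Squad DBR (MP_910507_an): module MIL
-/

set_option autoImplicit false

namespace Pool.Agent.DBR

open Complex Metric Set Filter MeasureTheory

open scoped Topology ComplexConjugate

open Pool.Agent.PSB (InS coeff psum Lam SelfU)

namespace MIL_

theorem lc_one (hLSE : Stmt_LSE) {g : ℂ → ℂ} (hg : InS 1 g) (k : ℕ) : lc g k = 0 := by
  have h1 : IsLog g (lg g) := hLSE.1 g (toSS hg)
  have h2 : IsLog g (fun _ => 0) := by
    refine ⟨differentiableOn_const _, rfl, fun z hz => ?_⟩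
    rw [eq_id_of_inS_one hg hz, Complex.exp_zero, mul_one]
  have h3 := hLSE.2 g _ _ h1 h2
  unfold lc
  rw [coeff_congr_ball one_pos (fun z hz => h3 z (by rwa [mem_ball_zero_iff])) k, coeff_const]
  split_ifs <;> rfl

end MIL_

open MIL_

theorem mil_proof (hREC : Stmt_REC) (hFDB : Stmt_FDB) (hTWP : Stmt_TWP) (hTW1 : Stmt_TW1)
    (hLSE : Stmt_LSE) : Stmt_MIL := by
  intro M f hf n
  have hM : 1 ≤ M := one_le_of_inS hf
  obtain ⟨C, hC, hstep⟩ := hFDB n M
  have hlog : 0 ≤ Real.log M := Real.log_nonneg hM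
  have hall : ∀ x : ℝ, 0 < x → Phi n 0 f ≤ x := by
    refine hREC M C (fun t x f => Phi n t f ≤ x) hM hC (fun t x x' f hx h => h.trans hx) ?_ ?_ f hf
    · intro ε t x f g p hε hε1 ht _ hx hf hg hs hP
      have h1 := hstep ε t f g p hε hε1 ht hf hg hs
      have h2 : 0 ≤ C * ε * x := by positivity
      have h3 : Phi n (t + ε) g ≤ x := hP
      show Phi n t f ≤ (1 + C * ε) * x + C * ε ^ 2
      nlinarith
    · intro g hg
      show Phi n (Real.log M) g ≤ 0
      unfold Phi
      refine Finset.sum_nonpos fun k hk => ?_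
      rw [Finset.mem_Icc] at hk
      have hexp : Real.exp (-Real.log M) ≤ 1 := Real.exp_le_one_iff.2 (by linarith)
      have h1 := hTWP n k (Real.exp (-Real.log M)) hk.1 (Real.exp_pos _).le hexp
      rw [lc_one hLSE hg k, norm_zero]
      refine mul_nonpos_of_nonneg_of_nonpos h1 ?_
      have h2 : (0 : ℝ) ≤ 4 / (k : ℝ) := by positivity
      have h3 : (k : ℝ) * (0 : ℝ) ^ 2 = 0 := by ring
      rw [h3]
      linarith
  have h0 : Phi n 0 f ≤ 0 := le_of_forall_pos_le_add fun ε hε => by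
    rw [zero_add]
    exact hall ε hε
  have heq : Phi n 0 f = ∑ k ∈ Finset.Icc 1 n, ((n : ℝ) + 1 - k) * (k * ‖lc f k‖ ^ 2 - 4 / k) := by
    unfold Phi
    refine Finset.sum_congr rfl fun k hk => ?_
    rw [Finset.mem_Icc] at hk
    rw [neg_zero, Real.exp_zero, hTW1 n k hk.1 (hk.2.trans (Nat.le_succ n))]
  rw [← heq]
  exact h0

end Pool.Agent.DBR
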