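import Pool.Agent.DBR.Stmts

/-!
Squad DBR (MP_910507_an): module MON, normal families.
-/

set_option autoImplicit false

namespace Pool.Agent.DBR

open Complex Metric Set Filter MeasureTheory

open scoped Topology ComplexConjugate

open Pool.Agent.PSB (InS coeff psum Lam SelfU)

namespace MON_

theorem subset_closedBall {K : Set ℂ} (hK : K ⊆ ball (0 : ℂ) 1) (hc : IsCompact K) :
    ∃ r : ℝ, 0 ≤ r ∧ r < 1 ∧ ∀ z ∈ K, ‖z‖ ≤ r := by
  rcases K.eq_empty_or_nonempty with h | h
  · refine ⟨0, le_refl 0, one_pos, ?_⟩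
    intro z hz
    rw [h] at hz
    exact absurd hz (notMem_empty z)
  · obtain ⟨z₀, hz₀, hmax⟩ := hc.exists_isMaxOn h (continuous_norm.continuousOn)
    refine ⟨‖z₀‖, norm_nonneg _, mem_ball_zero_iff.mp (hK hz₀), fun z hz => hmax hz⟩

end MON_

theorem mon_proof : Stmt_MON := by
  intro R f hf hR
  have hR0 : 0 ≤ R := (norm_nonneg _).trans (hR 0 0 zero_mem)
  have ha : ∀ n k, ‖coeff (f n) k‖ ≤ R := fun n k => norm_coeff_le_of_ball (hf n) (hR n) k
  have hcpt : IsCompact (Set.pi Set.univ fun _ : ℕ => closedBall (0 : ℂ) R) :=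
    isCompact_univ_pi fun _ => isCompact_closedBall 0 R
  obtain ⟨c, hc, φ, hφ, hlim⟩ := hcpt.tendsto_subseq (x := fun n k => coeff (f n) k) (by
    intro n k _
    rw [mem_closedBall_zero_iff]
    exact ha n k)
  have hcR : ∀ k, ‖c k‖ ≤ R := fun k => mem_closedBall_zero_iff.mp (hc k (mem_univ k))
  have hk : ∀ k, Tendsto (fun n => coeff (f (φ n)) k) atTop (𝓝 (c k)) := by
    intro k
    exact (tendsto_pi_nhds.mp hlim) k
  obtain ⟨F, hF⟩ : ∃ F : ℂ → ℂ, F = fun z => ∑' k, c k * z ^ k := ⟨_, rfl⟩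
  have hunif : TendstoLocallyUniformlyOn (fun n => f (φ n)) F atTop (ball 0 1) := by
    rw [tendstoLocallyUniformlyOn_iff_forall_isCompact isOpen_ball]
    intro K hK hKc
    obtain ⟨r, hr0, hr1, hKr⟩ := MON_.subset_closedBall hK hKc
    have hgeo : Summable fun k : ℕ => 2 * R * r ^ k :=
      (summable_geometric_of_lt_one hr0 hr1).mul_left _
    have hb : ∀ n k, ‖coeff (f (φ n)) k - c k‖ * r ^ k ≤ 2 * R * r ^ k := by
      intro n k
      apply mul_le_mul_of_nonneg_right _ (pow_nonneg hr0 k)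
      calc ‖coeff (f (φ n)) k - c k‖ ≤ ‖coeff (f (φ n)) k‖ + ‖c k‖ := norm_sub_le _ _
        _ ≤ R + R := add_le_add (ha _ _) (hcR k)
        _ = 2 * R := by ring
    have hs : ∀ n, Summable fun k => ‖coeff (f (φ n)) k - c k‖ * r ^ k := fun n =>
      Summable.of_nonneg_of_le (fun k => mul_nonneg (norm_nonneg _) (pow_nonneg hr0 k)) (hb n) hgeo
    have h0 : Tendsto (fun n => ∑' k, ‖coeff (f (φ n)) k - c k‖ * r ^ k) atTop
        (𝓝 (∑' _ : ℕ, (0 : ℝ))) := by
      apply tendsto_tsum_of_dominated_convergence hgeo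
      · intro k
        have h1 : Tendsto (fun n => ‖coeff (f (φ n)) k - c k‖ * r ^ k) atTop
            (𝓝 (‖c k - c k‖ * r ^ k)) := (((hk k).sub_const (c k)).norm).mul_const _
        simpa using h1
      · refine Eventually.of_forall fun n k => ?_
        rw [Real.norm_of_nonneg (mul_nonneg (norm_nonneg _) (pow_nonneg hr0 k))]
        exact hb n k
    rw [tsum_zero] at h0
    rw [Metric.tendstoUniformlyOn_iff]
    intro ε hε
    filter_upwards [h0.eventually (gt_mem_nhds hε)] with n hn z hz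
    refine lt_of_le_of_lt ?_ hn
    have hzr := hKr z hz
    have hs1 : HasSum (fun k => coeff (f (φ n)) k * z ^ k) (f (φ n) z) :=
      hasSum_coeff (hf _) (mem_ball_zero_iff.mp (hK hz))
    have hterm : ∀ k, ‖coeff (f (φ n)) k * z ^ k - c k * z ^ k‖ ≤
        ‖coeff (f (φ n)) k - c k‖ * r ^ k := by
      intro k
      rw [← sub_mul, norm_mul, norm_pow]
      exact mul_le_mul_of_nonneg_left (pow_le_pow_left₀ (norm_nonneg _) hzr k) (norm_nonneg _)
    have hs2 : Summable fun k => coeff (f (φ n)) k * z ^ k - c k * z ^ k :=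
      Summable.of_norm_bounded (hs n) hterm
    have hs3 : Summable fun k => c k * z ^ k := by
      have := hs1.summable.sub hs2
      simpa using this
    have e1 : f (φ n) z - F z = ∑' k, (coeff (f (φ n)) k * z ^ k - c k * z ^ k) := by
      rw [hs1.summable.tsum_sub hs3, hs1.tsum_eq, hF]
    rw [dist_comm, dist_eq_norm, e1]
    exact tsum_of_norm_bounded (hs n).hasSum hterm
  refine ⟨φ, hφ, F, ?_, hunif⟩
  exact hunif.differentiableOn (Eventually.of_forall fun n => hf (φ n)) isOpen_ball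

end Pool.Agent.DBR
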