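import Pool.Agent.DBR.Stmts

set_option autoImplicit false

namespace Pool.Agent.DBR

open Complex Metric Set Filter MeasureTheory
open scoped Topology ComplexConjugate
open Pool.Agent.PSB (InS coeff psum Lam SelfU)

theorem n3r_proof : Stmt_N3R := by
  intro M hM h1 h2
  have hM0 : 0 < M := by linarith
  have hcont : ∀ a : ℝ, ContinuousOn (fun s : ℝ => s * Real.log s) (Icc a 1) := fun a =>
    Real.continuous_mul_log.continuousOn
  have hq : 1 / 4 - 1 / M ≤ 0 := by
    have : 1 / 4 ≤ 1 / M := one_div_le_one_div_of_le hM0 h2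
    linarith
  have key : ∀ a : ℝ, a ≤ 1 → a * Real.log a ≤ 1 / 4 - 1 / M →
      ∃ s : ℝ, a ≤ s ∧ s ≤ 1 ∧ s * Real.log s = 1 / 4 - 1 / M := by
    intro a ha h
    have h3 := intermediate_value_Icc ha (hcont a)
    have h4 : (1 / 4 - 1 / M : ℝ) ∈ Icc ((fun s : ℝ => s * Real.log s) a)
        ((fun s : ℝ => s * Real.log s) 1) := by
      refine ⟨h, ?_⟩
      simpa using hq
    obtain ⟨s, hs, hs2⟩ := h3 h4
    exact ⟨s, hs.1, hs.2, hs2⟩
  rcases le_total (1 / M) (Real.exp (-1)) with h | h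
  · obtain ⟨s, hs1, hs2, hs3⟩ := key (Real.exp (-1)) (by
      rw [Real.exp_le_one_iff]; norm_num) (by
      rw [Real.log_exp]
      linarith)
    exact ⟨s, hs1, h.trans hs1, hs2, hs3⟩
  · obtain ⟨s, hs1, hs2, hs3⟩ := key (1 / M) (by
      rw [div_le_one hM0]; exact hM.le) (by
      rw [one_div, Real.log_inv]
      have h5 : M⁻¹ * (4 - M - 4 * Real.log M) ≤ 0 :=
        mul_nonpos_of_nonneg_of_nonpos (by positivity) (by linarith)
      have h6 : M⁻¹ * M = 1 := inv_mul_cancel₀ hM0.ne'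
      nlinarith)
    exact ⟨s, h.trans hs1, hs1, hs2, hs3⟩

end Pool.Agent.DBR
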