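import Pool.Agent.DBR.Stmts

set_option autoImplicit false

/-!
The bound of Pick for the second coefficient (module PA2 of the squad DBR, MP_910507_an).
-/

namespace Pool.Agent.DBR

open Complex Metric Set Filter MeasureTheory

open scoped Topology ComplexConjugate

open Pool.Agent.PSB (InS coeff psum Lam SelfU)

namespace PA2_

theorem exp_bd {ε : ℝ} (h0 : 0 < ε) (h1 : ε ≤ 1) : |Real.exp (-ε) - 1 + ε| ≤ ε ^ 2 := by
  have h := Real.abs_exp_sub_one_sub_id_le (x := -ε) (by rw [abs_neg, abs_of_pos h0]; exact h1)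
  have e : Real.exp (-ε) - 1 - -ε = Real.exp (-ε) - 1 + ε := by ring
  rw [e, neg_sq] at h
  exact h

theorem key (hREC : Stmt_REC) (hAST : Stmt_AST) (hQMO : Stmt_QMO) (M : ℝ) (f : ℂ → ℂ)
    (hf : InS M f) (w : ℂ) (hw : ‖w‖ = 1) (x : ℝ) (hx : 0 < x) :
    (w * coeff f 2).re ≤ 2 * (1 - 1 / M) + x := by
  have hM := one_le_of_inS hf
  have hM0 : 0 < M := by linarith
  obtain ⟨C, hC, hA⟩ := hAST 2 M
  have h := hREC M (2 + M + C) (fun t x f => Real.exp (-t) * (w * coeff f 2).re ≤
    2 * (Real.exp (-t) - 1 / M) + x) hM (by positivity) ?_ ?_ ?_ f hf x hx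
  · simpa using h
  · intro t x x' f hxx h
    linarith
  · intro ε t x f g p h0 h1 ht _ hx hf hg hs h
    have a1 := hA ε f g p h0 h1 hf hg hs 2 (by norm_num) le_rfl
    have a2 : ∑ j ∈ Finset.Ico (1 : ℕ) 2, (j : ℂ) * coeff g j * coeff p (2 - j) = coeff p 1 := by
      rw [Finset.sum_Ico_succ_top (by norm_num), Finset.Ico_self]
      simp [(toSS hg).coeff_one]
    rw [a2] at a1
    set D : ℂ := coeff f 2 - (coeff g 2 - ε * ((((2 : ℕ) : ℂ) - 1) * coeff g 2 + coeff p 1))
      with hD
    have a3 : coeff f 2 = (1 - ε) * coeff g 2 - ε * coeff p 1 + D := by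
      rw [hD]; push_cast; ring
    have a4 : (w * coeff f 2).re = (1 - ε) * (w * coeff g 2).re - ε * (w * coeff p 1).re +
        (w * D).re := by
      rw [a3]
      simp only [mul_add, mul_sub, Complex.add_re, Complex.sub_re]
      have r1 : (w * ((1 - (ε : ℂ)) * coeff g 2)).re = (1 - ε) * (w * coeff g 2).re := by
        rw [show w * ((1 - (ε : ℂ)) * coeff g 2) = ((1 - ε : ℝ) : ℂ) * (w * coeff g 2) by
          push_cast; ring, Complex.re_ofReal_mul]
      have r2 : (w * ((ε : ℂ) * coeff p 1)).re = ε * (w * coeff p 1).re := by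
        rw [show w * ((ε : ℂ) * coeff p 1) = (ε : ℂ) * (w * coeff p 1) by ring,
          Complex.re_ofReal_mul]
      rw [r1, r2]
    have b1 : |(w * D).re| ≤ C * ε ^ 2 := by
      refine (Complex.abs_re_le_norm _).trans ?_
      rw [norm_mul, hw, one_mul]
      exact a1
    have b2 : |(w * coeff p 1).re| ≤ 2 := by
      refine (Complex.abs_re_le_norm _).trans ?_
      rw [norm_mul, hw, one_mul]
      exact ((hQMO p hs.car).2.2 1 le_rfl).1
    have b3 : |(w * coeff g 2).re| ≤ M := by
      refine (Complex.abs_re_le_norm _).trans ?_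
      rw [norm_mul, hw, one_mul]
      exact norm_coeff_le_of_inS hg 2
    have b4 := exp_bd h0 h1
    have ht0 : 0 < Real.exp (-t) := Real.exp_pos _
    have ht1 : Real.exp (-t) ≤ 1 := Real.exp_le_one_iff.2 (by linarith)
    have ht2 : Real.exp (-(t + ε)) = Real.exp (-t) * Real.exp (-ε) := by
      rw [← Real.exp_add]; ring_nf
    rw [ht2] at h
    rw [a4]
    set u := Real.exp (-t) with hu
    set v := Real.exp (-ε) with hv
    set a := (w * coeff g 2).re with ha
    set b := (w * coeff p 1).re with hb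
    set d := (w * D).re with hd
    have b4' := abs_le.1 b4
    have b1' := abs_le.1 b1
    have b2' := abs_le.1 b2
    have hC2 : 0 ≤ C * ε ^ 2 := by positivity
    -- u * d ≤ C ε²
    have c1 : u * d ≤ C * ε ^ 2 := by
      calc u * d ≤ u * (C * ε ^ 2) := mul_le_mul_of_nonneg_left b1'.2 ht0.le
        _ ≤ 1 * (C * ε ^ 2) := mul_le_mul_of_nonneg_right ht1 hC2
        _ = C * ε ^ 2 := one_mul _
    have c2 : -(u * (ε * b)) ≤ 2 * u * ε := by
      have : 0 ≤ u * ε := by positivity
      nlinarith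
    have c3 : u * ((1 - ε - v) * a) ≤ M * ε ^ 2 := by
      have h2 : |(1 - ε - v) * a| ≤ ε ^ 2 * M := by
        rw [abs_mul]
        refine mul_le_mul ?_ b3 (abs_nonneg _) (by positivity)
        rw [show 1 - ε - v = -(v - 1 + ε) by ring, abs_neg]
        exact b4
      have h3 := (abs_le.1 h2).2
      have h4 : 0 ≤ ε ^ 2 * M := by positivity
      calc u * ((1 - ε - v) * a) ≤ u * (ε ^ 2 * M) := mul_le_mul_of_nonneg_left h3 ht0.le
        _ ≤ 1 * (ε ^ 2 * M) := mul_le_mul_of_nonneg_right ht1 h4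
        _ = M * ε ^ 2 := by ring
    have c4 : u * (v + ε) ≤ u + ε ^ 2 := by
      have h5 : u * (v - 1 + ε) ≤ ε ^ 2 := by
        calc u * (v - 1 + ε) ≤ u * ε ^ 2 := mul_le_mul_of_nonneg_left b4'.2 ht0.le
          _ ≤ 1 * ε ^ 2 := mul_le_mul_of_nonneg_right ht1 (by positivity)
          _ = ε ^ 2 := one_mul _
      nlinarith
    have c5 : 0 ≤ (2 + M + C) * ε * x := by positivity
    nlinarith
  · intro g hg
    rw [coeff_of_inS_one hg 2]
    have : Real.exp (-Real.log M) = 1 / M := by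
      rw [Real.exp_neg, Real.exp_log hM0, one_div]
    rw [this]
    simp

end PA2_

open PA2_

theorem pa2_proof (hREC : Stmt_REC) (hAST : Stmt_AST) (hQMO : Stmt_QMO) : Stmt_PA2 := by
  intro M f hf
  refine le_of_forall_pos_le_add fun x hx => ?_
  by_cases h : coeff f 2 = 0
  · rw [h, norm_zero]
    have hM := one_le_of_inS hf
    have : 1 / M ≤ 1 := by
      rw [div_le_one (by linarith)]
      exact hM
    nlinarith
  · have hn : ‖coeff f 2‖ ≠ 0 := norm_ne_zero_iff.2 h
    have hw : ‖conj (coeff f 2) / (‖coeff f 2‖ : ℂ)‖ = 1 := by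
      rw [norm_div, Complex.norm_conj, Complex.norm_real, norm_norm, div_self hn]
    have h1 := key hREC hAST hQMO M f hf _ hw x hx
    have h2 : conj (coeff f 2) / (‖coeff f 2‖ : ℂ) * coeff f 2 = (‖coeff f 2‖ : ℂ) := by
      have hn' : (‖coeff f 2‖ : ℂ) ≠ 0 := by exact_mod_cast hn
      rw [div_mul_eq_mul_div, Complex.conj_mul', div_eq_iff hn']
      ring
    rw [h2, Complex.ofReal_re] at h1
    exact h1

end Pool.Agent.DBR
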