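import Pool.Agent.DBR.Stmts

set_option autoImplicit false

namespace Pool.Agent.DBR

open Complex Metric Set Filter MeasureTheory

open scoped Topology ComplexConjugate

open Pool.Agent.PSB (InS coeff psum Lam SelfU)

namespace PCO_

/-- The Taylor series as a formal power series. -/
noncomputable def ps (f : ℂ → ℂ) : PowerSeries ℂ := PowerSeries.mk (fun k => coeff f k)

theorem coeff_ps (f : ℂ → ℂ) (k : ℕ) : PowerSeries.coeff k (ps f) = coeff f k := by
  simp [ps]

theorem ps_mul {f g : ℂ → ℂ} (hf : AnalyticAt ℂ f 0) (hg : AnalyticAt ℂ g 0) :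
    ps (fun z => f z * g z) = ps f * ps g := by
  ext k
  rw [coeff_ps, coeff_mul hf hg, PowerSeries.coeff_mul]
  refine Finset.sum_congr rfl fun ij _ => ?_
  rw [coeff_ps, coeff_ps]

theorem ps_const_mul {f : ℂ → ℂ} (hf : AnalyticAt ℂ f 0) (c : ℂ) :
    ps (fun z => c * f z) = PowerSeries.C c * ps f := by
  ext k
  rw [coeff_ps, coeff_const_mul hf, PowerSeries.coeff_C_mul, coeff_ps]

theorem ps_one_sub {f : ℂ → ℂ} (hf : AnalyticAt ℂ f 0) :
    ps (fun z => 1 - f z) = 1 - ps f := by
  ext k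
  rw [coeff_ps, coeff_sub analyticAt_const hf, coeff_const, map_sub, coeff_ps,
    PowerSeries.coeff_one]

theorem ps_id : ps (fun z => z) = PowerSeries.X := by
  ext k
  rw [coeff_ps, PowerSeries.coeff_X]
  refine coeff_eq_of_hasSum (a := fun k => if k = 1 then (1 : ℂ) else 0) one_pos
    (fun z _ => ?_) k
  have := hasSum_single (f := fun k : ℕ => (if k = 1 then (1 : ℂ) else 0) * z ^ k) 1
    (fun k hk => by simp [hk])
  simpa using this

theorem ps_congr {f g : ℂ → ℂ} (h : ∀ z ∈ ball (0 : ℂ) 1, f z = g z) : ps f = ps g := by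
  ext k
  rw [coeff_ps, coeff_ps]
  exact coeff_congr_ball one_pos (fun z hz => h z (by rwa [mem_ball_zero_iff])) k

theorem kb_series (hKIN : Stmt_KIN) : ps Kb * (1 - PowerSeries.X) ^ 2 = PowerSeries.X := by
  have hK : AnalyticAt ℂ Kb 0 := hKIN.2.2.2.analyticAt
  have hid : AnalyticAt ℂ (fun z : ℂ => z) 0 := analyticAt_id
  have h1 : AnalyticAt ℂ (fun z : ℂ => 1 - z) 0 := analyticAt_const.sub hid
  have h2 : AnalyticAt ℂ (fun z : ℂ => (1 - z) * (1 - z)) 0 := h1.mul h1
  have e : ps (fun z => Kb z * ((1 - z) * (1 - z))) = ps (fun z => z) := by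
    refine ps_congr fun z hz => ?_
    have hne : (1 : ℂ) - z ≠ 0 := by
      intro h
      have : z = 1 := by linear_combination -h
      rw [mem_ball_zero_iff, this, norm_one] at hz
      exact lt_irrefl _ hz
    unfold Kb
    field_simp
  rw [ps_mul hK h2, ps_mul h1 h1, ps_one_sub hid, ps_id] at e
  rw [pow_two]
  exact e

theorem kb_coeff (hKPW : Stmt_KPW) (hKIN : Stmt_KIN) (k : ℕ) : coeff Kb k = k := by
  have h := hKPW (ps Kb) (kb_series hKIN) 1 k le_rfl
  rw [pow_one, coeff_ps] at h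
  rw [h]
  simp

theorem hockey (n m : ℕ) (hm : 1 ≤ m) :
    ∑ k ∈ Finset.Icc m n, (k + m - 1).choose (2 * m - 1) = (n + m).choose (2 * m) := by
  rcases Nat.lt_or_ge n m with h | h
  · rw [Finset.Icc_eq_empty (by omega), Finset.sum_empty, Nat.choose_eq_zero_of_lt (by omega)]
  · have h1 := Nat.sum_Icc_choose (n + m - 1) (2 * m - 1)
    rw [show n + m - 1 + 1 = n + m by omega, show 2 * m - 1 + 1 = 2 * m by omega] at h1
    rw [← h1]
    refine Finset.sum_bij (fun k _ => k + m - 1) ?_ ?_ ?_ ?_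
    · intro k hk
      rw [Finset.mem_Icc] at *
      omega
    · intro a ha b hb hab
      rw [Finset.mem_Icc] at *
      omega
    · intro b hb
      rw [Finset.mem_Icc] at hb
      exact ⟨b + 1 - m, by rw [Finset.mem_Icc]; omega, by omega⟩
    · intro k _
      rfl

end PCO_

open PCO_ in
theorem pco_proof (hPKE : Stmt_PKE) (hCAT : Stmt_CAT) (hKPW : Stmt_KPW) (hKIN : Stmt_KIN) :
    Stmt_PCO := by
  constructor
  · intro M n hM
    have hM0 : (M : ℂ) ≠ 0 := by
      have : M ≠ 0 := by linarith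
      exact_mod_cast this
    obtain ⟨hP, hT⟩ := hPKE M hM
    have hPan : AnalyticAt ℂ (Pk M) 0 := (toSS hP).analyticAt
    have hKan : AnalyticAt ℂ Kb 0 := hKIN.2.2.2.analyticAt
    have hWan : AnalyticAt ℂ (fun z => (M : ℂ)⁻¹ * Pk M z) 0 := analyticAt_const.mul hPan
    have hUan : AnalyticAt ℂ (fun z => (M : ℂ)⁻¹ * Kb z) 0 := analyticAt_const.mul hKan
    have h1W : AnalyticAt ℂ (fun z => 1 - (M : ℂ)⁻¹ * Pk M z) 0 := analyticAt_const.sub hWan
    have h2W : AnalyticAt ℂ (fun z => (1 - (M : ℂ)⁻¹ * Pk M z) * (1 - (M : ℂ)⁻¹ * Pk M z)) 0 :=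
      h1W.mul h1W
    have e : ps (fun z => (M : ℂ)⁻¹ * Pk M z) =
        ps (fun z => ((M : ℂ)⁻¹ * Kb z) *
          ((1 - (M : ℂ)⁻¹ * Pk M z) * (1 - (M : ℂ)⁻¹ * Pk M z))) := by
      refine ps_congr fun z hz => ?_
      have h1 := (hT z hz).1
      have h2 : ‖Pk M z‖ < M := inS_lt hP hz
      have hne : (1 : ℂ) - (M : ℂ)⁻¹ * Pk M z ≠ 0 := by
        intro h
        have h3 : Pk M z = M := by
          field_simp at h
          linear_combination -h
        rw [h3, Complex.norm_real, Real.norm_of_nonneg (by linarith)] at h2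
        exact lt_irrefl _ h2
      rw [← h1]
      unfold til
      have hne' : (M : ℂ) - Pk M z ≠ 0 := by
        intro h
        apply hne
        have h3 : Pk M z = M := by linear_combination -h
        rw [h3, inv_mul_cancel₀ hM0, sub_self]
      rw [div_eq_inv_mul (Pk M z) (M : ℂ)]
      field_simp
    rw [ps_mul hUan h2W, ps_mul h1W h1W, ps_one_sub hWan, ← pow_two] at e
    have hW0 : PowerSeries.constantCoeff (ps (fun z => (M : ℂ)⁻¹ * Pk M z)) = 0 := by
      rw [← PowerSeries.coeff_zero_eq_constantCoeff_apply, coeff_ps, coeff_zero, hP.zero, mul_zero]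
    have hU : ps (fun z => (M : ℂ)⁻¹ * Kb z) = PowerSeries.C ((M : ℂ)⁻¹) * ps Kb :=
      ps_const_mul hKan _
    have hcoef : ∀ k : ℕ, coeff (Pk M) k = ∑ m ∈ Finset.Icc 1 k, (-1 : ℂ) ^ (m - 1) *
        (catalan m : ℂ) * ((k + m - 1).choose (2 * m - 1) : ℂ) / (M : ℂ) ^ (m - 1) := by
      intro k
      have h1 := hCAT _ _ hW0 e k
      rw [coeff_ps, coeff_const_mul hPan] at h1
      have h2 : coeff (Pk M) k = M * ((M : ℂ)⁻¹ * coeff (Pk M) k) := by
        field_simp
      rw [h2, h1, Finset.mul_sum]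
      refine Finset.sum_congr rfl fun m hm => ?_
      rw [Finset.mem_Icc] at hm
      rw [hU, mul_pow, ← map_pow, PowerSeries.coeff_C_mul, hKPW _ (kb_series hKIN) m k hm.1]
      obtain ⟨j, rfl⟩ := Nat.exists_eq_add_of_le' hm.1
      rw [Nat.add_sub_cancel, inv_pow, pow_succ]
      field_simp
    unfold psum AP
    simp only [one_pow, mul_one]
    push_cast
    have h0 : ∀ k ∈ Finset.range (n + 1), coeff (Pk M) k = ∑ m ∈ Finset.Icc 1 n,
        if m ≤ k then (-1 : ℂ) ^ (m - 1) * (catalan m : ℂ) *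
          ((k + m - 1).choose (2 * m - 1) : ℂ) / (M : ℂ) ^ (m - 1) else 0 := by
      intro k hk
      rw [Finset.mem_range] at hk
      rw [hcoef k, ← Finset.sum_filter]
      refine Finset.sum_congr ?_ fun _ _ => rfl
      ext m
      simp only [Finset.mem_Icc, Finset.mem_filter]
      omega
    rw [Finset.sum_congr rfl h0, Finset.sum_comm]
    refine Finset.sum_congr rfl fun m hm => ?_
    rw [Finset.mem_Icc] at hm
    rw [← Finset.sum_filter]
    have h3 : (Finset.range (n + 1)).filter (fun k => m ≤ k) = Finset.Icc m n := by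
      ext k
      simp only [Finset.mem_Icc, Finset.mem_filter, Finset.mem_range]
      omega
    rw [h3, ← hockey n m hm.1]
    push_cast
    rw [Finset.mul_sum, Finset.sum_div]
  · intro n
    unfold psum
    simp only [one_pow, mul_one]
    simp_rw [kb_coeff hKPW hKIN]
    have := Finset.sum_range_id_mul_two (n + 1)
    rw [Nat.add_sub_cancel] at this
    have h2 : ((∑ i ∈ Finset.range (n + 1), i : ℕ) : ℂ) * 2 = ((n + 1) * n : ℕ) := by
      exact_mod_cast this
    push_cast at h2
    linear_combination h2 / 2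

end Pool.Agent.DBR
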