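import Pool.Agent.DBR.Stmts

set_option autoImplicit false

/-!
Univalent functions, module PKB: comparison of the inner maps of a step.
-/

namespace Pool.Agent.DBR

open Complex Metric Set Filter MeasureTheory

open scoped Topology ComplexConjugate

open Pool.Agent.PSB (InS coeff psum Lam SelfU)

namespace PKB_

theorem hasSum_pK {z : ℂ} (hz : ‖z‖ < 1) :
    HasSum (fun m : ℕ => (if m = 0 then (1 : ℂ) else 2 * (-1) ^ m) * z ^ m) (pK z) := by
  have h1 : ‖-z‖ < 1 := by rwa [norm_neg]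
  have h2 := (hasSum_geometric_of_norm_lt_one h1).mul_left (2 : ℂ)
  have h3 : HasSum (fun m : ℕ => (if m = 0 then (-1 : ℂ) else 0)) (-1) := by
    have := hasSum_single (f := fun m : ℕ => (if m = 0 then (-1 : ℂ) else 0)) 0
      (fun k hk => by simp [hk])
    simpa using this
  have h4 := h2.add h3
  have hne : (1 : ℂ) + z ≠ 0 := by
    intro h
    have : ‖z‖ = 1 := by
      rw [show z = -1 by linear_combination h, norm_neg, norm_one]
    linarith
  have e : 2 * (1 - -z)⁻¹ + -1 = pK z := by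
    unfold pK
    rw [sub_neg_eq_add]
    field_simp
    ring
  rw [e] at h4
  refine h4.congr_fun fun m => ?_
  by_cases hm : m = 0
  · subst hm
    norm_num
  · simp only [hm, if_false]
    rw [neg_pow z m]
    ring

theorem sub_le (hQMO : Stmt_QMO) {p : ℂ → ℂ} (hp : Car p) {z : ℂ} (hz : ‖z‖ < 1) :
    ‖p z - pK z‖ ≤ 2 * Real.sqrt (yy p) * (‖z‖ / (1 - ‖z‖) ^ 2) := by
  obtain ⟨-, -, hq⟩ := hQMO p hp
  have h1 := (hasSum_coeff hp.diff (w := z) hz).sub (hasSum_pK hz)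
  have hn : ‖‖z‖‖ < 1 := by rwa [norm_norm]
  have h2 := (hasSum_coe_mul_geometric_of_norm_lt_one hn).mul_left (2 * Real.sqrt (yy p))
  refine h1.norm_le_of_bounded h2 fun m => ?_
  by_cases hm : m = 0
  · subst hm
    simp [DBR.coeff_zero, hp.zero]
  · have h3 := (hq m (Nat.one_le_iff_ne_zero.2 hm)).2.1
    simp only [hm, if_false]
    rw [← sub_mul, norm_mul, norm_pow]
    calc ‖coeff p m - 2 * (-1) ^ m‖ * ‖z‖ ^ m ≤ (2 * m * Real.sqrt (yy p)) * ‖z‖ ^ m := by
          gcongr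
      _ = 2 * Real.sqrt (yy p) * (m * ‖z‖ ^ m) := by ring

theorem exp_sub_exp {a b : ℂ} (ha : 0 ≤ a.re) (hb : 0 ≤ b.re) :
    ‖Complex.exp (-a) - Complex.exp (-b)‖ ≤ ‖a - b‖ := by
  have hconv : Convex ℝ {x : ℂ | 0 ≤ x.re} := convex_halfSpace_re_ge 0
  have h := hconv.norm_image_sub_le_of_norm_hasDerivWithin_le
    (f := fun x : ℂ => Complex.exp (-x)) (f' := fun x => Complex.exp (-x) * (-1)) (C := 1)
    (fun x _ => ((hasDerivAt_neg x).cexp).hasDerivWithinAt) (fun x hx => by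
      rw [norm_mul, norm_neg, norm_one, mul_one, Complex.norm_exp, neg_re]
      exact Real.exp_le_one_iff.2 (by
        have : 0 ≤ x.re := hx
        linarith)) (x := b) (y := a) hb ha
  simpa using h

theorem pK_re {z : ℂ} {r : ℝ} (hr : r < 1) (hz : ‖z‖ ≤ r) : (1 - r) / 2 ≤ (pK z).re := by
  have hz1 : ‖z‖ < 1 := hz.trans_lt hr
  have hsq := Complex.sq_norm z
  rw [Complex.normSq_apply] at hsq
  have hre := Complex.abs_re_le_norm z
  have hre2 := (abs_le.1 hre).2
  have h0 := norm_nonneg z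
  have hN : Complex.normSq (1 + z) = 1 + 2 * z.re + ‖z‖ ^ 2 := by
    rw [Complex.normSq_apply, hsq]
    simp only [add_re, one_re, add_im, one_im]
    ring
  have hpos : 0 < Complex.normSq (1 + z) := by
    rw [Complex.normSq_pos]
    intro h
    have : ‖z‖ = 1 := by
      rw [show z = -1 by linear_combination h, norm_neg, norm_one]
    linarith
  have e : (pK z).re = (1 - ‖z‖ ^ 2) / Complex.normSq (1 + z) := by
    unfold pK
    rw [Complex.div_re, ← add_div, hsq]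
    congr 1
    simp only [sub_re, one_re, add_re, sub_im, one_im, add_im]
    ring
  rw [e, le_div_iff₀ hpos, hN]
  have h1 : 1 + 2 * z.re + ‖z‖ ^ 2 ≤ (1 + ‖z‖) ^ 2 := by nlinarith
  have h2 : (1 - r) / 2 * (1 + 2 * z.re + ‖z‖ ^ 2) ≤ (1 - r) / 2 * (1 + ‖z‖) ^ 2 :=
    mul_le_mul_of_nonneg_left h1 (by linarith)
  have h3 : (1 - r) / 2 * (1 + ‖z‖) ^ 2 ≤ (1 - r) * (1 + ‖z‖) := by
    have : (1 + ‖z‖) ^ 2 ≤ 2 * (1 + ‖z‖) := by nlinarith
    have h5 : 0 ≤ 1 - r := by linarith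
    nlinarith
  have h4 : (1 - r) * (1 + ‖z‖) ≤ (1 - ‖z‖) * (1 + ‖z‖) :=
    mul_le_mul_of_nonneg_right (by linarith) (by linarith)
  nlinarith

end PKB_

open PKB_ in
theorem pkb_proof (hQMO : Stmt_QMO) : Stmt_PKB := by
  intro ε r p z hε hp hr hz
  have hr0 : 0 ≤ r := (norm_nonneg z).trans hz
  have hs := Real.sqrt_nonneg (yy p)
  have hr1 : 0 < 1 - r := by linarith
  have hz1 : ‖z‖ < 1 := hz.trans_lt hr
  have hz0 := norm_nonneg z
  have hb : z ∈ ball (0 : ℂ) 1 := by rwa [mem_ball_zero_iff]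
  refine ⟨?_, ?_, ?_⟩
  · have h1 := sub_le hQMO hp hz1
    have h2 : ‖Complex.exp (-((ε : ℂ) * p z)) - Complex.exp (-((ε : ℂ) * pK z))‖ ≤
        ‖(ε : ℂ) * p z - (ε : ℂ) * pK z‖ := by
      refine exp_sub_exp ?_ ?_
      · rw [Complex.re_ofReal_mul]
        exact mul_nonneg hε (hp.re z hb)
      · rw [Complex.re_ofReal_mul]
        exact mul_nonneg hε (pK_car.re z hb)
    rw [← mul_sub, norm_mul, Complex.norm_real, Real.norm_of_nonneg hε] at h2
    have e : om ε p z - om ε pK z =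
        z * (Complex.exp (-((ε : ℂ) * p z)) - Complex.exp (-((ε : ℂ) * pK z))) := by
      unfold om
      ring
    rw [e, norm_mul]
    have h3 : ‖z‖ / (1 - ‖z‖) ^ 2 ≤ 1 / (1 - r) ^ 2 := by
      apply div_le_div₀ (by norm_num) hz1.le (by positivity)
      exact pow_le_pow_left₀ hr1.le (by linarith) 2
    have h4 : ‖p z - pK z‖ ≤ 2 * Real.sqrt (yy p) * (1 / (1 - r) ^ 2) :=
      h1.trans (mul_le_mul_of_nonneg_left h3 (by positivity))
    have h5 : ‖Complex.exp (-((ε : ℂ) * p z)) - Complex.exp (-((ε : ℂ) * pK z))‖ ≤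
        ε * (2 * Real.sqrt (yy p) * (1 / (1 - r) ^ 2)) :=
      h2.trans (mul_le_mul_of_nonneg_left h4 hε)
    calc ‖z‖ * ‖Complex.exp (-((ε : ℂ) * p z)) - Complex.exp (-((ε : ℂ) * pK z))‖
        ≤ ‖z‖ * (ε * (2 * Real.sqrt (yy p) * (1 / (1 - r) ^ 2))) :=
          mul_le_mul_of_nonneg_left h5 hz0
      _ = 2 * ε * Real.sqrt (yy p) / (1 - r) ^ 2 * ‖z‖ := by ring
  · unfold om
    rw [norm_mul, Complex.norm_exp, mul_comm]
    refine mul_le_mul_of_nonneg_right ?_ hz0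
    rw [Real.exp_le_exp, neg_re, Complex.re_ofReal_mul]
    have := mul_le_mul_of_nonneg_left (pK_re hr hz) hε
    linarith
  · unfold om pK
    rw [map_mul, Complex.conj_conj, ← Complex.exp_conj, map_neg, map_mul, Complex.conj_ofReal,
      map_div₀, map_sub, map_add, map_one, Complex.conj_conj]

end Pool.Agent.DBR
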