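import Pool.Agent.DBR.Stmts

set_option autoImplicit false

/-!
Module QFM: the quadratic form of de Branges.
-/

namespace Pool.Agent.DBR

open Complex Metric Set Filter MeasureTheory

open scoped Topology ComplexConjugate

open Pool.Agent.PSB (InS coeff psum Lam SelfU)

namespace QFM_

/-- The partial sums. -/
noncomputable def bb (c : ℕ → ℂ) (x : ℂ) (k : ℕ) : ℂ :=
  ∑ j ∈ Finset.Ico 1 (k + 1), (j : ℂ) * c j * (conj x) ^ j

theorem bb_zero (c : ℕ → ℂ) (x : ℂ) : bb c x 0 = 0 := by simp [bb]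

theorem bb_succ (c : ℕ → ℂ) (x : ℂ) (k : ℕ) :
    bb c x (k + 1) = bb c x k + ((k + 1 : ℕ) : ℂ) * c (k + 1) * (conj x) ^ (k + 1) := by
  unfold bb
  rw [Finset.sum_Ico_succ_top (by omega : 1 ≤ k + 1)]

theorem xconj {x : ℂ} (hx : ‖x‖ = 1) : x * conj x = 1 := by
  rw [Complex.mul_conj, Complex.normSq_eq_norm_sq, hx]; norm_num

theorem xconj_pow {x : ℂ} (hx : ‖x‖ = 1) (k : ℕ) : x ^ k * (conj x) ^ k = 1 := by
  rw [← mul_pow, xconj hx, one_pow]

theorem kc {c : ℕ → ℂ} {x : ℂ} (hx : ‖x‖ = 1) (k : ℕ) :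
    ((k + 1 : ℕ) : ℂ) * c (k + 1) = x ^ (k + 1) * (bb c x (k + 1) - bb c x k) := by
  rw [bb_succ]
  have h := xconj_pow hx (k + 1)
  linear_combination (-((k + 1 : ℕ) : ℂ) * c (k + 1)) * h

theorem sumq {c : ℕ → ℂ} {x : ℂ} (hx : ‖x‖ = 1) (k : ℕ) :
    ∑ j ∈ Finset.Ico 1 (k + 1), (j : ℂ) * c j * (2 * x ^ (k + 1 - j)) =
      2 * x ^ (k + 1) * bb c x k := by
  unfold bb
  rw [Finset.mul_sum]
  refine Finset.sum_congr rfl fun j hj => ?_
  rw [Finset.mem_Ico] at hj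
  have h1 : x ^ (k + 1) = x ^ (k + 1 - j) * x ^ j := by
    rw [← pow_add]; congr 1; omega
  rw [h1]
  have h := xconj_pow hx j
  linear_combination (-(2 * x ^ (k + 1 - j) * ((j : ℂ) * c j))) * h

theorem term {c : ℕ → ℂ} {x : ℂ} (hx : ‖x‖ = 1) (k : ℕ) (t : ℝ) :
    2 * (((k + 1 : ℕ) : ℝ) * t * (conj (c (k + 1)) * (((k + 1 : ℕ) : ℂ) * c (k + 1) +
      2 * x ^ (k + 1) + ∑ j ∈ Finset.Ico 1 (k + 1), (j : ℂ) * c j * (2 * x ^ (k + 1 - j)))).re) =
    t * ((2 * ‖bb c x (k + 1)‖ ^ 2 + 4 * (bb c x (k + 1)).re) -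
      (2 * ‖bb c x k‖ ^ 2 + 4 * (bb c x k).re)) := by
  have h1 := kc (c := c) hx k
  rw [sumq hx k]
  have h2 : (((k + 1 : ℕ) : ℝ)) * (conj (c (k + 1)) * (((k + 1 : ℕ) : ℂ) * c (k + 1) +
      2 * x ^ (k + 1) + 2 * x ^ (k + 1) * bb c x k)).re =
      (conj (((k + 1 : ℕ) : ℂ) * c (k + 1)) * (((k + 1 : ℕ) : ℂ) * c (k + 1) +
      2 * x ^ (k + 1) + 2 * x ^ (k + 1) * bb c x k)).re := by
    generalize (((k + 1 : ℕ) : ℂ) * c (k + 1) + 2 * x ^ (k + 1) + 2 * x ^ (k + 1) * bb c x k) = Z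
    have h5 : conj (((k + 1 : ℕ) : ℂ) * c (k + 1)) * Z =
        ((((k + 1 : ℕ) : ℝ)) : ℂ) * (conj (c (k + 1)) * Z) := by
      rw [map_mul, Complex.conj_natCast, mul_assoc, Complex.ofReal_natCast]
    rw [h5, Complex.re_ofReal_mul]
  have h3 : conj (x ^ (k + 1) * (bb c x (k + 1) - bb c x k)) *
      (x ^ (k + 1) * (bb c x (k + 1) - bb c x k) + 2 * x ^ (k + 1) + 2 * x ^ (k + 1) * bb c x k) =
      conj (bb c x (k + 1) - bb c x k) * (bb c x (k + 1) + bb c x k + 2) := by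
    rw [map_mul, map_pow]
    have h := xconj_pow hx (k + 1)
    linear_combination (conj (bb c x (k + 1) - bb c x k) * (bb c x (k + 1) + bb c x k + 2)) * h
  have h4 : (conj (bb c x (k + 1) - bb c x k) * (bb c x (k + 1) + bb c x k + 2)).re =
      (‖bb c x (k + 1)‖ ^ 2 - ‖bb c x k‖ ^ 2) + 2 * ((bb c x (k + 1)).re - (bb c x k).re) := by
    rw [Complex.sq_norm, Complex.sq_norm, Complex.normSq_apply, Complex.normSq_apply]
    simp only [Complex.mul_re, map_sub, Complex.sub_re, Complex.sub_im, Complex.add_re,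
      Complex.add_im, Complex.conj_re, Complex.conj_im]
    norm_num
    ring
  rw [h1] at h2
  rw [h1]
  rw [h3, h4] at h2
  linear_combination (2 * t) * h2

theorem abel (h T G : ℕ → ℝ) (n : ℕ) (h0 : h 0 = 0)
    (hT : ∀ k, 1 ≤ k → k ≤ n → T k - T (k + 1) = G k + G (k + 1)) :
    ∀ m, m ≤ n → ∑ k ∈ Finset.range m, T (k + 1) * (h (k + 1) - h k) =
      ∑ k ∈ Finset.range m, G (k + 1) * (h (k + 1) + h k) + (T (m + 1) + G (m + 1)) * h m := by
  intro m
  induction m with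
  | zero => intro _; simp [h0]
  | succ m ih =>
    intro hm
    rw [Finset.sum_range_succ, Finset.sum_range_succ, ih (by omega)]
    have := hT (m + 1) (by omega) hm
    linear_combination (h (m + 1)) * this

theorem icc_range (n : ℕ) (f : ℕ → ℝ) :
    ∑ k ∈ Finset.Icc 1 n, f k = ∑ k ∈ Finset.range n, f (k + 1) := by
  rw [Finset.sum_bij' (fun k _ => k - 1) (fun k _ => k + 1)]
  · intro k hk; simp only [Finset.mem_Icc] at hk; simp only [Finset.mem_range]; omega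
  · intro k hk; simp only [Finset.mem_range] at hk; simp only [Finset.mem_Icc]; omega
  · intro k hk; simp only [Finset.mem_Icc] at hk; omega
  · intro k hk; omega
  · intro k hk; simp only [Finset.mem_Icc] at hk
    congr 1; omega

/-- The functional for a single point. -/
theorem single (n : ℕ) (T G : ℕ → ℝ) (c : ℕ → ℂ) (x : ℂ) (hx : ‖x‖ = 1)
    (hG : ∀ k, 1 ≤ k → k ≤ n → 0 ≤ G k)
    (hT : ∀ k, 1 ≤ k → k ≤ n → T k - T (k + 1) = G k + G (k + 1)) (hT0 : T (n + 1) = 0)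
    (hG0 : G (n + 1) = 0) :
    0 ≤ ∑ k ∈ Finset.Icc 1 n, (-(k * G k * (k * ‖c k‖ ^ 2 - 4 / k)) +
      2 * (k * T k * (conj (c k) * ((k : ℂ) * c k + 2 * x ^ k +
        ∑ j ∈ Finset.Ico 1 k, (j : ℂ) * c j * (2 * x ^ (k - j)))).re)) := by
  rw [icc_range]
  set h : ℕ → ℝ := fun k => 2 * ‖bb c x k‖ ^ 2 + 4 * (bb c x k).re with hh
  have h0 : h 0 = 0 := by simp [hh, bb_zero]
  have hA := abel h T G n h0 hT n le_rfl
  rw [hT0, hG0, add_zero, zero_mul, add_zero] at hA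
  have e1 : ∀ k ∈ Finset.range n,
      (-(((k + 1 : ℕ) : ℝ) * G (k + 1) * (((k + 1 : ℕ) : ℝ) * ‖c (k + 1)‖ ^ 2 -
        4 / ((k + 1 : ℕ) : ℝ))) +
      2 * (((k + 1 : ℕ) : ℝ) * T (k + 1) * (conj (c (k + 1)) * (((k + 1 : ℕ) : ℂ) * c (k + 1) +
        2 * x ^ (k + 1) +
        ∑ j ∈ Finset.Ico 1 (k + 1), (j : ℂ) * c j * (2 * x ^ (k + 1 - j)))).re)) =
      -(G (k + 1) * (‖bb c x (k + 1) - bb c x k‖ ^ 2 - 4)) + T (k + 1) * (h (k + 1) - h k) := by
    intro k _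
    rw [term hx k (T (k + 1))]
    have hk : ((k + 1 : ℕ) : ℝ) ≠ 0 := by positivity
    have h2 : ‖bb c x (k + 1) - bb c x k‖ = ((k + 1 : ℕ) : ℝ) * ‖c (k + 1)‖ := by
      have h3 := congrArg norm (kc (c := c) hx k)
      rw [norm_mul, norm_mul, norm_pow, hx, one_pow, one_mul, Complex.norm_natCast] at h3
      exact h3.symm
    rw [h2]
    have h4 : ((k + 1 : ℕ) : ℝ) * G (k + 1) * (((k + 1 : ℕ) : ℝ) * ‖c (k + 1)‖ ^ 2 -
        4 / ((k + 1 : ℕ) : ℝ)) = G (k + 1) * ((((k + 1 : ℕ) : ℝ) * ‖c (k + 1)‖) ^ 2 - 4) := by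
      field_simp
    rw [h4]
  rw [Finset.sum_congr rfl e1, Finset.sum_add_distrib, hA, ← Finset.sum_add_distrib]
  refine Finset.sum_nonneg fun k hk => ?_
  rw [Finset.mem_range] at hk
  have hg := hG (k + 1) (by omega) (by omega)
  have e2 : -(G (k + 1) * (‖bb c x (k + 1) - bb c x k‖ ^ 2 - 4)) +
      G (k + 1) * (h (k + 1) + h k) =
      G (k + 1) * ‖bb c x (k + 1) + bb c x k + 2‖ ^ 2 := by
    simp only [hh]
    rw [Complex.sq_norm, Complex.sq_norm, Complex.sq_norm, Complex.sq_norm, Complex.normSq_apply,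
      Complex.normSq_apply, Complex.normSq_apply, Complex.normSq_apply]
    simp only [Complex.sub_re, Complex.sub_im, Complex.add_re, Complex.add_im]
    norm_num
    ring
  rw [e2]
  positivity

end QFM_

open QFM_ in
theorem qfm_proof : Stmt_QFM := by
  intro n T G c q hq hG hT hT0 hG0
  obtain ⟨N, w, κ, hw0, hw1, hκ, hm⟩ := hq
  have key : ∑ k ∈ Finset.Icc 1 n, (-(k * G k * (k * ‖c k‖ ^ 2 - 4 / k)) +
      2 * (k * T k * (conj (c k) * ((k : ℂ) * c k + q k +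
        ∑ j ∈ Finset.Ico 1 k, (j : ℂ) * c j * q (k - j))).re)) =
      ∑ i, w i * ∑ k ∈ Finset.Icc 1 n, (-(k * G k * (k * ‖c k‖ ^ 2 - 4 / k)) +
      2 * (k * T k * (conj (c k) * ((k : ℂ) * c k + 2 * κ i ^ k +
        ∑ j ∈ Finset.Ico 1 k, (j : ℂ) * c j * (2 * κ i ^ (k - j)))).re)) := by
    simp_rw [Finset.mul_sum]
    rw [Finset.sum_comm]
    refine Finset.sum_congr rfl fun k hk => ?_
    rw [Finset.mem_Icc] at hk
    have h1 : (k : ℂ) * c k + q k + ∑ j ∈ Finset.Ico 1 k, (j : ℂ) * c j * q (k - j) =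
        ∑ i, (w i : ℂ) * ((k : ℂ) * c k + 2 * κ i ^ k +
        ∑ j ∈ Finset.Ico 1 k, (j : ℂ) * c j * (2 * κ i ^ (k - j))) := by
      have hw1' : ∑ i, (w i : ℂ) = 1 := by
        rw [← Complex.ofReal_sum, hw1, Complex.ofReal_one]
      simp_rw [mul_add]
      rw [Finset.sum_add_distrib, Finset.sum_add_distrib, ← Finset.sum_mul, hw1', one_mul,
        hm k hk.1 hk.2]
      congr 1
      · congr 1
        rw [Finset.mul_sum]
        refine Finset.sum_congr rfl fun i _ => ?_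
        ring
      · simp_rw [Finset.mul_sum]
        rw [Finset.sum_comm]
        refine Finset.sum_congr rfl fun j hj => ?_
        rw [Finset.mem_Ico] at hj
        rw [hm (k - j) (by omega) (by omega), Finset.mul_sum, Finset.mul_sum]
        refine Finset.sum_congr rfl fun i _ => ?_
        ring
    rw [h1, Finset.mul_sum, Complex.re_sum]
    have h2 : ∀ i, (conj (c k) * ((w i : ℂ) * ((k : ℂ) * c k + 2 * κ i ^ k +
        ∑ j ∈ Finset.Ico 1 k, (j : ℂ) * c j * (2 * κ i ^ (k - j))))).re =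
        w i * (conj (c k) * ((k : ℂ) * c k + 2 * κ i ^ k +
        ∑ j ∈ Finset.Ico 1 k, (j : ℂ) * c j * (2 * κ i ^ (k - j)))).re := by
      intro i
      rw [mul_left_comm, Complex.re_ofReal_mul]
    simp_rw [h2, mul_add]
    rw [Finset.sum_add_distrib, ← Finset.sum_mul, hw1, one_mul]
    congr 1
    rw [Finset.mul_sum, Finset.mul_sum]
    refine Finset.sum_congr rfl fun i _ => ?_
    ring
  rw [key]
  refine Finset.sum_nonneg fun i _ => mul_nonneg (hw0 i) ?_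
  exact single n T G c (κ i) (hκ i) hG hT hT0 hG0

end Pool.Agent.DBR
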