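import Pool.Agent.DBR.Stmts

set_option autoImplicit false

namespace Pool.Agent.DBR

open Complex Metric Set Filter MeasureTheory

open scoped Topology ComplexConjugate

open Pool.Agent.PSB (InS coeff psum Lam SelfU)

namespace QMO_

theorem pow_diff {a b : ℂ} (ha : ‖a‖ = 1) (hb : ‖b‖ = 1) (m : ℕ) :
    ‖a ^ m - b ^ m‖ ≤ m * ‖a - b‖ := by
  induction m with
  | zero => simp
  | succ m ih =>
    have h1 : a ^ (m + 1) - b ^ (m + 1) = a ^ m * (a - b) + (a ^ m - b ^ m) * b := by ring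
    have h2 : ‖a ^ m * (a - b)‖ = ‖a - b‖ := by
      rw [norm_mul, norm_pow, ha, one_pow, one_mul]
    have h3 : ‖(a ^ m - b ^ m) * b‖ = ‖a ^ m - b ^ m‖ := by
      rw [norm_mul, hb, mul_one]
    rw [h1]
    refine (norm_add_le _ _).trans ?_
    rw [h2, h3]
    push_cast
    linarith

theorem sq_dist {a : ℂ} (ha : ‖a‖ = 1) (b : ℝ) (hb : b = 1 ∨ b = -1) :
    ‖a - b‖ ^ 2 = 2 * |a.re - b| := by
  have h1 : a.re ^ 2 + a.im ^ 2 = 1 := by
    have h2 := Complex.sq_norm a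
    rw [ha, Complex.normSq_apply] at h2
    nlinarith
  have h3 : ‖a - b‖ ^ 2 = (a.re - b) ^ 2 + a.im ^ 2 := by
    rw [Complex.sq_norm, Complex.normSq_apply, Complex.sub_re, Complex.sub_im, Complex.ofReal_re,
      Complex.ofReal_im]
    ring
  rw [h3]
  rcases hb with rfl | rfl
  · have h4 : a.re - 1 ≤ 0 := by nlinarith
    rw [abs_of_nonpos h4]
    nlinarith
  · have h4 : 0 ≤ a.re - -1 := by nlinarith
    rw [abs_of_nonneg h4]
    nlinarith

end QMO_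

theorem qmo_proof (hHRG : Stmt_HRG) : Stmt_QMO := by
  intro p hp
  have key : ∀ (N : ℕ) (w : Fin N → ℝ) (κ : Fin N → ℂ), ∑ i, w i = 1 → (∀ i, ‖κ i‖ = 1) →
      coeff p 1 = 2 * ∑ i, (w i : ℂ) * κ i ^ 1 → yy p = ∑ i, w i * ‖κ i + 1‖ ^ 2 := by
    intro N w κ hw hκ h1
    have h2 : ∀ i, ‖κ i + 1‖ ^ 2 = 2 + 2 * (κ i).re := by
      intro i
      have h3 := QMO_.sq_dist (hκ i) (-1) (Or.inr rfl)
      have h4 : κ i - ((-1 : ℝ) : ℂ) = κ i + 1 := by push_cast; ring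
      rw [h4] at h3
      have h5 : -1 ≤ (κ i).re := by
        have := Complex.abs_re_le_norm (κ i)
        rw [hκ i] at this
        exact (abs_le.1 this).1
      rw [h3, abs_of_nonneg (by linarith)]
      ring
    unfold yy
    rw [h1]
    have h6 : ((2 : ℂ) * ∑ i, (w i : ℂ) * κ i ^ 1).re = 2 * ∑ i, w i * (κ i).re := by
      rw [show (2 : ℂ) = ((2 : ℝ) : ℂ) by norm_num, Complex.re_ofReal_mul, Complex.re_sum]
      congr 1
      refine Finset.sum_congr rfl fun i _ => ?_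
      rw [pow_one, Complex.re_ofReal_mul]
    rw [h6]
    have h7 : ∑ i, w i * ‖κ i + 1‖ ^ 2 = ∑ i, (2 * w i + 2 * (w i * (κ i).re)) := by
      refine Finset.sum_congr rfl fun i _ => ?_
      rw [h2 i]; ring
    rw [h7, Finset.sum_add_distrib, ← Finset.mul_sum, ← Finset.mul_sum, hw]
    ring
  have hyy : 0 ≤ yy p ∧ yy p ≤ 4 := by
    obtain ⟨N, w, κ, hw0, hw, hκ, hm⟩ := hHRG p hp 1
    rw [key N w κ hw hκ (hm 1 le_rfl le_rfl)]
    constructor
    · exact Finset.sum_nonneg fun i _ => mul_nonneg (hw0 i) (by positivity)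
    · have h2 : ∑ i, w i * ‖κ i + 1‖ ^ 2 ≤ ∑ i, w i * 4 := by
        refine Finset.sum_le_sum fun i _ => mul_le_mul_of_nonneg_left ?_ (hw0 i)
        have h3 : ‖κ i + 1‖ ≤ 2 := by
          refine (norm_add_le _ _).trans ?_
          rw [hκ i, norm_one]; norm_num
        nlinarith [norm_nonneg (κ i + 1)]
      rw [← Finset.sum_mul, hw, one_mul] at h2
      exact h2
  refine ⟨hyy.1, hyy.2, ?_⟩
  intro m hm1
  obtain ⟨N, w, κ, hw0, hw, hκ, hm⟩ := hHRG p hp m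
  have hy := key N w κ hw hκ (hm 1 le_rfl hm1)
  have hpm := hm m hm1 le_rfl
  have hdiff : coeff p m - 2 * (-1) ^ m = 2 * ∑ i, (w i : ℂ) * (κ i ^ m - (-1) ^ m) := by
    rw [hpm]
    have h1 : ∑ i, (w i : ℂ) * (κ i ^ m - (-1) ^ m) =
        ∑ i, (w i : ℂ) * κ i ^ m - (∑ i, (w i : ℂ)) * (-1) ^ m := by
      rw [Finset.sum_mul, ← Finset.sum_sub_distrib]
      exact Finset.sum_congr rfl fun i _ => by ring
    have h2 : (∑ i, (w i : ℂ)) = 1 := by
      rw [← Complex.ofReal_sum, hw, Complex.ofReal_one]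
    rw [h1, h2]; ring
  have hk : ∀ i, ‖κ i ^ m - (-1) ^ m‖ ≤ m * ‖κ i + 1‖ := by
    intro i
    have h1 := QMO_.pow_diff (hκ i) (show ‖(-1 : ℂ)‖ = 1 by rw [norm_neg, norm_one]) m
    rwa [sub_neg_eq_add] at h1
  have hnorm : ∀ (c : Fin N → ℂ), ‖2 * ∑ i, (w i : ℂ) * c i‖ ≤ 2 * ∑ i, w i * ‖c i‖ := by
    intro c
    rw [norm_mul, Complex.norm_ofNat]
    refine mul_le_mul_of_nonneg_left ?_ (by norm_num)
    refine (norm_sum_le _ _).trans (Finset.sum_le_sum fun i _ => ?_)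
    rw [norm_mul, Complex.norm_real, Real.norm_eq_abs, abs_of_nonneg (hw0 i)]
  refine ⟨?_, ?_, ?_⟩
  · rw [hpm]
    refine (hnorm _).trans ?_
    have h1 : ∑ i, w i * ‖κ i ^ m‖ = 1 := by
      rw [← hw]
      refine Finset.sum_congr rfl fun i _ => ?_
      rw [norm_pow, hκ i, one_pow, mul_one]
    rw [h1]; norm_num
  · rw [hdiff]
    refine (hnorm _).trans ?_
    have h1 : ∑ i, w i * ‖κ i ^ m - (-1) ^ m‖ ≤ m * ∑ i, w i * ‖κ i + 1‖ := by
      rw [Finset.mul_sum]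
      refine Finset.sum_le_sum fun i _ => ?_
      have := mul_le_mul_of_nonneg_left (hk i) (hw0 i)
      linarith
    have h2 : ∑ i, w i * ‖κ i + 1‖ ≤ Real.sqrt (yy p) := by
      apply Real.le_sqrt_of_sq_le
      rw [hy]
      have h3 := Finset.sum_nonneg (s := Finset.univ) (f := fun i =>
        w i * (‖κ i + 1‖ - ∑ j, w j * ‖κ j + 1‖) ^ 2)
        fun i _ => mul_nonneg (hw0 i) (sq_nonneg _)
      generalize hS : ∑ j, w j * ‖κ j + 1‖ = S at h3 ⊢
      have h4 : ∑ i, w i * (‖κ i + 1‖ - S) ^ 2 =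
          ∑ i, w i * ‖κ i + 1‖ ^ 2 - 2 * S * ∑ i, w i * ‖κ i + 1‖ + S ^ 2 * ∑ i, w i := by
        rw [Finset.mul_sum, Finset.mul_sum, ← Finset.sum_sub_distrib, ← Finset.sum_add_distrib]
        exact Finset.sum_congr rfl fun i _ => by ring
      rw [h4, hS, hw] at h3
      linarith
    have hm0 : (0 : ℝ) ≤ m := Nat.cast_nonneg m
    calc 2 * ∑ i, w i * ‖κ i ^ m - (-1) ^ m‖ ≤ 2 * (m * ∑ i, w i * ‖κ i + 1‖) := by linarith
      _ ≤ 2 * (m * Real.sqrt (yy p)) := by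
        have := mul_le_mul_of_nonneg_left h2 hm0
        linarith
      _ = 2 * m * Real.sqrt (yy p) := by ring
  · have hb : ((-1 : ℝ) ^ m = 1 ∨ (-1 : ℝ) ^ m = -1) := neg_one_pow_eq_or ℝ m
    have hcast : (((-1 : ℝ) ^ m : ℝ) : ℂ) = (-1) ^ m := by push_cast; ring
    have h1 : (coeff p m).re - 2 * (-1) ^ m = 2 * ∑ i, w i * ((κ i ^ m).re - (-1) ^ m) := by
      have h2 : (coeff p m - 2 * (-1) ^ m).re = (coeff p m).re - 2 * (-1) ^ m := by
        rw [Complex.sub_re, ← hcast, show (2 : ℂ) = ((2 : ℝ) : ℂ) by norm_num,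
          ← Complex.ofReal_mul, Complex.ofReal_re]
      rw [← h2, hdiff, show (2 : ℂ) = ((2 : ℝ) : ℂ) by norm_num, Complex.re_ofReal_mul,
        Complex.re_sum]
      congr 1
      refine Finset.sum_congr rfl fun i _ => ?_
      rw [Complex.re_ofReal_mul, Complex.sub_re, ← hcast, Complex.ofReal_re]
    have h2 : ∀ i, |(κ i ^ m).re - (-1) ^ m| ≤ m ^ 2 * ‖κ i + 1‖ ^ 2 / 2 := by
      intro i
      have h3 := QMO_.sq_dist (a := κ i ^ m) (by rw [norm_pow, hκ i, one_pow]) ((-1 : ℝ) ^ m) hb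
      rw [hcast] at h3
      have h4 : ‖κ i ^ m - (-1) ^ m‖ ^ 2 ≤ (m * ‖κ i + 1‖) ^ 2 :=
        pow_le_pow_left₀ (norm_nonneg _) (hk i) 2
      rw [mul_pow] at h4
      linarith
    rw [h1, abs_mul, abs_two, hy]
    have h5 : |∑ i, w i * ((κ i ^ m).re - (-1) ^ m)| ≤
        ∑ i, w i * (m ^ 2 * ‖κ i + 1‖ ^ 2 / 2) := by
      refine (Finset.abs_sum_le_sum_abs _ _).trans (Finset.sum_le_sum fun i _ => ?_)
      rw [abs_mul, abs_of_nonneg (hw0 i)]
      exact mul_le_mul_of_nonneg_left (h2 i) (hw0 i)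
    have h6 : ∑ i, w i * ((m : ℝ) ^ 2 * ‖κ i + 1‖ ^ 2 / 2) =
        m ^ 2 * (∑ i, w i * ‖κ i + 1‖ ^ 2) / 2 := by
      rw [Finset.mul_sum, Finset.sum_div]
      exact Finset.sum_congr rfl fun i _ => by ring
    rw [h6] at h5
    linarith

end Pool.Agent.DBR
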