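import Pool.Agent.DBR.Stmts

set_option autoImplicit false

/-!
DBR, module REC: the recursion principle (one-step Loewner recursion with errors `O(ε²)`).
-/

namespace Pool.Agent.DBR

open Complex Metric Set Filter MeasureTheory

open scoped Topology ComplexConjugate

open Pool.Agent.PSB (InS coeff psum Lam SelfU)

namespace REC_

/-- The accumulated error. -/
noncomputable def err (C ε : ℝ) : ℕ → ℝ
  | 0 => 0
  | k + 1 => (1 + C * ε) * err C ε k + C * ε ^ 2

theorem err_nonneg {C ε : ℝ} (hC : 0 ≤ C) (hε : 0 ≤ ε) (k : ℕ) : 0 ≤ err C ε k := by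
  induction k with
  | zero => simp [err]
  | succ k ih => simp only [err]; positivity

theorem err_le {C ε : ℝ} (hC : 0 ≤ C) (hε : 0 ≤ ε) (k : ℕ) :
    err C ε k ≤ C * ε ^ 2 * k * (1 + C * ε) ^ k := by
  induction k with
  | zero => simp [err]
  | succ k ih =>
    have hq : (1 : ℝ) ≤ 1 + C * ε := by nlinarith [mul_nonneg hC hε]
    have hp : (1 : ℝ) ≤ (1 + C * ε) ^ (k + 1) := one_le_pow₀ hq
    have h0 : 0 ≤ C * ε ^ 2 := by positivity
    calc err C ε (k + 1) = (1 + C * ε) * err C ε k + C * ε ^ 2 := rfl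
      _ ≤ (1 + C * ε) * (C * ε ^ 2 * k * (1 + C * ε) ^ k) + C * ε ^ 2 * (1 + C * ε) ^ (k + 1) := by
          have h1 := mul_le_mul_of_nonneg_left ih (by linarith : (0 : ℝ) ≤ 1 + C * ε)
          have h2 : C * ε ^ 2 * 1 ≤ C * ε ^ 2 * (1 + C * ε) ^ (k + 1) :=
            mul_le_mul_of_nonneg_left hp h0
          linarith
      _ = C * ε ^ 2 * ((k + 1 : ℕ) : ℝ) * (1 + C * ε) ^ (k + 1) := by
          push_cast
          ring

theorem iter (hSTP : Stmt_STP) {M C : ℝ} {P : ℝ → ℝ → (ℂ → ℂ) → Prop} (hM : 1 < M) (hC : 0 ≤ C)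
    (hstep : ∀ (ε t x : ℝ) (f g p : ℂ → ℂ), 0 < ε → ε ≤ 1 → 0 ≤ t → t + ε ≤ Real.log M → 0 ≤ x →
      InS M f → InS M g → Step ε f g p → P (t + ε) x g →
      P t ((1 + C * ε) * x + C * ε ^ 2) f)
    (hend : ∀ g : ℂ → ℂ, InS 1 g → P (Real.log M) 0 g) {N : ℕ} {ε : ℝ} (hε : 0 < ε) (hε1 : ε ≤ 1)
    (hN : (N : ℝ) * ε = Real.log M) :
    ∀ k : ℕ, k ≤ N → ∀ f : ℂ → ℂ, InS (M * Real.exp (-((N - k : ℝ) * ε))) f →
      P ((N - k : ℝ) * ε) (err C ε k) f := by
  have hM0 : 0 < M := by linarith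
  intro k
  induction k with
  | zero =>
    intro _ f hf
    have e1 : ((N : ℝ) - ((0 : ℕ) : ℝ)) * ε = Real.log M := by
      rw [Nat.cast_zero, sub_zero, hN]
    rw [e1] at hf ⊢
    rw [Real.exp_neg, Real.exp_log hM0, mul_inv_cancel₀ hM0.ne'] at hf
    exact hend f hf
  | succ k ih =>
    intro hk f hf
    have hkN : ((k + 1 : ℕ) : ℝ) ≤ (N : ℝ) := by exact_mod_cast hk
    set t : ℝ := ((N : ℝ) - ((k + 1 : ℕ) : ℝ)) * ε with ht
    have ht0 : 0 ≤ t := mul_nonneg (by linarith) hε.le
    have htε : t + ε = ((N : ℝ) - (k : ℝ)) * ε := by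
      rw [ht]; push_cast; ring
    have hle : t + ε ≤ Real.log M := by
      rw [htε, ← hN]
      refine mul_le_mul_of_nonneg_right ?_ hε.le
      have : (0 : ℝ) ≤ (k : ℝ) := Nat.cast_nonneg k
      linarith
    have hexp : Real.exp ε ≤ M * Real.exp (-t) := by
      have h1 : ε ≤ Real.log M - t := by linarith
      calc Real.exp ε ≤ Real.exp (Real.log M - t) := Real.exp_le_exp.2 h1
        _ = M * Real.exp (-t) := by
            rw [sub_eq_add_neg, Real.exp_add, Real.exp_log hM0]
    obtain ⟨g, p, hg, hs⟩ := hSTP (M * Real.exp (-t)) ε f hf hε hexp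
    have hg' : InS (M * Real.exp (-(((N : ℝ) - (k : ℝ)) * ε))) g := by
      have e : M * Real.exp (-(((N : ℝ) - (k : ℝ)) * ε)) = M * Real.exp (-t) * Real.exp (-ε) := by
        rw [← htε, neg_add, Real.exp_add]; ring
      rw [e]
      exact hg
    have hPg := ih (by omega) g hg'
    rw [← htε] at hPg
    have hfM : InS M f := by
      refine inS_mono hf ?_
      have : Real.exp (-t) ≤ 1 := Real.exp_le_one_iff.2 (by linarith)
      nlinarith
    have hgM : InS M g := by
      refine inS_mono hg ?_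
      have h1 : Real.exp (-t) ≤ 1 := Real.exp_le_one_iff.2 (by linarith)
      have h2 : Real.exp (-ε) ≤ 1 := Real.exp_le_one_iff.2 (by linarith)
      have h3 : Real.exp (-t) * Real.exp (-ε) ≤ 1 :=
        mul_le_one₀ h1 (Real.exp_pos _).le h2
      nlinarith
    exact hstep ε t (err C ε k) f g p hε hε1 ht0 hle (err_nonneg hC hε.le k) hfM hgM hs hPg

end REC_

open REC_ in
theorem rec_proof (hSTP : Stmt_STP) : Stmt_REC := by
  intro M C P hM hC hmono hstep hend f hf x hx
  rcases eq_or_lt_of_le hM with h1 | h1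
  · subst h1
    have h := hend f hf
    rw [Real.log_one] at h
    exact hmono 0 0 x f hx.le h
  · set L := Real.log M with hL
    have hLpos : 0 < L := Real.log_pos h1
    obtain ⟨N, hN⟩ := exists_nat_gt (L + C * L ^ 2 * Real.exp (C * L) / x)
    have hK : 0 ≤ C * L ^ 2 * Real.exp (C * L) / x := by positivity
    have hNL : L < N := by linarith
    have hN0 : (0 : ℝ) < N := by linarith
    set ε : ℝ := L / N with hε
    have hεpos : 0 < ε := div_pos hLpos hN0
    have hε1 : ε ≤ 1 := by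
      rw [hε, div_le_one hN0]; exact hNL.le
    have hNε : (N : ℝ) * ε = Real.log M := by
      rw [hε]; field_simp
      exact hL
    have h2 := iter hSTP h1 hC hstep hend hεpos hε1 hNε N le_rfl f (by
      rw [sub_self, zero_mul, neg_zero, Real.exp_zero, mul_one]; exact hf)
    rw [sub_self, zero_mul] at h2
    refine hmono 0 (err C ε N) x f ?_ h2
    have h3 := err_le hC hεpos.le N
    have h4 : (1 + C * ε) ^ N ≤ Real.exp (C * L) := by
      have h5 : 1 + C * ε ≤ Real.exp (C * ε) := by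
        have := Real.add_one_le_exp (C * ε); linarith
      have h6 : (0 : ℝ) ≤ 1 + C * ε := by positivity
      calc (1 + C * ε) ^ N ≤ Real.exp (C * ε) ^ N := pow_le_pow_left₀ h6 h5 N
        _ = Real.exp (N * (C * ε)) := by rw [← Real.exp_nat_mul]
        _ = Real.exp (C * L) := by
            congr 1
            calc (N : ℝ) * (C * ε) = C * ((N : ℝ) * ε) := by ring
              _ = C * L := by rw [hNε]
    have h7 : C * ε ^ 2 * N = C * L ^ 2 / N := by
      rw [hε]; field_simp
    have h8 : err C ε N ≤ C * L ^ 2 / N * Real.exp (C * L) := by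
      refine h3.trans ?_
      rw [h7]
      exact mul_le_mul_of_nonneg_left h4 (by positivity)
    refine h8.trans ?_
    have h9 : C * L ^ 2 * Real.exp (C * L) / x < N := by linarith
    rw [div_lt_iff₀ hx] at h9
    have e : C * L ^ 2 / N * Real.exp (C * L) = C * L ^ 2 * Real.exp (C * L) / N := by ring
    rw [e, div_le_iff₀ hN0]
    linarith

end Pool.Agent.DBR
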