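import Pool.Agent.DBR.Stmts

set_option autoImplicit false

/-!
Univalent functions, module RRE: size of the first order term of a step.
-/

namespace Pool.Agent.DBR

open Complex Metric Set Filter MeasureTheory

open scoped Topology ComplexConjugate

open Pool.Agent.PSB (InS coeff psum Lam SelfU)

namespace RRE_

theorem hasSum_pK {z : ℂ} (hz : ‖z‖ < 1) :
    HasSum (fun m : ℕ => (if m = 0 then (1 : ℂ) else 2 * (-1) ^ m) * z ^ m) (pK z) := by
  have h1 : ‖-z‖ < 1 := by rwa [norm_neg]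
  have h2 := (hasSum_geometric_of_norm_lt_one h1).mul_left (2 : ℂ)
  have h3 : HasSum (fun m : ℕ => (if m = 0 then (-1 : ℂ) else 0)) (-1) := by
    have := hasSum_single (f := fun m : ℕ => (if m = 0 then (-1 : ℂ) else 0)) 0
      (fun k hk => by simp [hk])
    simpa using this
  have h4 := h2.add h3
  have hne : (1 : ℂ) + z ≠ 0 := by
    intro h
    have : ‖z‖ = 1 := by
      rw [show z = -1 by linear_combination h, norm_neg, norm_one]
    linarith
  have e : 2 * (1 - -z)⁻¹ + -1 = pK z := by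
    unfold pK
    rw [sub_neg_eq_add]
    field_simp
    ring
  rw [e] at h4
  refine h4.congr_fun fun m => ?_
  by_cases hm : m = 0
  · subst hm
    norm_num
  · simp only [hm, if_false]
    rw [neg_pow z m]
    ring

theorem sub_le (hQMO : Stmt_QMO) {p : ℂ → ℂ} (hp : Car p) {z : ℂ} (hz : ‖z‖ < 1) :
    ‖p z - pK z‖ ≤ 2 * Real.sqrt (yy p) * (‖z‖ / (1 - ‖z‖) ^ 2) := by
  obtain ⟨-, -, hq⟩ := hQMO p hp
  have h1 := (hasSum_coeff hp.diff (w := z) hz).sub (hasSum_pK hz)
  have hn : ‖‖z‖‖ < 1 := by rwa [norm_norm]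
  have h2 := (hasSum_coe_mul_geometric_of_norm_lt_one hn).mul_left (2 * Real.sqrt (yy p))
  refine h1.norm_le_of_bounded h2 fun m => ?_
  by_cases hm : m = 0
  · subst hm
    simp [DBR.coeff_zero, hp.zero]
  · have h3 := (hq m (Nat.one_le_iff_ne_zero.2 hm)).2.1
    simp only [hm, if_false]
    rw [← sub_mul, norm_mul, norm_pow]
    calc ‖coeff p m - 2 * (-1) ^ m‖ * ‖z‖ ^ m ≤ (2 * m * Real.sqrt (yy p)) * ‖z‖ ^ m := by
          gcongr
      _ = 2 * Real.sqrt (yy p) * (m * ‖z‖ ^ m) := by ring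

end RRE_

open RRE_ in
theorem rre_proof (hQMO : Stmt_QMO) : Stmt_RRE := by
  intro p r z hp hr hz
  have hr0 : 0 ≤ r := (norm_nonneg z).trans hz
  have hs := Real.sqrt_nonneg (yy p)
  have hr1 : 0 < 1 - r := by linarith
  have h1r : (1 - r) ^ 2 ≤ 1 := by nlinarith
  by_cases h0 : z = 0
  · have h3 := ((hQMO p hp).2.2 1 le_rfl).2.1
    have e : RR p z = coeff p 1 - 2 * (-1) ^ 1 := by
      unfold RR
      rw [if_pos h0]
      ring
    rw [e]
    refine h3.trans ?_
    have h4 : (1 : ℝ) ≤ 1 / (1 - r) ^ 2 := by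
      rw [le_div_iff₀ (by positivity)]
      linarith
    have h5 : 4 / (1 - r) ^ 2 * Real.sqrt (yy p) = 4 * (1 / (1 - r) ^ 2) * Real.sqrt (yy p) := by
      ring
    rw [h5]
    push_cast
    nlinarith
  · have hz1 : ‖z‖ < 1 := hz.trans_lt hr
    have hne : (1 : ℂ) + z ≠ 0 := by
      intro h
      have : ‖z‖ = 1 := by
        rw [show z = -1 by linear_combination h, norm_neg, norm_one]
      linarith
    have e : RR p z = (1 - z ^ 2) / z * (p z - pK z) := by
      unfold RR pK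
      rw [if_neg h0]
      field_simp
      ring
    have h1 := sub_le hQMO hp hz1
    have hzp : 0 < ‖z‖ := norm_pos_iff.2 h0
    have h2 : ‖(1 - z ^ 2) / z‖ ≤ 2 / ‖z‖ := by
      rw [norm_div]
      refine div_le_div_of_nonneg_right ?_ hzp.le
      refine (norm_sub_le _ _).trans ?_
      rw [norm_one, norm_pow]
      nlinarith
    rw [e, norm_mul]
    have h3 : ‖(1 - z ^ 2) / z‖ * ‖p z - pK z‖ ≤
        2 / ‖z‖ * (2 * Real.sqrt (yy p) * (‖z‖ / (1 - ‖z‖) ^ 2)) :=
      mul_le_mul h2 h1 (norm_nonneg _) (by positivity)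
    refine h3.trans ?_
    have h5 : 0 < 1 - ‖z‖ := by linarith
    have h4 : 2 / ‖z‖ * (2 * Real.sqrt (yy p) * (‖z‖ / (1 - ‖z‖) ^ 2)) =
        4 / (1 - ‖z‖) ^ 2 * Real.sqrt (yy p) := by
      field_simp
      ring
    rw [h4]
    have h6 : 4 / (1 - ‖z‖) ^ 2 ≤ 4 / (1 - r) ^ 2 := by
      apply div_le_div_of_nonneg_left (by norm_num) (by positivity)
      exact pow_le_pow_left₀ hr1.le (by linarith) 2
    exact mul_le_mul_of_nonneg_right h6 hs

end Pool.Agent.DBR
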