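import Pool.Agent.DBR.Stmts

/-!
Bounded univalent functions (MP_910507_an), module RRS: the real part of the first order term.
-/

set_option autoImplicit false

namespace Pool.Agent.DBR

open Complex Metric Set Filter MeasureTheory

open scoped Topology ComplexConjugate

open Pool.Agent.PSB (InS coeff psum Lam SelfU)

namespace RRS_

/-- the symmetrised function -/
lemma hasSum_P {p : ℂ → ℂ} (hp : Car p) {z : ℂ} (hz : ‖z‖ < 1) :
    HasSum (fun k => (((coeff p k).re : ℝ) : ℂ) * z ^ k) ((p z + conj (p (conj z))) / 2) := by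
  have h1 := hasSum_coeff hp.diff hz
  have h2 := hasSum_coeff hp.diff (w := conj z) (by rwa [Complex.norm_conj])
  have h3 := h2.map (starRingEnd ℂ) Complex.continuous_conj
  have h4 := (h1.add h3).div_const 2
  refine h4.congr_fun fun k => ?_
  simp only [Function.comp_apply, map_mul, map_pow, Complex.conj_conj]
  rw [Complex.re_eq_add_conj]
  ring

lemma alg {p : ℂ → ℂ} {z : ℂ} (hz : z ≠ 0) :
    sym (RR p) z = ((p z + conj (p (conj z))) / 2 - 1) / z -
      z * (1 + (p z + conj (p (conj z))) / 2) + 2 := by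
  have hz' : conj z ≠ 0 := by simpa using hz
  unfold sym RR
  rw [if_neg hz, if_neg hz']
  simp only [map_add, map_sub, map_div₀, map_mul, map_one, Complex.conj_conj, map_ofNat]
  field_simp
  ring

/-- the coefficients -/
noncomputable def e (p : ℂ → ℂ) (j : ℕ) : ℝ :=
  if j = 0 then (coeff p 2).re - 2 else (coeff p (j + 2)).re - (coeff p j).re

lemma hasSum_e {p : ℂ → ℂ} (hp : Car p) {z : ℂ} (hz : ‖z‖ < 1) (h0 : z ≠ 0) :
    HasSum (fun j => ((e p j : ℝ) : ℂ) * z ^ (j + 1)) (sym (RR p) z - yy p) := by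
  set P : ℂ := (p z + conj (p (conj z))) / 2 with hP
  have h := hasSum_P hp hz
  rw [← hP] at h
  have hp0 : (coeff p 0).re = 1 := by
    rw [coeff_zero, hp.zero, Complex.one_re]
  have h1 : HasSum (fun k => (((coeff p (k + 1)).re : ℝ) : ℂ) * z ^ (k + 1)) (P - 1) := by
    have := (hasSum_nat_add_iff' 1).2 h
    simpa [hp0] using this
  have h3 : HasSum (fun k => (((coeff p (k + 3)).re : ℝ) : ℂ) * z ^ (k + 3))
      (P - 1 - (((coeff p 1).re : ℝ) : ℂ) * z - (((coeff p 2).re : ℝ) : ℂ) * z ^ 2) := by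
    have := (hasSum_nat_add_iff' 2).2 h1
    simp only [Finset.sum_range_succ, Finset.sum_range_zero, zero_add, pow_one] at this
    have e2 : P - 1 - (((coeff p 1).re : ℝ) : ℂ) * z - (((coeff p 2).re : ℝ) : ℂ) * z ^ 2 =
        P - 1 - ((((coeff p 1).re : ℝ) : ℂ) * z + (((coeff p (1 + 1)).re : ℝ) : ℂ) * z ^ (1 + 1)) := by
      ring
    rw [e2]
    exact this
  have h4 := (h3.mul_right z⁻¹).sub (h1.mul_right z)
  refine (hasSum_nat_add_iff' 1).1 ?_
  simp only [Finset.sum_range_one, zero_add, pow_one]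
  have e1 : sym (RR p) z - yy p - ((e p 0 : ℝ) : ℂ) * z =
      (P - 1 - (((coeff p 1).re : ℝ) : ℂ) * z - (((coeff p 2).re : ℝ) : ℂ) * z ^ 2) * z⁻¹ -
        (P - 1) * z := by
    rw [alg h0, ← hP]
    unfold yy e
    rw [if_pos rfl]
    push_cast
    field_simp
    ring
  rw [e1]
  refine h4.congr_fun fun k => ?_
  unfold e
  rw [if_neg (Nat.succ_ne_zero k)]
  push_cast
  have : z ^ (k + 3) * z⁻¹ = z ^ (k + 2) := by
    rw [pow_succ z (k + 2), mul_assoc, mul_inv_cancel₀ h0, mul_one]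
  rw [mul_assoc, this]
  ring

lemma e_le (hQ : Stmt_QMO) {p : ℂ → ℂ} (hp : Car p) (j : ℕ) :
    |e p j| ≤ 10 * ((j + 2).choose 2 : ℝ) * yy p := by
  obtain ⟨hy, -, hm⟩ := hQ p hp
  have hch : ((j + 2).choose 2 : ℝ) = ((j : ℝ) + 2) * (j + 1) / 2 := by
    rw [Nat.cast_choose_two]
    push_cast
    ring
  rw [hch]
  unfold e
  split_ifs with h
  · subst h
    have h2 := (hm 2 (by norm_num)).2.2
    norm_num at h2 ⊢
    linarith
  · have h1 := (hm j (by omega)).2.2
    have h2 := (hm (j + 2) (by omega)).2.2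
    have e1 : (-1 : ℝ) ^ (j + 2) = (-1) ^ j := by
      rw [pow_add]; norm_num
    rw [e1] at h2
    push_cast at h2
    have h3 : |(coeff p (j + 2)).re - (coeff p j).re| ≤
        |(coeff p (j + 2)).re - 2 * (-1) ^ j| + |(coeff p j).re - 2 * (-1) ^ j| := by
      have := abs_sub ((coeff p (j + 2)).re - 2 * (-1) ^ j) ((coeff p j).re - 2 * (-1) ^ j)
      have e2 : (coeff p (j + 2)).re - 2 * (-1) ^ j - ((coeff p j).re - 2 * (-1) ^ j) =
        (coeff p (j + 2)).re - (coeff p j).re := by ring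
      rw [← e2]
      exact this
    have hj : (0 : ℝ) ≤ j := Nat.cast_nonneg j
    nlinarith [mul_nonneg hj hy, mul_nonneg (mul_nonneg hj hj) hy]

end RRS_

open RRS_ in
theorem rrs_proof (hQMO : Stmt_QMO) : Stmt_RRS := by
  intro p r z hp hr hz
  have hr0 : 0 ≤ r := (norm_nonneg z).trans hz
  obtain ⟨hy, -, -⟩ := hQMO p hp
  by_cases h0 : z = 0
  · subst h0
    have : sym (RR p) 0 - yy p = 0 := by
      unfold sym RR yy
      simp only [map_zero, if_true, map_add, map_ofNat]
      have h := Complex.add_conj (coeff p 1)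
      have : (coeff p 1 + 2 + (conj (coeff p 1) + 2)) / 2 = (((coeff p 1).re : ℝ) : ℂ) + 2 := by
        have e1 : coeff p 1 + 2 + (conj (coeff p 1) + 2) =
          (coeff p 1 + conj (coeff p 1)) + 4 := by ring
        rw [e1, h]
        push_cast
        ring
      rw [this]
      push_cast
      ring
    rw [this]
    simp
  · have hz1 : ‖z‖ < 1 := hz.trans_lt hr
    have h1 := hasSum_e hp hz1 h0
    have hg : HasSum (fun j : ℕ => 10 * yy p * ‖z‖ * (((j + 2).choose 2 : ℝ) * r ^ j))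
        (10 * yy p * ‖z‖ * (1 / (1 - r) ^ (2 + 1))) :=
      (hasSum_choose_mul_geometric_of_norm_lt_one 2
        (by rwa [Real.norm_of_nonneg hr0] : ‖r‖ < 1)).mul_left _
    have h2 : ‖sym (RR p) z - yy p‖ ≤ 10 * yy p * ‖z‖ * (1 / (1 - r) ^ (2 + 1)) := by
      rw [← h1.tsum_eq]
      refine tsum_of_norm_bounded hg fun j => ?_
      rw [norm_mul, norm_pow, Complex.norm_real, Real.norm_eq_abs]
      have h3 := e_le hQMO hp j
      have h4 : ‖z‖ ^ (j + 1) ≤ r ^ j * ‖z‖ := by
        rw [pow_succ]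
        exact mul_le_mul_of_nonneg_right (pow_le_pow_left₀ (norm_nonneg z) hz j) (norm_nonneg z)
      calc |e p j| * ‖z‖ ^ (j + 1) ≤ (10 * ((j + 2).choose 2 : ℝ) * yy p) * (r ^ j * ‖z‖) :=
            mul_le_mul h3 h4 (by positivity) (by positivity)
        _ = _ := by ring
    refine h2.trans (le_of_eq ?_)
    ring

end Pool.Agent.DBR
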