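import Pool.Agent.DBR.Stmts
import Pool.Agent.StarN.InjDeriv

/-!
DBR, module SCH: automorphisms of the disc fixing the origin.
-/

set_option autoImplicit false

namespace Pool.Agent.DBR

open Complex Metric Set Filter MeasureTheory

open scoped Topology ComplexConjugate

open Pool.Agent.PSB (InS coeff psum Lam SelfU)

theorem sch_proof : Stmt_SCH := by
  intro g hg hinj h0 himg
  have hb0 : (0 : ℂ) ∈ ball (0 : ℂ) 1 := mem_ball_self one_pos
  have hmaps : MapsTo g (ball 0 1) (ball 0 1) := by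
    intro z hz
    rw [← himg]
    exact mem_image_of_mem g hz
  set k : ℂ → ℂ := Function.invFunOn g (ball 0 1) with hk
  have hkmem : ∀ w ∈ ball (0 : ℂ) 1, k w ∈ ball (0 : ℂ) 1 := by
    intro w hw
    rw [← himg] at hw
    exact Function.invFunOn_mem hw
  have hgk : ∀ w ∈ ball (0 : ℂ) 1, g (k w) = w := by
    intro w hw
    rw [← himg] at hw
    exact Function.invFunOn_eq hw
  have hstrict : ∀ w ∈ ball (0 : ℂ) 1, HasStrictDerivAt k (deriv g (k w))⁻¹ w := by
    intro w hw
    have hz := hkmem w hw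
    have hopen : ball (0 : ℂ) 1 ∈ 𝓝 (k w) := isOpen_ball.mem_nhds hz
    have hne : deriv g (k w) ≠ 0 :=
      Pool.Agent.StarN.deriv_ne_zero_of_injOn hopen (hg.analyticAt hopen) hinj
    have hs : HasStrictDerivAt g (deriv g (k w)) (k w) := (hg.analyticAt hopen).hasStrictDerivAt
    have h1 := hs.to_localInverse hne
    have h2 := HasStrictDerivAt.eventually_right_inverse hs hne
    have h3 : Tendsto (hs.localInverse g (deriv g (k w)) (k w) hne) (𝓝 (g (k w))) (𝓝 (k w)) := by
      have := h1.hasDerivAt.continuousAt.tendsto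
      rwa [show hs.localInverse g (deriv g (k w)) (k w) hne (g (k w)) = k w from
        HasStrictFDerivAt.localInverse_apply_image ..] at this
    rw [hgk w hw] at h1 h2 h3
    refine h1.congr_of_eventuallyEq ?_
    filter_upwards [h2, h3.eventually hopen, isOpen_ball.mem_nhds hw] with y hy hy2 hy3
    exact hinj hy2 (hkmem y hy3) (hy.trans (hgk y hy3).symm)
  have hkd : DifferentiableOn ℂ k (ball 0 1) := fun w hw =>
    (hstrict w hw).hasDerivAt.differentiableAt.differentiableWithinAt
  have hk0 : k 0 = 0 := hinj (hkmem 0 hb0) hb0 ((hgk 0 hb0).trans h0.symm)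
  have a1 : ‖deriv g 0‖ ≤ 1 := by
    refine norm_deriv_le_one_of_mapsTo_ball hg ?_ one_pos
    rw [h0]
    exact hmaps.mono_right ball_subset_closedBall
  have a2 : ‖deriv k 0‖ ≤ 1 := by
    refine norm_deriv_le_one_of_mapsTo_ball hkd ?_ one_pos
    rw [hk0]
    exact fun w hw => ball_subset_closedBall (hkmem w hw)
  have a3 : deriv k 0 = (deriv g 0)⁻¹ := by
    have := (hstrict 0 hb0).hasDerivAt.deriv
    rwa [hk0] at this
  have hne : deriv g 0 ≠ 0 := by
    have hopen : ball (0 : ℂ) 1 ∈ 𝓝 (0 : ℂ) := isOpen_ball.mem_nhds hb0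
    exact Pool.Agent.StarN.deriv_ne_zero_of_injOn hopen (hg.analyticAt hopen) hinj
  rw [a3, norm_inv] at a2
  have hpos : 0 < ‖deriv g 0‖ := norm_pos_iff.2 hne
  have a4 : 1 ≤ ‖deriv g 0‖ := by
    rw [inv_le_one₀ hpos] at a2
    exact a2
  exact le_antisymm a1 a4

end Pool.Agent.DBR
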