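import Pool.Agent.DBR.Stmts

/-!
# MP_910507_an, squad DBR: module STG, the one-step lemma by approximation
-/

set_option autoImplicit false

namespace Pool.Agent.DBR

open Complex Metric Set Filter MeasureTheory
open scoped Topology ComplexConjugate
open Pool.Agent.PSB (InS coeff psum Lam SelfU)

namespace STG_

theorem smem {ρ : ℝ} (h0 : 0 < ρ) {z : ℂ} (hz : z ∈ ball (0 : ℂ) (1 / ρ)) :
    (ρ : ℂ) * z ∈ ball (0 : ℂ) 1 := by
  rw [mem_ball_zero_iff] at hz ⊢
  rw [norm_mul, Complex.norm_real, Real.norm_of_nonneg h0.le]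
  rw [lt_div_iff₀ h0] at hz
  linarith

theorem one_step (hSTN : Stmt_STN) {M r ρ : ℝ} {f : ℂ → ℂ} (hf : InS M f) (h1 : 1 ≤ r) (h2 : r ≤ M)
    (h0 : 0 < ρ) (hρ : ρ < 1) : ∃ h g : ℂ → ℂ, Fac (M / ρ) r (dil ρ f) h g := by
  have hρc : (ρ : ℂ) ≠ 0 := by exact_mod_cast h0.ne'
  have hSS := dil_inSS h0 hρ.le (toSS hf)
  refine hSTN (1 / ρ) (M / ρ) r (dil ρ f) ?_ ?_ ?_ hSS.zero hSS.one ?_ h1 ?_
  · rw [lt_div_iff₀ h0]
    linarith
  · have hm : MapsTo (fun z : ℂ => (ρ : ℂ) * z) (ball 0 (1 / ρ)) (ball 0 1) := fun z hz => smem h0 hz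
    exact (hf.diff.comp (differentiableOn_id.const_mul _) hm).div_const _
  · intro x hx y hy hxy
    have h2 : f (ρ * x) = f (ρ * y) := by
      have := hxy
      unfold dil at this
      field_simp at this
      exact this
    have h3 := hf.inj (smem h0 hx) (smem h0 hy) h2
    exact mul_left_cancel₀ hρc h3
  · intro z hz
    unfold dil
    rw [norm_div, Complex.norm_real, Real.norm_of_nonneg h0.le]
    exact div_le_div_of_nonneg_right (hf.bdd _ (smem h0 hz)) h0.le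
  · have hM : 1 ≤ M := one_le_of_inS hf
    rw [le_div_iff₀ h0]
    nlinarith

end STG_

open STG_ in
theorem stg_proof (hSTN : Stmt_STN) (hFLM : Stmt_FLM) : Stmt_STG := by
  intro M r f hf h1 h2
  set ρ : ℕ → ℝ := fun n => 1 - 1 / ((n : ℝ) + 2) with hρd
  have hpos : ∀ n : ℕ, 0 < ρ n := by
    intro n
    have hn : (0 : ℝ) ≤ n := Nat.cast_nonneg n
    have : (1 : ℝ) / ((n : ℝ) + 2) < 1 := by
      rw [div_lt_one (by positivity)]
      linarith
    show 0 < 1 - 1 / ((n : ℝ) + 2)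
    linarith
  have hlt : ∀ n : ℕ, ρ n < 1 := by
    intro n
    have : (0 : ℝ) < 1 / ((n : ℝ) + 2) := by positivity
    show 1 - 1 / ((n : ℝ) + 2) < 1
    linarith
  have hlim : Tendsto ρ atTop (𝓝 1) := by
    have h3 : Tendsto (fun n : ℕ => 1 / ((n : ℝ) + 2)) atTop (𝓝 0) := by
      have h4 : Tendsto (fun n : ℕ => (n : ℝ) + 2) atTop atTop :=
        tendsto_atTop_add_const_right _ _ tendsto_natCast_atTop_atTop
      exact tendsto_const_nhds.div_atTop h4
    have h5 : Tendsto (fun n : ℕ => 1 - 1 / ((n : ℝ) + 2)) atTop (𝓝 (1 - 0)) :=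
      tendsto_const_nhds.sub h3
    rw [sub_zero] at h5
    exact h5
  have hlim' : Tendsto ρ atTop (𝓝[<] 1) :=
    tendsto_nhdsWithin_iff.2 ⟨hlim, Eventually.of_forall fun n => hlt n⟩
  have hex : ∀ n : ℕ, ∃ h g : ℂ → ℂ, Fac (M / ρ n) r (dil (ρ n) f) h g := fun n =>
    one_step hSTN hf h1 h2 (hpos n) (hlt n)
  choose hn gn hfac using hex
  refine hFLM (fun n => M / ρ n) (fun _ => r) M r (fun n => dil (ρ n) f) hn gn f ?_ tendsto_const_nhds
    (by linarith) ?_ hfac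
  · have h6 : Tendsto (fun n => M / ρ n) atTop (𝓝 (M / 1)) :=
      tendsto_const_nhds.div hlim one_ne_zero
    rw [div_one] at h6
    exact h6
  · intro z hz
    exact (dil_tendsto (toSS hf) hz).comp hlim'

end Pool.Agent.DBR
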