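import Pool.Agent.DBR.Stmts

set_option autoImplicit false

/-!
Squad DBR, module STN: the one-step lemma for functions univalent in a larger disc.
-/

namespace Pool.Agent.DBR

open Complex Metric Set Filter MeasureTheory

open scoped Topology ComplexConjugate

open Pool.Agent.PSB (InS coeff psum Lam SelfU)

namespace STN_

theorem fac_top {R₀ M : ℝ} {F : ℂ → ℂ} (hR : 1 < R₀) (hF : DifferentiableOn ℂ F (ball 0 R₀))
    (h0 : F 0 = 0) (hb : ∀ z ∈ ball (0 : ℂ) R₀, ‖F z‖ ≤ M) (hM : 1 ≤ M) :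
    Fac M M F (fun z => (M : ℂ) * z) (fun z => F z / M) := by
  have hM0 : (0 : ℝ) < M := by linarith
  have hMc : (M : ℂ) ≠ 0 := by exact_mod_cast hM0.ne'
  have hR0 : (0 : ℝ) < R₀ := by linarith
  have hsub : ball (0 : ℂ) 1 ⊆ ball 0 R₀ := ball_subset_ball hR.le
  refine ⟨?_, ?_, ?_, ?_, ?_, ?_, ?_, ?_, ?_⟩
  · exact (differentiable_id.const_mul (M : ℂ)).differentiableOn
  · intro a _ b _ hab
    exact mul_left_cancel₀ hMc hab
  · simp
  · have : HasDerivAt (fun z : ℂ => (M : ℂ) * z) ((M : ℂ) * 1) 0 := (hasDerivAt_id 0).const_mul _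
    rw [this.deriv, mul_one]
  · intro z hz
    rw [mem_ball_zero_iff] at hz
    show ‖(M : ℂ) * z‖ ≤ M
    rw [norm_mul, Complex.norm_real, Real.norm_of_nonneg hM0.le]
    nlinarith [norm_nonneg z]
  · exact (hF.mono hsub).div_const _
  · simp [h0]
  · intro z hz
    rw [mem_ball_zero_iff] at hz
    have hmaps : MapsTo F (ball 0 R₀) (closedBall (F 0) M) := by
      intro w hw
      rw [h0, mem_closedBall_zero_iff]
      exact hb w hw
    have h1 := Complex.dist_le_div_mul_dist_of_mapsTo_ball hF hmaps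
      (z := z) (by rw [mem_ball_zero_iff]; linarith)
    rw [h0, dist_zero_right, dist_zero_right, div_mul_eq_mul_div, le_div_iff₀ hR0] at h1
    show ‖F z / M‖ < 1
    rw [norm_div, Complex.norm_real, Real.norm_of_nonneg hM0.le, div_lt_one hM0]
    have h2 : M * ‖z‖ < M * 1 := mul_lt_mul_of_pos_left hz hM0
    by_contra hcon
    have hcon' := not_lt.1 hcon
    nlinarith [norm_nonneg (F z)]
  · intro z _
    show F z = (M : ℂ) * (F z / M)
    field_simp

end STN_

theorem stn_proof (hFLM : Stmt_FLM) (hFRE : Stmt_FRE) (hCUT : Stmt_CUT) : Stmt_STN := by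
  intro R₀ M r F hR hF hinj h0 h1 hb hr1 hrM
  set S : Set ℝ := {s | r ≤ s ∧ ∃ h g : ℂ → ℂ, Fac M s F h g} with hS
  have hMS : M ∈ S := ⟨hrM, _, _, STN_.fac_top hR hF h0 hb (hr1.trans hrM)⟩
  have hne : S.Nonempty := ⟨M, hMS⟩
  have hbdd : BddBelow S := ⟨r, fun s hs => hs.1⟩
  obtain ⟨u, -, hu, huS⟩ := exists_seq_tendsto_sInf hne hbdd
  have hs0r : r ≤ sInf S := le_csInf hne fun s hs => hs.1
  have hs0 : 0 < sInf S := by linarith
  choose hn gn hfac using fun n => (huS n).2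
  obtain ⟨h, g, hfac0⟩ := hFLM (fun _ => M) u M (sInf S) (fun _ => F) hn gn F
    tendsto_const_nhds hu hs0 (fun z _ => tendsto_const_nhds) hfac
  rcases hs0r.eq_or_lt with heq | hlt
  · exact ⟨h, g, heq ▸ hfac0⟩
  · exfalso
    obtain ⟨ζ, η, hζ, hη, hfree⟩ := hFRE R₀ M (sInf S) F h g hR hF hinj h1
      (hr1.trans_lt hlt) hfac0
    obtain ⟨δ, hδ0, hδ1, hcut⟩ := hCUT M (sInf S) F h g ζ η hfac0 hζ hη hfree
    set c : ℝ := max (1 - δ / 2) (r / sInf S) with hc
    have hc1 : c < 1 := max_lt (by linarith) ((div_lt_one hs0).2 hlt)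
    have hcδ : 1 - δ < c := lt_of_lt_of_le (by linarith) (le_max_left _ _)
    obtain ⟨h', g', hfac'⟩ := hcut c hcδ hc1
    have hrc : r ≤ sInf S * c := by
      have : r / sInf S ≤ c := le_max_right _ _
      rw [div_le_iff₀ hs0] at this
      linarith
    have hmem : sInf S * c ∈ S := ⟨hrc, h', g', hfac'⟩
    have := csInf_le hbdd hmem
    nlinarith

end Pool.Agent.DBR
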