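import Pool.Agent.DBR.Stmts

set_option autoImplicit false

/-!
STP: existence of steps.
-/

namespace Pool.Agent.DBR

open Complex Metric Set Filter MeasureTheory

open scoped Topology ComplexConjugate

open Pool.Agent.PSB (InS coeff psum Lam SelfU)

namespace STP_

theorem gpart {M ε : ℝ} {F h w : ℂ → ℂ} (hfac : Fac M (Real.exp ε) F h w) :
    InS (M * Real.exp (-ε)) (fun z => Complex.exp (-ε) * h z) := by
  have he : Complex.exp (-(ε : ℂ)) ≠ 0 := Complex.exp_ne_zero _
  have hd : HasDerivAt h ((Real.exp ε : ℝ) : ℂ) 0 := by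
    rw [← hfac.hder]
    exact (hfac.hdiff.differentiableAt ball_mem).hasDerivAt
  refine ⟨hfac.hdiff.const_mul _, ?_, ?_, ?_, ?_⟩
  · intro x hx y hy hxy
    exact hfac.hinj hx hy (mul_left_cancel₀ he hxy)
  · simp [hfac.hzero]
  · rw [(hd.const_mul (Complex.exp (-(ε : ℂ)))).deriv, Complex.ofReal_exp, ← Complex.exp_add]
    simp
  · intro z hz
    rw [norm_mul, Complex.norm_exp]
    have h1 := hfac.hbdd z hz
    have h2 : (-(ε : ℂ)).re = -ε := by simp
    rw [h2, mul_comm]
    exact mul_le_mul_of_nonneg_right h1 (Real.exp_pos _).le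

end STP_

theorem stp_proof (hSTG : Stmt_STG) (hLOG : Stmt_LOG) : Stmt_STP := by
  intro M ε f hf hε hM
  obtain ⟨h, w, hfac⟩ := hSTG M (Real.exp ε) f hf (Real.one_le_exp hε.le) hM
  have hS := toSS hf
  have hwd0 : HasDerivAt w (deriv w 0) 0 := (hfac.gdiff.differentiableAt ball_mem).hasDerivAt
  have hhd0 : HasDerivAt h (Complex.exp ε) (w 0) := by
    rw [hfac.gzero, ← Complex.ofReal_exp, ← hfac.hder]
    exact (hfac.hdiff.differentiableAt ball_mem).hasDerivAt
  have hder : Complex.exp ε * deriv w 0 = 1 := by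
    have h1 := hhd0.comp (0 : ℂ) hwd0
    have h2 : HasDerivAt f (Complex.exp ε * deriv w 0) 0 := by
      refine h1.congr_of_eventuallyEq ?_
      filter_upwards [ball_mem] with z hz
      exact hfac.comp z hz
    rw [← h2.deriv, hf.one]
  -- the function `F`
  set F : ℂ → ℂ := fun z => Complex.exp ε * dslope w 0 z with hF
  have hFd : DifferentiableOn ℂ F (ball 0 1) :=
    ((Complex.differentiableOn_dslope ball_mem).2 hfac.gdiff).const_mul _
  have hslope : ∀ z : ℂ, z ≠ 0 → dslope w 0 z = w z / z := by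
    intro z hz
    rw [dslope_of_ne _ hz, slope_def_field, hfac.gzero, sub_zero, sub_zero]
  have hF0 : F 0 = 1 := by
    rw [hF]
    simp only [dslope_same]
    exact hder
  have hwne : ∀ z ∈ ball (0 : ℂ) 1, z ≠ 0 → w z ≠ 0 := by
    intro z hz h0 hw
    refine hS.ne_zero hz h0 ?_
    rw [hfac.comp z hz, hw, hfac.hzero]
  have hFne : ∀ z ∈ ball (0 : ℂ) 1, F z ≠ 0 := by
    intro z hz
    by_cases h0 : z = 0
    · rw [h0, hF0]; exact one_ne_zero
    · rw [hF]
      simp only
      rw [hslope z h0]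
      exact mul_ne_zero (Complex.exp_ne_zero _) (div_ne_zero (hwne z hz h0) h0)
  obtain ⟨l, hl, hl0, hlF⟩ := hLOG F hFd hFne hF0
  have hεc : (ε : ℂ) ≠ 0 := by exact_mod_cast hε.ne'
  have hnorm : ∀ z ∈ ball (0 : ℂ) 1, ‖dslope w 0 z‖ ≤ 1 := by
    have hb : ∀ z ∈ ball (0 : ℂ) 1, ‖w z‖ ≤ 1 := fun z hz => (hfac.gmaps z hz).le
    intro z hz
    by_cases h0 : z = 0
    · rw [h0, dslope_same]
      have h1 := norm_coeff_le_of_ball hfac.gdiff hb 1
      rwa [coeff_one] at h1
    · rw [hslope z h0, norm_div]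
      have h2 := schwarz_ball hfac.gdiff hfac.gzero hb hz
      rw [one_mul] at h2
      exact div_le_one_of_le₀ h2 (norm_nonneg _)
  have hcar : Car (fun z => 1 - l z / ε) := by
    refine ⟨?_, ?_, ?_⟩
    · exact (differentiableOn_const _).sub (hl.div_const _)
    · intro z hz
      have h1 : ‖F z‖ ≤ Real.exp ε := by
        rw [hF]
        simp only
        rw [norm_mul, Complex.norm_exp, Complex.ofReal_re]
        have := hnorm z hz
        have h2 := Real.exp_pos ε
        nlinarith
      rw [hlF z hz, Complex.norm_exp] at h1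
      have h2 := Real.exp_le_exp.1 h1
      rw [Complex.sub_re, Complex.one_re, Complex.div_ofReal_re]
      have h3 : (l z).re / ε ≤ 1 := by rw [div_le_one hε]; exact h2
      linarith
    · simp [hl0]
  refine ⟨fun z => Complex.exp (-ε) * h z, fun z => 1 - l z / ε, STP_.gpart hfac, hcar, ?_⟩
  intro z hz
  have h1 : om ε (fun z => 1 - l z / ε) z = w z := by
    unfold om
    have h2 : -((ε : ℂ) * (1 - l z / ε)) = -(ε : ℂ) + l z := by
      field_simp
      ring
    rw [h2, Complex.exp_add, ← hlF z hz, Complex.exp_neg, hF]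
    simp only
    have he : Complex.exp (ε : ℂ) ≠ 0 := Complex.exp_ne_zero _
    rw [inv_mul_cancel_left₀ he]
    by_cases h0 : z = 0
    · rw [h0, zero_mul, hfac.gzero]
    · rw [hslope z h0]
      field_simp
  rw [h1, ← mul_assoc, ← Complex.exp_add, add_neg_cancel, Complex.exp_zero, one_mul]
  exact hfac.comp z hz

end Pool.Agent.DBR
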