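import Pool.Agent.DBR.Stmts

set_option autoImplicit false

/-!
Squad DBR, module SYA: multiplicativity of symmetric powers.
-/

namespace Pool.Agent.DBR

open Complex Metric Set Filter MeasureTheory

open scoped Topology ComplexConjugate

open Pool.Agent.PSB (InS coeff psum Lam SelfU)

namespace SYA_

open Polynomial

/-- homogenisation of degree `n` -/
noncomputable def hom (n : ℕ) (F P Q : ℝ[X]) : ℝ[X] :=
  ∑ j ∈ Finset.range (n + 1), C (F.coeff j) * P ^ (n - j) * Q ^ j

lemma step (n : ℕ) (F P Q : ℝ[X]) (hF : F.natDegree ≤ n) (a b : ℝ) :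
    hom (n + 1) (F * (C a + C b * X)) P Q = (C a * P + C b * Q) * hom n F P Q := by
  unfold hom
  have h1 : ∀ j, (F * (C a + C b * X)).coeff j = a * F.coeff j + b * (F * X).coeff j := by
    intro j
    have e : F * (C a + C b * X) = C a * F + C b * (F * X) := by ring
    rw [e, Polynomial.coeff_add, Polynomial.coeff_C_mul, Polynomial.coeff_C_mul]
  have h2 : ∑ j ∈ Finset.range (n + 1 + 1), C ((F * (C a + C b * X)).coeff j) *
      P ^ (n + 1 - j) * Q ^ j =
      ∑ j ∈ Finset.range (n + 1 + 1), C (a * F.coeff j) * P ^ (n + 1 - j) * Q ^ j +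
      ∑ j ∈ Finset.range (n + 1 + 1), C (b * (F * X).coeff j) * P ^ (n + 1 - j) * Q ^ j := by
    rw [← Finset.sum_add_distrib]
    apply Finset.sum_congr rfl
    intro j _
    rw [h1, C_add]
    ring
  rw [h2, Finset.sum_range_succ (fun j : ℕ => C (a * F.coeff j) * P ^ (n + 1 - j) * Q ^ j),
    Finset.sum_range_succ' (fun j : ℕ => C (b * Polynomial.coeff (F * X : ℝ[X]) j) * P ^ (n + 1 - j) * Q ^ j)]
  have h3 : F.coeff (n + 1) = 0 := coeff_eq_zero_of_natDegree_lt (by omega)
  have h4 : (F * X).coeff 0 = 0 := by simp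
  rw [h3, h4, add_mul, Finset.mul_sum, Finset.mul_sum]
  simp only [mul_zero, C_0, zero_mul, add_zero]
  congr 1
  · apply Finset.sum_congr rfl
    intro j hj
    have hj' : j ≤ n := by
      have := Finset.mem_range.mp hj
      omega
    have e : n + 1 - j = (n - j) + 1 := by omega
    rw [e, C_mul, pow_succ]
    ring
  · apply Finset.sum_congr rfl
    intro j hj
    have e : n + 1 - (j + 1) = n - j := by omega
    rw [e, coeff_mul_X, C_mul, pow_succ]
    ring

lemma deg_lin (a b : ℝ) : (C a + C b * X : ℝ[X]).natDegree ≤ 1 := by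
  refine (natDegree_add_le _ _).trans ?_
  simp only [natDegree_C]
  refine max_le (by norm_num) ?_
  exact (natDegree_C_mul_le b X).trans natDegree_X_le

lemma deg_pow (a b : ℝ) (p : ℕ) : ((C a + C b * X : ℝ[X]) ^ p).natDegree ≤ p := by
  refine (natDegree_pow_le).trans ?_
  calc p * (C a + C b * X : ℝ[X]).natDegree ≤ p * 1 := Nat.mul_le_mul_left _ (deg_lin a b)
    _ = p := by ring

lemma deg_F (a b c d : ℝ) (p q : ℕ) :
    ((C a + C b * X : ℝ[X]) ^ p * (C c + C d * X : ℝ[X]) ^ q).natDegree ≤ p + q :=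
  (natDegree_mul_le).trans (Nat.add_le_add (deg_pow a b p) (deg_pow c d q))

lemma hom_pow (a b : ℝ) (P Q : ℝ[X]) (p : ℕ) :
    hom p ((C a + C b * X) ^ p) P Q = (C a * P + C b * Q) ^ p := by
  induction p with
  | zero => simp [hom]
  | succ p ih =>
    rw [pow_succ, step p _ P Q (deg_pow a b p), ih, pow_succ]
    ring

lemma hom_F (a b c d : ℝ) (P Q : ℝ[X]) (p q : ℕ) :
    hom (p + q) ((C a + C b * X) ^ p * (C c + C d * X) ^ q) P Q =
      (C a * P + C b * Q) ^ p * (C c * P + C d * Q) ^ q := by
  induction q with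
  | zero => simp [hom_pow]
  | succ q ih =>
    rw [pow_succ, ← mul_assoc, ← add_assoc, step (p + q) _ P Q (deg_F a b c d p q), ih, pow_succ]
    ring

end SYA_

theorem sya_proof : Stmt_SYA := by
  intro n a b c d a' b' c' d' i k hi _
  have key := SYA_.hom_F a b c d (Polynomial.C a' + Polynomial.C b' * Polynomial.X)
    (Polynomial.C c' + Polynomial.C d' * Polynomial.X) (n - i) i
  have e : n - i + i = n := Nat.sub_add_cancel hi
  rw [e] at key
  have e1 : Polynomial.C a * (Polynomial.C a' + Polynomial.C b' * Polynomial.X) +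
      Polynomial.C b * (Polynomial.C c' + Polynomial.C d' * Polynomial.X) =
      Polynomial.C (a * a' + b * c') + Polynomial.C (a * b' + b * d') * Polynomial.X := by
    simp only [Polynomial.C_add, Polynomial.C_mul]
    ring
  have e2 : Polynomial.C c * (Polynomial.C a' + Polynomial.C b' * Polynomial.X) +
      Polynomial.C d * (Polynomial.C c' + Polynomial.C d' * Polynomial.X) =
      Polynomial.C (c * a' + d * c') + Polynomial.C (c * b' + d * d') * Polynomial.X := by
    simp only [Polynomial.C_add, Polynomial.C_mul]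
    ring
  rw [e1, e2] at key
  have h := congrArg (fun p => Polynomial.coeff p k) key
  simp only [SYA_.hom, Polynomial.finsetSum_coeff] at h
  unfold sy
  rw [← h]
  apply Finset.sum_congr rfl
  intro j _
  rw [mul_assoc, Polynomial.coeff_C_mul]

end Pool.Agent.DBR
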