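import Pool.Agent.DBR.Stmts

set_option autoImplicit false

namespace Pool.Agent.DBR

open Polynomial

namespace SYB_

lemma coeff_lin {S : Type*} [CommRing S] (p q : S) (n i : ℕ) (hi : i ≤ n) :
    ((C p + C q * X) ^ n : S[X]).coeff i = (n.choose i : S) * (p ^ (n - i) * q ^ i) := by
  rw [add_comm, add_pow, finsetSum_coeff]
  have : ∀ m ∈ Finset.range (n + 1), ((C q * X) ^ m * C p ^ (n - m) * ((n.choose m : ℕ) : S[X])).coeff i
      = if m = i then (n.choose i : S) * (p ^ (n - i) * q ^ i) else 0 := by
    intro m _
    have e : ((C q * X) ^ m * C p ^ (n - m) * ((n.choose m : ℕ) : S[X]))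
        = C ((n.choose m : S) * (p ^ (n - m) * q ^ m)) * X ^ m := by
      simp only [map_mul, map_pow, map_natCast]
      ring
    rw [e, coeff_C_mul_X_pow]
    by_cases h : i = m
    · subst h; simp
    · rw [if_neg h, if_neg (Ne.symm h)]
  rw [Finset.sum_congr rfl this, Finset.sum_ite_eq' (Finset.range (n + 1)) i]
  simp only [Finset.mem_range, ite_eq_left_iff]
  intro h
  omega

lemma coeff_swap (P : ℝ[X][X]) (i j : ℕ) :
    ((Bivariate.swap P).coeff j).coeff i = (P.coeff i).coeff j := by
  induction P using Polynomial.induction_on' with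
  | add p q hp hq => rw [map_add, Polynomial.coeff_add, Polynomial.coeff_add, hp, hq, Polynomial.coeff_add, Polynomial.coeff_add]
  | monomial n f =>
    induction f using Polynomial.induction_on' with
    | add p q hp hq =>
      rw [(monomial n).map_add, map_add, Polynomial.coeff_add, Polynomial.coeff_add, hp, hq, Polynomial.coeff_add, Polynomial.coeff_add]
    | monomial m r =>
      rw [Bivariate.swap_monomial_monomial]
      by_cases h1 : m = j <;> by_cases h2 : n = i <;> simp [coeff_monomial, h1, h2]

end SYB_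

open SYB_ in
theorem syb_proof : Stmt_SYB := by
  intro n a b c d i j hi hj
  have h1 : ((Bivariate.swap ((C (C a + C b * X) + C (C c + C d * X) * X) ^ n : ℝ[X][X])).coeff j).coeff i
      = (((C (C a + C b * X) + C (C c + C d * X) * X) ^ n : ℝ[X][X]).coeff i).coeff j := coeff_swap _ i j
  have h2 : Bivariate.swap ((C (C a + C b * X) + C (C c + C d * X) * X) ^ n : ℝ[X][X])
      = (C (C a + C c * X) + C (C b + C d * X) * X) ^ n := by
    rw [map_pow]
    congr 1
    have e : (C (C a + C b * X) + C (C c + C d * X) * X : ℝ[X][X])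
        = C (C a) + C (C b) * C X + (C (C c) + C (C d) * C X) * X := by
      simp only [map_add, map_mul]
    rw [e]
    simp only [map_add, map_mul, Bivariate.swap_C_C, Bivariate.swap_X, Bivariate.swap_Y]
    ring
  rw [h2, coeff_lin _ _ n j hj, coeff_lin _ _ n i hi] at h1
  have e1 : ((n.choose j : ℝ[X]) * ((C a + C c * X) ^ (n - j) * (C b + C d * X) ^ j)).coeff i
      = (n.choose j : ℝ) * sy n a c b d j i := by
    unfold sy
    rw [← C_eq_natCast, coeff_C_mul]
  have e2 : ((n.choose i : ℝ[X]) * ((C a + C b * X) ^ (n - i) * (C c + C d * X) ^ i)).coeff j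
      = (n.choose i : ℝ) * sy n a b c d i j := by
    unfold sy
    rw [← C_eq_natCast, coeff_C_mul]
  rw [e1, e2] at h1
  exact h1.symm

end Pool.Agent.DBR
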