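import Pool.Agent.DBR.Stmts

set_option autoImplicit false

namespace Pool.Agent.DBR
open Complex Metric Set Filter MeasureTheory
open scoped Topology ComplexConjugate
open Pool.Agent.PSB (InS coeff psum Lam SelfU)

namespace SYT_

/-- diagonal coefficients -/
noncomputable def s (a b c d : ℝ) (p q : ℕ) : ℝ :=
  ((Polynomial.C a + Polynomial.C b * Polynomial.X) ^ p *
    (Polynomial.C c + Polynomial.C d * Polynomial.X) ^ q).coeff q

lemma s_rec (a b c d : ℝ) (p q : ℕ) :
    s a b c d (p + 1) (q + 1) = a * s a b c d p (q + 1) + d * s a b c d (p + 1) q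
      - (a * d - b * c) * s a b c d p q := by
  unfold s
  set A := (Polynomial.C a + Polynomial.C b * Polynomial.X)
  set B := (Polynomial.C c + Polynomial.C d * Polynomial.X)
  set F := A ^ p * B ^ q with hF
  have h1 : A ^ (p + 1) * B ^ (q + 1) = Polynomial.C (a * c) * F + Polynomial.C (a * d + b * c) * (Polynomial.X * F)
      + Polynomial.C (b * d) * (Polynomial.X * (Polynomial.X * F)) := by
    simp only [hF, A, B, map_mul, map_add]
    ring
  have h2 : A ^ p * B ^ (q + 1) = Polynomial.C c * F + Polynomial.C d * (Polynomial.X * F) := by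
    simp only [hF, A, B]
    ring
  have h3 : A ^ (p + 1) * B ^ q = Polynomial.C a * F + Polynomial.C b * (Polynomial.X * F) := by
    simp only [hF, A, B]
    ring
  rw [h1, h2, h3]
  simp only [Polynomial.coeff_add, Polynomial.coeff_C_mul, Polynomial.coeff_X_mul]
  ring

lemma s_zero (a b c d : ℝ) (p : ℕ) : s a b c d p 0 = a ^ p := by
  unfold s
  simp [Polynomial.coeff_zero_eq_eval_zero]

lemma s_zero' (a b c d : ℝ) (q : ℕ) : s a b c d 0 q = d ^ q := by
  unfold s
  rw [pow_zero, one_mul]
  induction q with
  | zero => simp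
  | succ q ih =>
    have hdeg : (Polynomial.C c + Polynomial.C d * Polynomial.X) ^ (q + 1) =
        Polynomial.C c * (Polynomial.C c + Polynomial.C d * Polynomial.X) ^ q +
        Polynomial.C d * (Polynomial.X * (Polynomial.C c + Polynomial.C d * Polynomial.X) ^ q) := by ring
    rw [hdeg, Polynomial.coeff_add, Polynomial.coeff_C_mul, Polynomial.coeff_C_mul,
      Polynomial.coeff_X_mul, ih]
    have : ((Polynomial.C c + Polynomial.C d * Polynomial.X) ^ q).coeff (q + 1) = 0 := by
      apply Polynomial.coeff_eq_zero_of_natDegree_lt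
      have h1 : (Polynomial.C c + Polynomial.C d * Polynomial.X).natDegree ≤ 1 := by
        rw [add_comm]
        exact Polynomial.natDegree_linear_le
      calc ((Polynomial.C c + Polynomial.C d * Polynomial.X) ^ q).natDegree
          ≤ q * (Polynomial.C c + Polynomial.C d * Polynomial.X).natDegree := Polynomial.natDegree_pow_le
        _ ≤ q * 1 := by gcongr
        _ < q + 1 := by omega
    rw [this]
    ring

lemma trace_eq (a b c d : ℝ) (n : ℕ) :
    ∑ i ∈ Finset.range (n + 1), sy n a b c d i i = ∑ i ∈ Finset.range (n + 1), s a b c d (n - i) i := rfl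

end SYT_

open SYT_ in
theorem syt_proof : Stmt_SYT := by
  intro a b c d
  refine ⟨?_, ?_, ?_⟩
  · simp [sy]
  · rw [trace_eq]
    rw [Finset.sum_range_succ, Finset.sum_range_one]
    simp only [Nat.sub_zero, Nat.sub_self]
    rw [s_zero, s_zero']
    ring
  · intro n
    rw [trace_eq, trace_eq, trace_eq]
    rw [Finset.sum_range_succ' _ (n + 2), Finset.sum_range_succ _ (n + 1)]
    have e1 : ∑ k ∈ Finset.range (n + 1), s a b c d (n + 2 - (k + 1)) (k + 1) =
        a * ∑ k ∈ Finset.range (n + 1), s a b c d (n - k) (k + 1)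
        + d * ∑ k ∈ Finset.range (n + 1), s a b c d (n + 1 - k) k
        - (a * d - b * c) * ∑ k ∈ Finset.range (n + 1), s a b c d (n - k) k := by
      rw [Finset.mul_sum, Finset.mul_sum, Finset.mul_sum, ← Finset.sum_add_distrib,
        ← Finset.sum_sub_distrib]
      refine Finset.sum_congr rfl fun k hk => ?_
      have hk' : k < n + 1 := Finset.mem_range.1 hk
      have h1 : n + 2 - (k + 1) = (n - k) + 1 := by omega
      have h2 : n + 1 - k = (n - k) + 1 := by omega
      rw [h1, h2, s_rec]
    rw [e1]
    have e2 : ∑ i ∈ Finset.range (n + 2), s a b c d (n + 1 - i) i =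
        ∑ k ∈ Finset.range (n + 1), s a b c d (n - k) (k + 1) + a ^ (n + 1) := by
      rw [Finset.sum_range_succ']
      congr 1
      · refine Finset.sum_congr rfl fun k hk => ?_
        have h1 : n + 1 - (k + 1) = n - k := by omega
        rw [h1]
      · rw [Nat.sub_zero, s_zero]
    have e3 : ∑ i ∈ Finset.range (n + 2), s a b c d (n + 1 - i) i =
        ∑ k ∈ Finset.range (n + 1), s a b c d (n + 1 - k) k + d ^ (n + 1) := by
      rw [Finset.sum_range_succ]
      congr 1
      rw [Nat.sub_self, s_zero']
    have e4 : s a b c d (n + 2 - (n + 1 + 1)) (n + 1 + 1) = d ^ (n + 2) := by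
      rw [Nat.sub_self, s_zero']
    have e5 : s a b c d (n + 2 - 0) 0 = a ^ (n + 2) := by
      rw [Nat.sub_zero, s_zero]
    rw [e4, e5, add_mul]
    nth_rewrite 1 [e2]
    rw [e3]
    ring

end Pool.Agent.DBR
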