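import Pool.Agent.DBR.Stmts

/-!
# Squad DBR (MP_910507_an): module TIL
-/

set_option autoImplicit false

namespace Pool.Agent.DBR

open Complex Metric Set Filter MeasureTheory

open scoped Topology ComplexConjugate

open Pool.Agent.PSB (InS coeff psum Lam SelfU)

namespace TIL_

theorem til_eq {M : ℝ} (hM : (M : ℂ) ≠ 0) (f : ℂ → ℂ) (z : ℂ) :
    til M f z = M * Kb (f z / M) := by
  unfold til Kb
  rw [← mul_div_assoc, mul_div_cancel₀ _ hM]

theorem hasDerivAt_Kb {z : ℂ} (hz : 1 - z ≠ 0) :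
    HasDerivAt Kb ((1 * (1 - z) ^ 2 - z * ((2 : ℕ) * (1 - z) ^ (2 - 1) * (0 - 1))) /
      ((1 - z) ^ 2) ^ 2) z := by
  have h1 : HasDerivAt (fun z : ℂ => (1 - z) ^ 2) ((2 : ℕ) * (1 - z) ^ (2 - 1) * (0 - 1)) z :=
    ((hasDerivAt_const z (1 : ℂ)).sub (hasDerivAt_id z)).pow 2
  exact (hasDerivAt_id z).div h1 (pow_ne_zero 2 hz)

end TIL_

open TIL_

theorem til_proof (hKIN : Stmt_KIN) : Stmt_TIL := by
  intro M f hf
  obtain ⟨-, -, -, hKb⟩ := hKIN
  have hM : 1 ≤ M := one_le_of_inS hf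
  have hM0 : (0 : ℝ) < M := by linarith
  have hMc : (M : ℂ) ≠ 0 := by
    rw [Ne, Complex.ofReal_eq_zero]; exact hM0.ne'
  have hmem : ∀ z ∈ ball (0 : ℂ) 1, f z / M ∈ ball (0 : ℂ) 1 := by
    intro z hz
    rw [mem_ball_zero_iff, norm_div, Complex.norm_real, Real.norm_of_nonneg hM0.le,
      div_lt_one hM0]
    exact inS_lt hf hz
  have hfun : til M f = fun z => (M : ℂ) * Kb (f z / M) := funext fun z => til_eq hMc f z
  have h0 : f 0 / M = 0 := by rw [hf.zero, zero_div]
  refine ⟨?_, ?_, ?_, ?_⟩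
  · rw [hfun]
    exact (hKb.diff.comp (hf.diff.div_const _) hmem).const_mul _
  · intro z hz w hw h
    rw [til_eq hMc, til_eq hMc] at h
    have h1 := mul_left_cancel₀ hMc h
    have h2 := hKb.inj (hmem z hz) (hmem w hw) h1
    have h3 : f z = f w := by
      rw [div_left_inj' hMc] at h2
      exact h2
    exact hf.inj hz hw h3
  · rw [hfun]
    show (M : ℂ) * Kb (f 0 / M) = 0
    rw [h0, hKb.zero, mul_zero]
  · rw [hfun]
    have hfd : HasDerivAt f 1 0 := by
      have := (hf.diff.differentiableAt ball_mem).hasDerivAt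
      rwa [hf.one] at this
    have hK : HasDerivAt Kb 1 (f 0 / M) := by
      rw [h0]
      have := (hKb.diff.differentiableAt ball_mem).hasDerivAt
      rwa [hKb.one] at this
    have h1 : HasDerivAt (fun z => f z / M) (1 / M) 0 := hfd.div_const _
    have h2 : HasDerivAt (fun z => Kb (f z / M)) (1 * (1 / M)) 0 :=
      HasDerivAt.comp (h₂ := Kb) (h := fun z => f z / M) 0 hK h1
    have h3 := h2.const_mul (M : ℂ)
    rw [h3.deriv, one_mul, mul_one_div, div_self hMc]

end Pool.Agent.DBR
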