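import Pool.Agent.DBR.Stmts

set_option autoImplicit false

namespace Pool.Agent.DBR

open Complex Metric Set Filter MeasureTheory
open scoped Topology ComplexConjugate
open Pool.Agent.PSB (InS coeff psum Lam SelfU)

namespace TOP_

lemma annulus_pre (R : ℝ) : IsPreconnected (ball (0 : ℂ) R \ closedBall 0 1) := by
  have h := (isPreconnected_Ioo (a := (1 : ℝ)) (b := R)).prod (isPreconnected_univ (α := ℝ))
  have hc : Continuous (fun p : ℝ × ℝ => (p.1 : ℂ) * exp (p.2 * I)) := by fun_prop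
  have h2 := h.image _ hc.continuousOn
  have heq : (fun p : ℝ × ℝ => (p.1 : ℂ) * exp (p.2 * I)) '' (Ioo 1 R ×ˢ univ)
      = ball (0 : ℂ) R \ closedBall 0 1 := by
    ext z
    constructor
    · rintro ⟨⟨r, t⟩, ⟨⟨h1, h3⟩, -⟩, rfl⟩
      have hn : ‖(r : ℂ) * exp (t * I)‖ = r := by
        rw [norm_mul, norm_exp_ofReal_mul_I, mul_one, norm_real, Real.norm_eq_abs,
          abs_of_pos (by linarith [h1])]
      refine ⟨?_, ?_⟩
      · rw [mem_ball_zero_iff]
        show ‖(r : ℂ) * exp (t * I)‖ < R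
        rw [hn]; exact h3
      · rw [mem_closedBall_zero_iff]
        show ¬ ‖(r : ℂ) * exp (t * I)‖ ≤ 1
        rw [hn]; exact not_le.mpr h1
    · rintro ⟨h1, h3⟩
      rw [mem_ball_zero_iff] at h1
      rw [mem_closedBall_zero_iff, not_le] at h3
      exact ⟨(‖z‖, arg z), ⟨⟨h3, h1⟩, mem_univ _⟩, norm_mul_exp_arg_mul_I z⟩
  rw [heq] at h2
  exact h2

end TOP_

open TOP_ in
theorem top_proof : Stmt_TOP := by
  intro R₀ F V hR hF hinj hVo hVb hFV hfr
  have hsub : closedBall (0 : ℂ) 1 ⊆ ball 0 R₀ := closedBall_subset_ball hR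
  have hR0 : 0 < R₀ := by linarith
  have han : AnalyticOnNhd ℂ F (ball 0 R₀) := hF.analyticOnNhd isOpen_ball
  have hcont : ContinuousOn F (ball 0 R₀) := hF.continuousOn
  -- open mapping
  have hopen : ∀ s ⊆ ball (0 : ℂ) R₀, IsOpen s → IsOpen (F '' s) := by
    rcases han.is_constant_or_isOpen (convex_ball (0 : ℂ) R₀).isPreconnected with ⟨w, hw⟩ | h
    · exfalso
      have h0 : (0 : ℂ) ∈ ball (0 : ℂ) R₀ := mem_ball_self hR0
      have h1 : (1 : ℂ) ∈ ball (0 : ℂ) R₀ := by
        rw [mem_ball_zero_iff, norm_one]; exact hR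
      have := hinj h0 h1 (by rw [hw 0 h0, hw 1 h1])
      exact zero_ne_one this
    · exact h
  have hKc : IsCompact (F '' closedBall 0 1) :=
    (isCompact_closedBall (0 : ℂ) 1).image_of_continuousOn (hcont.mono hsub)
  have hKcl : IsClosed (F '' closedBall 0 1) := hKc.isClosed
  have hK0 : F 0 ∈ F '' closedBall 0 1 := ⟨0, mem_closedBall_self zero_le_one, rfl⟩
  have hAsub : ball (0 : ℂ) R₀ \ closedBall 0 1 ⊆ ball 0 R₀ := Set.sdiff_subset
  have hFA : IsPreconnected (F '' (ball 0 R₀ \ closedBall 0 1)) :=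
    (annulus_pre R₀).image _ (hcont.mono hAsub)
  have hFAK : ∀ w ∈ F '' (ball 0 R₀ \ closedBall 0 1), w ∉ F '' closedBall 0 1 := by
    rintro w ⟨z, hz, rfl⟩ ⟨z', hz', h⟩
    have := hinj (hsub hz') hz.1 h
    exact hz.2 (this ▸ hz')
  -- the main claim
  have hmain : ∀ W : Set ℂ, IsOpen W → W.Nonempty → W ≠ univ →
      (∀ w ∈ W, w ∉ F '' closedBall 0 1) → frontier W ⊆ F '' closedBall 0 1 →
      F '' (ball 0 R₀ \ closedBall 0 1) ⊆ W := by
    intro W hWo hWn hWu hWK hWf
    have hne : (frontier W).Nonempty := nonempty_frontier_iff.mpr ⟨hWn, hWu⟩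
    obtain ⟨v, hv⟩ := hne
    obtain ⟨z0, hz0, hz0v⟩ := hWf hv
    have hvc : v ∈ closure W := frontier_subset_closure hv
    have hno : IsOpen (F '' ball 0 R₀) := hopen _ subset_rfl isOpen_ball
    have hvm : v ∈ F '' ball 0 R₀ := ⟨z0, hsub hz0, hz0v⟩
    obtain ⟨w, ⟨z, hz, hzw⟩, hwW⟩ := mem_closure_iff.mp hvc _ hno hvm
    have hzA : z ∈ ball (0 : ℂ) R₀ \ closedBall 0 1 := by
      refine ⟨hz, fun hz1 => ?_⟩
      exact hWK w hwW ⟨z, hz1, hzw⟩
    refine hFA.subset_of_closure_inter_subset hWo ⟨w, ⟨z, hzA, hzw⟩, hwW⟩ ?_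
    rintro x ⟨hx1, hx2⟩
    by_contra hxW
    have hxf : x ∈ frontier W := by
      rw [hWo.frontier_eq]
      exact ⟨hx1, hxW⟩
    exact hFAK x hx2 (hWf hxf)
  -- V ⊆ K
  have hVK : V ⊆ F '' closedBall 0 1 := by
    by_contra hnot
    rw [Set.not_subset] at hnot
    obtain ⟨a, haV, haK⟩ := hnot
    have h1 := hmain (V ∩ (F '' closedBall 0 1)ᶜ) (hVo.inter hKcl.isOpen_compl) ⟨a, haV, haK⟩
      (by
        intro h
        have : F 0 ∈ V ∩ (F '' closedBall 0 1)ᶜ := by rw [h]; trivial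
        exact this.2 hK0)
      (fun w hw => hw.2)
      (by
        refine (frontier_inter_subset _ _).trans ?_
        rintro x (⟨hx, -⟩ | ⟨-, hx⟩)
        · exact hfr hx
        · rw [frontier_compl] at hx
          exact hKcl.frontier_subset hx)
    have hcl : IsClosed (V ∪ F '' closedBall 0 1) := by
      have : V ∪ F '' closedBall 0 1 = closure V ∪ F '' closedBall 0 1 := by
        apply Set.Subset.antisymm
        · exact Set.union_subset_union_left _ subset_closure
        · rintro x (hx | hx)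
          · by_cases hxV : x ∈ V
            · exact Or.inl hxV
            · right
              apply hfr
              rw [hVo.frontier_eq]
              exact ⟨hx, hxV⟩
          · exact Or.inr hx
      rw [this]
      exact isClosed_closure.union hKcl
    have hbd : Bornology.IsBounded (V ∪ F '' closedBall 0 1) := hVb.union hKc.isBounded
    have h2 := hmain (V ∪ F '' closedBall 0 1)ᶜ hcl.isOpen_compl
      (by
        rw [Set.nonempty_compl]
        intro h
        rw [h] at hbd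
        exact NormedSpace.unbounded_univ ℝ ℂ hbd)
      (by
        intro h
        have : F 0 ∈ (V ∪ F '' closedBall 0 1)ᶜ := by rw [h]; trivial
        exact this (Or.inr hK0))
      (fun w hw hw' => hw (Or.inr hw'))
      (by
        rw [frontier_compl]
        refine (frontier_union_subset _ _).trans ?_
        rintro x (⟨hx, -⟩ | ⟨-, hx⟩)
        · exact hfr hx
        · exact hKcl.frontier_subset hx)
    obtain ⟨ρ, hρ1, hρ2⟩ := exists_between hR
    have hρA : ((ρ : ℝ) : ℂ) ∈ ball (0 : ℂ) R₀ \ closedBall 0 1 := by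
      have hn : ‖((ρ : ℝ) : ℂ)‖ = ρ := by
        rw [norm_real, Real.norm_eq_abs, abs_of_pos (by linarith)]
      refine ⟨?_, ?_⟩
      · rw [mem_ball_zero_iff, hn]; exact hρ2
      · rw [mem_closedBall_zero_iff, hn]; exact not_le.mpr hρ1
    have hm : F ρ ∈ F '' (ball 0 R₀ \ closedBall 0 1) := ⟨_, hρA, rfl⟩
    exact h2 hm (Or.inl (h1 hm).1)
  apply Set.Subset.antisymm _ hFV
  intro v hv
  obtain ⟨z, hz, rfl⟩ := hVK hv
  rw [mem_closedBall_zero_iff] at hz
  rcases hz.lt_or_eq with hlt | heq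
  · exact ⟨z, by rw [mem_ball_zero_iff]; exact hlt, rfl⟩
  · exfalso
    have hzR : z ∈ ball (0 : ℂ) R₀ := by rw [mem_ball_zero_iff, heq]; exact hR
    have hca : ContinuousAt F z := hcont.continuousAt (isOpen_ball.mem_nhds hzR)
    have hev : ∀ᶠ x in 𝓝 z, x ∈ ball (0 : ℂ) R₀ ∧ F x ∈ V :=
      (isOpen_ball.eventually_mem hzR).and (hca.eventually_mem (hVo.mem_nhds hv))
    have hlim : Tendsto (fun d : ℝ => ((1 + d : ℝ) : ℂ) * z) (𝓝[>] 0) (𝓝 z) := by
      have hc : Continuous (fun d : ℝ => ((1 + d : ℝ) : ℂ) * z) := by fun_prop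
      have := (hc.tendsto 0).mono_left (nhdsWithin_le_nhds (s := Ioi 0))
      simpa using this
    have h3 := hlim.eventually hev
    have h4 : ∀ᶠ d : ℝ in 𝓝[>] 0, 0 < d := eventually_mem_nhdsWithin
    obtain ⟨d, ⟨hd1, hd2⟩, hd0⟩ := (h3.and h4).exists
    obtain ⟨z2, hz2, hz2e⟩ := hVK hd2
    have he := hinj (hsub hz2) hd1 hz2e
    rw [mem_closedBall_zero_iff, he, norm_mul, heq, mul_one, norm_real, Real.norm_eq_abs,
      abs_of_pos (by linarith)] at hz2
    linarith

end Pool.Agent.DBR
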