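import Pool.Agent.DBR.Stmts

set_option autoImplicit false

namespace Pool.Agent.DBR

open Complex Metric Set Filter MeasureTheory

open scoped Topology ComplexConjugate

open Pool.Agent.PSB (InS coeff psum Lam SelfU)

namespace TTR_

theorem exp2 (x : ℂ) : ‖Complex.exp x - 1 - x‖ ≤ ‖x‖ ^ 2 * Real.exp ‖x‖ := by
  have h := Complex.norm_exp_sub_sum_le_norm_mul_exp x 2
  have e : ∑ m ∈ Finset.range 2, x ^ m / (m.factorial : ℂ) = 1 + x := by
    simp [Finset.sum_range_succ]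
  rw [e] at h
  rw [show Complex.exp x - 1 - x = Complex.exp x - (1 + x) by ring]
  exact h

theorem p_sub_one (hQ : Stmt_QMO) {p : ℂ → ℂ} (hp : Car p) {r : ℝ} (hr1 : r < 1) {z : ℂ}
    (hz : ‖z‖ ≤ r) : ‖p z - 1‖ ≤ 2 / (1 - r) * ‖z‖ := by
  have hz1 : ‖z‖ < 1 := lt_of_le_of_lt hz hr1
  have hs := hasSum_coeff hp.diff hz1
  have hs1 : HasSum (fun k => coeff p (k + 1) * z ^ (k + 1)) (p z - 1) := by
    have := (hasSum_nat_add_iff' (f := fun k => coeff p k * z ^ k) 1).mpr hs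
    simpa [coeff_zero, hp.zero] using this
  have hg : HasSum (fun k : ℕ => 2 * ‖z‖ * ‖z‖ ^ k) (2 * ‖z‖ * (1 - ‖z‖)⁻¹) :=
    (hasSum_geometric_of_lt_one (norm_nonneg z) hz1).mul_left _
  have hb : ∀ k : ℕ, ‖coeff p (k + 1) * z ^ (k + 1)‖ ≤ 2 * ‖z‖ * ‖z‖ ^ k := by
    intro k
    have h1 : ‖coeff p (k + 1)‖ ≤ 2 := ((hQ p hp).2.2 (k + 1) (by omega)).1
    rw [norm_mul, norm_pow, pow_succ]
    have h2 : 0 ≤ ‖z‖ ^ k * ‖z‖ := by positivity
    nlinarith [mul_le_mul_of_nonneg_right h1 h2]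
  have h3 : ‖p z - 1‖ ≤ 2 * ‖z‖ * (1 - ‖z‖)⁻¹ := by
    rw [← hs1.tsum_eq, ← hg.tsum_eq]
    exact tsum_of_norm_bounded hg hb |>.trans (le_of_eq hg.tsum_eq.symm)
  refine h3.trans ?_
  have h4 : (1 - ‖z‖)⁻¹ ≤ (1 - r)⁻¹ := by
    apply inv_anti₀ <;> linarith
  have h5 : 0 ≤ 2 * ‖z‖ := by positivity
  calc 2 * ‖z‖ * (1 - ‖z‖)⁻¹ ≤ 2 * ‖z‖ * (1 - r)⁻¹ := mul_le_mul_of_nonneg_left h4 h5
    _ = 2 / (1 - r) * ‖z‖ := by rw [div_eq_mul_inv]; ring

end TTR_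

open TTR_ in
theorem ttr_proof (hQMO : Stmt_QMO) : Stmt_TTR := by
  intro r hr hr1
  set P : ℝ := 2 / (1 - r) with hP
  have hP0 : 0 ≤ P := by
    rw [hP]; apply div_nonneg <;> linarith
  refine ⟨(2 + P) ^ 2 * Real.exp (2 + P) + P ^ 2 * Real.exp P, by positivity, ?_⟩
  intro ε p z hε hε1 hp hz
  by_cases hz0 : z = 0
  · subst hz0
    simp only [TT, RR, if_true, norm_zero, mul_zero]
    have : (ε : ℂ) * coeff p 1 + 2 * (1 - Complex.exp (-(ε : ℂ))) - ε * (coeff p 1 + 2)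
        - 2 * (1 - Complex.exp (-(ε : ℂ)) - ε) = 0 := by ring
    rw [this]
    simp
  · have h1 := p_sub_one hQMO hp hr1 hz
    have hz1 : ‖z‖ ≤ 1 := hz.trans hr1.le
    have hzpos : 0 < ‖z‖ := norm_pos_iff.mpr hz0
    rw [← hP] at h1
    have hE : TT ε p z - ε * RR p z - 2 * (1 - Complex.exp (-(ε : ℂ)) - ε)
        = z * (Complex.exp (-(ε * (1 + p z))) - 1 - (-(ε * (1 + p z))))
          + (Complex.exp (ε * (p z - 1)) - 1 - (ε * (p z - 1))) / z := by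
      simp only [TT, RR, if_neg hz0]
      field_simp
      ring
    rw [hE]
    have hpz : ‖p z - 1‖ ≤ P := by
      calc ‖p z - 1‖ ≤ P * ‖z‖ := h1
        _ ≤ P * 1 := mul_le_mul_of_nonneg_left hz1 hP0
        _ = P := mul_one _
    have hpz2 : ‖1 + p z‖ ≤ 2 + P := by
      have : (1 : ℂ) + p z = 2 + (p z - 1) := by ring
      rw [this]
      refine (norm_add_le _ _).trans ?_
      simp only [Complex.norm_ofNat]
      linarith
    have hεn : ‖(ε : ℂ)‖ = ε := by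
      rw [Complex.norm_real, Real.norm_of_nonneg hε.le]
    have hA : ‖(-((ε : ℂ) * (1 + p z)))‖ ≤ ε * (2 + P) := by
      rw [norm_neg, norm_mul, hεn]
      exact mul_le_mul_of_nonneg_left hpz2 hε.le
    have hA' : ‖(-((ε : ℂ) * (1 + p z)))‖ ≤ 2 + P := by
      refine hA.trans ?_
      nlinarith
    have hB : ‖((ε : ℂ) * (p z - 1))‖ ≤ ε * (P * ‖z‖) := by
      rw [norm_mul, hεn]
      exact mul_le_mul_of_nonneg_left h1 hε.le
    have hB' : ‖((ε : ℂ) * (p z - 1))‖ ≤ P := by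
      rw [norm_mul, hεn]
      nlinarith [norm_nonneg (p z - 1)]
    have e1 : ‖Complex.exp (-(ε * (1 + p z))) - 1 - (-(ε * (1 + p z)))‖
        ≤ (ε * (2 + P)) ^ 2 * Real.exp (2 + P) := by
      refine (exp2 _).trans ?_
      apply mul_le_mul
      · exact pow_le_pow_left₀ (norm_nonneg _) hA 2
      · exact Real.exp_le_exp.mpr hA'
      · exact (Real.exp_pos _).le
      · positivity
    have e2 : ‖Complex.exp (ε * (p z - 1)) - 1 - (ε * (p z - 1))‖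
        ≤ (ε * (P * ‖z‖)) ^ 2 * Real.exp P := by
      refine (exp2 _).trans ?_
      apply mul_le_mul
      · exact pow_le_pow_left₀ (norm_nonneg _) hB 2
      · exact Real.exp_le_exp.mpr hB'
      · exact (Real.exp_pos _).le
      · positivity
    calc _ ≤ ‖z * (Complex.exp (-(ε * (1 + p z))) - 1 - (-(ε * (1 + p z))))‖
          + ‖(Complex.exp (ε * (p z - 1)) - 1 - (ε * (p z - 1))) / z‖ := norm_add_le _ _
      _ ≤ ‖z‖ * ((ε * (2 + P)) ^ 2 * Real.exp (2 + P))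
          + ((ε * (P * ‖z‖)) ^ 2 * Real.exp P) / ‖z‖ := by
          rw [norm_mul, norm_div]
          gcongr
      _ = ((2 + P) ^ 2 * Real.exp (2 + P) + P ^ 2 * Real.exp P) * ε ^ 2 * ‖z‖ := by
          field_simp

end Pool.Agent.DBR
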