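import Pool.Agent.DBR.Stmts

set_option autoImplicit false

namespace Pool.Agent.DBR

open Complex Metric Set Filter MeasureTheory
open scoped Topology ComplexConjugate
open Pool.Agent.PSB (InS coeff psum Lam SelfU)

theorem tw1_proof (hWTS : Stmt_WTS) (hGON : Stmt_GON) : Stmt_TW1 := by
  intro n
  have h0 : tau n (n + 1) 1 = 0 := by simp [tau]
  have g0 : gam n (n + 1) 1 = 0 := by simp [gam]
  have key : ∀ j : ℕ, j + 1 ≤ n + 1 → tau n (n + 1 - j) 1 = (j : ℝ) := by
    intro j
    induction j with
    | zero => intro _; simpa using h0
    | succ j ih =>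
      intro hj
      have h1 := hWTS n (n + 1 - (j + 1)) 1 (by omega)
      have h2 : n + 1 - (j + 1) + 1 = n + 1 - j := by omega
      rw [h2, ih (by omega)] at h1
      have h3 : gam n (n + 1 - (j + 1)) 1 + gam n (n + 1 - j) 1 = 1 := by
        rcases Nat.eq_zero_or_pos j with hj0 | hj0
        · subst hj0
          have h4 := hGON n n le_rfl
          simp only [Nat.sub_self, Even.zero, if_true] at h4
          simp only [Nat.sub_zero, Nat.add_sub_cancel]
          rw [g0, add_zero]
          exact h4
        · have h4 := hGON n (n + 1 - (j + 1)) (by omega)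
          have h5 := hGON n (n + 1 - j) (by omega)
          have h6 : n - (n + 1 - (j + 1)) = j := by omega
          have h7 : n - (n + 1 - j) + 1 = j := by omega
          rw [h6] at h4
          rw [h4, h5]
          rcases Nat.even_or_odd (n - (n + 1 - j)) with h | h
          · have h8 : ¬ Even j := by
              rw [Nat.not_even_iff_odd, ← h7]; exact h.add_one
            rw [if_neg h8, if_pos h]; norm_num
          · have h8 : Even j := by rw [← h7]; exact h.add_one
            rw [if_pos h8, if_neg (Nat.not_even_iff_odd.mpr h)]; norm_num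
      rw [Nat.cast_add, Nat.cast_one]
      linarith
  intro k hk1 hk2
  have h := key (n + 1 - k) (by omega)
  have h2 : n + 1 - (n + 1 - k) = k := by omega
  rw [h2, Nat.cast_sub hk2] at h
  rw [h]
  push_cast
  ring

end Pool.Agent.DBR
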