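import Pool.Agent.DBR.Stmts

/-!
DBR, module TWD: the derivative of the weights of de Branges.
-/

set_option autoImplicit false

namespace Pool.Agent.DBR

open Complex Metric Set Filter MeasureTheory

open scoped Topology ComplexConjugate

open Pool.Agent.PSB (InS coeff psum Lam SelfU)

namespace TWD_

lemma exp_err (x : ℝ) (hx : 0 ≤ x) : |Real.exp (-x) - (1 - x)| ≤ x ^ 2 := by
  have h1 : 1 - x ≤ Real.exp (-x) := by
    have := Real.add_one_le_exp (-x)
    linarith
  have h2 : 1 + x ≤ Real.exp x := by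
    have := Real.add_one_le_exp x
    linarith
  have h3 : Real.exp (-x) ≤ 1 - x + x ^ 2 := by
    have h4 : Real.exp (-x) * Real.exp x = 1 := by
      rw [← Real.exp_add]
      simp
    have h5 : 0 < Real.exp (-x) := Real.exp_pos _
    have h6 : Real.exp (-x) * (1 + x) ≤ 1 := by
      have h9 := mul_le_mul_of_nonneg_left h2 h5.le
      rwa [h4] at h9
    have h7 : 1 ≤ (1 - x + x ^ 2) * (1 + x) := by nlinarith [pow_nonneg hx 3]
    have h8 : Real.exp (-x) * (1 + x) ≤ (1 - x + x ^ 2) * (1 + x) := h6.trans h7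
    exact le_of_mul_le_mul_right h8 (by linarith)
  rw [abs_of_nonneg (by linarith)]
  linarith

/-- the size of the coefficients -/
noncomputable def A (n k m : ℕ) : ℝ :=
  ((2 * m).choose (m - k)) * ((n + m + 1).choose (2 * m + 1))

lemma A_nonneg (n k m : ℕ) : 0 ≤ A n k m := by
  unfold A
  positivity

end TWD_

open TWD_ in
theorem twd_proof : Stmt_TWD := by
  intro n
  set C : ℝ := ∑ k ∈ Finset.Icc 1 n, ∑ m ∈ Finset.Icc k n, A n k m * (1 + (m : ℝ) ^ 2) with hC
  have hterm : ∀ k m : ℕ, 0 ≤ A n k m * (1 + (m : ℝ) ^ 2) := fun k m =>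
    mul_nonneg (A_nonneg n k m) (by positivity)
  have hC0 : 0 ≤ C := Finset.sum_nonneg fun k _ => Finset.sum_nonneg fun m _ => hterm k m
  refine ⟨C, hC0, ?_⟩
  intro k t ε hk hkn ht hε hε1
  have hCk : ∑ m ∈ Finset.Icc k n, A n k m * (1 + (m : ℝ) ^ 2) ≤ C := by
    rw [hC]
    exact Finset.single_le_sum (f := fun k => ∑ m ∈ Finset.Icc k n, A n k m * (1 + (m : ℝ) ^ 2))
      (fun k _ => Finset.sum_nonneg fun m _ => hterm k m) (Finset.mem_Icc.2 ⟨hk, hkn⟩)
  have hs : ∀ m : ℕ, Real.exp (-t) ^ m = Real.exp (-(m * t)) := by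
    intro m
    rw [← Real.exp_nat_mul]
    congr 1
    ring
  have hs1 : ∀ m : ℕ, |Real.exp (-t) ^ m| ≤ 1 := by
    intro m
    rw [hs, abs_of_pos (Real.exp_pos _), Real.exp_le_one_iff]
    have : 0 ≤ (m : ℝ) * t := by positivity
    linarith
  have hsgn : ∀ j : ℕ, |(-1 : ℝ) ^ j| = 1 := fun j => by simp
  have hkm : ∀ m ∈ Finset.Icc k n, |(k : ℝ) / m| ≤ 1 := by
    intro m hm
    have h1 : k ≤ m := (Finset.mem_Icc.1 hm).1
    have h2 : (0 : ℝ) < m := by exact_mod_cast lt_of_lt_of_le hk h1
    rw [abs_of_nonneg (by positivity), div_le_one h2]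
    exact_mod_cast h1
  refine ⟨?_, ?_, ?_⟩
  · refine le_trans ?_ hCk
    unfold tau
    refine (Finset.abs_sum_le_sum_abs _ _).trans (Finset.sum_le_sum fun m hm => ?_)
    rw [abs_mul, abs_mul, abs_mul, abs_mul, hsgn, one_mul, Nat.abs_cast, Nat.abs_cast]
    have e1 := hkm m hm
    have e2 := hs1 m
    have hA := A_nonneg n k m
    calc |(k : ℝ) / m| * ((2 * m).choose (m - k) : ℝ) * ((n + m + 1).choose (2 * m + 1) : ℝ) *
          |Real.exp (-t) ^ m| = A n k m * (|(k : ℝ) / m| * |Real.exp (-t) ^ m|) := by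
          unfold A
          ring
      _ ≤ A n k m * (1 + (m : ℝ) ^ 2) := by
          refine mul_le_mul_of_nonneg_left ?_ hA
          have : |(k : ℝ) / m| * |Real.exp (-t) ^ m| ≤ 1 * 1 :=
            mul_le_mul e1 e2 (abs_nonneg _) zero_le_one
          nlinarith [sq_nonneg (m : ℝ)]
  · refine le_trans ?_ hCk
    unfold gam
    refine (Finset.abs_sum_le_sum_abs _ _).trans (Finset.sum_le_sum fun m hm => ?_)
    rw [abs_mul, abs_mul, abs_mul, hsgn, one_mul, Nat.abs_cast, Nat.abs_cast]
    have e2 := hs1 m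
    have hA := A_nonneg n k m
    calc ((2 * m).choose (m - k) : ℝ) * ((n + m + 1).choose (2 * m + 1) : ℝ) *
          |Real.exp (-t) ^ m| = A n k m * |Real.exp (-t) ^ m| := by
          unfold A
          ring
      _ ≤ A n k m * (1 + (m : ℝ) ^ 2) := by
          refine mul_le_mul_of_nonneg_left ?_ hA
          nlinarith [sq_nonneg (m : ℝ)]
  · have hsplit : tau n k (Real.exp (-(t + ε))) -
        (tau n k (Real.exp (-t)) - ε * k * gam n k (Real.exp (-t))) =
        ∑ m ∈ Finset.Icc k n, ((-1 : ℝ) ^ (m - k) * ((k : ℝ) / m) * ((2 * m).choose (m - k)) *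
          ((n + m + 1).choose (2 * m + 1)) * Real.exp (-t) ^ m) *
          (Real.exp (-(m * ε)) - (1 - m * ε)) := by
      unfold tau gam
      rw [Finset.mul_sum, ← Finset.sum_sub_distrib, ← Finset.sum_sub_distrib]
      refine Finset.sum_congr rfl fun m hm => ?_
      have h1 : k ≤ m := (Finset.mem_Icc.1 hm).1
      have h2 : (m : ℝ) ≠ 0 := by
        have : 0 < m := lt_of_lt_of_le hk h1
        positivity
      have e : Real.exp (-(t + ε)) ^ m = Real.exp (-t) ^ m * Real.exp (-(m * ε)) := by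
        rw [← Real.exp_nat_mul, ← Real.exp_nat_mul, ← Real.exp_add]
        congr 1
        ring
      rw [e]
      field_simp
    rw [hsplit]
    calc |∑ m ∈ Finset.Icc k n, ((-1 : ℝ) ^ (m - k) * ((k : ℝ) / m) * ((2 * m).choose (m - k)) *
          ((n + m + 1).choose (2 * m + 1)) * Real.exp (-t) ^ m) *
          (Real.exp (-(m * ε)) - (1 - m * ε))|
        ≤ ∑ m ∈ Finset.Icc k n, (A n k m * (1 + (m : ℝ) ^ 2)) * ε ^ 2 := by
          refine (Finset.abs_sum_le_sum_abs _ _).trans (Finset.sum_le_sum fun m hm => ?_)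
          rw [abs_mul, abs_mul, abs_mul, abs_mul, abs_mul, hsgn, one_mul, Nat.abs_cast,
            Nat.abs_cast]
          have e1 := hkm m hm
          have e2 := hs1 m
          have hA := A_nonneg n k m
          have e3 := exp_err (m * ε) (by positivity)
          calc |(k : ℝ) / m| * ((2 * m).choose (m - k) : ℝ) *
                ((n + m + 1).choose (2 * m + 1) : ℝ) * |Real.exp (-t) ^ m| *
                |Real.exp (-(m * ε)) - (1 - m * ε)|
              = A n k m * ((|(k : ℝ) / m| * |Real.exp (-t) ^ m|) *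
                |Real.exp (-(m * ε)) - (1 - m * ε)|) := by
                unfold A
                ring
            _ ≤ A n k m * ((1 * 1) * (m * ε) ^ 2) := by
                refine mul_le_mul_of_nonneg_left ?_ hA
                refine mul_le_mul ?_ e3 (abs_nonneg _) (by norm_num)
                exact mul_le_mul e1 e2 (abs_nonneg _) zero_le_one
            _ ≤ (A n k m * (1 + (m : ℝ) ^ 2)) * ε ^ 2 := by
                have : 0 ≤ A n k m * ε ^ 2 := mul_nonneg hA (by positivity)
                nlinarith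
      _ = (∑ m ∈ Finset.Icc k n, A n k m * (1 + (m : ℝ) ^ 2)) * ε ^ 2 := by
          rw [Finset.sum_mul]
      _ ≤ C * ε ^ 2 := mul_le_mul_of_nonneg_right hCk (by positivity)

end Pool.Agent.DBR
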