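import Pool.Agent.DBR.Stmts

set_option autoImplicit false

/-!
Positivity of the weights of de Branges (module TWP of the squad DBR, MP_910507_an).
-/

namespace Pool.Agent.DBR

open Complex Metric Set Filter MeasureTheory

open scoped Topology ComplexConjugate

open Pool.Agent.PSB (InS coeff psum Lam SelfU)

theorem twp_proof (hWTS : Stmt_WTS) (hGPS : Stmt_GPS) : Stmt_TWP := by
  have key : ∀ (n d k : ℕ) (s : ℝ), n + 1 ≤ k + d → 1 ≤ k → 0 ≤ s → s ≤ 1 → 0 ≤ tau n k s := by
    intro n d
    induction d with
    | zero =>
      intro k s hk _ _ _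
      unfold tau
      rw [Finset.Icc_eq_empty (by omega), Finset.sum_empty]
    | succ d ih =>
      intro k s hk hk1 h0 h1
      have h2 := hWTS n k s hk1
      have h3 := ih (k + 1) s (by omega) (by omega) h0 h1
      have h4 : ∀ j : ℕ, 0 ≤ gam n j s := by
        intro j
        by_cases hj : j ≤ n
        · exact hGPS n j s hj h0 h1
        · unfold gam
          rw [Finset.Icc_eq_empty (by omega), Finset.sum_empty]
      have h5 := h4 k
      have h6 := h4 (k + 1)
      linarith
  intro n k s hk h0 h1
  exact key n (n + 1) k s (by omega) hk h0 h1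

end Pool.Agent.DBR
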