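import Pool.Agent.DBR.Stmts
import Pool.Agent.PSB.Main

/-!
# DBR, module U3A: reduction to a real extremal problem
-/

set_option autoImplicit false

namespace Pool.Agent.DBR

open Complex Metric Set Filter MeasureTheory

open scoped Topology ComplexConjugate

open Pool.Agent.PSB (InS coeff psum Lam SelfU)

namespace U3A_

/-- the real inequality at the end -/
lemma real_ineq (C S P Q b g J T : ℝ) (hCS : C ^ 2 + S ^ 2 = 1) (hP : 0 ≤ P)
    (hb : b + 4 * g * P ≤ J) (hT : T ≤ (2 * C ^ 2 - 1) + (C * P - S * Q) + (P ^ 2 - Q ^ 2 + b)) :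
    T ≤ 1 + P + P ^ 2 - 4 * g * P + J := by
  have hC : C ≤ 1 := by nlinarith [sq_nonneg S, sq_nonneg (C - 1)]
  have h1 : C * P ≤ P := by nlinarith
  have h2 : -(S * Q) - Q ^ 2 ≤ S ^ 2 / 4 := by nlinarith [sq_nonneg (S / 2 + Q)]
  nlinarith [sq_nonneg S]

/-- rotation -/
lemma exists_kappa (T w : ℂ) : ∃ κ : ℂ, ‖κ‖ = 1 ∧ κ ^ 2 * T = (‖T‖ : ℂ) ∧ 0 ≤ (κ * w).re := by
  obtain ⟨κ, hκ1, hκ2⟩ : ∃ κ : ℂ, ‖κ‖ = 1 ∧ κ ^ 2 * T = (‖T‖ : ℂ) := by
    refine ⟨Complex.exp (((-(Complex.arg T / 2) : ℝ) : ℂ) * Complex.I), ?_, ?_⟩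
    · exact Complex.norm_exp_ofReal_mul_I _
    · have hTT := Complex.norm_mul_exp_arg_mul_I T
      have hsq : Complex.exp (((-(Complex.arg T / 2) : ℝ) : ℂ) * Complex.I) ^ 2 =
          Complex.exp (-((Complex.arg T : ℂ) * Complex.I)) := by
        rw [← Complex.exp_nat_mul]
        congr 1
        push_cast
        ring
      rw [hsq]
      nth_rw 2 [← hTT]
      rw [mul_left_comm, ← Complex.exp_add, neg_add_cancel, Complex.exp_zero, mul_one]
  rcases le_total 0 (κ * w).re with h | h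
  · exact ⟨κ, hκ1, hκ2, h⟩
  · refine ⟨-κ, by rw [norm_neg, hκ1], by rw [neg_sq, hκ2], ?_⟩
    rw [neg_mul, Complex.neg_re]
    linarith

end U3A_

open U3A_ in
theorem u3a_proof (hJTT : Stmt_JTT) (hPA2 : Stmt_PA2) : Stmt_U3A := by
  intro M f z hM hf hz
  have h0 : coeff f 0 = 0 := by
    simp [coeff, hf.zero]
  have h1' : coeff f 1 = 1 := by
    simp [coeff, iteratedDeriv_one, hf.one]
  obtain ⟨T, hT⟩ : ∃ T : ℂ, T = 1 + coeff f 2 * z + coeff f 3 * z ^ 2 := ⟨_, rfl⟩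
  have hps : psum f 3 z = z * T := by
    rw [hT]
    simp only [psum, Finset.sum_range_succ, Finset.sum_range_zero, h0, h1']
    ring
  have hnorm : ‖psum f 3 z‖ = ‖T‖ := by
    rw [hps, norm_mul, hz, one_mul]
  rw [hnorm]
  obtain ⟨κ, hκ1, hκ2, hκ3⟩ := exists_kappa T (z * coeff f 2)
  rw [← mul_assoc] at hκ3
  have hωn : ‖κ * z‖ = 1 := by rw [norm_mul, hκ1, hz, one_mul]
  have hCS : κ.re ^ 2 + κ.im ^ 2 = 1 := by
    have h := Complex.sq_norm κ
    rw [hκ1, Complex.normSq_apply] at h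
    nlinarith
  have hTre : ‖T‖ = (κ ^ 2).re + (κ * (κ * z * coeff f 2)).re +
      ((κ * z) ^ 2 * coeff f 3).re := by
    have h2 : (κ ^ 2 * T).re = ‖T‖ := by rw [hκ2]; exact Complex.ofReal_re _
    rw [← h2, hT, ← Complex.add_re, ← Complex.add_re]
    congr 1
    ring
  have hk2 : (κ ^ 2).re = 2 * κ.re ^ 2 - 1 := by
    rw [sq, Complex.mul_re]
    nlinarith
  have hkω : (κ * (κ * z * coeff f 2)).re =
      κ.re * (κ * z * coeff f 2).re - κ.im * (κ * z * coeff f 2).im := Complex.mul_re _ _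
  have hsplit : ((κ * z) ^ 2 * (coeff f 3 - coeff f 2 ^ 2)).re =
      ((κ * z) ^ 2 * coeff f 3).re -
        ((κ * z * coeff f 2).re ^ 2 - (κ * z * coeff f 2).im ^ 2) := by
    have e : (κ * z) ^ 2 * (coeff f 3 - coeff f 2 ^ 2) =
        (κ * z) ^ 2 * coeff f 3 - (κ * z * coeff f 2) * (κ * z * coeff f 2) := by ring
    rw [e, Complex.sub_re, Complex.mul_re (κ * z * coeff f 2) (κ * z * coeff f 2)]
    ring
  refine ⟨(κ * z * coeff f 2).re, hκ3, ?_, ?_⟩
  · refine (Complex.re_le_norm _).trans ?_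
    rw [norm_mul, hωn, one_mul]
    exact hPA2 M f hf
  · intro g hg0 hg1
    have hJ : ((κ * z) ^ 2 * (coeff f 3 - coeff f 2 ^ 2)).re +
        4 * g * (κ * z * coeff f 2).re ≤ JM M g := by
      unfold JM
      split_ifs with h
      · exact Pool.Agent.PSB.neh M f hM hf (κ * z) g hωn
      · exact hJTT M g f (κ * z) hf hωn (not_le.mp h).le hg1
    refine real_ineq κ.re κ.im (κ * z * coeff f 2).re (κ * z * coeff f 2).im
      ((κ * z) ^ 2 * (coeff f 3 - coeff f 2 ^ 2)).re g (JM M g) ‖T‖ hCS hκ3 hJ ?_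
    rw [hTre, hk2, hkω]
    linarith

end Pool.Agent.DBR
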