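import Pool.Agent.DBR.Stmts

set_option autoImplicit false

/-!
The real extremal problem for `n = 3`, the case `M + 4 log M ≤ 4`.
-/

namespace Pool.Agent.DBR

open Complex Metric Set Filter MeasureTheory

open scoped Topology ComplexConjugate

open Pool.Agent.PSB (InS coeff psum Lam SelfU)

namespace U3B_

theorem quad {L σ b : ℝ} (hL0 : 0 ≤ L) (hL1 : L < 1) :
    2 - b ^ 2 + L * (2 * σ - 4 * σ ^ 2 * (1 - L)) ≤ 2 - b ^ 2 + L / (4 * (1 - L)) := by
  have h1 : 0 < 1 - L := by linarith
  have h2 : 2 * σ - 4 * σ ^ 2 * (1 - L) ≤ 1 / (4 * (1 - L)) := by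
    rw [le_div_iff₀ (by linarith)]
    nlinarith [sq_nonneg (4 * σ * (1 - L) - 1)]
  have h3 := mul_le_mul_of_nonneg_left h2 hL0
  have h4 : L * (1 / (4 * (1 - L))) = L / (4 * (1 - L)) := by ring
  linarith

/-- The parametrisation. -/
noncomputable def w (b σ : ℝ) : ℝ := 2 * (σ - b - σ * Real.log σ)

/-- The value. -/
noncomputable def G (b σ : ℝ) : ℝ :=
  2 + b ^ 2 + w b σ + w b σ ^ 2 - 2 * σ * w b σ + 2 * σ ^ 2 - 4 * σ * b

theorem w_deriv {b σ : ℝ} (hσ : 0 < σ) : HasDerivAt (w b) (-2 * Real.log σ) σ := by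
  have h1 := (hasDerivAt_id σ).mul (Real.hasDerivAt_log hσ.ne')
  have h2 := (((hasDerivAt_id σ).sub_const b).sub h1).const_mul 2
  have h3 : 2 * (1 - (1 * Real.log σ + id σ * σ⁻¹)) = -2 * Real.log σ := by
    simp only [id]
    field_simp
    ring
  rw [h3] at h2
  exact h2

theorem w_cont {b : ℝ} (hb : 0 < b) : ContinuousOn (w b) (Icc b 1) :=
  fun _ hσ => (w_deriv (hb.trans_le hσ.1)).continuousAt.continuousWithinAt

theorem G_deriv {b σ : ℝ} (hσ : 0 < σ) :
    HasDerivAt (G b) (-2 * Real.log σ * (1 - 4 * b - 4 * (σ * Real.log σ))) σ := by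
  have hw := w_deriv (b := b) hσ
  have h1 := ((((hw.const_add (2 + b ^ 2)).add (hw.pow 2)).sub
    (((hasDerivAt_id σ).const_mul 2).mul hw)).add (((hasDerivAt_id σ).pow 2).const_mul 2)).sub
    (((hasDerivAt_id σ).const_mul 4).mul_const b)
  have e : -2 * Real.log σ + ↑2 * w b σ ^ (2 - 1) * (-2 * Real.log σ) -
      (2 * 1 * w b σ + 2 * id σ * (-2 * Real.log σ)) + 2 * (↑2 * id σ ^ (2 - 1) * 1) - 4 * 1 * b
      = -2 * Real.log σ * (1 - 4 * b - 4 * (σ * Real.log σ)) := by
    simp only [id, w]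
    norm_num
    ring
  have h2 := h1
  rw [show (((2 : ℕ) : ℝ)) = (2 : ℝ) by norm_num] at h2
  rw [e] at h2
  exact h2

theorem neg_mul_log_le {b σ : ℝ} (hb : 0 < b) (hσ : b ≤ σ) (hL : -Real.log b < 1) :
    -(σ * Real.log σ) ≤ -(b * Real.log b) := by
  have hσ0 : 0 < σ := hb.trans_le hσ
  have h1 : Real.log (b / σ) ≤ b / σ - 1 := Real.log_le_sub_one_of_pos (by positivity)
  rw [Real.log_div hb.ne' hσ0.ne'] at h1
  have h2 : σ * (Real.log b - Real.log σ) ≤ b - σ := by
    have := mul_le_mul_of_nonneg_left h1 hσ0.le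
    have e : σ * (b / σ - 1) = b - σ := by field_simp
    rwa [e] at this
  nlinarith

theorem G_anti {b : ℝ} (hb : 0 < b) (hL : -Real.log b < 1)
    (h : 1 - 4 * b - 4 * (b * Real.log b) ≤ 0) {σ : ℝ} (hσ : b ≤ σ) (hσ1 : σ ≤ 1) :
    G b σ ≤ G b b := by
  have hanti : AntitoneOn (G b) (Icc b 1) := by
    refine antitoneOn_of_deriv_nonpos (convex_Icc b 1) ?_ ?_ ?_
    · exact fun t ht => (G_deriv (hb.trans_le ht.1)).continuousAt.continuousWithinAt
    · rw [interior_Icc]
      exact fun t ht => (G_deriv (hb.trans ht.1)).differentiableAt.differentiableWithinAt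
    · rw [interior_Icc]
      intro t ht
      rw [(G_deriv (hb.trans ht.1)).deriv]
      have h1 := neg_mul_log_le hb ht.1.le hL
      have h2 : Real.log t ≤ 0 := Real.log_nonpos (hb.trans ht.1).le ht.2.le
      nlinarith
  exact hanti ⟨le_refl b, hσ.trans hσ1⟩ ⟨hσ, hσ1⟩ hσ

end U3B_

open U3B_ in
theorem u3b_proof : Stmt_U3B := by
  intro M x hM hM4 hx0 hx1
  have hM0 : (0 : ℝ) < M := by linarith
  have hL0 : 0 < Real.log M := Real.log_pos hM
  have hL1 : Real.log M < 1 := by linarith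
  set b : ℝ := 1 / M with hb
  have hb0 : 0 < b := by positivity
  have hb1 : b ≤ 1 := by
    rw [hb, div_le_one hM0]; exact hM.le
  have hlb : Real.log b = -Real.log M := by
    rw [hb, one_div, Real.log_inv]
  have eb : 1 / M ^ 2 = b ^ 2 := by rw [hb]; ring
  set L := Real.log M with hLdef
  by_cases hc : x ≤ 2 * b * L
  · refine ⟨x / (2 * L), by positivity, ?_, ?_⟩
    · rw [div_le_one (by positivity)]
      nlinarith
    · have h1 : x / (2 * L) ≤ 1 / M := by
        rw [div_le_iff₀ (by positivity)]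
        linarith
      unfold JM
      rw [if_pos h1, eb]
      refine le_trans (le_of_eq ?_) (quad (σ := x / (2 * L)) (b := b) hL0.le hL1)
      have h2 : x = 2 * (x / (2 * L)) * L := by field_simp
      set σ := x / (2 * L) with hσ
      rw [h2]
      ring
  · push Not at hc
    have h1 : x ∈ Icc (w b b) (w b 1) := by
      constructor
      · unfold w
        rw [hlb]
        linarith
      · unfold w
        rw [Real.log_one]
        rw [hb]
        linarith
    obtain ⟨σ, hσ, hσx⟩ := intermediate_value_Icc hb1 (w_cont hb0) h1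
    refine ⟨σ, hb0.le.trans hσ.1, hσ.2, ?_⟩
    have h2 : b < σ := by
      rcases eq_or_lt_of_le hσ.1 with h | h
      · exfalso
        rw [← h] at hσx
        unfold w at hσx
        rw [hlb] at hσx
        linarith
      · exact h
    unfold JM
    rw [if_neg (by rw [← hb]; linarith), eb]
    have h3 : 1 + x + x ^ 2 - 4 * σ * x + (1 + b ^ 2 - 4 * σ ^ 2 * Real.log σ + 6 * σ ^ 2
        - 8 * σ / M) = G b σ := by
      unfold G
      rw [hσx]
      have h4 : -4 * σ ^ 2 * Real.log σ = 2 * σ * x - 4 * σ ^ 2 + 4 * σ * b := by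
        rw [← hσx]
        unfold w
        ring
      have h5 : 8 * σ / M = 8 * σ * b := by rw [hb]; ring
      rw [h5]
      linear_combination h4
    rw [h3]
    have h6 : 1 - 4 * b - 4 * (b * Real.log b) ≤ 0 := by
      rw [hlb]
      have : 1 - 4 * b - 4 * (b * -L) = b * (M + 4 * L - 4) := by
        rw [hb]
        field_simp
        ring
      rw [this]
      nlinarith
    refine (G_anti hb0 (by rw [hlb]; linarith) h6 hσ.1 hσ.2).trans ?_
    refine le_trans (le_of_eq ?_) (quad (σ := b) (b := b) hL0.le hL1)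
    unfold G w
    rw [hlb]
    ring

end Pool.Agent.DBR
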