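import Pool.Agent.DBR.Stmts

set_option autoImplicit false

/-!
U3C: the real extremal problem, middle range.
-/

namespace Pool.Agent.DBR

open Complex Metric Set Filter MeasureTheory

open scoped Topology ComplexConjugate

open Pool.Agent.PSB (InS coeff psum Lam SelfU)

namespace U3C_

/-- The value of the majorant along the curve, `u = t log t`. -/
noncomputable def gg (b t : ℝ) : ℝ :=
  2 + b ^ 2 + 2 * t - 2 * b - 2 * (t * Real.log t) - 8 * t * b - 4 * t * (t * Real.log t)
    + 4 * (b + t * Real.log t) ^ 2 + 2 * t ^ 2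

theorem hasDerivAt_gg (b : ℝ) {t : ℝ} (ht : 0 < t) :
    HasDerivAt (gg b) (-2 * Real.log t * (1 - 4 * (b + t * Real.log t))) t := by
  have hu : HasDerivAt (fun t => t * Real.log t) (Real.log t + 1) t := by
    simpa using Real.hasDerivAt_mul_log ht.ne'
  have h1 : HasDerivAt (fun t : ℝ => t) 1 t := hasDerivAt_id t
  have h := (((((((hasDerivAt_const t (2 + b ^ 2)).add (h1.const_mul 2)).sub
    (hasDerivAt_const t (2 * b))).sub (hu.const_mul 2)).sub ((h1.const_mul 8).mul_const b)).sub
    ((h1.const_mul 4).mul hu)).add (((hasDerivAt_const t b).add hu).pow 2 |>.const_mul 4)).add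
    ((h1.pow 2).const_mul 2)
  refine (h.congr_deriv ?_).congr_of_eventuallyEq ?_
  · simp only [Pi.add_apply, Nat.cast_ofNat]
    ring
  · refine Eventually.of_forall fun x => ?_
    simp only [gg, Pi.add_apply, Pi.sub_apply, Pi.mul_apply, Pi.pow_apply]

theorem gg_le {b s t : ℝ} (hb : 0 < b) (hbs : b ≤ s) (hs1 : s ≤ 1) (hse : Real.exp (-1) ≤ s)
    (hbb : b + b * Real.log b ≤ 1 / 4) (hss : b + s * Real.log s = 1 / 4) (hbt : b ≤ t)
    (ht1 : t ≤ 1) : gg b t ≤ gg b s := by
  have hs0 : 0 < s := hb.trans_le hbs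
  have hcont : ∀ l r : ℝ, b ≤ l → ContinuousOn (gg b) (Icc l r) := fun l r hl x hx =>
    (hasDerivAt_gg b (hb.trans_le (hl.trans hx.1))).continuousAt.continuousWithinAt
  have hdiff : ∀ l r : ℝ, b ≤ l → DifferentiableOn ℝ (gg b) (interior (Icc l r)) :=
    fun l r hl x hx => (hasDerivAt_gg b (hb.trans_le
      (hl.trans (interior_subset hx).1))).differentiableAt.differentiableWithinAt
  have hcv : ConvexOn ℝ (Ici 0) (fun x : ℝ => x * Real.log x) := Real.convexOn_mul_log
  rcases le_total t s with hts | hst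
  · have hmono : MonotoneOn (gg b) (Icc b s) := by
      refine monotoneOn_of_deriv_nonneg (convex_Icc b s) (hcont b s le_rfl) (hdiff b s le_rfl) ?_
      intro x hx
      have hx' := interior_subset hx
      have hx0 : 0 < x := hb.trans_le hx'.1
      rw [(hasDerivAt_gg b hx0).deriv]
      have hlog : Real.log x ≤ 0 := Real.log_nonpos hx0.le (hx'.2.trans hs1)
      have hm := hcv.le_max_of_mem_Icc (x := b) (y := s) (z := x) (mem_Ici.2 hb.le)
        (mem_Ici.2 hs0.le) hx'
      have h4 : b + x * Real.log x ≤ 1 / 4 := by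
        rcases le_max_iff.1 hm with h | h
        · linarith
        · linarith
      have : 0 ≤ (-Real.log x) * (1 - 4 * (b + x * Real.log x)) :=
        mul_nonneg (by linarith) (by linarith)
      linarith
    exact hmono ⟨hbt, hts⟩ ⟨hbs, le_rfl⟩ hts
  · have hanti : AntitoneOn (gg b) (Icc s 1) := by
      refine antitoneOn_of_deriv_nonpos (convex_Icc s 1) (hcont s 1 hbs) (hdiff s 1 hbs) ?_
      intro x hx
      have hx' := interior_subset hx
      have hx0 : 0 < x := hs0.trans_le hx'.1
      rw [(hasDerivAt_gg b hx0).deriv]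
      have hlog : Real.log x ≤ 0 := Real.log_nonpos hx0.le hx'.2
      have hls : -1 ≤ Real.log s := by
        rw [Real.le_log_iff_exp_le hs0]; exact hse
      have h1 : 1 - (x / s)⁻¹ ≤ Real.log (x / s) :=
        Real.one_sub_inv_le_log_of_pos (div_pos hx0 hs0)
      rw [Real.log_div hx0.ne' hs0.ne', inv_div] at h1
      have h2 : x * (1 - s / x) ≤ x * (Real.log x - Real.log s) :=
        mul_le_mul_of_nonneg_left h1 hx0.le
      have h3 : x * (1 - s / x) = x - s := by field_simp
      rw [h3] at h2
      have h5 : 0 ≤ (x - s) * (1 + Real.log s) := mul_nonneg (by linarith [hx'.1]) (by linarith)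
      have h4 : 1 / 4 ≤ b + x * Real.log x := by nlinarith
      have : 0 ≤ (-Real.log x) * (4 * (b + x * Real.log x) - 1) :=
        mul_nonneg (by linarith) (by linarith)
      linarith
    exact hanti ⟨le_rfl, hs1⟩ ⟨hst, ht1⟩ hst

end U3C_

open U3C_ in
theorem u3c_proof : Stmt_U3C := by
  intro M x s hM hM4 _ hse hbs hs1 hss hx0 hx1
  have hM0 : 0 < M := one_pos.trans hM
  have hL : 0 < Real.log M := Real.log_pos hM
  set b : ℝ := 1 / M with hb
  have hb0 : 0 < b := by rw [hb]; positivity
  have hb1 : b < 1 := by rw [hb, div_lt_one hM0]; exact hM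
  have hbM : b * M = 1 := by rw [hb]; field_simp
  have hlogb : Real.log b = -Real.log M := by rw [hb, one_div, Real.log_inv]
  have h1M2 : 1 / M ^ 2 = b ^ 2 := by rw [hb, div_pow, one_pow]
  have h4M : 4 / M = 4 * b := by rw [hb]; ring
  have hkey : 0 ≤ 1 - 4 * b * (1 - Real.log M) := by
    have h := mul_nonneg hb0.le (by linarith : 0 ≤ M + 4 * Real.log M - 4)
    have h2 : b * (M + 4 * Real.log M - 4) = b * M + 4 * b * Real.log M - 4 * b := by ring
    rw [h2, hbM] at h
    linarith
  have hbb : b + b * Real.log b ≤ 1 / 4 := by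
    rw [hlogb]; linarith
  have hss' : b + s * Real.log s = 1 / 4 := by rw [hss]; ring
  have hgs : gg b s = 7 / 4 + 1 / M ^ 2 + (1 - 4 / M) * s + 2 * s ^ 2 := by
    have e : s * Real.log s = 1 / 4 - b := by linarith
    rw [h1M2, h4M, gg, e]
    ring
  rw [← hgs]
  rcases le_total x (2 * b * Real.log M) with hxb | hxb
  · refine ⟨x / (2 * Real.log M), by positivity, ?_, ?_⟩
    · have : x / (2 * Real.log M) ≤ b := by
        rw [div_le_iff₀ (by positivity)]; linarith
      linarith
    · set σ := x / (2 * Real.log M) with hσ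
      have hσ0 : 0 ≤ σ := by rw [hσ]; positivity
      have hσb : σ ≤ b := by
        rw [hσ, div_le_iff₀ (by positivity)]; linarith
      have hxσ : x = 2 * σ * Real.log M := by rw [hσ]; field_simp
      refine le_trans ?_ (gg_le hb0 hbs hs1 hse hbb hss' le_rfl hb1.le)
      rw [JM, if_pos hσb, h1M2, hxσ, gg, hlogb]
      have hb2 : 0 ≤ 1 - 2 * (1 - Real.log M) * (b + σ) := by
        rcases le_total 1 (Real.log M) with h | h
        · have := mul_nonneg (by linarith : 0 ≤ Real.log M - 1) (by linarith : 0 ≤ b + σ)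
          nlinarith
        · have := mul_le_mul_of_nonneg_left (by linarith : b + σ ≤ 2 * b)
            (by linarith : 0 ≤ 1 - Real.log M)
          nlinarith
      have h3 := mul_nonneg (mul_nonneg hL.le (by linarith : 0 ≤ b - σ)) hb2
      nlinarith
  · have hcont : ContinuousOn (fun t : ℝ => 2 * (t - b - t * Real.log t)) (Icc b 1) := by
      refine Continuous.continuousOn ?_
      exact continuous_const.mul ((continuous_id.sub continuous_const).sub
        Real.continuous_mul_log)
    have hivt := intermediate_value_Icc hb1.le hcont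
    have hmem : x ∈ Icc ((fun t : ℝ => 2 * (t - b - t * Real.log t)) b)
        ((fun t : ℝ => 2 * (t - b - t * Real.log t)) 1) := by
      refine ⟨?_, ?_⟩
      · simp only [hlogb]
        linarith
      · simp only [Real.log_one]
        linarith
    obtain ⟨σ, hσm, hσx⟩ := hivt hmem
    simp only at hσx
    refine ⟨σ, hb0.le.trans hσm.1, hσm.2, ?_⟩
    refine le_trans ?_ (gg_le hb0 hbs hs1 hse hbb hss' hσm.1 hσm.2)
    by_cases h : σ ≤ 1 / M
    · have hσb : σ = b := le_antisymm h hσm.1
      rw [JM, if_pos h, h1M2, ← hσx, hσb, gg, hlogb]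
      apply le_of_eq
      ring
    · rw [JM, if_neg h, h1M2, ← hσx, gg]
      have e8 : 8 * σ / M = 8 * σ * b := by rw [hb]; ring
      rw [e8]
      apply le_of_eq
      ring

end Pool.Agent.DBR
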