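import Pool.Agent.DBR.Stmts

/-!
# Squad DBR, module U3D: the real extremal problem for `4 ≤ M`.
-/

set_option autoImplicit false

namespace Pool.Agent.DBR

namespace U3D_

/-- For `t ≥ 0`, `u = exp (-t) (1 + t)`, `l = exp (-t) t`: `u ≤ 1` and `u² + l² ≤ 1`. -/
lemma key {σ : ℝ} (h0 : 0 < σ) (h1 : σ ≤ 1) :
    σ - σ * Real.log σ ≤ 1 ∧
      (σ - σ * Real.log σ) ^ 2 + (σ * Real.log σ) ^ 2 ≤ 1 := by
  have ht : 0 ≤ -Real.log σ := by
    have := Real.log_nonpos h0.le h1
    linarith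
  have he : Real.exp (-Real.log σ) = σ⁻¹ := by rw [Real.exp_neg, Real.exp_log h0]
  have he2 : Real.exp (2 * -Real.log σ) = (σ⁻¹) ^ 2 := by
    rw [show 2 * -Real.log σ = -Real.log σ + -Real.log σ by ring, Real.exp_add, he, sq]
  have h2 : 1 + -Real.log σ ≤ σ⁻¹ := by
    have := Real.add_one_le_exp (-Real.log σ)
    rw [he] at this
    linarith
  have h3 : 1 + 2 * -Real.log σ + (2 * -Real.log σ) ^ 2 / 2 ≤ (σ⁻¹) ^ 2 := by
    have := Real.quadratic_le_exp_of_nonneg (x := 2 * -Real.log σ) (by linarith)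
    rwa [he2] at this
  have h4 : σ * σ⁻¹ = 1 := mul_inv_cancel₀ h0.ne'
  constructor
  · have := mul_le_mul_of_nonneg_left h2 h0.le
    rw [h4] at this
    linarith
  · have h5 := mul_le_mul_of_nonneg_left h3 (sq_nonneg σ)
    have h6 : σ ^ 2 * (σ⁻¹) ^ 2 = 1 := by rw [← mul_pow, h4, one_pow]
    rw [h6] at h5
    nlinarith [h5]

lemma log_ge_one {M : ℝ} (hM : 4 ≤ M) : 1 ≤ Real.log M := by
  have h1 : Real.log 4 ≤ Real.log M := Real.log_le_log (by norm_num) hM
  have h2 : Real.log 4 = 2 * Real.log 2 := by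
    rw [show (4 : ℝ) = 2 ^ 2 by norm_num, Real.log_pow]
    norm_num
  have h3 := Real.log_two_gt_d9
  linarith

end U3D_

open U3D_ in
theorem u3d_proof : Stmt_U3D := by
  intro M x hM hx0 hx1
  have hM0 : 0 < M := by linarith
  obtain ⟨b, hb⟩ : ∃ b : ℝ, b = 1 / M := ⟨_, rfl⟩
  have hb0 : 0 < b := by rw [hb]; positivity
  have hb4 : 4 * b ≤ 1 := by
    rw [hb, mul_one_div, div_le_one hM0]
    exact hM
  have hlb : Real.log b = -Real.log M := by
    rw [hb, one_div, Real.log_inv]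
  have hL := log_ge_one hM
  have hb2 : 1 / M ^ 2 = b ^ 2 := by rw [hb]; ring
  have hgoal : 6 - 10 / M + 5 / M ^ 2 = 6 - 10 * b + 5 * b ^ 2 := by rw [hb]; ring
  rw [hgoal]
  have hx1' : x ≤ 2 * (1 - b) := by rw [hb]; exact hx1
  have hJ1 : ∀ σ : ℝ, σ ≤ b → JM M σ = 1 - b ^ 2 + 4 * σ ^ 2 * Real.log M := by
    intro σ h
    unfold JM
    rw [if_pos (by rw [← hb]; exact h), hb2]
  have hJ2 : ∀ σ : ℝ, b ≤ σ → JM M σ =
      1 + b ^ 2 - 4 * σ ^ 2 * Real.log σ + 6 * σ ^ 2 - 8 * σ * b := by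
    intro σ h
    rcases eq_or_lt_of_le h with h' | h'
    · subst h'
      rw [hJ1 b le_rfl, hlb]
      ring
    · unfold JM
      rw [if_neg (by rw [← hb]; exact not_le.2 h'), hb2]
      rw [show 8 * σ / M = 8 * σ * b by rw [hb]; ring]
  rcases le_or_gt (2 * b * Real.log M) x with hx | hx
  · have hc : ContinuousOn (fun σ : ℝ => 2 * (σ - b - σ * Real.log σ)) (Set.Icc b 1) := by
      apply Continuous.continuousOn
      exact continuous_const.mul ((continuous_id.sub continuous_const).sub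
        Real.continuous_mul_log)
    have hmem : x ∈ Set.Icc (2 * (b - b - b * Real.log b)) (2 * (1 - b - 1 * Real.log 1)) := by
      rw [hlb, Real.log_one]
      constructor
      · linarith
      · linarith
    obtain ⟨σ, hσ, hσx⟩ := intermediate_value_Icc (by linarith : b ≤ 1) hc hmem
    have hσ0 : 0 < σ := lt_of_lt_of_le hb0 hσ.1
    obtain ⟨h1, h2⟩ := key hσ0 hσ.2
    refine ⟨σ, hσ0.le, hσ.2, ?_⟩
    rw [hJ2 σ hσ.1]
    have hx' : x = 2 * (σ - b - σ * Real.log σ) := hσx.symm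
    have h3 : (1 - 4 * b) * ((σ - σ * Real.log σ) - 1) ≤ 0 :=
      mul_nonpos_of_nonneg_of_nonpos (by linarith) (by linarith)
    have h4 : 1 + x + x ^ 2 - 4 * σ * x +
        (1 + b ^ 2 - 4 * σ ^ 2 * Real.log σ + 6 * σ ^ 2 - 8 * σ * b) - (6 - 10 * b + 5 * b ^ 2) =
        2 * ((1 - 4 * b) * ((σ - σ * Real.log σ) - 1) +
          ((σ - σ * Real.log σ) ^ 2 + (σ * Real.log σ) ^ 2 - 1)) := by
      rw [hx']
      ring
    linarith
  · have hLp : 0 < Real.log M := by linarith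
    refine ⟨x / (2 * Real.log M), by positivity, ?_, ?_⟩
    · rw [div_le_one (by positivity)]
      nlinarith
    · have hσb : x / (2 * Real.log M) ≤ b := by
        rw [div_le_iff₀ (by positivity)]
        linarith
      rw [hJ1 _ hσb]
      obtain ⟨h1, h2⟩ := key hb0 (by linarith : b ≤ 1)
      rw [hlb] at h1 h2
      have h3 : (1 - 4 * b) * ((b - b * -Real.log M) - 1) ≤ 0 :=
        mul_nonpos_of_nonneg_of_nonpos (by linarith) (by linarith)
      have h4 : 1 + x + x ^ 2 - 4 * (x / (2 * Real.log M)) * x +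
          (1 - b ^ 2 + 4 * (x / (2 * Real.log M)) ^ 2 * Real.log M) =
          2 - b ^ 2 + x + x ^ 2 * (1 - 1 / Real.log M) := by
        field_simp
        ring
      rw [h4]
      have h5 : 0 ≤ 1 - 1 / Real.log M := by
        rw [sub_nonneg, div_le_one hLp]
        exact hL
      have h6 : x ^ 2 * (1 - 1 / Real.log M) ≤
          (2 * b * Real.log M) ^ 2 * (1 - 1 / Real.log M) :=
        mul_le_mul_of_nonneg_right (pow_le_pow_left₀ hx0 hx.le 2) h5
      have h7 : (2 * b * Real.log M) ^ 2 * (1 - 1 / Real.log M) =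
          4 * b ^ 2 * Real.log M ^ 2 - 4 * b ^ 2 * Real.log M := by
        field_simp
        ring
      nlinarith [h6, h7, h1, h2, h3, hx.le]

end Pool.Agent.DBR
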