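import Pool.Agent.DBR.Stmts

/-!
Squad DBR, module UPB: the upper bound at the point `1`.
-/

set_option autoImplicit false

namespace Pool.Agent.DBR

open Complex Metric Set Filter MeasureTheory

open scoped Topology ComplexConjugate

open Pool.Agent.PSB (InS coeff psum Lam SelfU)

namespace UPB_

theorem psum_sub {f g : ℂ → ℂ} (hf : AnalyticAt ℂ f 0) (hg : AnalyticAt ℂ g 0) (n : ℕ) (w : ℂ) :
    psum (fun z => f z - g z) n w = psum f n w - psum g n w := by
  unfold psum
  rw [← Finset.sum_sub_distrib]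
  refine Finset.sum_congr rfl fun k _ => ?_
  rw [coeff_sub hf hg]
  ring

theorem gauss (n : ℕ) (hn : 2 ≤ n) :
    (∑ k ∈ Finset.Icc 3 n, (k : ℝ)) = n * (n + 1) / 2 - 3 := by
  induction n, hn using Nat.le_induction with
  | base => norm_num
  | succ m hm ih =>
      rw [Finset.sum_Icc_succ_top (by omega), ih]
      push_cast
      ring

theorem psum_bound {F : ℂ → ℂ} (hF : InSS F) (hDBS : Stmt_DBS) (n : ℕ) (hn : 2 ≤ n) :
    ‖psum F n 1‖ ≤ (n * (n + 1) / 2 : ℝ) - EE F / 3 := by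
  have h0 : psum F n 1 = (1 + coeff F 2) + ∑ k ∈ Finset.Icc 3 n, coeff F k := by
    unfold psum
    have h1 : Finset.range (n + 1) = Finset.range 3 ∪ Finset.Icc 3 n := by
      ext k
      simp only [Finset.mem_range, Finset.mem_union, Finset.mem_Icc]
      omega
    have h2 : Disjoint (Finset.range 3) (Finset.Icc 3 n) := by
      rw [Finset.disjoint_left]
      intro k hk hk'
      simp only [Finset.mem_range, Finset.mem_Icc] at hk hk'
      omega
    rw [h1, Finset.sum_union h2]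
    simp [Finset.sum_range_succ, hF.coeff_zero, hF.coeff_one]
  have h1 : ‖∑ k ∈ Finset.Icc 3 n, coeff F k‖ ≤ ∑ k ∈ Finset.Icc 3 n, (k : ℝ) :=
    norm_sum_le_of_le _ fun k _ => hDBS F hF k
  rw [gauss n hn] at h1
  have h2 : ‖coeff F 2‖ ≤ 2 := by exact_mod_cast hDBS F hF 2
  have hre : (coeff F 2).re = 2 - EE F := by unfold EE; ring
  have hE4 : EE F ≤ 4 := by
    have := (abs_le.1 (Complex.abs_re_le_norm (coeff F 2))).1
    rw [hre] at this
    linarith
  have hE0 : 0 ≤ EE F := by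
    have := (abs_le.1 (Complex.abs_re_le_norm (coeff F 2))).2
    rw [hre] at this
    linarith
  have h3 : ‖1 + coeff F 2‖ ≤ 3 - EE F / 3 := by
    have h4 : ‖1 + coeff F 2‖ ^ 2 = 1 + 2 * (coeff F 2).re + ‖coeff F 2‖ ^ 2 := by
      rw [← Complex.normSq_eq_norm_sq, ← Complex.normSq_eq_norm_sq, Complex.normSq_apply,
        Complex.normSq_apply]
      simp only [add_re, one_re, add_im, one_im]
      ring
    refine (pow_le_pow_iff_left₀ (norm_nonneg _) (by linarith) two_ne_zero).1 ?_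
    rw [h4, hre]
    nlinarith [norm_nonneg (coeff F 2), sq_nonneg (EE F)]
  rw [h0]
  refine (norm_add_le _ _).trans ?_
  linarith

end UPB_

open UPB_ in
theorem upb_proof (hES1 : Stmt_ES1) (hES2 : Stmt_ES2) (hEX1 : Stmt_EX1) (hARI : Stmt_ARI)
    (hPCO : Stmt_PCO) (hDBS : Stmt_DBS) (hTIL : Stmt_TIL) (hPKE : Stmt_PKE) (hKIN : Stmt_KIN) :
    Stmt_UPB := by
  intro n M f hn hM hf
  have hM1 : 1 ≤ M := one_le_of_inS hf
  have hM0 : 0 < M := by linarith
  have hn1 : (2 : ℝ) ≤ n := by exact_mod_cast hn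
  set F := til M f with hF
  have hFS : InSS F := hTIL M f hf
  have hK : InSS Kb := hKIN.2.2.2
  have hP : InS M (Pk M) := (hPKE M hM1).1
  have hPS : InSS (Pk M) := toSS hP
  have hfS : InSS f := toSS hf
  have a1 := hFS.analyticAt
  have a2 := hK.analyticAt
  have a3 := hPS.analyticAt
  have a4 := hfS.analyticAt
  have d1 : DifferentiableOn ℂ (fun z => F z - Kb z) (ball 0 1) := hFS.diff.sub hK.diff
  have d2 : DifferentiableOn ℂ (fun z => f z - Pk M z) (ball 0 1) := hfS.diff.sub hPS.diff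
  have d3 : DifferentiableOn ℂ (fun z => (f z - Pk M z) - (F z - Kb z)) (ball 0 1) := d2.sub d1
  have d4 : DifferentiableOn ℂ (fun z => Pk M z - Kb z) (ball 0 1) := hPS.diff.sub hK.diff
  have z1 : (fun z => F z - Kb z) 0 = 0 := by simp [hFS.zero, hK.zero]
  have z3 : (fun z => (f z - Pk M z) - (F z - Kb z)) 0 = 0 := by
    simp [hFS.zero, hK.zero, hfS.zero, hPS.zero]
  have z4 : (fun z => Pk M z - Kb z) 0 = 0 := by simp [hPS.zero, hK.zero]
  set E := EE F with hE
  have hre : (coeff F 2).re = 2 - E := by rw [hE]; unfold EE; ring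
  have h2 : ‖coeff F 2‖ ≤ 2 := by exact_mod_cast hDBS F hFS 2
  have hE4 : E ≤ 4 := by
    have := (abs_le.1 (Complex.abs_re_le_norm (coeff F 2))).1
    rw [hre] at this
    linarith
  have hE0 : 0 ≤ E := by
    have := (abs_le.1 (Complex.abs_re_le_norm (coeff F 2))).2
    rw [hre] at this
    linarith
  set A := AP n M with hA
  set t : ℝ := n * (n + 1) / 2 with ht
  have pP : psum (Pk M) n 1 = (A : ℂ) := hPCO.1 M n hM1
  have pK : psum Kb n 1 = (t : ℂ) := by rw [hPCO.2 n, ht]; push_cast; ring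
  set U := psum (fun z => F z - Kb z) n 1 with hU
  set V := psum (fun z => (f z - Pk M z) - (F z - Kb z)) n 1 with hV
  have eU : U = psum F n 1 - (t : ℂ) := by rw [hU, psum_sub a1 a2, pK]
  have eV : V = (psum f n 1 - (A : ℂ)) - U := by
    rw [hV, psum_sub (f := fun z => f z - Pk M z) (g := fun z => F z - Kb z) (a4.sub a3)
      (a1.sub a2), psum_sub a4 a3, pP]
  have eW : psum (fun z => Pk M z - Kb z) n 1 = ((A - t : ℝ) : ℂ) := by
    rw [psum_sub a3 a2, pP, pK]
    push_cast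
    ring
  -- the estimates
  have b1 : |U.re| ≤ 468 * n ^ 11 * E := by
    have := (hEX1 n (fun z => F z - Kb z) (117 * n ^ 10 * E) hn d1 z1).2
      (fun z hz => (hES1 n F hn hFS z hz).2)
    refine this.trans (le_of_eq ?_)
    ring
  have b2 : |U.im| ≤ 16 * n ^ 7 * Real.sqrt E := by
    have := (hEX1 n (fun z => F z - Kb z) (4 * n ^ 6 * Real.sqrt E) hn d1 z1).1
      (fun z hz => (hES1 n F hn hFS z hz).1)
    refine (Complex.abs_im_le_norm _).trans (this.trans (le_of_eq ?_))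
    ring
  have b3 : |V.re| ≤ 3600 * n ^ 13 * (1 / M) * E := by
    have := (hEX1 n (fun z => (f z - Pk M z) - (F z - Kb z)) (900 * n ^ 12 / M * E) hn d3 z3).2
      (fun z hz => (hES2 n M f hn hM hf z hz).2.2)
    refine this.trans (le_of_eq ?_)
    ring
  have b4 : |V.im| ≤ 112 * n ^ 9 * (1 / M) * Real.sqrt E := by
    have := (hEX1 n (fun z => (f z - Pk M z) - (F z - Kb z)) (28 * n ^ 8 / M * Real.sqrt E)
      hn d3 z3).1 (fun z hz => (hES2 n M f hn hM hf z hz).2.1)
    refine (Complex.abs_im_le_norm _).trans (this.trans (le_of_eq ?_))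
    ring
  have b5 : |A - t| ≤ 12 * n ^ 5 * (1 / M) := by
    have := (hEX1 n (fun z => Pk M z - Kb z) (3 * n ^ 4 / M) hn d4 z4).1
      (fun z hz => (hES2 n M f hn hM hf z hz).1)
    rw [eW, Complex.norm_real, Real.norm_eq_abs] at this
    refine this.trans (le_of_eq ?_)
    ring
  have b6 : (t + U.re) ^ 2 + U.im ^ 2 ≤ (t - E / 3) ^ 2 := by
    have h5 := psum_bound hFS hDBS n hn
    have h6 : psum F n 1 = (t : ℂ) + U := by rw [eU]; ring
    have h7 : (t + U.re) ^ 2 + U.im ^ 2 = ‖psum F n 1‖ ^ 2 := by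
      rw [h6, ← Complex.normSq_eq_norm_sq, Complex.normSq_apply]
      simp only [add_re, ofReal_re, add_im, ofReal_im]
      ring
    rw [h7]
    exact pow_le_pow_left₀ (norm_nonneg _) h5 2
  have b7 : (10 : ℝ) ^ 5 * n ^ 16 * (1 / M) ≤ 1 := by
    rw [mul_one_div, div_le_one hM0]
    exact hM
  obtain ⟨c1, c2⟩ := hARI n (1 / M) E t A U.re U.im V.re V.im hn (by positivity) b7 hE0 hE4 ht b6
    b1 b2 b3 b4 b5
  have h8 : psum f n 1 = ((A : ℂ) + U + V) := by rw [eV]; ring
  have h9 : ‖psum f n 1‖ ^ 2 ≤ A ^ 2 := by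
    rw [h8, ← Complex.normSq_eq_norm_sq, Complex.normSq_apply]
    simp only [add_re, ofReal_re, add_im, ofReal_im]
    calc _ = (A + U.re + V.re) ^ 2 + (U.im + V.im) ^ 2 := by ring
      _ ≤ _ := c2
  exact (pow_le_pow_iff_left₀ (norm_nonneg _) c1 two_ne_zero).1 h9

end Pool.Agent.DBR
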