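import Pool.Agent.DBR.Stmts

/-!
Module WLF: the lemma of Wolff (length-area principle).
-/

set_option autoImplicit false

namespace Pool.Agent.DBR

open Complex Metric Set Filter MeasureTheory
open scoped Topology ComplexConjugate ENNReal
open Pool.Agent.PSB (InS coeff psum Lam SelfU)

namespace WLF_

/-- the density of the area -/
noncomputable def G (h : ℂ → ℂ) : ℂ → ℝ≥0∞ :=
  (ball (0 : ℂ) 1).indicator (fun z => ENNReal.ofReal (‖deriv h z‖ ^ 2))

theorem meas_G (h : ℂ → ℂ) : Measurable (G h) := by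
  refine Measurable.indicator ?_ measurableSet_ball
  exact ((measurable_deriv h).norm.pow_const 2).ennreal_ofReal

theorem int_G (h : ℂ → ℂ) (ζ : ℂ) (hζ : ‖ζ‖ = 1) :
    ∫⁻ w, G h (ζ - ζ * w) = ∫⁻ z in ball (0 : ℂ) 1, ENNReal.ofReal (‖deriv h z‖ ^ 2) := by
  have h1 : ∫⁻ w, G h (ζ - ζ * w) = ∫⁻ u, G h (ζ - u) := by
    have hc : ζ ∈ Submonoid.unitSphere ℂ := by
      rw [Submonoid.unitSphere]
      simpa using hζ
    have h2 := (rotation ⟨ζ, hc⟩).measurePreserving.lintegral_comp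
      (f := fun u => G h (ζ - u)) ((meas_G h).comp (measurable_const.sub measurable_id))
    simpa using h2
  rw [h1, lintegral_sub_left_eq_self (fun z => G h z) ζ]
  unfold G
  rw [lintegral_indicator measurableSet_ball]

/-- the arc -/
noncomputable def ga (ζ : ℂ) (η t : ℝ) : ℂ := ζ - ζ * (η * Complex.exp (t * I))

theorem ga_norm (ζ : ℂ) (hζ : ‖ζ‖ = 1) (η t : ℝ) (hη : 0 < η) (h : η < 2 * Real.cos t) :
    ga ζ η t ∈ ball (0 : ℂ) 1 := by
  rw [mem_ball_zero_iff]
  have h1 : ga ζ η t = ζ * (1 - η * Complex.exp (t * I)) := by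
    unfold ga
    ring
  rw [h1, norm_mul, hζ, one_mul]
  have h2 : ‖1 - (η : ℂ) * Complex.exp (t * I)‖ ^ 2 < 1 := by
    rw [← Complex.normSq_eq_norm_sq, Complex.normSq_apply]
    have e1 : (1 - (η : ℂ) * Complex.exp (t * I)).re = 1 - η * Real.cos t := by
      simp [Complex.exp_ofReal_mul_I_re]
    have e2 : (1 - (η : ℂ) * Complex.exp (t * I)).im = -(η * Real.sin t) := by
      simp [Complex.exp_ofReal_mul_I_im]
    rw [e1, e2]
    have h3 := Real.sin_sq_add_cos_sq t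
    have h4 : (1 - η * Real.cos t) * (1 - η * Real.cos t) + -(η * Real.sin t) * -(η * Real.sin t) =
        1 - η * (2 * Real.cos t - η) := by
      linear_combination η ^ 2 * h3
    rw [h4]
    have h5 : 0 < η * (2 * Real.cos t - η) := mul_pos hη (by linarith)
    linarith
  nlinarith [norm_nonneg (1 - (η : ℂ) * Complex.exp (t * I))]

theorem ga_deriv (ζ : ℂ) (η t : ℝ) :
    HasDerivAt (ga ζ η) (-(ζ * (η * (Complex.exp (t * I) * I)))) t := by
  unfold ga
  have h1 : HasDerivAt (fun t : ℝ => (t : ℂ) * I) I t := by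
    have := (hasDerivAt_id (t : ℂ)).comp_ofReal.mul_const I
    simpa using this
  have h2 : HasDerivAt (fun t : ℝ => Complex.exp (t * I)) (Complex.exp (t * I) * I) t := h1.cexp
  have h3 := ((h2.const_mul (η : ℂ)).const_mul ζ).const_sub ζ
  simpa using h3

theorem arc (h : ℂ → ℂ) (hh : DifferentiableOn ℂ h (ball 0 1)) (ζ : ℂ) (hζ : ‖ζ‖ = 1) (δ η a b : ℝ)
    (hδ : 0 < δ) (hη : 0 < η) (hab : a ≤ b) (ha : -(Real.pi / 2) < a) (hb : b < Real.pi / 2)
    (hca : η < 2 * Real.cos a) (hcb : η < 2 * Real.cos b)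
    (hd : δ ≤ ‖h (ga ζ η b) - h (ga ζ η a)‖) :
    ENNReal.ofReal (δ ^ 2 / (2 * Real.pi) / η) ≤
      ∫⁻ t in Ioo (-Real.pi) Real.pi, ENNReal.ofReal η * G h (ga ζ η t) := by
  have hpi := Real.pi_pos
  have hcos : ∀ t ∈ Icc a b, η < 2 * Real.cos t := by
    intro t ht
    rcases le_total 0 t with h0 | h0
    · have h1 : Real.cos b ≤ Real.cos t :=
        Real.cos_le_cos_of_nonneg_of_le_pi h0 (by linarith) ht.2
      linarith
    · have h1 : Real.cos (-a) ≤ Real.cos (-t) :=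
        Real.cos_le_cos_of_nonneg_of_le_pi (by linarith) (by linarith) (by linarith [ht.1])
      rw [Real.cos_neg, Real.cos_neg] at h1
      linarith
  have hin : ∀ t ∈ Icc a b, ga ζ η t ∈ ball (0 : ℂ) 1 := fun t ht =>
    ga_norm ζ hζ η t hη (hcos t ht)
  set u : ℝ → ℂ := fun t => deriv h (ga ζ η t) * (-(ζ * (η * (Complex.exp (t * I) * I)))) with hu
  have hder : ∀ t ∈ uIcc a b, HasDerivAt (fun t => h (ga ζ η t)) (u t) t := by
    intro t ht
    rw [uIcc_of_le hab] at ht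
    have h1 : HasDerivAt h (deriv h (ga ζ η t)) (ga ζ η t) :=
      ((hh _ (hin t ht)).differentiableAt (isOpen_ball.mem_nhds (hin t ht))).hasDerivAt
    exact h1.comp t (ga_deriv ζ η t)
  have hgc : Continuous (ga ζ η) := continuous_iff_continuousAt.2 fun t => (ga_deriv ζ η t).continuousAt
  have hdc : ContinuousOn (fun t => deriv h (ga ζ η t)) (Icc a b) := by
    have h1 : ContinuousOn (deriv h) (ball 0 1) := (hh.deriv isOpen_ball).continuousOn
    exact h1.comp hgc.continuousOn hin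
  have hucont : ContinuousOn u (Icc a b) := by
    refine hdc.mul (Continuous.continuousOn ?_)
    fun_prop
  have hui : IntervalIntegrable u volume a b := by
    refine ContinuousOn.intervalIntegrable ?_
    rw [uIcc_of_le hab]
    exact hucont
  have hun : ∀ t, ‖u t‖ = ‖deriv h (ga ζ η t)‖ * η := by
    intro t
    simp only [hu]
    rw [norm_mul, norm_neg, norm_mul, norm_mul, norm_mul, hζ, Complex.norm_exp_ofReal_mul_I,
      Complex.norm_I, Complex.norm_real, Real.norm_of_nonneg hη.le]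
    ring
  have hsq : IntervalIntegrable (fun t => ‖u t‖ ^ 2) volume a b := by
    refine ContinuousOn.intervalIntegrable ?_
    rw [uIcc_of_le hab]
    exact hucont.norm.pow 2
  have h1 : δ ≤ ∫ t in a..b, ‖u t‖ := by
    have h2 := intervalIntegral.integral_eq_sub_of_hasDerivAt hder hui
    rw [← h2] at hd
    exact hd.trans (intervalIntegral.norm_integral_le_integral_norm hab)
  have h2 : ∫ t in a..b, ‖u t‖ ≤ ∫ t in a..b, (Real.pi / δ * ‖u t‖ ^ 2 + δ / (4 * Real.pi)) := by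
    refine intervalIntegral.integral_mono_on hab hui.norm
      ((hsq.const_mul _).add intervalIntegrable_const) fun t _ => ?_
    have h3 : 0 ≤ (‖u t‖ * (2 * Real.pi) - δ) ^ 2 := sq_nonneg _
    have h4 : Real.pi / δ * ‖u t‖ ^ 2 + δ / (4 * Real.pi) - ‖u t‖ =
        (‖u t‖ * (2 * Real.pi) - δ) ^ 2 / (4 * Real.pi * δ) := by
      field_simp
      ring
    have h5 : 0 ≤ (‖u t‖ * (2 * Real.pi) - δ) ^ 2 / (4 * Real.pi * δ) := by positivity
    linarith
  rw [intervalIntegral.integral_add (hsq.const_mul _) intervalIntegrable_const,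
    intervalIntegral.integral_const_mul, intervalIntegral.integral_const, smul_eq_mul] at h2
  have h3 : (b - a) * (δ / (4 * Real.pi)) ≤ δ / 2 := by
    have h4 : (b - a) * (δ / (4 * Real.pi)) ≤ (2 * Real.pi) * (δ / (4 * Real.pi)) :=
      mul_le_mul_of_nonneg_right (by linarith) (by positivity)
    have h5 : (2 * Real.pi) * (δ / (4 * Real.pi)) = δ / 2 := by
      field_simp
      ring
    linarith
  have h4 : δ ^ 2 / (2 * Real.pi) ≤ ∫ t in a..b, ‖u t‖ ^ 2 := by
    have h5 : δ / 2 ≤ Real.pi / δ * ∫ t in a..b, ‖u t‖ ^ 2 := by linarith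
    have h6 : δ ^ 2 / (2 * Real.pi) = (δ / Real.pi) * (δ / 2) := by
      field_simp
    have h7 : (δ / Real.pi) * (Real.pi / δ * ∫ t in a..b, ‖u t‖ ^ 2) = ∫ t in a..b, ‖u t‖ ^ 2 := by
      field_simp
    rw [h6, ← h7]
    exact mul_le_mul_of_nonneg_left h5 (by positivity)
  have h5 : δ ^ 2 / (2 * Real.pi) / η ≤ ∫ t in a..b, η * ‖deriv h (ga ζ η t)‖ ^ 2 := by
    have h6 : ∫ t in a..b, ‖u t‖ ^ 2 = η * ∫ t in a..b, η * ‖deriv h (ga ζ η t)‖ ^ 2 := by
      rw [← intervalIntegral.integral_const_mul]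
      refine intervalIntegral.integral_congr fun t _ => ?_
      simp only [hun]
      ring
    rw [h6] at h4
    rw [div_le_iff₀ hη]
    exact h4.trans (le_of_eq (mul_comm _ _))
  refine (ENNReal.ofReal_le_ofReal h5).trans ?_
  rw [intervalIntegral.integral_of_le hab]
  have hii : IntegrableOn (fun t => η * ‖deriv h (ga ζ η t)‖ ^ 2) (Ioc a b) volume := by
    have h6 : ContinuousOn (fun t => η * ‖deriv h (ga ζ η t)‖ ^ 2) (Icc a b) :=
      continuousOn_const.mul (hdc.norm.pow 2)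
    exact (h6.integrableOn_Icc).mono_set Ioc_subset_Icc_self
  rw [ofReal_integral_eq_lintegral_ofReal hii (Eventually.of_forall fun t => by positivity)]
  refine le_trans (setLIntegral_mono_ae' measurableSet_Ioc
    (Eventually.of_forall fun t ht => ?_)) (lintegral_mono_set (s := Ioc a b) ?_)
  · show ENNReal.ofReal (η * ‖deriv h (ga ζ η t)‖ ^ 2) ≤ ENNReal.ofReal η * G h (ga ζ η t)
    rw [ENNReal.ofReal_mul hη.le]
    unfold G
    rw [indicator_of_mem (hin t ⟨ht.1.le, ht.2⟩)]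
  · intro t ht
    exact ⟨by linarith [ht.1], by linarith [ht.2]⟩

/-- the angle of a point of the arc -/
theorem angle (ζ : ℂ) (hζ : ‖ζ‖ = 1) (η : ℝ) (hη : 0 < η) (z : ℂ) (hz : z ∈ ball (0 : ℂ) 1)
    (hzη : ‖z - ζ‖ = η) : ∃ t : ℝ, -(Real.pi / 2) < t ∧ t < Real.pi / 2 ∧ η < 2 * Real.cos t ∧
      ga ζ η t = z := by
  have hζ0 : ζ ≠ 0 := by
    rintro rfl
    simp at hζ
  set w : ℂ := (ζ - z) / ζ with hw
  have hwn : ‖w‖ = η := by
    rw [hw, norm_div, hζ, div_one, norm_sub_rev]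
    exact hzη
  have hzw : z = ζ - ζ * w := by
    rw [hw]
    field_simp
    ring
  have h1 : ‖1 - w‖ < 1 := by
    have h2 : z = ζ * (1 - w) := by
      rw [hzw]
      ring
    rw [mem_ball_zero_iff, h2, norm_mul, hζ, one_mul] at hz
    exact hz
  have h2 : η ^ 2 < 2 * w.re := by
    have h3 : ‖1 - w‖ ^ 2 < 1 := by nlinarith [norm_nonneg (1 - w)]
    rw [← Complex.normSq_eq_norm_sq, Complex.normSq_apply] at h3
    have h4 : η ^ 2 = w.re * w.re + w.im * w.im := by
      rw [← hwn, ← Complex.normSq_eq_norm_sq, Complex.normSq_apply]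
    simp only [Complex.sub_re, Complex.one_re, Complex.sub_im, Complex.one_im] at h3
    nlinarith
  have h3 : 0 < w.re := by nlinarith [sq_nonneg η]
  have h4 : |Complex.arg w| < Real.pi / 2 := Complex.abs_arg_lt_pi_div_two_iff.2 (Or.inl h3)
  have h5 := abs_lt.1 h4
  have h6 : (η : ℂ) * Complex.exp (Complex.arg w * I) = w := by
    rw [← hwn]
    exact Complex.norm_mul_exp_arg_mul_I w
  have h7 : w.re = η * Real.cos (Complex.arg w) := by
    conv_lhs => rw [← h6]
    simp [Complex.exp_ofReal_mul_I_re]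
  refine ⟨Complex.arg w, h5.1, h5.2, ?_, ?_⟩
  · rw [h7] at h2
    nlinarith
  · unfold ga
    rw [h6, ← hzw]

theorem arc2 (h : ℂ → ℂ) (hh : DifferentiableOn ℂ h (ball 0 1)) (ζ : ℂ) (hζ : ‖ζ‖ = 1) (δ η : ℝ)
    (hδ : 0 < δ) (hη : 0 < η) (z z' : ℂ) (hz : z ∈ ball (0 : ℂ) 1) (hz' : z' ∈ ball (0 : ℂ) 1)
    (h1 : ‖z - ζ‖ = η) (h2 : ‖z' - ζ‖ = η) (h3 : δ ≤ ‖h z - h z'‖) :
    ENNReal.ofReal (δ ^ 2 / (2 * Real.pi) / η) ≤
      ∫⁻ t in Ioo (-Real.pi) Real.pi, ENNReal.ofReal η * G h (ga ζ η t) := by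
  obtain ⟨a, ha1, ha2, ha3, ha4⟩ := angle ζ hζ η hη z hz h1
  obtain ⟨b, hb1, hb2, hb3, hb4⟩ := angle ζ hζ η hη z' hz' h2
  rw [← ha4, ← hb4] at h3
  rcases le_total a b with hab | hab
  · rw [norm_sub_rev] at h3
    exact arc h hh ζ hζ δ η a b hδ hη hab ha1 hb2 ha3 hb3 h3
  · exact arc h hh ζ hζ δ η b a hδ hη hab hb1 ha2 hb3 ha3 h3

theorem polar (h : ℂ → ℂ) (ζ : ℂ) : ∫⁻ w, G h (ζ - ζ * w) =
    ∫⁻ r in Ioi (0 : ℝ), ∫⁻ t in Ioo (-Real.pi) Real.pi, ENNReal.ofReal r * G h (ga ζ r t) := by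
  rw [← Complex.lintegral_comp_polarCoord_symm, polarCoord_target, Measure.volume_eq_prod,
    ← Measure.prod_restrict]
  have hF : Measurable (fun p : ℝ × ℝ => ENNReal.ofReal p.1 * G h (ga ζ p.1 p.2)) := by
    refine Measurable.mul ?_ ((meas_G h).comp ?_)
    · exact measurable_fst.ennreal_ofReal
    · unfold ga
      refine Continuous.measurable ?_
      fun_prop
  have h1 : (fun p : ℝ × ℝ => ENNReal.ofReal p.1 • G h (ζ - ζ * Complex.polarCoord.symm p)) =
      fun p : ℝ × ℝ => ENNReal.ofReal p.1 * G h (ga ζ p.1 p.2) := by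
    funext p
    rw [smul_eq_mul, Complex.polarCoord_symm_apply]
    unfold ga
    rw [Complex.exp_mul_I]
    push_cast
    rfl
  rw [h1, lintegral_prod _ hF.aemeasurable]

end WLF_

open WLF_ in
theorem wlf_proof (hARA : Stmt_ARA) : Stmt_WLF := by
  intro h R ζ hd hi hb hζ δ η₀ hδ hη₀
  by_contra hcon
  push Not at hcon
  have hpi := Real.pi_pos
  have h1 : ∀ η : ℝ, 0 < η → η < η₀ → ENNReal.ofReal (δ ^ 2 / (2 * Real.pi) / η) ≤
      ∫⁻ t in Ioo (-Real.pi) Real.pi, ENNReal.ofReal η * G h (ga ζ η t) := by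
    intro η h1 h2
    obtain ⟨z, hz, z', hz', e1, e2, e3⟩ := hcon η h1 h2
    exact arc2 h hd ζ hζ δ η hδ h1 z z' hz hz' e1 e2 e3
  have h2 : ∫⁻ η in Ioo 0 η₀, ENNReal.ofReal (δ ^ 2 / (2 * Real.pi) / η) ≤
      ENNReal.ofReal (Real.pi * R ^ 2) := by
    refine le_trans (le_trans (setLIntegral_mono_ae' measurableSet_Ioo
      (Eventually.of_forall fun η hη => h1 η hη.1 hη.2)) (lintegral_mono_set ?_))
      (le_trans (le_of_eq ((polar h ζ).symm.trans (int_G h ζ hζ))) (hARA h R hd hi hb))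
    exact fun η hη => hη.1
  have h3 : IntegrableOn (fun η : ℝ => δ ^ 2 / (2 * Real.pi) / η) (Ioo 0 η₀) volume := by
    refine ⟨(measurable_const.div measurable_id).aestronglyMeasurable, ?_⟩
    rw [hasFiniteIntegral_iff_ofReal]
    · exact lt_of_le_of_lt h2 ENNReal.ofReal_lt_top
    · refine (ae_restrict_iff' measurableSet_Ioo).2 (Eventually.of_forall fun η hη => ?_)
      have := hη.1
      show (0 : ℝ) ≤ δ ^ 2 / (2 * Real.pi) / η
      positivity
  have h4 : IntervalIntegrable (fun η : ℝ => η⁻¹) volume 0 η₀ := by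
    rw [intervalIntegrable_iff_integrableOn_Ioo_of_le hη₀.le]
    have h5 := h3.const_mul ((2 * Real.pi) / δ ^ 2)
    refine h5.congr (Eventually.of_forall fun η => ?_)
    show (2 * Real.pi) / δ ^ 2 * (δ ^ 2 / (2 * Real.pi) / η) = η⁻¹
    field_simp
  rw [intervalIntegrable_inv_iff] at h4
  rcases h4 with h4 | h4
  · exact hη₀.ne h4
  · exact h4 left_mem_uIcc

end Pool.Agent.DBR
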