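import Pool.Agent.DBR.ARA
import Pool.Agent.DBR.WLF
import Pool.Agent.DBR.ACC
import Pool.Agent.DBR.TOP
import Pool.Agent.DBR.HRG
import Pool.Agent.DBR.MON
import Pool.Agent.DBR.HUR
import Pool.Agent.DBR.SYA
import Pool.Agent.DBR.SYT
import Pool.Agent.DBR.SYB
import Pool.Agent.DBR.CHX
import Pool.Agent.DBR.GCF
import Pool.Agent.DBR.GPS
import Pool.Agent.DBR.FLM
import Pool.Agent.DBR.SCH
import Pool.Agent.DBR.FRE
import Pool.Agent.DBR.KIN
import Pool.Agent.DBR.PIC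
import Pool.Agent.DBR.CUT
import Pool.Agent.DBR.STN
import Pool.Agent.DBR.STG
import Pool.Agent.DBR.LOG
import Pool.Agent.DBR.STP
import Pool.Agent.DBR.REC
import Pool.Agent.DBR.DDA
import Pool.Agent.DBR.DSE
import Pool.Agent.DBR.QMO
import Pool.Agent.DBR.RRS
import Pool.Agent.DBR.TTR
import Pool.Agent.DBR.LSE
import Pool.Agent.DBR.CMP
import Pool.Agent.DBR.EXP
import Pool.Agent.DBR.LCB
import Pool.Agent.DBR.LST
import Pool.Agent.DBR.QFM
import Pool.Agent.DBR.WTS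
import Pool.Agent.DBR.TWD
import Pool.Agent.DBR.FDB
import Pool.Agent.DBR.TWP
import Pool.Agent.DBR.GON
import Pool.Agent.DBR.TW1
import Pool.Agent.DBR.MIL
import Pool.Agent.DBR.LM2
import Pool.Agent.DBR.DBB
import Pool.Agent.DBR.RRE
import Pool.Agent.DBR.DU5
import Pool.Agent.DBR.PKB
import Pool.Agent.DBR.DU6
import Pool.Agent.DBR.DS5
import Pool.Agent.DBR.DS6
import Pool.Agent.DBR.DBS
import Pool.Agent.DBR.GRO
import Pool.Agent.DBR.TIL
import Pool.Agent.DBR.PKE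
import Pool.Agent.DBR.ES1
import Pool.Agent.DBR.ES2
import Pool.Agent.DBR.AST
import Pool.Agent.DBR.JTT
import Pool.Agent.DBR.U3C
import Pool.Agent.DBR.L3A
import Pool.Agent.DBR.CAT
import Pool.Agent.DBR.KPW
import Pool.Agent.DBR.PCO
import Pool.Agent.DBR.L3B
import Pool.Agent.DBR.EX1
import Pool.Agent.DBR.ARI
import Pool.Agent.DBR.UPB
import Pool.Agent.DBR.PA2
import Pool.Agent.DBR.U3A
import Pool.Agent.DBR.U3B
import Pool.Agent.DBR.U3D
import Pool.Agent.DBR.ROT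
import Pool.Agent.DBR.N3R
import Pool.Agent.DBR.FIN
import Pool.Agent.DBR.LA3

set_option autoImplicit false

/-!
Assembly of the modules of the squad DBR.
-/

namespace Pool.Agent.DBR

theorem t_ara : Stmt_ARA := ara_proof
theorem t_wlf : Stmt_WLF := wlf_proof t_ara
theorem t_acc : Stmt_ACC := acc_proof
theorem t_top : Stmt_TOP := top_proof
theorem t_hrg : Stmt_HRG := hrg_proof
theorem t_mon : Stmt_MON := mon_proof
theorem t_hur : Stmt_HUR := hur_proof
theorem t_sya : Stmt_SYA := sya_proof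
theorem t_syt : Stmt_SYT := syt_proof
theorem t_syb : Stmt_SYB := syb_proof
theorem t_chx : Stmt_CHX := chx_proof
theorem t_gcf : Stmt_GCF := gcf_proof
theorem t_gps : Stmt_GPS := gps_proof t_sya t_syt t_syb t_chx t_gcf
theorem t_flm : Stmt_FLM := flm_proof t_mon t_hur
theorem t_sch : Stmt_SCH := sch_proof
theorem t_fre : Stmt_FRE := fre_proof t_top t_sch t_wlf t_acc
theorem t_kin : Stmt_KIN := kin_proof
theorem t_pic : Stmt_PIC := pic_proof t_kin
theorem t_cut : Stmt_CUT := cut_proof t_kin t_pic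
theorem t_stn : Stmt_STN := stn_proof t_flm t_fre t_cut
theorem t_stg : Stmt_STG := stg_proof t_stn t_flm
theorem t_log : Stmt_LOG := log_proof
theorem t_stp : Stmt_STP := stp_proof t_stg t_log
theorem t_rec : Stmt_REC := rec_proof t_stp
theorem t_dda : Stmt_DDA := dda_proof
theorem t_dse : Stmt_DSE := dse_proof t_dda
theorem t_qmo : Stmt_QMO := qmo_proof t_hrg
theorem t_rrs : Stmt_RRS := rrs_proof t_qmo
theorem t_ttr : Stmt_TTR := ttr_proof t_qmo
theorem t_lse : Stmt_LSE := lse_proof t_log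
theorem t_cmp : Stmt_CMP := CMP_proof
theorem t_exp : Stmt_EXP := exp_proof
theorem t_lcb : Stmt_LCB := lcb_proof t_lse
theorem t_lst : Stmt_LST := lst_proof t_lse t_cmp t_exp t_lcb t_qmo
theorem t_qfm : Stmt_QFM := qfm_proof
theorem t_wts : Stmt_WTS := wts_proof
theorem t_twd : Stmt_TWD := twd_proof
theorem t_fdb : Stmt_FDB := fdb_proof t_lst t_lcb t_qfm t_hrg t_gps t_wts t_twd t_qmo
theorem t_twp : Stmt_TWP := twp_proof t_wts t_gps
theorem t_gon : Stmt_GON := gon_proof t_chx t_gcf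
theorem t_tw1 : Stmt_TW1 := tw1_proof t_wts t_gon
theorem t_mil : Stmt_MIL := mil_proof t_rec t_fdb t_twp t_tw1 t_lse
theorem t_lm2 : Stmt_LM2 := lm2_proof
theorem t_dbb : Stmt_DBB := dbb_proof t_mil t_lm2 t_lse
theorem t_rre : Stmt_RRE := rre_proof t_qmo
theorem t_du5 : Stmt_DU5 := DU5_proof t_rec t_dse t_rre t_ttr t_dbb t_qmo
theorem t_pkb : Stmt_PKB := pkb_proof t_qmo
theorem t_du6 : Stmt_DU6 := du6_proof t_rec t_dse t_rrs t_ttr t_dbb t_du5 t_pkb t_dda t_qmo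
theorem t_ds5 : Stmt_DS5 := ds5_proof t_du5
theorem t_ds6 : Stmt_DS6 := ds6_proof t_du6
theorem t_dbs : Stmt_DBS := dbs_proof t_dbb
theorem t_gro : Stmt_GRO := gro_proof t_dbs
theorem t_til : Stmt_TIL := til_proof t_kin
theorem t_pke : Stmt_PKE := pke_proof t_kin t_pic
theorem t_es1 : Stmt_ES1 := es1_proof t_ds5 t_ds6 t_gro t_kin
theorem t_es2 : Stmt_ES2 := es2_proof t_ds5 t_ds6 t_gro t_kin t_til t_pke t_es1
theorem t_ast : Stmt_AST := ast_proof t_cmp t_exp t_qmo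
theorem t_jtt : Stmt_JTT := jtt_proof t_rec t_ast t_hrg t_qmo
theorem t_u3c : Stmt_U3C := u3c_proof
theorem t_l3a : Stmt_L3A := l3a_proof
theorem t_cat : Stmt_CAT := cat_proof
theorem t_kpw : Stmt_KPW := kpw_proof
theorem t_pco : Stmt_PCO := pco_proof t_pke t_cat t_kpw t_kin
theorem t_l3b : Stmt_L3B := l3b_proof t_l3a t_pke t_pco t_cmp
theorem t_ex1 : Stmt_EX1 := ex1_proof
theorem t_ari : Stmt_ARI := ARI_proof
theorem t_upb : Stmt_UPB := upb_proof t_es1 t_es2 t_ex1 t_ari t_pco t_dbs t_til t_pke t_kin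
theorem t_pa2 : Stmt_PA2 := pa2_proof t_rec t_ast t_qmo
theorem t_u3a : Stmt_U3A := u3a_proof t_jtt t_pa2
theorem t_u3b : Stmt_U3B := u3b_proof
theorem t_u3d : Stmt_U3D := u3d_proof
theorem t_rot : Stmt_ROT := rot_proof
theorem t_n3r : Stmt_N3R := n3r_proof
theorem t_fin : Stmt_FIN := fin_proof t_upb t_pco t_pke t_rot
theorem t_la3 : Stmt_LA3 := la3_proof t_u3a t_u3b t_u3c t_u3d t_l3a t_l3b t_n3r t_rot

end Pool.Agent.DBR
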