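import Pool.Agent.DBR.Opt

set_option autoImplicit false

/-!
Univalent functions: partial sums of bounded univalent functions, functions which are better than
the function of Pick for small `M`.
-/

namespace Pool.Agent.DBR

open Complex Metric Set Filter MeasureTheory

open scoped Topology ComplexConjugate

open Pool.Agent.PSB (InS coeff psum Lam SelfU)

namespace Neg

/-- The first variation (with the opposite sign). -/
noncomputable def Va (n : ℕ) (M : ℝ) : ℝ :=
  ∑ m ∈ Finset.Icc 1 n,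
    (-1 : ℝ) ^ (m - 1) * (m * catalan m) * ((n + m - 1).choose (2 * m)) / M ^ (m - 1)

/-- The function `1 - z` is in the Carathéodory class. -/
theorem car_one_sub : Car (fun z : ℂ => 1 - z) where
  diff := (differentiable_const _).sub differentiable_id |>.differentiableOn
  re := by
    intro z hz
    rw [mem_ball_zero_iff] at hz
    have := Complex.re_le_norm z
    simp only [Complex.sub_re, Complex.one_re]
    linarith
  zero := by simp

theorem coeff_p (k : ℕ) : coeff (fun z : ℂ => 1 - z) k =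
    if k = 0 then 1 else if k = 1 then -1 else 0 := by
  have h' := coeff_sub (f := fun _ : ℂ => (1 : ℂ)) (g := fun z : ℂ => z) analyticAt_const
    analyticAt_id k
  rw [h', coeff_const]
  have h : coeff (fun z : ℂ => z) k = if k = 1 then 1 else 0 := by
    have := PCO_.coeff_ps (fun z : ℂ => z) k
    rw [← this, PCO_.ps_id, PowerSeries.coeff_X]
  rw [h]
  by_cases h0 : k = 0
  · subst h0
    simp
  · by_cases h1 : k = 1
    · subst h1
      simp
    · simp [h0, h1]

/-- The step map is injective. -/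
theorem om_inj {ε : ℝ} (h0 : 0 < ε) (h1 : ε ≤ 1 / 4) :
    InjOn (om ε (fun z : ℂ => 1 - z)) (ball 0 1) := by
  intro z hz w hw h
  rw [mem_ball_zero_iff] at hz hw
  unfold om at h
  have e1 : ∀ u : ℂ, Complex.exp (-(ε * (1 - u))) = Complex.exp (-ε) * Complex.exp (ε * u) := by
    intro u
    rw [← Complex.exp_add]
    congr 1
    ring
  rw [e1, e1] at h
  have h2 : z * Complex.exp (ε * z) = w * Complex.exp (ε * w) := by
    have h3 : Complex.exp (-ε) ≠ 0 := Complex.exp_ne_zero _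
    have h4 : Complex.exp (-ε) * (z * Complex.exp (ε * z)) =
        Complex.exp (-ε) * (w * Complex.exp (ε * w)) := by
      linear_combination h
    exact mul_left_cancel₀ h3 h4
  -- `z e^{ε(z-w)} = w`
  have h5 : z * Complex.exp (ε * (z - w)) = w := by
    have h6 : Complex.exp (ε * z) = Complex.exp (ε * w) * Complex.exp (ε * (z - w)) := by
      rw [← Complex.exp_add]
      congr 1
      ring
    rw [h6] at h2
    have h7 : Complex.exp (ε * w) ≠ 0 := Complex.exp_ne_zero _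
    refine mul_left_cancel₀ h7 ?_
    linear_combination h2
  have h8 : w - z = z * (Complex.exp (ε * (z - w)) - 1) := by
    linear_combination -h5
  have h9 : ‖(ε : ℂ) * (z - w)‖ ≤ 1 := by
    rw [norm_mul, Complex.norm_real, Real.norm_of_nonneg h0.le]
    have := norm_sub_le z w
    have h10 : ‖z - w‖ ≤ 2 := by linarith
    nlinarith [norm_nonneg (z - w)]
  have h11 := Complex.norm_exp_sub_one_le h9
  have h12 : ‖w - z‖ ≤ 1 / 2 * ‖w - z‖ := by
    calc ‖w - z‖ = ‖z‖ * ‖Complex.exp (ε * (z - w)) - 1‖ := by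
          rw [← norm_mul, ← h8]
      _ ≤ 1 * (2 * ‖(ε : ℂ) * (z - w)‖) :=
          mul_le_mul hz.le h11 (norm_nonneg _) zero_le_one
      _ = 2 * ε * ‖w - z‖ := by
          rw [norm_mul, Complex.norm_real, Real.norm_of_nonneg h0.le, norm_sub_rev]
          ring
      _ ≤ _ := by
          refine mul_le_mul_of_nonneg_right (by linarith) (norm_nonneg _)
  have h13 : ‖w - z‖ = 0 := by
    have := norm_nonneg (w - z)
    linarith
  have h14 := norm_eq_zero.1 h13
  linear_combination -h14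

/-- The varied function. -/
theorem var_inS {M ε : ℝ} (h0 : 0 < ε) (h1 : ε ≤ 1 / 4) {g : ℂ → ℂ}
    (hg : InS (M * Real.exp (-ε)) g) :
    InS M (fun z => Complex.exp ε * g (om ε (fun z : ℂ => 1 - z) z)) := by
  have hmaps : MapsTo (om ε (fun z : ℂ => 1 - z)) (ball 0 1) (ball 0 1) := fun z hz =>
    om_mem h0.le car_one_sub hz
  have hd : DifferentiableOn ℂ (om ε (fun z : ℂ => 1 - z)) (ball 0 1) := om_diff car_one_sub
  refine ⟨(hg.diff.comp hd hmaps).const_mul _, ?_, ?_, ?_, ?_⟩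
  · intro z hz w hw h
    have h2 := mul_left_cancel₀ (Complex.exp_ne_zero _) h
    exact om_inj h0 h1 hz hw (hg.inj (hmaps hz) (hmaps hw) h2)
  · rw [om_zero, hg.zero, mul_zero]
  · have h2 : HasDerivAt (om ε (fun z : ℂ => 1 - z)) (Complex.exp (-ε)) 0 := by
      have h3 := (hd.differentiableAt ball_mem).hasDerivAt
      rwa [om_deriv car_one_sub] at h3
    have h4 : HasDerivAt g 1 (om ε (fun z : ℂ => 1 - z) 0) := by
      rw [om_zero]
      have h5 := (hg.diff.differentiableAt ball_mem).hasDerivAt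
      rwa [hg.one] at h5
    have h6 := (h4.comp 0 h2).const_mul (Complex.exp ε)
    have h7 : Complex.exp ε * (1 * Complex.exp (-ε)) = 1 := by
      rw [one_mul, ← Complex.exp_add, add_neg_cancel, Complex.exp_zero]
    rw [h7] at h6
    exact h6.deriv
  · intro z hz
    rw [norm_mul]
    have h2 := hg.bdd _ (hmaps hz)
    have h3 : ‖Complex.exp (ε : ℂ)‖ = Real.exp ε := by
      rw [Complex.norm_exp, Complex.ofReal_re]
    rw [h3]
    calc Real.exp ε * ‖g (om ε (fun z : ℂ => 1 - z) z)‖ ≤ Real.exp ε * (M * Real.exp (-ε)) :=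
          mul_le_mul_of_nonneg_left h2 (Real.exp_pos _).le
      _ = M * (Real.exp ε * Real.exp (-ε)) := by ring
      _ = M := by rw [← Real.exp_add, add_neg_cancel, Real.exp_zero, mul_one]

theorem sum_p (g : ℕ → ℂ) (k : ℕ) (hk : 1 ≤ k) :
    ∑ j ∈ Finset.Ico 1 k, (j : ℂ) * g j * coeff (fun z : ℂ => 1 - z) (k - j) =
      -(((k - 1 : ℕ) : ℂ) * g (k - 1)) := by
  have h1 : ∀ j ∈ Finset.Ico 1 k, (j : ℂ) * g j * coeff (fun z : ℂ => 1 - z) (k - j) =
      if j = k - 1 then -(((k - 1 : ℕ) : ℂ) * g (k - 1)) else 0 := by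
    intro j hj
    rw [Finset.mem_Ico] at hj
    rw [coeff_p, if_neg (by omega)]
    by_cases h : j = k - 1
    · rw [if_pos (by omega), if_pos h, h]
      ring
    · rw [if_neg (by omega), if_neg h, mul_zero]
  rw [Finset.sum_congr rfl h1, Finset.sum_ite_eq']
  split_ifs with h
  · rfl
  · rw [Finset.mem_Ico] at h
    have h2 : k = 1 := by omega
    subst h2
    simp

/-- Telescoping. -/
theorem tele (g : ℕ → ℂ) (hg : g 0 = 0) (n : ℕ) :
    ∑ k ∈ Finset.Icc 1 n, (((k : ℂ) - 1) * g k - ((k - 1 : ℕ) : ℂ) * g (k - 1)) =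
      n * g n - ∑ k ∈ Finset.range (n + 1), g k := by
  induction n with
  | zero => simp [hg]
  | succ n ih =>
    rw [Finset.sum_Icc_succ_top (by omega), ih, Finset.sum_range_succ (n := n + 1),
      Nat.add_sub_cancel]
    push_cast
    ring

/-- The partial sum of the varied function. -/
theorem var_psum (n : ℕ) (M : ℝ) : ∃ C : ℝ, 0 ≤ C ∧ ∀ ε : ℝ, 0 < ε → ε ≤ 1 / 4 →
    1 ≤ M * Real.exp (-ε) →
    AP n (M * Real.exp (-ε)) * (1 + ε) -
      ε * n * (AP n (M * Real.exp (-ε)) - AP (n - 1) (M * Real.exp (-ε))) - C * ε ^ 2 ≤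
      Lam n M := by
  obtain ⟨C, hC, h⟩ := t_ast n M
  refine ⟨n * C, by positivity, fun ε h0 h1 hM => ?_⟩
  set M' := M * Real.exp (-ε) with hM'
  have hg := (t_pke M' hM).1
  have hf := var_inS (M := M) h0 h1 hg
  set f : ℂ → ℂ := fun z => Complex.exp ε * Pk M' (om ε (fun z : ℂ => 1 - z) z) with hfdef
  have hM1 : M' ≤ M := by
    have hMp : 0 ≤ M := by
      by_contra hneg
      push Not at hneg
      have : M' < 0 := mul_neg_of_neg_of_pos hneg (Real.exp_pos _)
      linarith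
    have : Real.exp (-ε) ≤ 1 := Real.exp_le_one_iff.2 (by linarith)
    rw [hM']
    nlinarith
  have hg' : InS M (Pk M') := inS_mono hg hM1
  have hstep : Step ε f (Pk M') (fun z : ℂ => 1 - z) := ⟨car_one_sub, fun z _ => rfl⟩
  have h2 := FIN_.le_lam hf n (z := 1) norm_one
  have hco : ∀ k, 1 ≤ k → k ≤ n → ‖coeff f k - (coeff (Pk M') k -
      ε * (((k : ℂ) - 1) * coeff (Pk M') k - ((k - 1 : ℕ) : ℂ) * coeff (Pk M') (k - 1)))‖ ≤
      C * ε ^ 2 := by
    intro k hk hkn
    have h3 := h ε f (Pk M') (fun z : ℂ => 1 - z) h0 (by linarith) hf hg' hstep k hk hkn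
    rw [sum_p _ k hk] at h3
    rw [sub_eq_add_neg (((k : ℂ) - 1) * coeff (Pk M') k)]
    exact h3
  have hsum : ∀ F : ℂ → ℂ, F 0 = 0 → psum F n 1 = ∑ k ∈ Finset.Icc 1 n, coeff F k := by
    intro F hF
    unfold psum
    simp only [one_pow, mul_one]
    rw [Finset.range_eq_Ico, Finset.sum_eq_sum_Ico_succ_bot (by omega), DBR.coeff_zero, hF,
      zero_add]
    rfl
  have h0' : coeff (Pk M') 0 = 0 := by rw [DBR.coeff_zero, hg.zero]
  have h4 : ‖psum f n 1 - (psum (Pk M') n 1 -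
      ε * (n * coeff (Pk M') n - psum (Pk M') n 1))‖ ≤ n * C * ε ^ 2 := by
    have h5 : psum (Pk M') n 1 = ∑ k ∈ Finset.range (n + 1), coeff (Pk M') k := by
      unfold psum
      simp
    have h6 : (n * coeff (Pk M') n - psum (Pk M') n 1) =
        ∑ k ∈ Finset.Icc 1 n, (((k : ℂ) - 1) * coeff (Pk M') k -
          ((k - 1 : ℕ) : ℂ) * coeff (Pk M') (k - 1)) := by
      rw [tele _ h0' n, h5]
    rw [h6, hsum f hf.zero, hsum (Pk M') hg.zero, Finset.mul_sum, ← Finset.sum_sub_distrib,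
      ← Finset.sum_sub_distrib]
    refine (norm_sum_le _ _).trans ((Finset.sum_le_sum fun k hk => ?_).trans
      (b := ∑ k ∈ Finset.Icc 1 n, C * ε ^ 2) ?_)
    · rw [Finset.mem_Icc] at hk
      exact hco k hk.1 hk.2
    · rw [Finset.sum_const, Nat.card_Icc, nsmul_eq_mul, Nat.add_sub_cancel]
      refine le_of_eq ?_
      ring
  have h7 : psum (Pk M') n 1 = (AP n M' : ℂ) := t_pco.1 M' n hM
  have h8 : psum (Pk M') (n - 1) 1 = (AP (n - 1) M' : ℂ) := t_pco.1 M' (n - 1) hM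
  have h9 : (n : ℂ) * coeff (Pk M') n = n * ((AP n M' : ℂ) - AP (n - 1) M') := by
    rcases Nat.eq_zero_or_pos n with hn | hn
    · rw [hn]
      simp
    · rw [← h7, ← h8]
      congr 1
      unfold psum
      rw [Finset.sum_range_succ, show n - 1 + 1 = n by omega]
      simp
  rw [h9, h7] at h4
  have h10 : (((AP n M' : ℂ) - ε * (n * ((AP n M' : ℂ) - AP (n - 1) M') - AP n M'))).re =
      AP n M' * (1 + ε) - ε * n * (AP n M' - AP (n - 1) M') := by
    have : (AP n M' : ℂ) - ε * (n * ((AP n M' : ℂ) - AP (n - 1) M') - AP n M') =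
        ((AP n M' * (1 + ε) - ε * n * (AP n M' - AP (n - 1) M') : ℝ) : ℂ) := by
      push_cast
      ring
    rw [this, Complex.ofReal_re]
  have h11 : AP n M' * (1 + ε) - ε * n * (AP n M' - AP (n - 1) M') - ‖psum f n 1‖ ≤
      n * C * ε ^ 2 := by
    rw [← h10]
    have h12 := Complex.re_le_norm (((AP n M' : ℂ) -
      ε * (n * ((AP n M' : ℂ) - AP (n - 1) M') - AP n M')) - psum f n 1)
    rw [norm_sub_rev] at h12
    rw [Complex.sub_re] at h12
    have h13 := Complex.re_le_norm (psum f n 1)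
    linarith
  linarith

/-- The terms of the explicit sum. -/
noncomputable def tt (n m : ℕ) (M : ℝ) : ℝ :=
  (-1 : ℝ) ^ (m - 1) * (catalan m) * ((n + m).choose (2 * m)) / M ^ (m - 1)

theorem ap_exp (n : ℕ) (M ε : ℝ) (hM : M ≠ 0) :
    AP n (M * Real.exp (-ε)) =
      ∑ m ∈ Finset.Icc 1 n, tt n m M * Real.exp (((m - 1 : ℕ) : ℝ) * ε) := by
  unfold AP tt
  refine Finset.sum_congr rfl fun m _ => ?_
  rw [mul_pow, ← Real.exp_nat_mul, Real.exp_nat_mul, Real.exp_nat_mul]
  rw [Real.exp_neg, inv_pow]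
  field_simp

theorem ap_deriv (n : ℕ) (M : ℝ) (hM : M ≠ 0) :
    HasDerivAt (fun ε => AP n (M * Real.exp (-ε)))
      (∑ m ∈ Finset.Icc 1 n, tt n m M * ((m - 1 : ℕ) : ℝ)) 0 := by
  have h1 : (fun ε => AP n (M * Real.exp (-ε))) = fun ε =>
      ∑ m ∈ Finset.Icc 1 n, tt n m M * Real.exp (((m - 1 : ℕ) : ℝ) * ε) := by
    funext ε
    exact ap_exp n M ε hM
  rw [h1]
  refine HasDerivAt.fun_sum fun m _ => ?_
  have h2 : HasDerivAt (fun ε : ℝ => ((m - 1 : ℕ) : ℝ) * ε) ((m - 1 : ℕ) : ℝ) 0 := by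
    simpa using (hasDerivAt_id (0 : ℝ)).const_mul (((m - 1 : ℕ) : ℝ))
  have h3 := h2.exp.const_mul (tt n m M)
  simpa using h3

/-- The identity for the first variation. -/
theorem va_eq (n : ℕ) (M : ℝ) :
    ∑ m ∈ Finset.Icc 1 n, tt n m M * ((m - 1 : ℕ) : ℝ) + AP n M -
      n * (AP n M - AP (n - 1) M) = -Va n M := by
  have h0 : AP (n - 1) M = ∑ m ∈ Finset.Icc 1 n, tt (n - 1) m M := by
    unfold AP
    rcases Nat.eq_zero_or_pos n with hn | hn
    · subst hn
      simp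
    · obtain ⟨k, rfl⟩ := Nat.exists_eq_add_of_le' hn
      rw [Nat.add_sub_cancel, Finset.sum_Icc_succ_top (by omega)]
      have : tt k (k + 1) M = 0 := by
        unfold tt
        rw [Nat.choose_eq_zero_of_lt (by omega)]
        simp
      rw [this, add_zero]
      rfl
  have h1 : AP n M = ∑ m ∈ Finset.Icc 1 n, tt n m M := rfl
  rw [h0, h1]
  unfold Va
  rw [← Finset.sum_add_distrib, ← Finset.sum_sub_distrib, Finset.mul_sum,
    ← Finset.sum_sub_distrib, ← Finset.sum_neg_distrib]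
  refine Finset.sum_congr rfl fun m hm => ?_
  rw [Finset.mem_Icc] at hm
  obtain ⟨k, rfl⟩ := Nat.exists_eq_add_of_le' hm.1
  obtain ⟨d, rfl⟩ := Nat.exists_eq_add_of_le hm.2
  unfold tt
  -- m = k + 1, n = k + 1 + d
  have e1 : k + 1 + d + (k + 1) = (2 * k + 1 + d) + 1 := by ring
  have e2 : 2 * (k + 1) = (2 * k + 1) + 1 := by ring
  have e3 : k + 1 + d - 1 + (k + 1) = 2 * k + 1 + d := by omega
  have e4 : k + 1 + d + (k + 1) - 1 = 2 * k + 1 + d := by omega
  rw [e3, e4, e1, e2, Nat.choose_succ_succ (2 * k + 1 + d) (2 * k + 1), Nat.add_sub_cancel]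
  have h5 : ((2 * k + 1 + d).choose (2 * k + 1 + 1) : ℝ) * (2 * k + 2) =
      ((2 * k + 1 + d).choose (2 * k + 1) : ℝ) * d := by
    have h6 := Nat.choose_succ_right_eq (2 * k + 1 + d) (2 * k + 1)
    rw [Nat.add_sub_cancel_left] at h6
    have h7 : (((2 * k + 1 + d).choose (2 * k + 1 + 1) * (2 * k + 1 + 1) : ℕ) : ℝ) =
      (((2 * k + 1 + d).choose (2 * k + 1) * d : ℕ) : ℝ) := by rw [h6]
    push_cast at h7
    linarith
  push_cast
  rw [← sub_eq_zero]
  have h8 : ((-1 : ℝ) ^ k * (catalan (k + 1) : ℝ) *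
      (((2 * k + 1 + d).choose (2 * k + 1) : ℝ) + ((2 * k + 1 + d).choose (2 * k + 1 + 1) : ℝ)) /
        M ^ k * k +
      (-1 : ℝ) ^ k * (catalan (k + 1) : ℝ) *
      (((2 * k + 1 + d).choose (2 * k + 1) : ℝ) + ((2 * k + 1 + d).choose (2 * k + 1 + 1) : ℝ)) /
        M ^ k -
      ((k : ℝ) + 1 + d) * ((-1 : ℝ) ^ k * (catalan (k + 1) : ℝ) *
      (((2 * k + 1 + d).choose (2 * k + 1) : ℝ) + ((2 * k + 1 + d).choose (2 * k + 1 + 1) : ℝ)) /
        M ^ k - (-1 : ℝ) ^ k * (catalan (k + 1) : ℝ) *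
        ((2 * k + 1 + d).choose (2 * k + 1 + 1) : ℝ) / M ^ k) -
      -((-1 : ℝ) ^ k * (((k : ℝ) + 1) * (catalan (k + 1) : ℝ)) *
        ((2 * k + 1 + d).choose (2 * k + 1 + 1) : ℝ) / M ^ k)) =
      ((-1 : ℝ) ^ k * (catalan (k + 1) : ℝ) / M ^ k) *
        (((2 * k + 1 + d).choose (2 * k + 1 + 1) : ℝ) * (2 * k + 2) -
          ((2 * k + 1 + d).choose (2 * k + 1) : ℝ) * d) := by
    ring
  rw [h8, h5, sub_self, mul_zero]

/-- If the first variation is negative, the function of Pick is not extremal. -/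
theorem lt_lam (n : ℕ) (M : ℝ) (hM : 1 < M) (hV : Va n M < 0) : AP n M < Lam n M := by
  by_contra hcon
  push Not at hcon
  have hM0 : M ≠ 0 := by linarith
  obtain ⟨C, hC, h⟩ := var_psum n M
  set φ : ℝ → ℝ := fun ε => AP n (M * Real.exp (-ε)) * (1 + ε) -
      ε * n * (AP n (M * Real.exp (-ε)) - AP (n - 1) (M * Real.exp (-ε))) with hφ
  have h1 : HasDerivAt φ (-Va n M) 0 := by
    have d1 := ap_deriv n M hM0
    have d2 := ap_deriv (n - 1) M hM0
    have d3 : HasDerivAt (fun ε : ℝ => 1 + ε) 1 0 := by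
      simpa using (hasDerivAt_id (0 : ℝ)).const_add 1
    have d4 : HasDerivAt (fun ε : ℝ => ε * n) (n : ℝ) 0 := by
      simpa using (hasDerivAt_id (0 : ℝ)).mul_const (n : ℝ)
    have d5 := (d1.mul d3).sub (d4.mul (d1.sub d2))
    have e : (∑ m ∈ Finset.Icc 1 n, tt n m M * ((m - 1 : ℕ) : ℝ)) * (1 + 0) +
        AP n (M * Real.exp (-0)) * 1 -
        (n * (AP n (M * Real.exp (-0)) - AP (n - 1) (M * Real.exp (-0))) +
          0 * n * ((∑ m ∈ Finset.Icc 1 n, tt n m M * ((m - 1 : ℕ) : ℝ)) -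
            ∑ m ∈ Finset.Icc 1 (n - 1), tt (n - 1) m M * ((m - 1 : ℕ) : ℝ))) = -Va n M := by
      rw [← va_eq]
      simp only [neg_zero, Real.exp_zero, mul_one]
      ring
    rw [← e]
    exact d5
  have h2 : φ 0 = AP n M := by
    simp [hφ]
  have h3 := hasDerivAt_iff_tendsto_slope.1 h1
  have h4 : Tendsto (slope φ 0) (𝓝[>] 0) (𝓝 (-Va n M)) :=
    h3.mono_left (nhdsWithin_mono _ fun x hx => (mem_compl_singleton_iff.2 (ne_of_gt hx)))
  have h5 : Tendsto (fun ε : ℝ => C * ε) (𝓝[>] 0) (𝓝 0) := by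
    have : Tendsto (fun ε : ℝ => C * ε) (𝓝 0) (𝓝 (C * 0)) := (tendsto_id).const_mul C
    rw [mul_zero] at this
    exact this.mono_left nhdsWithin_le_nhds
  have h6 : -Va n M ≤ 0 := by
    refine le_of_tendsto_of_tendsto h4 h5 ?_
    have h7 : ∀ᶠ ε : ℝ in 𝓝[>] 0, 0 < ε := self_mem_nhdsWithin
    have h8 : ∀ᶠ ε : ℝ in 𝓝[>] 0, ε < 1 / 4 :=
      nhdsWithin_le_nhds (Iio_mem_nhds (by norm_num))
    have h9 : ∀ᶠ ε : ℝ in 𝓝[>] 0, ε < Real.log M :=
      nhdsWithin_le_nhds (Iio_mem_nhds (Real.log_pos hM))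
    filter_upwards [h7, h8, h9] with ε e1 e2 e3
    have e4 : 1 ≤ M * Real.exp (-ε) := by
      have e5 : Real.exp ε ≤ M := by
        rw [← Real.exp_log (by linarith : 0 < M)]
        exact Real.exp_le_exp.2 e3.le
      have e6 : Real.exp ε * Real.exp (-ε) = 1 := by
        rw [← Real.exp_add, add_neg_cancel, Real.exp_zero]
      have := mul_le_mul_of_nonneg_right e5 (Real.exp_pos (-ε)).le
      linarith
    have e7 := h ε e1 e2.le e4
    have e8 : φ ε - C * ε ^ 2 ≤ φ 0 := by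
      rw [h2]
      exact e7.trans hcon
    rw [slope_def_field, sub_zero, div_le_iff₀ e1]
    nlinarith
  linarith

/-- The absolute values of the terms of the first variation. -/
noncomputable def ww (n m : ℕ) (M : ℝ) : ℝ :=
  (m * catalan m) * ((n + m - 1).choose (2 * m)) / M ^ (m - 1)

theorem ww_nonneg (n m : ℕ) {M : ℝ} (hM : 0 < M) : 0 ≤ ww n m M := by
  unfold ww
  positivity

theorem ww_zero (n m : ℕ) (M : ℝ) (h : n ≤ m) (hm : 1 ≤ m) : ww n m M = 0 := by
  unfold ww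
  rw [Nat.choose_eq_zero_of_lt (by omega)]
  simp

theorem ww_rec (n m : ℕ) (hn : 1 ≤ n) (hm : 1 ≤ m) (M : ℝ)
    (hM : M = (2 * (n : ℝ) - 1) ^ 2 / 28) :
    ww n (m + 1) M * (m * (m + 2)) =
      ww n m M * (7 * (1 - ((m : ℝ) + 1 / 2) ^ 2 * (4 / (2 * (n : ℝ) - 1) ^ 2))) := by
  rcases Nat.lt_or_ge m n with h | h
  · have hn1 : (1 : ℝ) ≤ n := by exact_mod_cast hn
    have hN : (2 * (n : ℝ) - 1) ≠ 0 := by
      intro h0
      linarith
    have hM0 : M ≠ 0 := by
      rw [hM]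
      positivity
    obtain ⟨d, rfl⟩ := Nat.exists_eq_add_of_lt h
    obtain ⟨k, rfl⟩ := Nat.exists_eq_add_of_le' hm
    -- m = k + 1, n = k + 1 + d + 1
    have hcat : ((k : ℝ) + 3) * (catalan (k + 2) : ℝ) =
        2 * (2 * k + 3) * (catalan (k + 1) : ℝ) := by
      have h1 := succ_mul_catalan_eq_centralBinom (k + 2)
      have h2 := succ_mul_catalan_eq_centralBinom (k + 1)
      have h3 := Nat.succ_mul_centralBinom_succ (k + 1)
      have h4 : (k + 2) * ((k + 3) * catalan (k + 2)) =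
          (k + 2) * ((2 * (2 * (k + 1) + 1)) * catalan (k + 1)) := by
        rw [show k + 2 + 1 = k + 3 by ring] at h1
        rw [show k + 1 + 1 = k + 2 by ring] at h2 h3
        rw [h1, h3, ← h2]
        ring
      have h5 := Nat.eq_of_mul_eq_mul_left (by omega) h4
      have h6 : (((k + 3) * catalan (k + 2) : ℕ) : ℝ) =
        (((2 * (2 * (k + 1) + 1)) * catalan (k + 1) : ℕ) : ℝ) := by rw [h5]
      push_cast at h6
      linarith
    have hch : ((2 * k + d + 3).choose (2 * k + 4) : ℝ) * ((2 * k + 4) * (2 * k + 3)) =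
        ((2 * k + d + 2).choose (2 * k + 2) : ℝ) * ((2 * k + d + 3) * d) := by
      have h1 := Nat.add_one_mul_choose_eq (2 * k + d + 2) (2 * k + 2)
      have h2 := Nat.choose_succ_right_eq (2 * k + d + 3) (2 * k + 3)
      rw [show 2 * k + d + 3 - (2 * k + 3) = d by omega] at h2
      have h3 : (((2 * k + d + 3).choose (2 * k + 4) * (2 * k + 4) * (2 * k + 3) : ℕ) : ℝ) =
          ((((2 * k + d + 2 + 1) * (2 * k + d + 2).choose (2 * k + 2)) * d : ℕ) : ℝ) := by
        rw [h1]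
        rw [show 2 * k + 3 + 1 = 2 * k + 4 by ring] at h2
        rw [h2]
        push_cast
        ring
      push_cast at h3
      linarith
    unfold ww
    have e1 : k + 1 + d + 1 + (k + 1 + 1) - 1 = 2 * k + d + 3 := by omega
    have e2 : 2 * (k + 1 + 1) = 2 * k + 4 := by ring
    have e3 : k + 1 + d + 1 + (k + 1) - 1 = 2 * k + d + 2 := by omega
    have e4 : 2 * (k + 1) = 2 * k + 2 := by ring
    rw [e1, e2, e3, e4, Nat.add_sub_cancel, Nat.add_sub_cancel, pow_succ]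
    have e5 : (7 * (1 - (((k + 1 : ℕ) : ℝ) + 1 / 2) ^ 2 *
        (4 / (2 * ((k + 1 + d + 1 : ℕ) : ℝ) - 1) ^ 2))) = (2 * k + d + 3) * d / M := by
      rw [hM]
      field_simp
      push_cast
      ring
    rw [e5]
    have hMk : M ^ k ≠ 0 := pow_ne_zero _ hM0
    have h7 : (2 * (k : ℝ) + 4) * (2 * k + 3) ≠ 0 := by positivity
    have h8 : ((2 * k + d + 3).choose (2 * k + 4) : ℝ) =
        ((2 * k + d + 2).choose (2 * k + 2) : ℝ) * ((2 * k + d + 3) * d) /
          ((2 * k + 4) * (2 * k + 3)) := by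
      rw [eq_div_iff h7]
      exact hch
    have h9 : (catalan (k + 1 + 1) : ℝ) = 2 * (2 * k + 3) * (catalan (k + 1) : ℝ) / (k + 3) := by
      rw [eq_div_iff (by positivity), mul_comm]
      exact hcat
    rw [h8, h9]
    push_cast
    field_simp
    ring
  · rw [ww_zero n m M h hm, ww_zero n (m + 1) M (by omega) (by omega)]
    ring

theorem ww_anti (n m : ℕ) (hn : 1 ≤ n) (hm : 2 ≤ m) (M : ℝ)
    (hM : M = (2 * (n : ℝ) - 1) ^ 2 / 28) : ww n (m + 1) M ≤ ww n m M := by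
  have hn1 : (1 : ℝ) ≤ n := by exact_mod_cast hn
  have hM0 : 0 < M := by
    rw [hM]
    have : 0 < 2 * (n : ℝ) - 1 := by linarith
    positivity
  have h1 := ww_rec n m hn (by omega) M hM
  have h2 : (2 : ℝ) ≤ m := by exact_mod_cast hm
  have h3 := ww_nonneg n m hM0
  have h4 := ww_nonneg n (m + 1) hM0
  have h5 : ww n m M * (7 * (1 - ((m : ℝ) + 1 / 2) ^ 2 * (4 / (2 * (n : ℝ) - 1) ^ 2))) ≤
      ww n m M * 7 := by
    refine mul_le_mul_of_nonneg_left ?_ h3
    have : 0 ≤ ((m : ℝ) + 1 / 2) ^ 2 * (4 / (2 * (n : ℝ) - 1) ^ 2) := by positivity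
    linarith
  have h6 : (8 : ℝ) ≤ m * (m + 2) := by nlinarith
  nlinarith [mul_le_mul_of_nonneg_left h6 h4]

theorem tail_le (n : ℕ) (hn : 1 ≤ n) (M : ℝ) (hM : M = (2 * (n : ℝ) - 1) ^ 2 / 28) (K : ℕ)
    (hK : 8 ≤ K) :
    (Even K → ∑ m ∈ Finset.Icc 8 K, (-1 : ℝ) ^ (m - 1) * ww n m M ≤ -ww n K M) ∧
    (Odd K → ∑ m ∈ Finset.Icc 8 K, (-1 : ℝ) ^ (m - 1) * ww n m M ≤ 0) := by
  induction K, hK using Nat.le_induction with
  | base =>
    constructor
    · intro _
      rw [Finset.Icc_self, Finset.sum_singleton]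
      norm_num
    · intro h
      exact absurd h (by decide)
  | succ K hK ih =>
    rw [Finset.sum_Icc_succ_top (by omega), Nat.add_sub_cancel]
    constructor
    · intro h
      have h1 : Odd K := by
        rcases Nat.even_or_odd K with h2 | h2
        · exact absurd h (by simpa [Nat.even_add_one] using h2)
        · exact h2
      have h3 := ih.2 h1
      rw [h1.neg_one_pow]
      linarith
    · intro h
      have h1 : Even K := by
        rcases Nat.even_or_odd K with h2 | h2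
        · exact h2
        · exact absurd h (by simpa [Nat.odd_add_one] using h2)
      have h3 := ih.1 h1
      rw [h1.neg_one_pow]
      have h4 := ww_anti n K hn (by omega) M hM
      linarith

theorem poly_neg (v : ℝ) (h0 : 0 ≤ v) (h1 : v ≤ 4 / 49) :
    1 - 7 / 3 * (1 - 9 / 4 * v) * (1 - 7 / 8 * (1 - 25 / 4 * v) * (1 - 7 / 15 * (1 - 49 / 4 * v) *
      (1 - 7 / 24 * (1 - 81 / 4 * v) * (1 - 1 / 5 * (1 - 121 / 4 * v) *
        (1 - 7 / 48 * (1 - 169 / 4 * v)))))) < 0 := by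
  have e : 1 - 7 / 3 * (1 - 9 / 4 * v) * (1 - 7 / 8 * (1 - 25 / 4 * v) *
      (1 - 7 / 15 * (1 - 49 / 4 * v) *
      (1 - 7 / 24 * (1 - 81 / 4 * v) * (1 - 1 / 5 * (1 - 121 / 4 * v) *
        (1 - 7 / 48 * (1 - 169 / 4 * v)))))) =
      (-29081/2073600) + v * ((-2851709/4147200) + (62785219/11059200) * v) + v ^ 3 * ((-8724492091/33177600) + (1897782306889/530841600) * v) + v ^ 5 * ((-2685072924821/117964800) + (151565677263/4194304) * v) := by
    ring
  rw [e]
  have h2 : v ^ 5 * ((-2685072924821/117964800) + (151565677263/4194304) * v) ≤ 0 := by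
    refine mul_nonpos_of_nonneg_of_nonpos (by positivity) ?_
    linarith
  have h3 : v ^ 3 * ((-8724492091/33177600) + (1897782306889/530841600) * v) ≤ v ^ 3 * 29 := by
    refine mul_le_mul_of_nonneg_left ?_ (by positivity)
    linarith
  have h4 : v ^ 3 * 29 ≤ v * (29 * (4 / 49) ^ 2) := by
    have h5 : v ^ 2 ≤ (4 / 49) ^ 2 := by nlinarith
    have h6 := mul_le_mul_of_nonneg_left h5 h0
    nlinarith
  have h5 : v * ((-2851709/4147200) + (62785219/11059200) * v) ≤ v * (-22 / 100) := by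
    refine mul_le_mul_of_nonneg_left ?_ h0
    linarith
  nlinarith

/-- The first variation is negative for `M = (2n-1)^2/28`. -/
theorem va_neg (n : ℕ) (hn : 4 ≤ n) : Va n ((2 * (n : ℝ) - 1) ^ 2 / 28) < 0 := by
  obtain ⟨M, hM⟩ : ∃ M, M = (2 * (n : ℝ) - 1) ^ 2 / 28 := ⟨_, rfl⟩
  rw [← hM]
  have hn1 : (4 : ℝ) ≤ n := by exact_mod_cast hn
  have hM0 : 0 < M := by
    rw [hM]
    have : 0 < 2 * (n : ℝ) - 1 := by linarith
    positivity
  have h1 : Va n M = ∑ m ∈ Finset.Icc 1 (n + 7), (-1 : ℝ) ^ (m - 1) * ww n m M := by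
    unfold Va
    have h2 : ∑ m ∈ Finset.Icc 1 (n + 7), (-1 : ℝ) ^ (m - 1) * ww n m M =
        ∑ m ∈ Finset.Icc 1 n, (-1 : ℝ) ^ (m - 1) * ww n m M := by
      symm
      refine Finset.sum_subset (fun m hm => ?_) fun m hm hm' => ?_
      · rw [Finset.mem_Icc] at *
        omega
      · rw [Finset.mem_Icc] at hm hm'
        rw [ww_zero n m M (by omega) hm.1, mul_zero]
    rw [h2]
    refine Finset.sum_congr rfl fun m _ => ?_
    unfold ww
    ring
  have h3 : ∑ m ∈ Finset.Icc 1 (n + 7), (-1 : ℝ) ^ (m - 1) * ww n m M =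
      (∑ m ∈ Finset.Icc 1 7, (-1 : ℝ) ^ (m - 1) * ww n m M) +
      ∑ m ∈ Finset.Icc 8 (n + 7), (-1 : ℝ) ^ (m - 1) * ww n m M := by
    rw [← Finset.sum_union]
    · refine Finset.sum_congr ?_ fun _ _ => rfl
      ext m
      simp only [Finset.mem_Icc, Finset.mem_union]
      omega
    · rw [Finset.disjoint_left]
      intro m hm hm'
      rw [Finset.mem_Icc] at *
      omega
  have h4 : ∑ m ∈ Finset.Icc 8 (n + 7), (-1 : ℝ) ^ (m - 1) * ww n m M ≤ 0 := by
    have h5 := tail_le n (by omega) M hM (n + 7) (by omega)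
    rcases Nat.even_or_odd (n + 7) with h6 | h6
    · have := ww_nonneg n (n + 7) hM0
      linarith [h5.1 h6]
    · exact h5.2 h6
  obtain ⟨v, hv⟩ : ∃ v : ℝ, v = 4 / (2 * (n : ℝ) - 1) ^ 2 := ⟨_, rfl⟩
  have hv0 : 0 ≤ v := by
    rw [hv]
    positivity
  have hv1 : v ≤ 4 / 49 := by
    rw [hv]
    refine div_le_div_of_nonneg_left (by norm_num) (by norm_num) ?_
    nlinarith
  have r1 := ww_rec n 1 (by omega) le_rfl M hM
  have r2 := ww_rec n 2 (by omega) (by norm_num) M hM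
  have r3 := ww_rec n 3 (by omega) (by norm_num) M hM
  have r4 := ww_rec n 4 (by omega) (by norm_num) M hM
  have r5 := ww_rec n 5 (by omega) (by norm_num) M hM
  have r6 := ww_rec n 6 (by omega) (by norm_num) M hM
  rw [← hv] at r1 r2 r3 r4 r5 r6
  norm_num at r1 r2 r3 r4 r5 r6
  have hw1 : 0 < ww n 1 M := by
    unfold ww
    rw [catalan_one, Nat.add_sub_cancel]
    have : 0 < n.choose 2 := Nat.choose_pos (by omega)
    have h' : (0 : ℝ) < (n.choose 2 : ℝ) := by exact_mod_cast this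
    simp only [Nat.sub_self, pow_zero, div_one, mul_one, Nat.cast_one, one_mul]
    exact h'
  have q2 : ww n 2 M = ww n 1 M * (7 / 3 * (1 - 9 / 4 * v)) := by linarith
  have q3 : ww n 3 M = ww n 2 M * (7 / 8 * (1 - 25 / 4 * v)) := by linarith
  have q4 : ww n 4 M = ww n 3 M * (7 / 15 * (1 - 49 / 4 * v)) := by linarith
  have q5 : ww n 5 M = ww n 4 M * (7 / 24 * (1 - 81 / 4 * v)) := by linarith
  have q6 : ww n 6 M = ww n 5 M * (1 / 5 * (1 - 121 / 4 * v)) := by linarith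
  have q7 : ww n 7 M = ww n 6 M * (7 / 48 * (1 - 169 / 4 * v)) := by linarith
  have h7 : ∑ m ∈ Finset.Icc 1 7, (-1 : ℝ) ^ (m - 1) * ww n m M = ww n 1 M *
      (1 - 7 / 3 * (1 - 9 / 4 * v) * (1 - 7 / 8 * (1 - 25 / 4 * v) *
      (1 - 7 / 15 * (1 - 49 / 4 * v) * (1 - 7 / 24 * (1 - 81 / 4 * v) *
      (1 - 1 / 5 * (1 - 121 / 4 * v) * (1 - 7 / 48 * (1 - 169 / 4 * v))))))) := by
    rw [show Finset.Icc 1 7 = {1, 2, 3, 4, 5, 6, 7} by rfl]
    rw [Finset.sum_insert (by decide), Finset.sum_insert (by decide),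
      Finset.sum_insert (by decide), Finset.sum_insert (by decide),
      Finset.sum_insert (by decide), Finset.sum_insert (by decide), Finset.sum_singleton]
    norm_num
    rw [q7, q6, q5, q4, q3, q2]
    ring
  have h8 := mul_neg_of_pos_of_neg hw1 (poly_neg v hv0 hv1)
  rw [← h7] at h8
  linarith

/-- Failure of the formula for `M = (2n-1)^2/28`. -/
theorem fails (n : ℕ) (hn : 4 ≤ n) :
    AP n ((2 * (n : ℝ) - 1) ^ 2 / 28) < Lam n ((2 * (n : ℝ) - 1) ^ 2 / 28) := by
  refine lt_lam n _ ?_ (va_neg n hn)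
  have hn1 : (4 : ℝ) ≤ n := by exact_mod_cast hn
  rw [lt_div_iff₀ (by norm_num)]
  nlinarith

end Neg

end Pool.Agent.DBR
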