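import Pool.Agent.DBR.Main

set_option autoImplicit false

/-!
Univalent functions: partial sums of bounded univalent functions, the range `M ≥ (5/2) n^2`.
Everything follows from the inequality of de Branges for `til M f` by elementary estimates for
powers of power series.
-/

namespace Pool.Agent.DBR

open Complex Metric Set Filter MeasureTheory

open scoped Topology ComplexConjugate

open Pool.Agent.PSB (InS coeff psum Lam SelfU)

namespace Opt

open PCO_ PowerSeries

/-- The real Koebe series. -/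
noncomputable def Kr : PowerSeries ℝ := PowerSeries.mk fun k => (k : ℝ)

/-- Coefficients of powers of the Koebe series. -/
noncomputable def ka (m k : ℕ) : ℝ := PowerSeries.coeff k (Kr ^ m)

theorem ka_nonneg (m k : ℕ) : 0 ≤ ka m k := by
  induction m generalizing k with
  | zero =>
    unfold ka
    rw [pow_zero, PowerSeries.coeff_one]
    split_ifs <;> norm_num
  | succ m ih =>
    unfold ka
    rw [pow_succ, PowerSeries.coeff_mul]
    refine Finset.sum_nonneg fun ij _ => mul_nonneg (ih _) ?_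
    simp [Kr]

theorem ka_one (k : ℕ) : ka 1 k = k := by
  simp [ka, Kr]

theorem ka_succ (m k : ℕ) :
    ka (m + 1) k = ∑ ij ∈ Finset.HasAntidiagonal.antidiagonal k, (ij.1 : ℝ) * ka m ij.2 := by
  unfold ka
  rw [pow_succ', PowerSeries.coeff_mul]
  refine Finset.sum_congr rfl fun ij _ => ?_
  simp [Kr]

theorem kr_map : PowerSeries.map Complex.ofRealHom Kr = ps Kb := by
  ext k
  rw [PowerSeries.coeff_map, coeff_ps, kb_coeff t_kpw t_kin]
  simp [Kr]

theorem ka_eq {m : ℕ} (hm : 1 ≤ m) (k : ℕ) : ka m k = ((k + m - 1).choose (2 * m - 1) : ℕ) := by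
  have h := t_kpw (ps Kb) (kb_series t_kin) m k hm
  rw [← kr_map, ← map_pow, PowerSeries.coeff_map] at h
  have h2 : ((ka m k : ℝ) : ℂ) = (((k + m - 1).choose (2 * m - 1) : ℕ) : ℝ) := by
    rw [Complex.ofReal_natCast]
    exact h
  exact_mod_cast h2

theorem ka_sum {m : ℕ} (hm : 1 ≤ m) (n : ℕ) :
    ∑ k ∈ Finset.range (n + 1), ka m k = ((n + m).choose (2 * m) : ℕ) := by
  rw [← hockey n m hm]
  push_cast
  have h1 : ∑ k ∈ Finset.range (n + 1), ka m k =
      ∑ k ∈ Finset.range (n + 1) with m ≤ k, ka m k := by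
    rw [Finset.sum_filter]
    refine Finset.sum_congr rfl fun k _ => ?_
    split_ifs with h
    · rfl
    · rw [ka_eq hm, Nat.choose_eq_zero_of_lt (by omega), Nat.cast_zero]
  rw [h1]
  refine Finset.sum_congr ?_ fun k _ => ka_eq hm k
  ext k
  simp only [Finset.mem_Icc, Finset.mem_filter, Finset.mem_range]
  omega

section Seq

variable {b : ℕ → ℂ}

/-- Coefficients of powers of the series with coefficients `b`. -/
noncomputable def B (b : ℕ → ℂ) (m k : ℕ) : ℂ := PowerSeries.coeff k ((PowerSeries.mk b) ^ m)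

theorem B_one (b : ℕ → ℂ) (k : ℕ) : B b 1 k = b k := by
  simp [B]

theorem B_succ (b : ℕ → ℂ) (m k : ℕ) :
    B b (m + 1) k = ∑ ij ∈ Finset.HasAntidiagonal.antidiagonal k, b ij.1 * B b m ij.2 := by
  unfold B
  rw [pow_succ', PowerSeries.coeff_mul]
  refine Finset.sum_congr rfl fun ij _ => ?_
  simp

theorem norm_B_le (hb : ∀ k, ‖b k‖ ≤ k) (m k : ℕ) : ‖B b m k‖ ≤ ka m k := by
  induction m generalizing k with
  | zero =>
    unfold B ka
    rw [pow_zero, pow_zero, PowerSeries.coeff_one, PowerSeries.coeff_one]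
    split_ifs <;> simp
  | succ m ih =>
    rw [B_succ, ka_succ]
    refine (norm_sum_le _ _).trans (Finset.sum_le_sum fun ij _ => ?_)
    rw [norm_mul]
    exact mul_le_mul (hb _) (ih _) (norm_nonneg _) (Nat.cast_nonneg _)

/-- The deficiency of the real part. -/
noncomputable def De (b : ℕ → ℂ) (m k : ℕ) : ℝ := ka m k - (B b m k).re

theorem De_nonneg (hb : ∀ k, ‖b k‖ ≤ k) (m k : ℕ) : 0 ≤ De b m k := by
  have h := (Complex.re_le_norm (B b m k)).trans (norm_B_le hb m k)
  unfold De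
  linarith

theorem sq_le_aux {w : ℂ} {κ : ℝ} (h : ‖w‖ ≤ κ) : ‖w - κ‖ ^ 2 ≤ 2 * κ * (κ - w.re) := by
  have h0 : 0 ≤ κ := (norm_nonneg _).trans h
  have h1 : ‖w‖ ^ 2 ≤ κ ^ 2 := by
    have := norm_nonneg w
    nlinarith
  have h2 : ‖w - κ‖ ^ 2 = ‖w‖ ^ 2 - 2 * κ * w.re + κ ^ 2 := by
    rw [← Complex.normSq_eq_norm_sq, ← Complex.normSq_eq_norm_sq, Complex.normSq_apply,
      Complex.normSq_apply]
    simp
    ring
  nlinarith

/-- The two-term inequality: `κ λ - Re (u v) ≤ (1 + s) κ (λ - Re v) + (1 + 1/s) λ (κ - Re u)`. -/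
theorem two_term {u v : ℂ} {κ l s : ℝ} (hu : ‖u‖ ≤ κ) (hv : ‖v‖ ≤ l) (hs : 0 < s) :
    κ * l - (u * v).re ≤ (1 + s) * (κ * (l - v.re)) + (1 + 1 / s) * (l * (κ - u.re)) := by
  have hκ : 0 ≤ κ := (norm_nonneg _).trans hu
  have hl : 0 ≤ l := (norm_nonneg _).trans hv
  have h1 := sq_le_aux hu
  have h2 := sq_le_aux hv
  have e : κ * l - (u * v).re = κ * (l - v.re) + l * (κ - u.re) - ((u - κ) * (v - l)).re := by
    simp only [Complex.mul_re, Complex.sub_re, Complex.sub_im, Complex.ofReal_re,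
      Complex.ofReal_im]
    ring
  have h3 : -((u - κ) * (v - l)).re ≤ ‖u - κ‖ * ‖v - l‖ := by
    have := Complex.abs_re_le_norm ((u - κ) * (v - l))
    rw [norm_mul] at this
    exact (neg_le_abs _).trans this
  -- `‖u-κ‖ ‖v-l‖ ≤ s κ (l - Re v) + (1/s) l (κ - Re u)`
  have h4 : ‖u - κ‖ * ‖v - l‖ ≤ s * (κ * (l - v.re)) + 1 / s * (l * (κ - u.re)) := by
    have hp : 0 ≤ κ * (l - v.re) :=
      mul_nonneg hκ (sub_nonneg.2 ((Complex.re_le_norm v).trans hv))
    have hq : 0 ≤ l * (κ - u.re) :=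
      mul_nonneg hl (sub_nonneg.2 ((Complex.re_le_norm u).trans hu))
    have h5 : (‖u - κ‖ * ‖v - l‖) ^ 2 ≤ 4 * (κ * (l - v.re)) * (l * (κ - u.re)) := by
      rw [mul_pow]
      have := mul_le_mul h1 h2 (sq_nonneg _) ((sq_nonneg _).trans h1)
      refine this.trans (le_of_eq ?_)
      ring
    have h6 : 4 * (κ * (l - v.re)) * (l * (κ - u.re)) ≤
        (s * (κ * (l - v.re)) + 1 / s * (l * (κ - u.re))) ^ 2 := by
      have h7 : 0 ≤ (s * (κ * (l - v.re)) - 1 / s * (l * (κ - u.re))) ^ 2 := sq_nonneg _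
      have h8 : s * (1 / s) = 1 := by field_simp
      nlinarith [h7, h8, mul_comm s (1 / s)]
    have h9 : 0 ≤ s * (κ * (l - v.re)) + 1 / s * (l * (κ - u.re)) := by positivity
    exact abs_le_of_sq_le_sq' (h5.trans h6) h9 |>.2
  rw [e]
  linarith [h3, h4]

/-- The series of deficiencies. -/
noncomputable def Ds (b : ℕ → ℂ) : PowerSeries ℝ := PowerSeries.mk fun k => De b 1 k

theorem De_le (hb : ∀ k, ‖b k‖ ≤ k) (m : ℕ) (hm : 1 ≤ m) (k : ℕ) :
    De b m k ≤ (m : ℝ) ^ 2 * PowerSeries.coeff k (Kr ^ (m - 1) * Ds b) := by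
  induction m, hm using Nat.le_induction generalizing k with
  | base => simp [Ds]
  | succ m hm ih =>
    have hm0 : (0 : ℝ) < m := by exact_mod_cast hm
    have h1 : De b (m + 1) k = ∑ ij ∈ Finset.HasAntidiagonal.antidiagonal k,
        ((ij.1 : ℝ) * ka m ij.2 - (b ij.1 * B b m ij.2).re) := by
      unfold De
      rw [ka_succ, B_succ, Complex.re_sum, Finset.sum_sub_distrib]
    have h2 : ∀ ij ∈ Finset.HasAntidiagonal.antidiagonal k,
        (ij.1 : ℝ) * ka m ij.2 - (b ij.1 * B b m ij.2).re ≤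
        (1 + 1 / (m : ℝ)) * ((m : ℝ) ^ 2 *
          (ij.1 * PowerSeries.coeff ij.2 (Kr ^ (m - 1) * Ds b))) +
        (1 + m) * (ka m ij.2 * De b 1 ij.1) := by
      intro ij _
      have h3 := two_term (s := 1 / (m : ℝ)) (hb ij.1) (norm_B_le hb m ij.2) (by positivity)
      rw [one_div_one_div] at h3
      refine h3.trans (add_le_add ?_ ?_)
      · refine mul_le_mul_of_nonneg_left ?_ (by positivity)
        have h4 := ih ij.2
        have h5 : (0 : ℝ) ≤ ij.1 := Nat.cast_nonneg _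
        have h6 := mul_le_mul_of_nonneg_left h4 h5
        unfold De at h6
        refine h6.trans (le_of_eq ?_)
        ring
      · refine le_of_eq ?_
        unfold De
        rw [ka_one, B_one]
    rw [h1]
    refine (Finset.sum_le_sum h2).trans (le_of_eq ?_)
    rw [Finset.sum_add_distrib, ← Finset.mul_sum, ← Finset.mul_sum, ← Finset.mul_sum]
    have h7 : ∑ ij ∈ Finset.HasAntidiagonal.antidiagonal k,
        (ij.1 : ℝ) * PowerSeries.coeff ij.2 (Kr ^ (m - 1) * Ds b) =
        PowerSeries.coeff k (Kr ^ m * Ds b) := by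
      obtain ⟨j, rfl⟩ := Nat.exists_eq_add_of_le' hm
      rw [Nat.add_sub_cancel, pow_succ', mul_assoc, PowerSeries.coeff_mul]
      refine Finset.sum_congr rfl fun ij _ => ?_
      simp [Kr]
    have h8 : ∑ ij ∈ Finset.HasAntidiagonal.antidiagonal k, ka m ij.2 * De b 1 ij.1 =
        PowerSeries.coeff k (Kr ^ m * Ds b) := by
      rw [mul_comm (Kr ^ m), PowerSeries.coeff_mul]
      refine Finset.sum_congr rfl fun ij _ => ?_
      rw [mul_comm]
      simp [Ds, ka]
    rw [h7, h8, Nat.add_sub_cancel]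
    push_cast
    field_simp
    ring

theorem De_zero (hb0 : b 0 = 0) : De b 1 0 = 0 := by
  unfold De
  rw [ka_one, B_one, hb0]
  simp

/-- The sum of the deficiencies of the `m`-th power. -/
theorem sum_De_le (hb : ∀ k, ‖b k‖ ≤ k) (m : ℕ) (hm : 2 ≤ m) (n : ℕ) (hn : 1 ≤ n) :
    ∑ k ∈ Finset.range (n + 1), De b m k ≤
      (m : ℝ) ^ 2 * ((n + m - 2).choose (2 * m - 2) : ℕ) *
        ∑ k ∈ Finset.range (n + 1), De b 1 k := by
  have hb0 : b 0 = 0 := by
    have := hb 0
    simpa using this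
  have h0 := De_zero hb0
  have h1 : ∑ k ∈ Finset.range (n + 1), De b m k ≤ (m : ℝ) ^ 2 *
      ∑ k ∈ Finset.range (n + 1), ∑ ij ∈ Finset.HasAntidiagonal.antidiagonal k, ka (m - 1) ij.1 * De b 1 ij.2 := by
    rw [Finset.mul_sum]
    refine Finset.sum_le_sum fun k _ => ?_
    refine (De_le hb m (by omega) k).trans (le_of_eq ?_)
    rw [PowerSeries.coeff_mul]
    simp [Ds, ka]
  have h2 : ∑ k ∈ Finset.range (n + 1), ∑ ij ∈ Finset.HasAntidiagonal.antidiagonal k,
      ka (m - 1) ij.1 * De b 1 ij.2 ≤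
      ∑ i ∈ Finset.range n, ∑ j ∈ Finset.range (n + 1), ka (m - 1) i * De b 1 j := by
    rw [← Finset.sum_product', Finset.sum_sigma']
    have h3 : ∑ x ∈ (Finset.range (n + 1)).sigma Finset.HasAntidiagonal.antidiagonal,
        ka (m - 1) x.2.1 * De b 1 x.2.2 =
        ∑ x ∈ ((Finset.range (n + 1)).sigma Finset.HasAntidiagonal.antidiagonal).filter (fun x => x.2.2 ≠ 0),
        ka (m - 1) x.2.1 * De b 1 x.2.2 := by
      rw [Finset.sum_filter]
      refine Finset.sum_congr rfl fun x _ => ?_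
      split_ifs with h
      · rfl
      · rw [not_not] at h
        rw [h, h0, mul_zero]
    rw [h3]
    have h4 : ∑ x ∈ ((Finset.range (n + 1)).sigma Finset.HasAntidiagonal.antidiagonal).filter
          (fun x => x.2.2 ≠ 0), ka (m - 1) x.2.1 * De b 1 x.2.2 =
        ∑ p ∈ (((Finset.range (n + 1)).sigma Finset.HasAntidiagonal.antidiagonal).filter
          (fun x => x.2.2 ≠ 0)).image (fun x => x.2), ka (m - 1) p.1 * De b 1 p.2 := by
      rw [Finset.sum_image]
      intro x hx y hy hxy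
      simp only [Finset.coe_filter, Finset.mem_sigma, Finset.mem_range,
        Finset.HasAntidiagonal.mem_antidiagonal, Set.mem_ofPred_eq] at hx hy
      obtain ⟨x1, x2, x3⟩ := x
      obtain ⟨y1, y2, y3⟩ := y
      simp only [Prod.mk.injEq] at hxy
      obtain ⟨rfl, rfl⟩ := hxy
      have h5 : x1 = y1 := by
        have := hx.1.2
        have := hy.1.2
        simp only at *
        omega
      subst h5
      rfl
    rw [h4]
    refine Finset.sum_le_sum_of_subset_of_nonneg ?_ fun p _ _ =>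
      mul_nonneg (ka_nonneg _ _) (De_nonneg hb _ _)
    intro p hp
    rw [Finset.mem_image] at hp
    obtain ⟨x, hx, rfl⟩ := hp
    simp only [Finset.mem_filter, Finset.mem_sigma, Finset.mem_range,
      Finset.HasAntidiagonal.mem_antidiagonal] at hx
    simp only [Finset.mem_product, Finset.mem_range]
    omega
  have h6 : ∑ i ∈ Finset.range n, ∑ j ∈ Finset.range (n + 1), ka (m - 1) i * De b 1 j =
      ((n + m - 2).choose (2 * m - 2) : ℕ) * ∑ k ∈ Finset.range (n + 1), De b 1 k := by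
    simp_rw [← Finset.mul_sum]
    rw [← Finset.sum_mul]
    congr 1
    obtain ⟨n', rfl⟩ := Nat.exists_eq_add_of_le' hn
    rw [ka_sum (by omega) n']
    congr 2 <;> omega
  rw [h6] at h2
  calc _ ≤ _ := h1
    _ ≤ (m : ℝ) ^ 2 * _ := mul_le_mul_of_nonneg_left h2 (by positivity)
    _ = _ := by ring

/-- The refined bound for squares. -/
theorem De_two (hb : ∀ k, ‖b k‖ ≤ k) (k : ℕ) :
    De b 2 k ≤ 2 * k * ∑ i ∈ Finset.range k, De b 1 i := by
  have hb0 : b 0 = 0 := by
    have := hb 0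
    simpa using this
  have h1 : De b 2 k = ∑ ij ∈ Finset.HasAntidiagonal.antidiagonal k,
      ((ij.1 : ℝ) * ij.2 - (b ij.1 * b ij.2).re) := by
    unfold De
    rw [ka_succ, B_succ, Complex.re_sum, Finset.sum_sub_distrib]
    simp_rw [B_one, ka_one]
  have h2 : ∀ ij ∈ Finset.HasAntidiagonal.antidiagonal k, (ij.1 : ℝ) * ij.2 - (b ij.1 * b ij.2).re ≤
      k * ((if ij.1 < k then De b 1 ij.1 else 0) + (if ij.2 < k then De b 1 ij.2 else 0)) := by
    intro ij hij
    rw [Finset.HasAntidiagonal.mem_antidiagonal] at hij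
    have hd : ∀ i, De b 1 i = i - (b i).re := fun i => by
      unfold De
      rw [ka_one, B_one]
    rcases Nat.eq_zero_or_pos ij.1 with h3 | h3
    · rw [h3, hb0]
      simp only [Nat.cast_zero, zero_mul, Complex.zero_re, sub_zero]
      refine mul_nonneg (Nat.cast_nonneg _) (add_nonneg ?_ ?_) <;> split_ifs <;>
        first | exact De_nonneg hb _ _ | exact le_rfl
    rcases Nat.eq_zero_or_pos ij.2 with h4 | h4
    · rw [h4, hb0]
      simp only [Nat.cast_zero, mul_zero, Complex.zero_re, sub_zero]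
      refine mul_nonneg (Nat.cast_nonneg _) (add_nonneg ?_ ?_) <;> split_ifs <;>
        first | exact De_nonneg hb _ _ | exact le_rfl
    rw [if_pos (by omega), if_pos (by omega)]
    have hi : (0 : ℝ) < ij.1 := by exact_mod_cast h3
    have hj : (0 : ℝ) < ij.2 := by exact_mod_cast h4
    have hk : (k : ℝ) = ij.1 + ij.2 := by
      rw [← hij]
      push_cast
      ring
    have h5 := two_term (s := (ij.2 : ℝ) / ij.1) (hb ij.1) (hb ij.2) (by positivity)
    refine h5.trans (le_of_eq ?_)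
    rw [hk, hd, hd]
    field_simp
    ring
  rw [h1]
  refine (Finset.sum_le_sum h2).trans (le_of_eq ?_)
  rw [← Finset.mul_sum, Finset.sum_add_distrib]
  have h6 : ∑ ij ∈ Finset.HasAntidiagonal.antidiagonal k, (if ij.1 < k then De b 1 ij.1 else 0) =
      ∑ i ∈ Finset.range k, De b 1 i := by
    rw [Finset.Nat.sum_antidiagonal_eq_sum_range_succ_mk, Finset.sum_range_succ]
    simp only [lt_irrefl, if_false, add_zero]
    refine Finset.sum_congr rfl fun i hi => ?_
    rw [Finset.mem_range] at hi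
    rw [if_pos hi]
  have h7 : ∑ ij ∈ Finset.HasAntidiagonal.antidiagonal k, (if ij.2 < k then De b 1 ij.2 else 0) =
      ∑ i ∈ Finset.range k, De b 1 i := by
    rw [← h6, ← Finset.Nat.sum_antidiagonal_swap]
    rfl
  rw [h6, h7]
  ring

theorem sum_De_two (hb : ∀ k, ‖b k‖ ≤ k) (n : ℕ) (hn : 1 ≤ n) :
    ∑ k ∈ Finset.range (n + 1), De b 2 k ≤
      ((n : ℝ) ^ 2 + n - 2) * ∑ k ∈ Finset.range (n + 1), De b 1 k := by
  have hb0 : b 0 = 0 := by
    have := hb 0
    simpa using this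
  set δ : ℝ := ∑ k ∈ Finset.range (n + 1), De b 1 k with hδ
  have h1 : ∀ k ∈ Finset.range (n + 1), De b 2 k ≤ (if 2 ≤ k then 2 * (k : ℝ) else 0) * δ := by
    intro k hk
    rw [Finset.mem_range] at hk
    refine (De_two hb k).trans ?_
    split_ifs with h
    · refine mul_le_mul_of_nonneg_left ?_ (by positivity)
      refine Finset.sum_le_sum_of_subset_of_nonneg ?_ fun i _ _ => De_nonneg hb _ _
      intro i hi
      rw [Finset.mem_range] at *
      omega
    · have h2 : k = 0 ∨ k = 1 := by omega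
      rcases h2 with rfl | rfl
      · simp
      · simp [De_zero hb0]
  refine (Finset.sum_le_sum h1).trans (le_of_eq ?_)
  rw [← Finset.sum_mul]
  congr 1
  clear h1 hδ
  induction n, hn using Nat.le_induction with
  | base => 
    rw [Finset.sum_range_succ, Finset.sum_range_succ]
    norm_num
  | succ n hn ih =>
    rw [Finset.sum_range_succ, ih, if_pos (by omega)]
    push_cast
    ring

end Seq

theorem choose_fact_le (n m : ℕ) (hn : 1 ≤ n) (hm : 1 ≤ m) :
    (n + m - 2).choose (2 * m - 2) * (2 * m - 2).factorial ≤ n ^ (2 * m - 2) := by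
  induction m, hm using Nat.le_induction with
  | base => simp
  | succ m hm ih =>
    rcases Nat.lt_or_ge m n with h | h
    · obtain ⟨d, rfl⟩ := Nat.exists_eq_add_of_lt h
      obtain ⟨j, rfl⟩ := Nat.exists_eq_add_of_le' hm
      -- n = j + 1 + d + 1, m = j + 1
      have e1 : j + 1 + d + 1 + (j + 1 + 1) - 2 = (j + 1 + d + j) + 1 := by omega
      have e2 : 2 * (j + 1 + 1) - 2 = (2 * j + 1) + 1 := by omega
      have e3 : j + 1 + d + 1 + (j + 1) - 2 = j + 1 + d + j := by omega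
      have e4 : 2 * (j + 1) - 2 = 2 * j := by omega
      rw [e3, e4] at ih
      rw [e1, e2]
      have h1 := Nat.add_one_mul_choose_eq (j + 1 + d + j) (2 * j)
      have h2 := Nat.choose_succ_right_eq (j + 1 + d + j + 1) (2 * j + 1)
      have h3 : j + 1 + d + j + 1 - (2 * j + 1) = d + 1 := by omega
      rw [h3] at h2
      rw [Nat.factorial_succ, Nat.factorial_succ]
      have h4 : (j + 1 + d + j + 1).choose (2 * j + 1 + 1) *
          ((2 * j + 1 + 1) * ((2 * j + 1) * (2 * j).factorial)) =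
          ((j + 1 + d + j).choose (2 * j) * (2 * j).factorial) *
            ((j + 1 + d + j + 1) * (d + 1)) := by
        calc _ = ((j + 1 + d + j + 1).choose (2 * j + 1 + 1) * (2 * j + 1 + 1)) *
            ((2 * j + 1) * (2 * j).factorial) := by ring
          _ = ((j + 1 + d + j + 1).choose (2 * j + 1) * (2 * j + 1)) * (d + 1) *
            (2 * j).factorial := by
              rw [h2]
              ring
          _ = _ := by
              rw [← h1]
              ring
      rw [h4]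
      have h5 : (j + 1 + d + j + 1) * (d + 1) ≤ (j + 1 + d + 1) ^ 2 := by nlinarith
      calc _ ≤ (j + 1 + d + 1) ^ (2 * j) * (j + 1 + d + 1) ^ 2 := Nat.mul_le_mul ih h5
        _ = _ := by
          rw [← pow_add]
    · rw [Nat.choose_eq_zero_of_lt (by omega), zero_mul]
      exact Nat.zero_le _

/-- The majorant of the terms `m ≥ 4`. -/
noncomputable def um (m : ℕ) : ℝ :=
  (catalan m : ℝ) * (m : ℝ) ^ 2 / ((2 * m - 2).factorial : ℕ) * (2 / 5) ^ (m - 1)

theorem catalan_succ_le (m : ℕ) : catalan (m + 1) ≤ 4 * catalan m := by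
  have h1 := succ_mul_catalan_eq_centralBinom (m + 1)
  have h2 := succ_mul_catalan_eq_centralBinom m
  have h3 := Nat.succ_mul_centralBinom_succ m
  have h4 : (m + 1) * ((m + 2) * catalan (m + 1)) = (m + 1) * ((2 * (2 * m + 1)) * catalan m) := by
    rw [show m + 1 + 1 = m + 2 by ring] at h1
    rw [h1, h3, ← h2]
    ring
  have h5 := Nat.eq_of_mul_eq_mul_left (Nat.succ_pos m) h4
  by_contra h
  push Not at h
  nlinarith

theorem um_succ_le (m : ℕ) (hm : 4 ≤ m) : um (m + 1) ≤ um m / 20 := by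
  unfold um
  have h1 : ((catalan (m + 1) : ℕ) : ℝ) ≤ 4 * catalan m := by exact_mod_cast catalan_succ_le m
  have h2 : (4 : ℝ) ≤ m := by exact_mod_cast hm
  have e1 : 2 * (m + 1) - 2 = (2 * m - 2) + 1 + 1 := by omega
  have e2 : m + 1 - 1 = (m - 1) + 1 := by omega
  have e3 : ((2 * m - 2 : ℕ) : ℝ) = 2 * m - 2 := by
    rw [Nat.cast_sub (by omega)]
    push_cast
    ring
  rw [e1, e2, Nat.factorial_succ, Nat.factorial_succ, pow_succ (2 / 5 : ℝ) (m - 1)]
  push_cast
  rw [e3]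
  have hF : (0 : ℝ) < ((2 * m - 2).factorial : ℝ) := by exact_mod_cast Nat.factorial_pos _
  have hC : (0 : ℝ) ≤ (catalan m : ℝ) := Nat.cast_nonneg _
  have hp : (0 : ℝ) < (2 / 5 : ℝ) ^ (m - 1) := by positivity
  have h3 : (0 : ℝ) < 2 * m - 2 + 1 + 1 := by linarith
  have h4 : (0 : ℝ) < 2 * m - 2 + 1 := by linarith
  -- `(catalan (m+1)) (m+1)^2 (2/5) ≤ (1/20) catalan m * m^2 * (2m)(2m-1)`
  have h5 : ((catalan (m + 1) : ℕ) : ℝ) * ((m : ℝ) + 1) ^ 2 * (2 / 5) ≤
      (catalan m : ℝ) * (m : ℝ) ^ 2 / 20 * ((2 * m - 2 + 1 + 1) * (2 * m - 2 + 1)) := by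
    have h6 : ((m : ℝ) + 1) ^ 2 ≤ 25 / 16 * (m : ℝ) ^ 2 := by nlinarith
    have h7 : (56 : ℝ) ≤ (2 * m - 2 + 1 + 1) * (2 * m - 2 + 1) := by nlinarith
    calc ((catalan (m + 1) : ℕ) : ℝ) * ((m : ℝ) + 1) ^ 2 * (2 / 5)
        ≤ (4 * catalan m) * (25 / 16 * (m : ℝ) ^ 2) * (2 / 5) := by
          refine mul_le_mul_of_nonneg_right ?_ (by norm_num)
          exact mul_le_mul h1 h6 (by positivity) (by positivity)
      _ = (catalan m : ℝ) * (m : ℝ) ^ 2 / 20 * 50 := by ring
      _ ≤ (catalan m : ℝ) * (m : ℝ) ^ 2 / 20 * 56 := by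
          refine mul_le_mul_of_nonneg_left (by norm_num) (by positivity)
      _ ≤ _ := mul_le_mul_of_nonneg_left h7 (by positivity)
  have h8 : ((catalan (m + 1) : ℕ) : ℝ) * ((m : ℝ) + 1) ^ 2 /
        ((2 * m - 2 + 1 + 1) * ((2 * m - 2 + 1) * ((2 * m - 2).factorial : ℝ))) *
        ((2 / 5) ^ (m - 1) * (2 / 5)) =
      (((catalan (m + 1) : ℕ) : ℝ) * ((m : ℝ) + 1) ^ 2 * (2 / 5)) /
        ((2 * m - 2 + 1 + 1) * (2 * m - 2 + 1)) *
        ((2 / 5) ^ (m - 1) / ((2 * m - 2).factorial : ℝ)) := by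
    field_simp
  have h9 : (catalan m : ℝ) * (m : ℝ) ^ 2 / ((2 * m - 2).factorial : ℝ) * (2 / 5) ^ (m - 1) / 20 =
      ((catalan m : ℝ) * (m : ℝ) ^ 2 / 20) *
        ((2 / 5) ^ (m - 1) / ((2 * m - 2).factorial : ℝ)) := by
    field_simp
  rw [h8, h9]
  refine mul_le_mul_of_nonneg_right ?_ (by positivity)
  rw [div_le_iff₀ (by positivity)]
  exact h5

theorem catalan_four : catalan 4 = 14 := by
  rw [catalan_eq_centralBinom_div]
  decide

theorem um_four : um 4 ≤ 1 / 50 := by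
  unfold um
  rw [catalan_four]
  norm_num [Nat.factorial]

theorem um_nonneg (m : ℕ) : 0 ≤ um m := by
  unfold um
  positivity

theorem um_sum (n : ℕ) : ∑ m ∈ Finset.Icc 4 n, um m ≤ 1 / 40 := by
  rcases Nat.lt_or_ge n 4 with h | h
  · rw [Finset.Icc_eq_empty (by omega), Finset.sum_empty]
    norm_num
  · have h1 : ∑ m ∈ Finset.Icc 4 n, um m + um n / 19 ≤ um 4 + um 4 / 19 := by
      induction n, h using Nat.le_induction with
      | base => simp
      | succ n hn ih =>
        rw [Finset.sum_Icc_succ_top (by omega)]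
        have := um_succ_le n hn
        linarith
    have h2 := um_four
    have h3 := um_nonneg n
    linarith

/-- The bound for one term. -/
theorem term_le (n m : ℕ) (M : ℝ) (hn : 1 ≤ n) (hm : 1 ≤ m) (hM : 5 / 2 * (n : ℝ) ^ 2 ≤ M) :
    (catalan m : ℝ) * (m : ℝ) ^ 2 * ((n + m - 2).choose (2 * m - 2) : ℕ) / M ^ (m - 1) ≤
      um m := by
  have hn0 : (0 : ℝ) < n := by exact_mod_cast hn
  have hM0 : 0 < M := by nlinarith
  have h1 : (((n + m - 2).choose (2 * m - 2) : ℕ) : ℝ) * ((2 * m - 2).factorial : ℕ) ≤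
      (n : ℝ) ^ (2 * m - 2) := by exact_mod_cast choose_fact_le n m hn hm
  have hF : (0 : ℝ) < ((2 * m - 2).factorial : ℕ) := by exact_mod_cast Nat.factorial_pos _
  have h2 : (((n + m - 2).choose (2 * m - 2) : ℕ) : ℝ) ≤
      (n : ℝ) ^ (2 * m - 2) / ((2 * m - 2).factorial : ℕ) := by
    rw [le_div_iff₀ hF]
    exact h1
  have h3 : (n : ℝ) ^ (2 * m - 2) / M ^ (m - 1) ≤ (2 / 5) ^ (m - 1) := by
    rw [show 2 * m - 2 = 2 * (m - 1) by omega, pow_mul, ← div_pow]
    refine pow_le_pow_left₀ (by positivity) ?_ _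
    rw [div_le_iff₀ hM0]
    linarith
  unfold um
  calc (catalan m : ℝ) * (m : ℝ) ^ 2 * ((n + m - 2).choose (2 * m - 2) : ℕ) / M ^ (m - 1)
      ≤ (catalan m : ℝ) * (m : ℝ) ^ 2 * ((n : ℝ) ^ (2 * m - 2) / ((2 * m - 2).factorial : ℕ)) /
          M ^ (m - 1) := by gcongr
    _ = (catalan m : ℝ) * (m : ℝ) ^ 2 / ((2 * m - 2).factorial : ℕ) *
          ((n : ℝ) ^ (2 * m - 2) / M ^ (m - 1)) := by ring
    _ ≤ _ := by gcongr

/-- The inequality for sequences. -/
theorem seq_le {b : ℕ → ℂ} (hb : ∀ k, ‖b k‖ ≤ k) (n : ℕ) (hn : 2 ≤ n) (M : ℝ)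
    (hM : 5 / 2 * (n : ℝ) ^ 2 ≤ M) :
    (∑ m ∈ Finset.Icc 1 n, (-1 : ℂ) ^ (m - 1) * (catalan m : ℂ) *
      (∑ k ∈ Finset.range (n + 1), B b m k) / (M : ℂ) ^ (m - 1)).re ≤ AP n M := by
  have hn0 : (2 : ℝ) ≤ n := by exact_mod_cast hn
  have hM0 : 0 < M := by nlinarith
  set Dl : ℕ → ℝ := fun m => ∑ k ∈ Finset.range (n + 1), De b m k with hDl
  have hDl0 : ∀ m, 0 ≤ Dl m := fun m => Finset.sum_nonneg fun k _ => De_nonneg hb m k
  have h1 : AP n M - (∑ m ∈ Finset.Icc 1 n, (-1 : ℂ) ^ (m - 1) * (catalan m : ℂ) *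
      (∑ k ∈ Finset.range (n + 1), B b m k) / (M : ℂ) ^ (m - 1)).re =
      ∑ m ∈ Finset.Icc 1 n, (-1 : ℝ) ^ (m - 1) * (catalan m : ℝ) * Dl m / M ^ (m - 1) := by
    unfold AP
    rw [Complex.re_sum, ← Finset.sum_sub_distrib]
    refine Finset.sum_congr rfl fun m hm => ?_
    rw [Finset.mem_Icc] at hm
    have h2 : ((-1 : ℂ) ^ (m - 1) * (catalan m : ℂ) *
        (∑ k ∈ Finset.range (n + 1), B b m k) / (M : ℂ) ^ (m - 1)).re =
        (-1 : ℝ) ^ (m - 1) * (catalan m : ℝ) *
        (∑ k ∈ Finset.range (n + 1), (B b m k).re) / M ^ (m - 1) := by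
      have h3 : (-1 : ℂ) ^ (m - 1) * (catalan m : ℂ) *
          (∑ k ∈ Finset.range (n + 1), B b m k) / (M : ℂ) ^ (m - 1) =
          (((-1 : ℝ) ^ (m - 1) * (catalan m : ℝ) / M ^ (m - 1) : ℝ) : ℂ) *
          (∑ k ∈ Finset.range (n + 1), B b m k) := by
        push_cast
        ring
      rw [h3, Complex.re_ofReal_mul, Complex.re_sum]
      ring
    rw [h2, hDl]
    simp only [De]
    rw [Finset.sum_sub_distrib, ka_sum hm.1 n]
    ring
  have h4 : 0 ≤ ∑ m ∈ Finset.Icc 1 n,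
      (-1 : ℝ) ^ (m - 1) * (catalan m : ℝ) * Dl m / M ^ (m - 1) := by
    have h5 : Dl 1 - 2 * Dl 2 / M - ∑ m ∈ Finset.Icc 4 n, (catalan m : ℝ) * Dl m / M ^ (m - 1) ≤
        ∑ m ∈ Finset.Icc 1 n, (-1 : ℝ) ^ (m - 1) * (catalan m : ℝ) * Dl m / M ^ (m - 1) := by
      have h6 : ∑ m ∈ Finset.Icc 1 n, (-1 : ℝ) ^ (m - 1) * (catalan m : ℝ) * Dl m / M ^ (m - 1) =
          Dl 1 - 2 * Dl 2 / M + ∑ m ∈ Finset.Icc 3 n,
            (-1 : ℝ) ^ (m - 1) * (catalan m : ℝ) * Dl m / M ^ (m - 1) := by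
        rw [← Finset.add_sum_Ioc_eq_sum_Icc (by omega : 1 ≤ n)]
        have i1 : Finset.Ioc 1 n = Finset.Icc 2 n := by
          ext x
          simp only [Finset.mem_Ioc, Finset.mem_Icc]
          omega
        have i2 : Finset.Ioc 2 n = Finset.Icc 3 n := by
          ext x
          simp only [Finset.mem_Ioc, Finset.mem_Icc]
          omega
        rw [i1, ← Finset.add_sum_Ioc_eq_sum_Icc hn, i2]
        have e1 : catalan 1 = 1 := catalan_one
        have e2 : catalan 2 = 2 := catalan_two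
        rw [e1, e2]
        norm_num
        ring
      rw [h6, sub_eq_add_neg (Dl 1 - 2 * Dl 2 / M)]
      refine add_le_add le_rfl ?_
      rw [← Finset.sum_neg_distrib]
      have h7 : ∑ m ∈ Finset.Icc 4 n, -((catalan m : ℝ) * Dl m / M ^ (m - 1)) ≤
          ∑ m ∈ Finset.Icc 3 n, if 4 ≤ m then -((catalan m : ℝ) * Dl m / M ^ (m - 1)) else 0 := by
        rw [← Finset.sum_filter]
        refine le_of_eq (Finset.sum_congr ?_ fun _ _ => rfl)
        ext x
        simp only [Finset.mem_Icc, Finset.mem_filter]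
        omega
      refine h7.trans (Finset.sum_le_sum fun m hm => ?_)
      rw [Finset.mem_Icc] at hm
      have hc : (0 : ℝ) ≤ (catalan m : ℝ) * Dl m / M ^ (m - 1) := by
        have := hDl0 m
        positivity
      split_ifs with h8
      · rcases neg_one_pow_eq_or ℝ (m - 1) with h9 | h9
        · rw [h9, one_mul]
          linarith
        · rw [h9]
          refine le_of_eq ?_
          ring
      · have h9 : m = 3 := by omega
        subst h9
        norm_num
        have := hDl0 3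
        positivity
    have h10 : Dl 2 ≤ ((n : ℝ) ^ 2 + n - 2) * Dl 1 := sum_De_two hb n (by omega)
    have h11 : ∑ m ∈ Finset.Icc 4 n, (catalan m : ℝ) * Dl m / M ^ (m - 1) ≤ 1 / 40 * Dl 1 := by
      have h12 : ∀ m ∈ Finset.Icc 4 n, (catalan m : ℝ) * Dl m / M ^ (m - 1) ≤ um m * Dl 1 := by
        intro m hm
        rw [Finset.mem_Icc] at hm
        have h13 := sum_De_le hb m (by omega) n (by omega)
        have h14 := term_le n m M (by omega) (by omega) hM
        calc (catalan m : ℝ) * Dl m / M ^ (m - 1)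
            ≤ (catalan m : ℝ) * ((m : ℝ) ^ 2 * ((n + m - 2).choose (2 * m - 2) : ℕ) * Dl 1) /
              M ^ (m - 1) := by gcongr
          _ = (catalan m : ℝ) * (m : ℝ) ^ 2 * ((n + m - 2).choose (2 * m - 2) : ℕ) /
              M ^ (m - 1) * Dl 1 := by ring
          _ ≤ um m * Dl 1 := mul_le_mul_of_nonneg_right h14 (hDl0 1)
      refine (Finset.sum_le_sum h12).trans ?_
      rw [← Finset.sum_mul]
      exact mul_le_mul_of_nonneg_right (um_sum n) (hDl0 1)
    have h15 : 2 * Dl 2 / M ≤ 9 / 10 * Dl 1 := by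
      rw [div_le_iff₀ hM0]
      have h16 : 2 * ((n : ℝ) ^ 2 + n - 2) ≤ 9 / 10 * M := by nlinarith [sq_nonneg ((n : ℝ) - 4)]
      have := mul_le_mul_of_nonneg_right h16 (hDl0 1)
      nlinarith
    have := hDl0 1
    linarith
  linarith

theorem til_series {M : ℝ} {f : ℂ → ℂ} (hf : InS M f) :
    PowerSeries.C ((M : ℂ)⁻¹) * ps f =
      (PowerSeries.C ((M : ℂ)⁻¹) * ps (til M f)) * (1 - PowerSeries.C ((M : ℂ)⁻¹) * ps f) ^ 2 := by
  have hM : 1 ≤ M := one_le_of_inS hf
  have hM0 : (M : ℂ) ≠ 0 := by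
    have : M ≠ 0 := by linarith
    exact_mod_cast this
  have hPan : AnalyticAt ℂ f 0 := (toSS hf).analyticAt
  have hKan : AnalyticAt ℂ (til M f) 0 := (t_til M f hf).analyticAt
  have hWan : AnalyticAt ℂ (fun z => (M : ℂ)⁻¹ * f z) 0 := analyticAt_const.mul hPan
  have hUan : AnalyticAt ℂ (fun z => (M : ℂ)⁻¹ * til M f z) 0 := analyticAt_const.mul hKan
  have h1W : AnalyticAt ℂ (fun z => 1 - (M : ℂ)⁻¹ * f z) 0 := analyticAt_const.sub hWan
  have h2W : AnalyticAt ℂ (fun z => (1 - (M : ℂ)⁻¹ * f z) * (1 - (M : ℂ)⁻¹ * f z)) 0 :=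
    h1W.mul h1W
  have e : ps (fun z => (M : ℂ)⁻¹ * f z) =
      ps (fun z => ((M : ℂ)⁻¹ * til M f z) *
        ((1 - (M : ℂ)⁻¹ * f z) * (1 - (M : ℂ)⁻¹ * f z))) := by
    refine ps_congr fun z hz => ?_
    have h2 : ‖f z‖ < M := inS_lt hf hz
    have hne' : (M : ℂ) - f z ≠ 0 := by
      intro h
      have h3 : f z = M := by linear_combination -h
      rw [h3, Complex.norm_real, Real.norm_of_nonneg (by linarith)] at h2
      exact lt_irrefl _ h2
    have hne : (1 : ℂ) - (M : ℂ)⁻¹ * f z ≠ 0 := by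
      intro h
      apply hne'
      field_simp at h
      linear_combination h
    unfold til
    rw [div_eq_inv_mul (f z) (M : ℂ)]
    field_simp
  rw [ps_mul hUan h2W, ps_mul h1W h1W, ps_one_sub hWan, ← pow_two, ps_const_mul hPan,
    ps_const_mul hKan] at e
  exact e

/-- The partial sum in terms of the powers of `til M f`. -/
theorem psum_eq {M : ℝ} {f : ℂ → ℂ} (hf : InS M f) (n : ℕ) (z : ℂ) (hz : ‖z‖ = 1) :
    psum f n z = ∑ m ∈ Finset.Icc 1 n, (-1 : ℂ) ^ (m - 1) * (catalan m : ℂ) *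
      (∑ k ∈ Finset.range (n + 1), B (fun k => coeff (til M f) k * z ^ k) m k) /
        (M : ℂ) ^ (m - 1) := by
  have hM : 1 ≤ M := one_le_of_inS hf
  have hM0 : (M : ℂ) ≠ 0 := by
    have : M ≠ 0 := by linarith
    exact_mod_cast this
  have hb : ∀ k, ‖coeff (til M f) k * z ^ k‖ ≤ k := by
    intro k
    rw [norm_mul, norm_pow, hz, one_pow, mul_one]
    exact t_dbs _ (t_til M f hf) k
  have hW0 : PowerSeries.constantCoeff (PowerSeries.C ((M : ℂ)⁻¹) * ps f) = 0 := by
    rw [map_mul, ← PowerSeries.coeff_zero_eq_constantCoeff_apply (ps f), coeff_ps, coeff_zero,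
      hf.zero, mul_zero]
  have hB : ∀ m k, B (fun k => coeff (til M f) k * z ^ k) m k =
      z ^ k * PowerSeries.coeff k (ps (til M f) ^ m) := by
    intro m k
    have h1 : PowerSeries.mk (fun k => coeff (til M f) k * z ^ k) =
        PowerSeries.rescale z (ps (til M f)) := by
      ext j
      rw [PowerSeries.coeff_rescale, coeff_ps, PowerSeries.coeff_mk, mul_comm]
    unfold B
    rw [h1, ← map_pow, PowerSeries.coeff_rescale]
  have hcoef : ∀ k ≤ n, coeff f k * z ^ k = ∑ m ∈ Finset.Icc 1 n, (-1 : ℂ) ^ (m - 1) *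
      (catalan m : ℂ) * B (fun k => coeff (til M f) k * z ^ k) m k / (M : ℂ) ^ (m - 1) := by
    intro k hk
    have h1 := t_cat _ _ hW0 (til_series hf) k
    rw [PowerSeries.coeff_C_mul, coeff_ps] at h1
    have h2 : coeff f k * z ^ k = M * ((M : ℂ)⁻¹ * coeff f k) * z ^ k := by
      field_simp
    rw [h2, h1, Finset.mul_sum, Finset.sum_mul]
    have h3 : ∑ m ∈ Finset.Icc 1 n, (-1 : ℂ) ^ (m - 1) *
        (catalan m : ℂ) * B (fun k => coeff (til M f) k * z ^ k) m k / (M : ℂ) ^ (m - 1) =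
        ∑ m ∈ Finset.Icc 1 k, (-1 : ℂ) ^ (m - 1) *
        (catalan m : ℂ) * B (fun k => coeff (til M f) k * z ^ k) m k / (M : ℂ) ^ (m - 1) := by
      symm
      refine Finset.sum_subset (fun m hm => ?_) fun m hm hm' => ?_
      · rw [Finset.mem_Icc] at *
        omega
      · rw [Finset.mem_Icc] at hm hm'
        have h4 : B (fun k => coeff (til M f) k * z ^ k) m k = 0 := by
          have h5 := norm_B_le hb m k
          rw [ka_eq hm.1, Nat.choose_eq_zero_of_lt (by omega), Nat.cast_zero] at h5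
          exact norm_le_zero_iff.1 h5
        rw [h4, mul_zero, zero_div]
    rw [h3]
    refine Finset.sum_congr rfl fun m hm => ?_
    rw [Finset.mem_Icc] at hm
    rw [hB, mul_pow, ← map_pow, PowerSeries.coeff_C_mul]
    obtain ⟨j, rfl⟩ := Nat.exists_eq_add_of_le' hm.1
    rw [Nat.add_sub_cancel, inv_pow, pow_succ (M : ℂ)]
    field_simp
  unfold psum
  have h0 : ∀ k ∈ Finset.range (n + 1), coeff f k * z ^ k = ∑ m ∈ Finset.Icc 1 n,
      (-1 : ℂ) ^ (m - 1) * (catalan m : ℂ) *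
        B (fun k => coeff (til M f) k * z ^ k) m k / (M : ℂ) ^ (m - 1) := by
    intro k hk
    rw [Finset.mem_range] at hk
    exact hcoef k (by omega)
  rw [Finset.sum_congr rfl h0, Finset.sum_comm]
  refine Finset.sum_congr rfl fun m _ => ?_
  rw [Finset.mul_sum, Finset.sum_div]

/-- The bound for every function of the class. -/
theorem norm_psum_le (n : ℕ) (hn : 2 ≤ n) (M : ℝ) (hM : 5 / 2 * (n : ℝ) ^ 2 ≤ M) {f : ℂ → ℂ}
    (hf : InS M f) {z : ℂ} (hz : ‖z‖ = 1) : ‖psum f n z‖ ≤ AP n M := by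
  -- the phase of the value
  obtain ⟨ζ, hζ, hv⟩ : ∃ ζ : ℂ, ‖ζ‖ = 1 ∧ conj ζ * psum f n z = (‖psum f n z‖ : ℂ) := by
    rcases eq_or_ne (psum f n z) 0 with h | h
    · exact ⟨1, norm_one, by rw [h]; simp⟩
    · refine ⟨psum f n z / ‖psum f n z‖, ?_, ?_⟩
      · rw [norm_div, Complex.norm_real, norm_norm, div_self (norm_ne_zero_iff.2 h)]
      · have h1 : ((‖psum f n z‖ : ℝ) : ℂ) ≠ 0 := by
          exact_mod_cast norm_ne_zero_iff.2 h
        rw [map_div₀, Complex.conj_ofReal, div_mul_eq_mul_div, mul_comm, Complex.mul_conj,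
          Complex.normSq_eq_norm_sq]
        push_cast
        field_simp
  obtain ⟨f', hf', hco, -⟩ := t_rot M f ζ hf hζ
  have hζζ : conj ζ * ζ = 1 := by
    rw [← Complex.normSq_eq_conj_mul_self, Complex.normSq_eq_norm_sq, hζ]
    norm_num
  have hz0 : ‖conj ζ * z‖ = 1 := by rw [norm_mul, Complex.norm_conj, hζ, hz, one_mul]
  have h1 : psum f' n (conj ζ * z) = conj ζ * psum f n z := by
    unfold psum
    rw [Finset.mul_sum]
    refine Finset.sum_congr rfl fun k _ => ?_
    rcases Nat.eq_zero_or_pos k with h | h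
    · subst h
      rw [(toSS hf').coeff_zero, (toSS hf).coeff_zero]
      simp
    · obtain ⟨j, rfl⟩ : ∃ j, k = j + 1 := ⟨k - 1, by omega⟩
      rw [hco _ h, Nat.add_sub_cancel, mul_pow, pow_succ (conj ζ)]
      have h2 : ζ ^ j * conj ζ ^ j = 1 := by
        rw [← mul_pow, mul_comm, hζζ, one_pow]
      linear_combination (coeff f (j + 1) * z ^ (j + 1) * conj ζ) * h2
  have hb : ∀ k, ‖coeff (til M f') k * (conj ζ * z) ^ k‖ ≤ k := by
    intro k
    rw [norm_mul, norm_pow, hz0, one_pow, mul_one]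
    exact t_dbs _ (t_til M f' hf') k
  have h2 := seq_le hb n hn M hM
  rw [← psum_eq hf' n (conj ζ * z) hz0, h1, hv, Complex.ofReal_re] at h2
  exact h2

end Opt

open Opt FIN_ in
/-- `Λ_n(M)` for every `n ≥ 2` and every `M ≥ (5/2) n^2`. -/
theorem lam_eq (n : ℕ) (hn : 2 ≤ n) (M : ℝ) (hM : 5 / 2 * (n : ℝ) ^ 2 ≤ M) :
    Lam n M = AP n M := by
  have hn0 : (2 : ℝ) ≤ n := by exact_mod_cast hn
  have h1 : (1 : ℝ) ≤ M := by nlinarith
  refine le_antisymm (lam_le h1 fun f hf z hz => norm_psum_le n hn M hM hf hz) ?_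
  have h2 := le_lam (t_pke M h1).1 n (z := 1) norm_one
  rw [t_pco.1 M n h1, Complex.norm_real, Real.norm_eq_abs] at h2
  exact (le_abs_self _).trans h2

end Pool.Agent.DBR
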