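import Pool.Agent.DBR.Stmts

set_option autoImplicit false

/-!
PIC: the Pick maps.
-/

namespace Pool.Agent.DBR

open Complex Metric Set Filter MeasureTheory

open scoped Topology ComplexConjugate

open Pool.Agent.PSB (InS coeff psum Lam SelfU)

namespace PIC_

theorem conj_ofNat' (k : ℕ) : conj (k : ℂ) = k := Complex.conj_natCast k

theorem Kinv_conj {v : ℂ} (hv : 1 + 4 * v ∈ slitPlane) : Kinv (conj v) = conj (Kinv v) := by
  have h1 : (1 + 4 * v).arg ≠ Real.pi := Complex.slitPlane_arg_ne_pi hv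
  have h2 : 1 + 4 * conj v = conj (1 + 4 * v) := by
    have h := conj_ofNat' 4
    push_cast at h
    rw [map_add, map_mul, map_one, h]
  have h3 : (conj (1 + 4 * v)) ^ ((1 : ℂ) / 2) = conj ((1 + 4 * v) ^ ((1 : ℂ) / 2)) := by
    rw [Complex.conj_cpow _ _ h1]
    congr 2
    have h := conj_ofNat' 2
    push_cast at h
    rw [map_div₀, map_one, h]
  unfold Kinv
  rw [h2, h3]
  rw [map_div₀, map_sub, map_add, map_one]

theorem Kb_conj (z : ℂ) : Kb (conj z) = conj (Kb z) := by
  unfold Kb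
  simp

theorem Kinv_zero : Kinv 0 = 0 := by
  unfold Kinv
  simp

end PIC_

open PIC_ in
theorem pic_proof (hKIN : Stmt_KIN) : Stmt_PIC := by
  obtain ⟨k1, k2, k3, hK⟩ := hKIN
  intro c hc hc1
  have hs : ∀ z ∈ ball (0 : ℂ) 1, 1 + 4 * (c * Kb z) ∈ slitPlane := fun z hz => k3 z hz c hc.le hc1
  have hc0 : (c : ℂ) ≠ 0 := by exact_mod_cast hc.ne'
  have hcomp : ∀ z ∈ ball (0 : ℂ) 1, Kb (Kinv (c * Kb z)) = c * Kb z := fun z hz =>
    (k1 _ (hs z hz)).2.1
  have hdiff : DifferentiableOn ℂ (fun z => Kinv (c * Kb z)) (ball 0 1) := by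
    intro z hz
    have h1 : DifferentiableAt ℂ Kb z := hK.diff.differentiableAt (isOpen_ball.mem_nhds hz)
    have h2 : DifferentiableAt ℂ (fun z => c * Kb z) z := h1.const_mul _
    have h3 : DifferentiableAt ℂ Kinv ((fun z => c * Kb z) z) := (k1 _ (hs z hz)).2.2
    exact (h3.comp z h2).differentiableWithinAt
  have h00 : Kinv (c * Kb 0) = 0 := by rw [hK.zero, mul_zero, Kinv_zero]
  refine ⟨⟨hdiff, ?_, h00, ?_⟩, ?_, ?_⟩
  · intro x hx y hy h
    have h1 := congrArg Kb h
    simp only at h1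
    rw [hcomp x hx, hcomp y hy] at h1
    exact hK.inj hx hy (mul_left_cancel₀ hc0 h1)
  · intro z hz
    exact (k1 _ (hs z hz)).1
  · have hz : (0 : ℂ) ∈ ball (0 : ℂ) 1 := zero_mem
    have d1 : HasDerivAt (fun z => Kinv (c * Kb z)) (deriv (fun z => Kinv (c * Kb z)) 0) 0 :=
      (hdiff.differentiableAt (isOpen_ball.mem_nhds hz)).hasDerivAt
    have d2 : HasDerivAt Kb 1 0 := by
      have := (hK.diff.differentiableAt (isOpen_ball.mem_nhds hz)).hasDerivAt
      rwa [hK.one] at this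
    have d2' : HasDerivAt Kb 1 ((fun z => Kinv (c * Kb z)) 0) := by
      simp only
      rw [h00]
      exact d2
    have d3 := HasDerivAt.comp (0 : ℂ) d2' d1
    have d4 : HasDerivAt (fun z => (c : ℂ) * Kb z) (c * 1) 0 := d2.const_mul _
    have e : (Kb ∘ fun z => Kinv (c * Kb z)) =ᶠ[𝓝 0] fun z => (c : ℂ) * Kb z := by
      filter_upwards [ball_mem] with w hw
      exact hcomp w hw
    have d5 := d3.congr_of_eventuallyEq e.symm
    have := d5.unique d4
    rw [one_mul, mul_one] at this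
    exact this
  · intro z hz
    refine ⟨hcomp z hz, ?_⟩
    have h1 : (c : ℂ) * Kb (conj z) = conj (c * Kb z) := by
      rw [Kb_conj, map_mul, Complex.conj_ofReal]
    rw [h1, Kinv_conj (hs z hz), Complex.conj_conj]

end Pool.Agent.DBR
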