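import Pool.Agent.DBR.Stmts

set_option autoImplicit false

/-!
Squad DBR, module PKE: the Pick function.
-/

namespace Pool.Agent.DBR

open Complex Metric Set Filter MeasureTheory

open scoped Topology ComplexConjugate

open Pool.Agent.PSB (InS coeff psum Lam SelfU)

theorem pke_proof (_hKIN : Stmt_KIN) (hPIC : Stmt_PIC) : Stmt_PKE := by
  intro M hM
  have hM0 : 0 < M := by linarith
  have hMc : (M : ℂ) ≠ 0 := by exact_mod_cast hM0.ne'
  obtain ⟨hS, hd, hK⟩ := hPIC (1 / M) (by positivity) (by rw [div_le_one hM0]; exact hM)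
  have hcast : ((1 / M : ℝ) : ℂ) = 1 / (M : ℂ) := by push_cast; rfl
  have hPk : Pk M = fun z => (M : ℂ) * Kinv (((1 / M : ℝ) : ℂ) * Kb z) := by
    funext z
    unfold Pk
    rw [hcast]
    congr 2
    ring
  refine ⟨⟨?_, ?_, ?_, ?_, ?_⟩, fun z hz => ⟨?_, ?_⟩⟩
  · rw [hPk]
    exact hS.diff.const_mul _
  · rw [hPk]
    intro x hx y hy hxy
    exact hS.inj hx hy (mul_left_cancel₀ hMc hxy)
  · rw [hPk]
    have := hS.zero
    simp only at this ⊢
    rw [this, mul_zero]
  · rw [hPk]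
    have h1 : DifferentiableAt ℂ (fun z => Kinv (((1 / M : ℝ) : ℂ) * Kb z)) 0 :=
      hS.diff.differentiableAt ball_mem
    have h2 := (h1.hasDerivAt.const_mul (M : ℂ)).deriv
    rw [h2, hd, hcast]
    field_simp
  · intro z hz
    rw [hPk]
    rw [norm_mul, Complex.norm_real, Real.norm_of_nonneg hM0.le]
    have := (hS.maps z hz).le
    nlinarith
  · unfold til
    rw [hPk]
    simp only
    have h1 := (hK z hz).1
    have h2 : (M : ℂ) * Kinv (((1 / M : ℝ) : ℂ) * Kb z) / M = Kinv (((1 / M : ℝ) : ℂ) * Kb z) := by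
      field_simp
    rw [h2]
    have h3 : (M : ℂ) * Kinv (((1 / M : ℝ) : ℂ) * Kb z) /
        (1 - Kinv (((1 / M : ℝ) : ℂ) * Kb z)) ^ 2 = M * Kb (Kinv (((1 / M : ℝ) : ℂ) * Kb z)) := by
      unfold Kb
      ring
    rw [h3, h1, hcast]
    field_simp
  · rw [hPk]
    simp only
    rw [map_mul, (hK z hz).2, Complex.conj_ofReal]

end Pool.Agent.DBR
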