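import Pool.Agent.DBR.Stmts

set_option autoImplicit false

/-!
Squad DBR, module ROT: rotations.
-/

namespace Pool.Agent.DBR

open Complex Metric Set Filter MeasureTheory

open scoped Topology ComplexConjugate

open Pool.Agent.PSB (InS coeff psum Lam SelfU)

theorem rot_proof : Stmt_ROT := by
  intro M f z hf hz
  have hz0 : z ≠ 0 := by
    intro h
    rw [h, norm_zero] at hz
    exact zero_ne_one hz
  have hzz : conj z * z = 1 := by
    rw [← Complex.normSq_eq_conj_mul_self, Complex.normSq_eq_norm_sq, hz]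
    norm_num
  have hmaps : MapsTo (fun w : ℂ => z * w) (ball 0 1) (ball 0 1) := by
    intro w hw
    rw [mem_ball_zero_iff] at hw ⊢
    rw [norm_mul, hz, one_mul]
    exact hw
  have hfa : AnalyticAt ℂ f 0 := (toSS hf).analyticAt
  have hfz : AnalyticAt ℂ (fun w : ℂ => f (z * w)) 0 := by
    have : AnalyticAt ℂ f (z * 0) := by rw [mul_zero]; exact hfa
    exact this.comp_of_eq (analyticAt_const.mul analyticAt_id) rfl
  have hco : ∀ k : ℕ, coeff (fun w => conj z * f (z * w)) k = conj z * (z ^ k * coeff f k) := by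
    intro k
    rw [coeff_const_mul hfz, coeff_scale hfa]
  have hconj : ‖conj z‖ = 1 := by rw [Complex.norm_conj, hz]
  refine ⟨fun w => conj z * f (z * w), ⟨?_, ?_, ?_, ?_, ?_⟩, ?_, ?_⟩
  · exact (hf.diff.comp (differentiableOn_id.const_mul _) hmaps).const_mul _
  · intro a ha b hb hab
    have h1 : f (z * a) = f (z * b) :=
      mul_left_cancel₀ (by intro h; rw [h, norm_zero] at hconj; exact zero_ne_one hconj) hab
    exact mul_left_cancel₀ hz0 (hf.inj (hmaps ha) (hmaps hb) h1)
  · simp [hf.zero]
  · have h1 := hco 1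
    rw [DBR.coeff_one, (toSS hf).coeff_one, pow_one, mul_one, hzz] at h1
    exact h1
  · intro w hw
    show ‖conj z * f (z * w)‖ ≤ M
    rw [norm_mul, hconj, one_mul]
    exact hf.bdd _ (hmaps hw)
  · intro k hk
    obtain ⟨j, rfl⟩ : ∃ j, k = j + 1 := ⟨k - 1, by omega⟩
    rw [hco, Nat.add_sub_cancel]
    linear_combination (z ^ j * coeff f (j + 1)) * hzz
  · intro n
    have h1 : psum (fun w => conj z * f (z * w)) n 1 = conj z * psum f n z := by
      unfold psum
      rw [Finset.mul_sum]
      refine Finset.sum_congr rfl fun k _ => ?_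
      rw [hco]
      ring
    rw [h1, norm_mul, hconj, one_mul]

end Pool.Agent.DBR
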