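import Pool.Agent.DBR.Basic

set_option autoImplicit false

/-!
Univalent functions: statements of the modules of the squad DBR (MP_910507_an).
-/

namespace Pool.Agent.DBR

open Complex Metric Set Filter MeasureTheory

open scoped Topology ComplexConjugate

open Pool.Agent.PSB (InS coeff psum Lam SelfU)

/-! ### More definitions -/

/-- Entries of the `n`-th symmetric power of the matrix `(a b; c d)`. -/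
noncomputable def sy (n : ℕ) (a b c d : ℝ) (i j : ℕ) : ℝ :=
  ((Polynomial.C a + Polynomial.C b * Polynomial.X) ^ (n - i) *
    (Polynomial.C c + Polynomial.C d * Polynomial.X) ^ i).coeff j

/-- `∑ C(n+m+1, 2m+1) x^m`, the Chebyshev polynomial `U_n(1 + x/2)`. -/
noncomputable def uch (n : ℕ) (x : ℝ) : ℝ :=
  ∑ m ∈ Finset.range (n + 1), ((n + m + 1).choose (2 * m + 1) : ℝ) * x ^ m

/-- The transform `f/(1 - f/M)²` of a function of `S(M)`. -/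
noncomputable def til (M : ℝ) (f : ℂ → ℂ) (z : ℂ) : ℂ := f z / (1 - f z / M) ^ 2

/-- The part of a function with real Taylor coefficients. -/
noncomputable def sym (h : ℂ → ℂ) (z : ℂ) : ℂ := (h z + conj (h (conj z))) / 2

/-- The majorant in the inequality of Jenkins and Tammi. -/
noncomputable def JM (M σ : ℝ) : ℝ :=
  if σ ≤ 1 / M then 1 - 1 / M ^ 2 + 4 * σ ^ 2 * Real.log M
  else 1 + 1 / M ^ 2 - 4 * σ ^ 2 * Real.log σ + 6 * σ ^ 2 - 8 * σ / M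

/-! ### Part 1: the one-step lemma -/

/-- MON: normal families. -/
def Stmt_MON : Prop :=
  ∀ (R : ℝ) (f : ℕ → ℂ → ℂ), (∀ n, DifferentiableOn ℂ (f n) (ball 0 1)) →
    (∀ n, ∀ z ∈ ball (0 : ℂ) 1, ‖f n z‖ ≤ R) →
    ∃ φ : ℕ → ℕ, StrictMono φ ∧ ∃ F : ℂ → ℂ, DifferentiableOn ℂ F (ball 0 1) ∧
      TendstoLocallyUniformlyOn (fun n => f (φ n)) F atTop (ball 0 1)

/-- HUR: limits of injective holomorphic functions. -/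
def Stmt_HUR : Prop :=
  ∀ (f : ℕ → ℂ → ℂ) (F : ℂ → ℂ), (∀ n, DifferentiableOn ℂ (f n) (ball 0 1)) →
    (∀ n, InjOn (f n) (ball 0 1)) → TendstoLocallyUniformlyOn f F atTop (ball 0 1) →
    deriv F 0 ≠ 0 → InjOn F (ball 0 1)

/-- FLM: limits of factorisations. -/
def Stmt_FLM : Prop :=
  ∀ (Mn sn : ℕ → ℝ) (M s : ℝ) (Fn hn gn : ℕ → ℂ → ℂ) (F : ℂ → ℂ),
    Tendsto Mn atTop (𝓝 M) → Tendsto sn atTop (𝓝 s) → 0 < s →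
    (∀ z ∈ ball (0 : ℂ) 1, Tendsto (fun n => Fn n z) atTop (𝓝 (F z))) →
    (∀ n, Fac (Mn n) (sn n) (Fn n) (hn n) (gn n)) → ∃ h g : ℂ → ℂ, Fac M s F h g

/-- TOP: a topological lemma on the image of the closed disc. -/
def Stmt_TOP : Prop :=
  ∀ (R₀ : ℝ) (F : ℂ → ℂ) (V : Set ℂ), 1 < R₀ → DifferentiableOn ℂ F (ball 0 R₀) →
    InjOn F (ball 0 R₀) → IsOpen V → Bornology.IsBounded V → F '' ball 0 1 ⊆ V →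
    frontier V ⊆ F '' closedBall 0 1 → V = F '' ball 0 1

/-- SCH: automorphisms of the disc fixing the origin. -/
def Stmt_SCH : Prop :=
  ∀ g : ℂ → ℂ, DifferentiableOn ℂ g (ball 0 1) → InjOn g (ball 0 1) → g 0 = 0 →
    g '' ball 0 1 = ball 0 1 → ‖deriv g 0‖ = 1

/-- ARA: the area of the image. -/
def Stmt_ARA : Prop :=
  ∀ (h : ℂ → ℂ) (R : ℝ), DifferentiableOn ℂ h (ball 0 1) → InjOn h (ball 0 1) →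
    (∀ z ∈ ball (0 : ℂ) 1, ‖h z‖ ≤ R) →
    ∫⁻ z in ball (0 : ℂ) 1, ENNReal.ofReal (‖deriv h z‖ ^ 2) ≤ ENNReal.ofReal (Real.pi * R ^ 2)

/-- WLF: the lemma of Wolff (length-area principle). -/
def Stmt_WLF : Prop :=
  ∀ (h : ℂ → ℂ) (R : ℝ) (ζ : ℂ), DifferentiableOn ℂ h (ball 0 1) → InjOn h (ball 0 1) →
    (∀ z ∈ ball (0 : ℂ) 1, ‖h z‖ ≤ R) → ‖ζ‖ = 1 → ∀ δ η₀ : ℝ, 0 < δ → 0 < η₀ →
    ∃ η : ℝ, 0 < η ∧ η < η₀ ∧ ∀ z ∈ ball (0 : ℂ) 1, ∀ z' ∈ ball (0 : ℂ) 1,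
      ‖z - ζ‖ = η → ‖z' - ζ‖ = η → ‖h z - h z'‖ < δ

/-- ACC: preimages of a segment leaving the image reach the unit circle. -/
def Stmt_ACC : Prop :=
  ∀ (h : ℂ → ℂ) (q v : ℂ), DifferentiableOn ℂ h (ball 0 1) → InjOn h (ball 0 1) →
    q ∈ h '' ball 0 1 → v ∉ h '' ball 0 1 →
    ∃ (ζ : ℂ) (η₀ : ℝ), ‖ζ‖ = 1 ∧ 0 < η₀ ∧ ∀ η : ℝ, 0 < η → η < η₀ →
      ∃ z ∈ ball (0 : ℂ) 1, ‖z - ζ‖ = η ∧ h z ∈ segment ℝ q v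

/-- FRE: the inner map of a factorisation leaves a free boundary arc. -/
def Stmt_FRE : Prop :=
  ∀ (R₀ M s : ℝ) (F h g : ℂ → ℂ), 1 < R₀ → DifferentiableOn ℂ F (ball 0 R₀) →
    InjOn F (ball 0 R₀) → deriv F 0 = 1 → 1 < s → Fac M s F h g →
    ∃ (ζ : ℂ) (η : ℝ), ‖ζ‖ = 1 ∧ 0 < η ∧ ∀ z ∈ ball (0 : ℂ) 1, η ≤ ‖g z - ζ‖

/-- KIN: the Koebe function and its inverse. -/
def Stmt_KIN : Prop :=
  (∀ v : ℂ, 1 + 4 * v ∈ slitPlane →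
    ‖Kinv v‖ < 1 ∧ Kb (Kinv v) = v ∧ DifferentiableAt ℂ Kinv v) ∧
  (∀ z ∈ ball (0 : ℂ) 1, 1 + 4 * Kb z ∈ slitPlane ∧ Kinv (Kb z) = z ∧
    1 + 4 * Kb z = ((1 + z) / (1 - z)) ^ 2 ∧ 0 < ((1 + z) / (1 - z)).re) ∧
  (∀ z ∈ ball (0 : ℂ) 1, ∀ c : ℝ, 0 ≤ c → c ≤ 1 → 1 + 4 * (c * Kb z) ∈ slitPlane) ∧
  InSS Kb

/-- PIC: the Pick maps. -/
def Stmt_PIC : Prop :=
  ∀ c : ℝ, 0 < c → c ≤ 1 → SelfU (fun z => Kinv (c * Kb z)) ∧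
    deriv (fun z => Kinv (c * Kb z)) 0 = (c : ℂ) ∧
    ∀ z ∈ ball (0 : ℂ) 1, Kb (Kinv (c * Kb z)) = c * Kb z ∧
      conj (Kinv (c * Kb (conj z))) = Kinv (c * Kb z)

/-- CUT: cutting off a short radial slit. -/
def Stmt_CUT : Prop :=
  ∀ (M s : ℝ) (F h g : ℂ → ℂ) (ζ : ℂ) (η : ℝ), Fac M s F h g → ‖ζ‖ = 1 → 0 < η →
    (∀ z ∈ ball (0 : ℂ) 1, η ≤ ‖g z - ζ‖) →
    ∃ δ : ℝ, 0 < δ ∧ δ < 1 ∧ ∀ c : ℝ, 1 - δ < c → c < 1 → ∃ h' g' : ℂ → ℂ, Fac M (s * c) F h' g'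

/-- STN: the one-step lemma for functions univalent in a larger disc. -/
def Stmt_STN : Prop :=
  ∀ (R₀ M r : ℝ) (F : ℂ → ℂ), 1 < R₀ → DifferentiableOn ℂ F (ball 0 R₀) →
    InjOn F (ball 0 R₀) → F 0 = 0 → deriv F 0 = 1 → (∀ z ∈ ball (0 : ℂ) R₀, ‖F z‖ ≤ M) →
    1 ≤ r → r ≤ M → ∃ h g : ℂ → ℂ, Fac M r F h g

/-- STG: the one-step lemma. -/
def Stmt_STG : Prop :=
  ∀ (M r : ℝ) (f : ℂ → ℂ), InS M f → 1 ≤ r → r ≤ M → ∃ h g : ℂ → ℂ, Fac M r f h g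

/-- LOG: holomorphic logarithms on the disc. -/
def Stmt_LOG : Prop :=
  ∀ F : ℂ → ℂ, DifferentiableOn ℂ F (ball 0 1) → (∀ z ∈ ball (0 : ℂ) 1, F z ≠ 0) → F 0 = 1 →
    ∃ l : ℂ → ℂ, DifferentiableOn ℂ l (ball 0 1) ∧ l 0 = 0 ∧
      ∀ z ∈ ball (0 : ℂ) 1, F z = Complex.exp (l z)

/-- STP: existence of steps. -/
def Stmt_STP : Prop :=
  ∀ (M ε : ℝ) (f : ℂ → ℂ), InS M f → 0 < ε → Real.exp ε ≤ M →
    ∃ g p : ℂ → ℂ, InS (M * Real.exp (-ε)) g ∧ Step ε f g p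

/-- REC: the recursion principle. -/
def Stmt_REC : Prop :=
  ∀ (M C : ℝ) (P : ℝ → ℝ → (ℂ → ℂ) → Prop), 1 ≤ M → 0 ≤ C →
    (∀ (t x x' : ℝ) (f : ℂ → ℂ), x ≤ x' → P t x f → P t x' f) →
    (∀ (ε t x : ℝ) (f g p : ℂ → ℂ), 0 < ε → ε ≤ 1 → 0 ≤ t → t + ε ≤ Real.log M → 0 ≤ x →
      InS M f → InS M g → Step ε f g p → P (t + ε) x g →
      P t ((1 + C * ε) * x + C * ε ^ 2) f) →
    (∀ g : ℂ → ℂ, InS 1 g → P (Real.log M) 0 g) →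
    ∀ f : ℂ → ℂ, InS M f → ∀ x : ℝ, 0 < x → P 0 x f

/-! ### Part 2: expansions of a step -/

/-- HRG: the coefficients of Carathéodory functions. -/
def Stmt_HRG : Prop := ∀ p : ℂ → ℂ, Car p → ∀ n : ℕ, Mom n (coeff p)

/-- CMP: coefficients of a composition. -/
def Stmt_CMP : Prop :=
  ∀ (g w : ℂ → ℂ), AnalyticAt ℂ g 0 → AnalyticAt ℂ w 0 → w 0 = 0 → ∀ k : ℕ,
    coeff (fun z => g (w z)) k =
      ∑ j ∈ Finset.range (k + 1), coeff g j * coeff (fun z => w z ^ j) k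

/-- EXP: coefficients of the powers of the inner map of a step. -/
def Stmt_EXP : Prop :=
  ∀ n : ℕ, ∃ C : ℝ, 0 ≤ C ∧ ∀ (ε : ℝ) (p : ℂ → ℂ), 0 < ε → ε ≤ 1 → Car p →
    ∀ j k : ℕ, 1 ≤ j → j ≤ k → k ≤ n →
    ‖coeff (fun z => om ε p z ^ j) k -
      ((if j = k then 1 else 0) - ε * j * coeff p (k - j))‖ ≤ C * ε ^ 2

/-- AST: the step for the Taylor coefficients. -/
def Stmt_AST : Prop :=
  ∀ (n : ℕ) (M : ℝ), ∃ C : ℝ, 0 ≤ C ∧ ∀ (ε : ℝ) (f g p : ℂ → ℂ), 0 < ε → ε ≤ 1 →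
    InS M f → InS M g → Step ε f g p → ∀ k : ℕ, 1 ≤ k → k ≤ n →
    ‖coeff f k - (coeff g k - ε * (((k : ℂ) - 1) * coeff g k +
      ∑ j ∈ Finset.Ico 1 k, (j : ℂ) * coeff g j * coeff p (k - j)))‖ ≤ C * ε ^ 2

/-- LSE: existence and uniqueness of the logarithm of `f z / z`. -/
def Stmt_LSE : Prop :=
  (∀ f : ℂ → ℂ, InSS f → IsLog f (lg f)) ∧
  (∀ f l l' : ℂ → ℂ, IsLog f l → IsLog f l' → ∀ z ∈ ball (0 : ℂ) 1, l z = l' z)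

/-- LCB: bounds for the logarithmic coefficients. -/
def Stmt_LCB : Prop :=
  ∀ (n : ℕ) (M : ℝ), ∃ B : ℝ, 0 ≤ B ∧ ∀ f : ℂ → ℂ, InS M f → ∀ k : ℕ, k ≤ n → ‖lc f k‖ ≤ B

/-- LST: the step for the logarithmic coefficients. -/
def Stmt_LST : Prop :=
  ∀ (n : ℕ) (M : ℝ), ∃ C : ℝ, 0 ≤ C ∧ ∀ (ε : ℝ) (f g p : ℂ → ℂ), 0 < ε → ε ≤ 1 →
    InS M f → InS M g → Step ε f g p → ∀ k : ℕ, 1 ≤ k → k ≤ n →
    ‖lc f k - (lc g k - ε * ((k : ℂ) * lc g k + coeff p k +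
      ∑ j ∈ Finset.Ico 1 k, (j : ℂ) * lc g j * coeff p (k - j)))‖ ≤ C * ε ^ 2

/-! ### Part 3: the weights of de Branges -/

/-- SYA: multiplicativity of symmetric powers. -/
def Stmt_SYA : Prop :=
  ∀ (n : ℕ) (a b c d a' b' c' d' : ℝ) (i k : ℕ), i ≤ n → k ≤ n →
    ∑ j ∈ Finset.range (n + 1), sy n a b c d i j * sy n a' b' c' d' j k =
      sy n (a * a' + b * c') (a * b' + b * d') (c * a' + d * c') (c * b' + d * d') i k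

/-- SYT: traces of symmetric powers. -/
def Stmt_SYT : Prop :=
  ∀ (a b c d : ℝ), (∑ i ∈ Finset.range 1, sy 0 a b c d i i) = 1 ∧
    (∑ i ∈ Finset.range 2, sy 1 a b c d i i) = a + d ∧
    ∀ n : ℕ, ∑ i ∈ Finset.range (n + 3), sy (n + 2) a b c d i i =
      (a + d) * ∑ i ∈ Finset.range (n + 2), sy (n + 1) a b c d i i -
        (a * d - b * c) * ∑ i ∈ Finset.range (n + 1), sy n a b c d i i

/-- SYB: symmetry of symmetric powers. -/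
def Stmt_SYB : Prop :=
  ∀ (n : ℕ) (a b c d : ℝ) (i j : ℕ), i ≤ n → j ≤ n →
    (n.choose i : ℝ) * sy n a b c d i j = (n.choose j : ℝ) * sy n a c b d j i

/-- CHX: the recursion of the Chebyshev polynomials. -/
def Stmt_CHX : Prop :=
  ∀ x : ℝ, uch 0 x = 1 ∧ uch 1 x = 2 + x ∧
    ∀ n : ℕ, uch (n + 2) x = (2 + x) * uch (n + 1) x - uch n x

/-- GCF: `gam` as coefficients of a polynomial. -/
def Stmt_GCF : Prop :=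
  ∀ (n : ℕ) (s : ℝ) (A : ℕ → ℝ),
    (∀ T : ℝ, 0 < T → T ^ n * uch n (s * (1 - T) ^ 2 / T) =
      ∑ l ∈ Finset.range (2 * n + 1), A l * T ^ l) →
    ∀ k : ℕ, k ≤ n → A (n + k) = gam n k s

/-- GPS: positivity of the weights. -/
def Stmt_GPS : Prop := ∀ (n k : ℕ) (s : ℝ), k ≤ n → 0 ≤ s → s ≤ 1 → 0 ≤ gam n k s

/-- GON: the weights at `s = 1`. -/
def Stmt_GON : Prop := ∀ (n k : ℕ), k ≤ n → gam n k 1 = if Even (n - k) then 1 else 0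

/-- WTS: differences of the weights. -/
def Stmt_WTS : Prop :=
  ∀ (n k : ℕ) (s : ℝ), 1 ≤ k → tau n k s - tau n (k + 1) s = gam n k s + gam n (k + 1) s

/-- TW1: the weights at `t = 0`. -/
def Stmt_TW1 : Prop := ∀ (n k : ℕ), 1 ≤ k → k ≤ n + 1 → tau n k 1 = (n : ℝ) + 1 - k

/-- TWP: positivity of the weights `tau`. -/
def Stmt_TWP : Prop := ∀ (n k : ℕ) (s : ℝ), 1 ≤ k → 0 ≤ s → s ≤ 1 → 0 ≤ tau n k s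

/-- TWD: the derivative of the weights. -/
def Stmt_TWD : Prop :=
  ∀ n : ℕ, ∃ C : ℝ, 0 ≤ C ∧ ∀ (k : ℕ) (t ε : ℝ), 1 ≤ k → k ≤ n → 0 ≤ t → 0 < ε → ε ≤ 1 →
    |tau n k (Real.exp (-t))| ≤ C ∧ |gam n k (Real.exp (-t))| ≤ C ∧
    |tau n k (Real.exp (-(t + ε))) -
      (tau n k (Real.exp (-t)) - ε * k * gam n k (Real.exp (-t)))| ≤ C * ε ^ 2

/-! ### Part 4: the inequalities of Milin and de Branges -/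

/-- QFM: the quadratic form of de Branges. -/
def Stmt_QFM : Prop :=
  ∀ (n : ℕ) (T G : ℕ → ℝ) (c q : ℕ → ℂ), Mom n q →
    (∀ k, 1 ≤ k → k ≤ n → 0 ≤ G k) →
    (∀ k, 1 ≤ k → k ≤ n → T k - T (k + 1) = G k + G (k + 1)) → T (n + 1) = 0 → G (n + 1) = 0 →
    0 ≤ ∑ k ∈ Finset.Icc 1 n, (-(k * G k * (k * ‖c k‖ ^ 2 - 4 / k)) +
      2 * (k * T k * (conj (c k) * ((k : ℂ) * c k + q k +
        ∑ j ∈ Finset.Ico 1 k, (j : ℂ) * c j * q (k - j))).re))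

/-- FDB: the functional of de Branges along a step. -/
def Stmt_FDB : Prop :=
  ∀ (n : ℕ) (M : ℝ), ∃ C : ℝ, 0 ≤ C ∧ ∀ (ε t : ℝ) (f g p : ℂ → ℂ), 0 < ε → ε ≤ 1 → 0 ≤ t →
    InS M f → InS M g → Step ε f g p → Phi n t f ≤ Phi n (t + ε) g + C * ε ^ 2

/-- MIL: the inequality of Milin for bounded univalent functions. -/
def Stmt_MIL : Prop :=
  ∀ (M : ℝ) (f : ℂ → ℂ), InS M f → ∀ n : ℕ,
    ∑ k ∈ Finset.Icc 1 n, ((n : ℝ) + 1 - k) * (k * ‖lc f k‖ ^ 2 - 4 / k) ≤ 0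

/-- LM2: the second inequality of Lebedev and Milin. -/
def Stmt_LM2 : Prop :=
  ∀ (n : ℕ) (A D : ℕ → ℂ), D 0 = 1 →
    (∀ k, 1 ≤ k → k ≤ n → (k : ℂ) * D k = ∑ j ∈ Finset.Icc 1 k, (j : ℂ) * A j * D (k - j)) →
    ∑ k ∈ Finset.Icc 1 n, ((n : ℝ) + 1 - k) * (k * ‖A k‖ ^ 2 - 1 / k) ≤ 0 →
    ∑ k ∈ Finset.range (n + 1), ‖D k‖ ^ 2 ≤ n + 1

/-- DBB: the inequality of de Branges for bounded univalent functions. -/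
def Stmt_DBB : Prop := ∀ (M : ℝ) (f : ℂ → ℂ), InS M f → ∀ k : ℕ, ‖coeff f k‖ ≤ k

/-- DBS: the inequality of de Branges. -/
def Stmt_DBS : Prop := ∀ f : ℂ → ℂ, InSS f → ∀ k : ℕ, ‖coeff f k‖ ≤ k

/-- GRO: growth. -/
def Stmt_GRO : Prop :=
  ∀ (f : ℂ → ℂ) (r : ℝ) (z : ℂ), InSS f → r < 1 → ‖z‖ ≤ r → ‖f z‖ ≤ r / (1 - r) ^ 2

/-! ### Part 5: the inequality of Bombieri type -/

/-- QMO: coefficients of Carathéodory functions near the extremal one. -/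
def Stmt_QMO : Prop :=
  ∀ p : ℂ → ℂ, Car p → 0 ≤ yy p ∧ yy p ≤ 4 ∧ ∀ m : ℕ, 1 ≤ m →
    ‖coeff p m‖ ≤ 2 ∧ ‖coeff p m - 2 * (-1) ^ m‖ ≤ 2 * m * Real.sqrt (yy p) ∧
    |(coeff p m).re - 2 * (-1) ^ m| ≤ m ^ 2 * yy p

/-- RRE: size of the first order term. -/
def Stmt_RRE : Prop :=
  ∀ (p : ℂ → ℂ) (r : ℝ) (z : ℂ), Car p → r < 1 → ‖z‖ ≤ r →
    ‖RR p z‖ ≤ 4 / (1 - r) ^ 2 * Real.sqrt (yy p)

/-- RRS: the real part of the first order term. -/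
def Stmt_RRS : Prop :=
  ∀ (p : ℂ → ℂ) (r : ℝ) (z : ℂ), Car p → r < 1 → ‖z‖ ≤ r →
    ‖sym (RR p) z - yy p‖ ≤ 10 / (1 - r) ^ 3 * yy p * ‖z‖

/-- TTR: the second order term. -/
def Stmt_TTR : Prop :=
  ∀ r : ℝ, 0 < r → r < 1 → ∃ C : ℝ, 0 ≤ C ∧ ∀ (ε : ℝ) (p : ℂ → ℂ) (z : ℂ), 0 < ε → ε ≤ 1 →
    Car p → ‖z‖ ≤ r →
    ‖TT ε p z - ε * RR p z - 2 * (1 - Complex.exp (-ε) - ε)‖ ≤ C * ε ^ 2 * ‖z‖

/-- PKB: comparison of the inner maps. -/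
def Stmt_PKB : Prop :=
  ∀ (ε r : ℝ) (p : ℂ → ℂ) (z : ℂ), 0 ≤ ε → Car p → r < 1 → ‖z‖ ≤ r →
    ‖om ε p z - om ε pK z‖ ≤ 2 * ε * Real.sqrt (yy p) / (1 - r) ^ 2 * ‖z‖ ∧
    ‖om ε pK z‖ ≤ Real.exp (-(ε * (1 - r) / 2)) * ‖z‖ ∧
    conj (om ε pK (conj z)) = om ε pK z

/-- DDA: `DD f` is holomorphic. -/
def Stmt_DDA : Prop := ∀ f : ℂ → ℂ, InSS f → DifferentiableOn ℂ (DD f) (ball 0 1)

/-- DSE: `DD f` along a step. -/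
def Stmt_DSE : Prop :=
  ∀ (ε : ℝ) (f g p : ℂ → ℂ), 0 < ε → InSS f → InSS g → Step ε f g p →
    (∀ z ∈ ball (0 : ℂ) 1, DD f z = Complex.exp (-ε) * DD g (om ε p z) + TT ε p z) ∧
    EE f = Real.exp (-ε) * EE g + ε * yy p - 2 * (ε - 1 + Real.exp (-ε))

/-- DU5: size of `DD f` for bounded univalent functions. -/
def Stmt_DU5 : Prop :=
  ∀ (M r : ℝ) (f : ℂ → ℂ) (z : ℂ), InS M f → 0 < r → r < 1 → ‖z‖ ≤ r →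
    ‖DD f z‖ ^ 2 ≤ (4 / (1 - r) ^ 2) ^ 2 * EE f

/-- DU6: the real part of `DD f` for bounded univalent functions. -/
def Stmt_DU6 : Prop :=
  ∀ (M r : ℝ) (f : ℂ → ℂ) (z : ℂ), InS M f → 0 < r → r < 1 → ‖z‖ ≤ r →
    ‖LL f z‖ ≤ 100 / (1 - r) ^ 6 * EE f * ‖z‖

/-- DS5: size of `DD f` for univalent functions. -/
def Stmt_DS5 : Prop :=
  ∀ (r : ℝ) (f : ℂ → ℂ) (z : ℂ), InSS f → 0 < r → r < 1 → ‖z‖ ≤ r →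
    ‖DD f z‖ ^ 2 ≤ (4 / (1 - r) ^ 2) ^ 2 * EE f

/-- DS6: the real part of `DD f` for univalent functions. -/
def Stmt_DS6 : Prop :=
  ∀ (r : ℝ) (f : ℂ → ℂ) (z : ℂ), InSS f → 0 < r → r < 1 → ‖z‖ ≤ r →
    ‖LL f z‖ ≤ 100 / (1 - r) ^ 6 * EE f * ‖z‖

/-! ### Part 6: partial sums for large `M` -/

/-- TIL: the transform of a function of `S(M)` is in `S`. -/
def Stmt_TIL : Prop := ∀ (M : ℝ) (f : ℂ → ℂ), InS M f → InSS (til M f)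

/-- PKE: the Pick function. -/
def Stmt_PKE : Prop :=
  ∀ M : ℝ, 1 ≤ M → InS M (Pk M) ∧
    ∀ z ∈ ball (0 : ℂ) 1, til M (Pk M) z = Kb z ∧ conj (Pk M (conj z)) = Pk M z

/-- CAT: inversion of the Koebe function as a power series. -/
def Stmt_CAT : Prop :=
  ∀ (W U : PowerSeries ℂ), PowerSeries.constantCoeff W = 0 → W = U * (1 - W) ^ 2 → ∀ k : ℕ,
    PowerSeries.coeff k W =
      ∑ m ∈ Finset.Icc 1 k, (-1 : ℂ) ^ (m - 1) * (catalan m : ℂ) * PowerSeries.coeff k (U ^ m)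

/-- KPW: powers of the Koebe function. -/
def Stmt_KPW : Prop :=
  ∀ (U : PowerSeries ℂ), U * (1 - PowerSeries.X) ^ 2 = PowerSeries.X → ∀ m k : ℕ, 1 ≤ m →
    PowerSeries.coeff k (U ^ m) = ((k + m - 1).choose (2 * m - 1) : ℂ)

/-- PCO: the partial sums of the Pick function and of the Koebe function at `1`. -/
def Stmt_PCO : Prop :=
  (∀ (M : ℝ) (n : ℕ), 1 ≤ M → psum (Pk M) n 1 = (AP n M : ℂ)) ∧
  (∀ n : ℕ, psum Kb n 1 = ((n : ℂ) * (n + 1)) / 2)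

/-- EX1: partial sums and bounds on the circle of radius `1 - 1/n`. -/
def Stmt_EX1 : Prop :=
  ∀ (n : ℕ) (h : ℂ → ℂ) (B : ℝ), 2 ≤ n → DifferentiableOn ℂ h (ball 0 1) → h 0 = 0 →
    ((∀ z : ℂ, ‖z‖ = 1 - 1 / (n : ℝ) → ‖h z‖ ≤ B) → ‖psum h n 1‖ ≤ 4 * n * B) ∧
    ((∀ z : ℂ, ‖z‖ = 1 - 1 / (n : ℝ) → ‖sym h z‖ ≤ B) → |(psum h n 1).re| ≤ 4 * n * B)

/-- ES1: estimates for `til M f - Kb` on the circle of radius `1 - 1/n`. -/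
def Stmt_ES1 : Prop :=
  ∀ (n : ℕ) (F : ℂ → ℂ), 2 ≤ n → InSS F → ∀ z : ℂ, ‖z‖ = 1 - 1 / (n : ℝ) →
    ‖F z - Kb z‖ ≤ 4 * n ^ 6 * Real.sqrt (EE F) ∧
    ‖sym (fun z => F z - Kb z) z‖ ≤ 117 * n ^ 10 * EE F

/-- ES2: estimates for the difference of `f` and the Pick function. -/
def Stmt_ES2 : Prop :=
  ∀ (n : ℕ) (M : ℝ) (f : ℂ → ℂ), 2 ≤ n → 10 ^ 5 * (n : ℝ) ^ 16 ≤ M → InS M f →
    ∀ z : ℂ, ‖z‖ = 1 - 1 / (n : ℝ) →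
    ‖Pk M z - Kb z‖ ≤ 3 * n ^ 4 / M ∧
    ‖(f z - Pk M z) - (til M f z - Kb z)‖ ≤ 28 * n ^ 8 / M * Real.sqrt (EE (til M f)) ∧
    ‖sym (fun z => (f z - Pk M z) - (til M f z - Kb z)) z‖ ≤ 900 * n ^ 12 / M * EE (til M f)

/-- ARI: the final real inequality. -/
def Stmt_ARI : Prop :=
  ∀ (n : ℕ) (b E t A X Y X' Y' : ℝ), 2 ≤ n → 0 < b → 10 ^ 5 * (n : ℝ) ^ 16 * b ≤ 1 →
    0 ≤ E → E ≤ 4 → t = n * (n + 1) / 2 → (t + X) ^ 2 + Y ^ 2 ≤ (t - E / 3) ^ 2 →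
    |X| ≤ 468 * n ^ 11 * E → |Y| ≤ 16 * n ^ 7 * Real.sqrt E →
    |X'| ≤ 3600 * n ^ 13 * b * E → |Y'| ≤ 112 * n ^ 9 * b * Real.sqrt E →
    |A - t| ≤ 12 * n ^ 5 * b →
    0 ≤ A ∧ (A + X + X') ^ 2 + (Y + Y') ^ 2 ≤ A ^ 2

/-- UPB: the upper bound at the point `1`. -/
def Stmt_UPB : Prop :=
  ∀ (n : ℕ) (M : ℝ) (f : ℂ → ℂ), 2 ≤ n → 10 ^ 5 * (n : ℝ) ^ 16 ≤ M → InS M f →
    ‖psum f n 1‖ ≤ AP n M

/-- ROT: rotations. -/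
def Stmt_ROT : Prop :=
  ∀ (M : ℝ) (f : ℂ → ℂ) (z : ℂ), InS M f → ‖z‖ = 1 →
    ∃ f' : ℂ → ℂ, InS M f' ∧ (∀ k : ℕ, 1 ≤ k → coeff f' k = z ^ (k - 1) * coeff f k) ∧
      ∀ n : ℕ, ‖psum f n z‖ = ‖psum f' n 1‖

/-- FIN: `Λ_n(M)` for large `M`. -/
def Stmt_FIN : Prop :=
  ∀ (n : ℕ) (M : ℝ), 2 ≤ n → 10 ^ 5 * (n : ℝ) ^ 16 ≤ M → Lam n M = AP n M

/-! ### Part 7: the case `n = 3` for all `M` -/

/-- PA2: the bound of Pick for the second coefficient. -/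
def Stmt_PA2 : Prop := ∀ (M : ℝ) (f : ℂ → ℂ), InS M f → ‖coeff f 2‖ ≤ 2 * (1 - 1 / M)

/-- JTT: the inequality of Jenkins and Tammi. -/
def Stmt_JTT : Prop :=
  ∀ (M σ : ℝ) (f : ℂ → ℂ) (ω : ℂ), InS M f → ‖ω‖ = 1 → 1 / M ≤ σ → σ ≤ 1 →
    (ω ^ 2 * (coeff f 3 - coeff f 2 ^ 2)).re + 4 * σ * (ω * coeff f 2).re ≤
      1 + 1 / M ^ 2 - 4 * σ ^ 2 * Real.log σ + 6 * σ ^ 2 - 8 * σ / M

/-- U3A: reduction to a real extremal problem. -/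
def Stmt_U3A : Prop :=
  ∀ (M : ℝ) (f : ℂ → ℂ) (z : ℂ), 1 < M → InS M f → ‖z‖ = 1 →
    ∃ x : ℝ, 0 ≤ x ∧ x ≤ 2 * (1 - 1 / M) ∧ ∀ σ : ℝ, 0 ≤ σ → σ ≤ 1 →
      ‖psum f 3 z‖ ≤ 1 + x + x ^ 2 - 4 * σ * x + JM M σ

/-- U3B: the real extremal problem, `M + 4 log M ≤ 4`. -/
def Stmt_U3B : Prop :=
  ∀ (M x : ℝ), 1 < M → M + 4 * Real.log M ≤ 4 → 0 ≤ x → x ≤ 2 * (1 - 1 / M) →
    ∃ σ : ℝ, 0 ≤ σ ∧ σ ≤ 1 ∧ 1 + x + x ^ 2 - 4 * σ * x + JM M σ ≤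
      2 - 1 / M ^ 2 + Real.log M / (4 * (1 - Real.log M))

/-- U3C: the real extremal problem, `4 ≤ M + 4 log M` and `M ≤ 4`. -/
def Stmt_U3C : Prop :=
  ∀ (M x s : ℝ), 1 < M → 4 ≤ M + 4 * Real.log M → M ≤ 4 → Real.exp (-1) ≤ s → 1 / M ≤ s →
    s ≤ 1 → s * Real.log s = 1 / 4 - 1 / M → 0 ≤ x → x ≤ 2 * (1 - 1 / M) →
    ∃ σ : ℝ, 0 ≤ σ ∧ σ ≤ 1 ∧ 1 + x + x ^ 2 - 4 * σ * x + JM M σ ≤
      7 / 4 + 1 / M ^ 2 + (1 - 4 / M) * s + 2 * s ^ 2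

/-- U3D: the real extremal problem, `4 ≤ M`. -/
def Stmt_U3D : Prop :=
  ∀ (M x : ℝ), 4 ≤ M → 0 ≤ x → x ≤ 2 * (1 - 1 / M) →
    ∃ σ : ℝ, 0 ≤ σ ∧ σ ≤ 1 ∧ 1 + x + x ^ 2 - 4 * σ * x + JM M σ ≤ 6 - 10 / M + 5 / M ^ 2

/-- L3A: functions near the boundary of the coefficient body (Nehari's range). -/
def Stmt_L3A : Prop :=
  ∀ (M σ : ℝ), 1 < M → 0 ≤ σ → σ ≤ 1 / M → ∀ η : ℝ, 0 < η →
    ∃ f : ℂ → ℂ, InS M f ∧ ‖coeff f 2 - 2 * σ * Real.log M‖ ≤ η ∧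
      4 * σ ^ 2 * Real.log M ^ 2 + 1 - 1 / M ^ 2 - 4 * σ ^ 2 * Real.log M - η ≤ (coeff f 3).re

/-- L3B: the lower bound for `1/M ≤ σ ≤ 1`. -/
def Stmt_L3B : Prop :=
  ∀ (M σ : ℝ), 1 < M → 1 / M ≤ σ → σ ≤ 1 → ∀ η : ℝ, 0 < η →
    ∃ f : ℂ → ℂ, InS M f ∧
      2 + 1 / M ^ 2 + 2 * (σ - 1 / M - σ * Real.log σ) + (2 * (σ - 1 / M - σ * Real.log σ)) ^ 2 -
        2 * σ * (2 * (σ - 1 / M - σ * Real.log σ)) + 2 * σ ^ 2 - 4 * σ / M - η ≤ ‖psum f 3 1‖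

/-- N3R: existence of the root. -/
def Stmt_N3R : Prop :=
  ∀ M : ℝ, 1 < M → 4 ≤ M + 4 * Real.log M → M ≤ 4 →
    ∃ s : ℝ, Real.exp (-1) ≤ s ∧ 1 / M ≤ s ∧ s ≤ 1 ∧ s * Real.log s = 1 / 4 - 1 / M

/-- LA3: `Λ_3(M)` for all `M`. -/
def Stmt_LA3 : Prop :=
  ∀ M : ℝ, 1 < M →
    (M + 4 * Real.log M ≤ 4 →
      Lam 3 M = 2 - 1 / M ^ 2 + Real.log M / (4 * (1 - Real.log M))) ∧
    (4 ≤ M + 4 * Real.log M → M ≤ 4 → ∃ s : ℝ, Real.exp (-1) ≤ s ∧ 1 / M ≤ s ∧ s ≤ 1 ∧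
      s * Real.log s = 1 / 4 - 1 / M ∧
      Lam 3 M = 7 / 4 + 1 / M ^ 2 + (1 - 4 / M) * s + 2 * s ^ 2) ∧
    (4 ≤ M → Lam 3 M = 6 - 10 / M + 5 / M ^ 2)

end Pool.Agent.DBR
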