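import Pool.Agent.DBR.Stmts

set_option autoImplicit false

namespace Pool.Agent.DBR

open Complex Metric Set Filter MeasureTheory

open scoped Topology ComplexConjugate

open Pool.Agent.PSB (InS coeff psum Lam SelfU)

namespace WTS_

theorem choose_id {k m : ℕ} (h : k + 1 ≤ m) :
    ((m : ℝ) - k) * ((2 * m).choose (m - k) : ℝ) = (m + k + 1) * ((2 * m).choose (m - (k + 1)) : ℝ) := by
  obtain ⟨d, rfl⟩ : ∃ d, m = k + 1 + d := ⟨m - (k + 1), by omega⟩
  have h1 : k + 1 + d - k = d + 1 := by omega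
  have h2 : k + 1 + d - (k + 1) = d := by omega
  rw [h1, h2]
  have h3 := Nat.choose_succ_right_eq (2 * (k + 1 + d)) d
  have h4 : 2 * (k + 1 + d) - d = 2 * k + 2 + d := by omega
  rw [h4] at h3
  have h5 : (((2 * (k + 1 + d)).choose (d + 1) * (d + 1) : ℕ) : ℝ)
      = (((2 * (k + 1 + d)).choose d * (2 * k + 2 + d) : ℕ) : ℝ) := by rw [h3]
  push_cast at h5 ⊢
  linarith

end WTS_

theorem wts_proof : Stmt_WTS := by
  intro n k s hk
  unfold tau gam
  by_cases hkn : k ≤ n
  · have hI : Finset.Icc k n = insert k (Finset.Icc (k + 1) n) := by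
      ext x
      simp only [Finset.mem_Icc, Finset.mem_insert]
      omega
    have hnot : k ∉ Finset.Icc (k + 1) n := by
      simp only [Finset.mem_Icc]
      omega
    rw [hI, Finset.sum_insert hnot, Finset.sum_insert hnot]
    have hk0 : (k : ℝ) ≠ 0 := by
      have : (1 : ℝ) ≤ k := by exact_mod_cast hk
      linarith
    rw [div_self hk0]
    have key : ∑ x ∈ Finset.Icc (k + 1) n, (-1 : ℝ) ^ (x - k) * ((k : ℝ) / x) * ((2 * x).choose (x - k)) *
          ((n + x + 1).choose (2 * x + 1)) * s ^ x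
        - ∑ x ∈ Finset.Icc (k + 1) n, (-1 : ℝ) ^ (x - (k + 1)) * (((k + 1 : ℕ) : ℝ) / x) *
          ((2 * x).choose (x - (k + 1))) * ((n + x + 1).choose (2 * x + 1)) * s ^ x
        = ∑ x ∈ Finset.Icc (k + 1) n, (-1 : ℝ) ^ (x - k) * ((2 * x).choose (x - k)) *
          ((n + x + 1).choose (2 * x + 1)) * s ^ x
        + ∑ x ∈ Finset.Icc (k + 1) n, (-1 : ℝ) ^ (x - (k + 1)) * ((2 * x).choose (x - (k + 1))) *
          ((n + x + 1).choose (2 * x + 1)) * s ^ x := by
      rw [← Finset.sum_sub_distrib, ← Finset.sum_add_distrib]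
      refine Finset.sum_congr rfl fun x hx => ?_
      have hx1 : k + 1 ≤ x := (Finset.mem_Icc.mp hx).1
      have hid := WTS_.choose_id hx1
      have hx0 : (x : ℝ) ≠ 0 := by
        have : (1 : ℝ) ≤ x := by exact_mod_cast (by omega : 1 ≤ x)
        linarith
      have hpow : (-1 : ℝ) ^ (x - k) = - (-1 : ℝ) ^ (x - (k + 1)) := by
        have : x - k = (x - (k + 1)) + 1 := by omega
        rw [this, pow_succ]; ring
      rw [hpow]
      push_cast
      have h6 : (k : ℝ) / x * ((2 * x).choose (x - k) : ℝ) + ((k : ℝ) + 1) / x * ((2 * x).choose (x - (k + 1)) : ℝ)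
          = ((2 * x).choose (x - k) : ℝ) - ((2 * x).choose (x - (k + 1)) : ℝ) := by
        field_simp
        linarith
      linear_combination (-(-1 : ℝ) ^ (x - (k + 1)) * ((n + x + 1).choose (2 * x + 1) : ℝ) * s ^ x) * h6
    linear_combination key
  · have h1 : Finset.Icc k n = ∅ := Finset.Icc_eq_empty hkn
    have h2 : Finset.Icc (k + 1) n = ∅ := Finset.Icc_eq_empty (by omega)
    rw [h1, h2]
    simp

end Pool.Agent.DBR
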